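/-
Definitions for the proof of gamma(P^n) = 1 (MP_e0d435_ag).
m = n + 1 homogeneous coordinates, polynomials of degree k in Bombieri normalisation.
-/
import Mathlib

open Finset MeasureTheory Complex
open scoped ENNReal ContDiff

namespace GPn

/-- points of complex m-space -/
abbrev Pt (m : ℕ) := Fin m → ℂ

/-- squared Euclidean norm -/
noncomputable def nsq {m : ℕ} (x : Pt m) : ℝ := ∑ i, ‖x i‖ ^ 2

/-- Euclidean norm -/
noncomputable def enm {m : ℕ} (x : Pt m) : ℝ := Real.sqrt (nsq x)

/-- exponents of degree k in m variables -/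
def Ex (m k : ℕ) : Type := {a : Fin m → ℕ // ∑ i, a i = k}

noncomputable instance (m k : ℕ) : DecidableEq (Ex m k) := Classical.decEq _

noncomputable instance (m k : ℕ) : Fintype (Ex m k) :=
  Fintype.subtype (Finset.piAntidiag Finset.univ k) (by intro a; simp)

/-- Bombieri weight: square root of the multinomial coefficient -/
noncomputable def bw {m : ℕ} (a : Fin m → ℕ) : ℝ := Real.sqrt (Nat.multinomial Finset.univ a)

/-- the derivative of order al of the monomial with exponent a -/
noncomputable def dm {m : ℕ} (al a : Fin m → ℕ) (x : Pt m) : ℂ :=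
  ∏ i, (((a i).descFactorial (al i) : ℕ) : ℂ) * x i ^ (a i - al i)

/-- coefficient space of homogeneous polynomials of degree k, Bombieri norm -/
abbrev V (m k : ℕ) := EuclideanSpace ℂ (Ex m k)

/-- representing vector of the functional (derivative of order al at x) -/
noncomputable def evd {m : ℕ} (k : ℕ) (al : Fin m → ℕ) (x : Pt m) : V m k :=
  WithLp.toLp 2 (fun a => (starRingEnd ℂ) ((bw a.1 : ℂ) * dm al a.1 x))

/-- the value at x of the derivative of order al of the polynomial F -/
noncomputable def pd {m k : ℕ} (F : V m k) (al : Fin m → ℕ) (x : Pt m) : ℂ :=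
  ∑ a, F a * ((bw a.1 : ℂ) * dm al a.1 x)

/-- evaluation matrix -/
noncomputable def Mx {m k : ℕ} (X : Ex m k → Pt m) : Matrix (Ex m k) (Ex m k) ℂ :=
  Matrix.of fun j a => (bw a.1 : ℂ) * dm 0 a.1 (X j)

/-- the absolute value of the determinant of the evaluation matrix -/
noncomputable def Dl {m k : ℕ} (X : Ex m k → Pt m) : ℝ := ‖(Mx X).det‖

/-- annulus -/
def Ann (m : ℕ) : Set (Pt m) := {x | 1 ≤ nsq x ∧ nsq x ≤ 4}

/-- configurations in the annulus -/
def AnnC (m k : ℕ) : Set (Ex m k → Pt m) := {X | ∀ j, X j ∈ Ann m}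

/-- the auxiliary degree D -/
def dD (n : ℕ) : ℕ := 8 * n * (n + 1) * n.factorial - 1

/-- the order of vanishing l -/
def lL (n k : ℕ) : ℕ := k / (8 * (n + 1))

/-- number of exceptional points allowed -/
noncomputable def eN (n k : ℕ) : ℕ := Fintype.card (Ex (n + 1) k) / (4 * (16 * (n + 1)) ^ n)

open Classical in
/-- number of points near the hypersurface g = 0 -/
noncomputable def cnt {m k D : ℕ} (g : V m D) (del : ℝ) (X : Ex m k → Pt m) : ℕ :=
  (Finset.univ.filter fun j => ‖pd g 0 (X j)‖ < del * (enm (X j)) ^ D).card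

/-- bad configurations: too many points near a hypersurface of degree dD n -/
def BadS (n k : ℕ) (del : ℝ) : Set (Ex (n + 1) k → Pt (n + 1)) :=
  {X | ∃ g : V (n + 1) (dD n), ‖g‖ = 1 ∧ eN n k < cnt g del X}

/-- size of the evaluation at y on the subspace W -/
noncomputable def bW {m k : ℕ} (W : Submodule ℂ (V m k)) (y : Pt m) : ℝ :=
  ‖W.starProjection (evd k 0 y)‖

/-- size of the derivatives of order l at y on the subspace W -/
noncomputable def JW {m k : ℕ} (l : ℕ) (W : Submodule ℂ (V m k)) (y : Pt m) : ℝ :=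
  ∑ al : Ex m l, ‖W.starProjection (evd k al.1 y)‖

/-- polynomials vanishing at the points number 0, ..., i-1 (in the order s) of the configuration -/
noncomputable def Wo {m k N : ℕ} (X : Ex m k → Pt m) (s : Fin N → Ex m k) (i : Fin N) :
    Submodule ℂ (V m k) :=
  (Submodule.span ℂ {v | ∃ j : Fin N, j < i ∧ v = evd k 0 (X (s j))})ᗮ

end GPn
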