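/-
Basic facts on evaluation vectors (MP_e0d435_ag).
-/
import Pool.Agent.Lib_MP_e0d435_ag.Defs

open Finset MeasureTheory Complex
open scoped ENNReal ContDiff

namespace GPn

theorem pd_eq {m k : ℕ} (F : V m k) (al : Fin m → ℕ) (x : Pt m) :
    pd F al x = ∑ a, F a * ((bw a.1 : ℂ) * dm al a.1 x) := rfl

theorem inner_evd {m k : ℕ} (al : Fin m → ℕ) (x : Pt m) (F : V m k) :
    inner ℂ (evd k al x) F = pd F al x := by
  simp only [PiLp.inner_apply, evd, pd, RCLike.inner_apply]
  refine Finset.sum_congr rfl fun a _ => ?_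
  simp

theorem nsq_nonneg {m : ℕ} (x : Pt m) : 0 ≤ nsq x := Finset.sum_nonneg fun i _ => by positivity

theorem enm_nonneg {m : ℕ} (x : Pt m) : 0 ≤ enm x := Real.sqrt_nonneg _

theorem enm_sq {m : ℕ} (x : Pt m) : enm x ^ 2 = nsq x := Real.sq_sqrt (nsq_nonneg x)

theorem dm_zero {m : ℕ} (a : Fin m → ℕ) (x : Pt m) : dm 0 a x = ∏ i, x i ^ a i := by
  simp [dm]

theorem bw_sq {m : ℕ} (a : Fin m → ℕ) : bw a * bw a = Nat.multinomial Finset.univ a :=
  Real.mul_self_sqrt (by positivity)

theorem bw_pos {m : ℕ} (a : Fin m → ℕ) : 0 < bw a :=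
  Real.sqrt_pos.2 (by exact_mod_cast Nat.multinomial_pos _ _)

theorem sum_Ex {m k : ℕ} {M : Type*} [AddCommMonoid M] (f : (Fin m → ℕ) → M) :
    ∑ a : Ex m k, f a.1 = ∑ a ∈ Finset.piAntidiag Finset.univ k, f a := by
  symm
  refine Finset.sum_subtype _ (fun a => ?_) f
  simp

theorem inner_ev_ev {m : ℕ} (k : ℕ) (x y : Pt m) :
    inner ℂ (evd k 0 x) (evd k 0 y) = (∑ i, x i * (starRingEnd ℂ) (y i)) ^ k := by
  rw [inner_evd, pd, Finset.sum_pow_eq_sum_piAntidiag,
    ← sum_Ex (m := m) (k := k) (fun a => ((Nat.multinomial Finset.univ a : ℕ) : ℂ) *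
      ∏ i, (x i * (starRingEnd ℂ) (y i)) ^ a i)]
  refine Finset.sum_congr rfl fun a _ => ?_
  simp only [evd, dm_zero, map_mul, Complex.conj_ofReal, map_prod, map_pow]
  have h : ((bw a.1 : ℂ)) * (bw a.1 : ℂ) = ((Nat.multinomial Finset.univ a.1 : ℕ) : ℂ) := by
    rw [← Complex.ofReal_mul, bw_sq]; simp
  simp only [mul_pow, Finset.prod_mul_distrib]
  rw [← h]
  ring

theorem norm_ev {m : ℕ} (k : ℕ) (x : Pt m) : ‖evd k 0 x‖ = enm x ^ k := by
  have h1 : ‖evd k 0 x‖ ^ 2 = (enm x ^ k) ^ 2 := by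
    have h2 := inner_ev_ev k x x
    rw [inner_self_eq_norm_sq_to_K] at h2
    have h3 : (∑ i, x i * (starRingEnd ℂ) (x i)) = ((nsq x : ℝ) : ℂ) := by
      simp only [nsq, Complex.ofReal_sum]
      refine Finset.sum_congr rfl fun i _ => ?_
      rw [Complex.mul_conj, Complex.normSq_eq_norm_sq]
    rw [h3] at h2
    have h4 : ((‖evd k 0 x‖ ^ 2 : ℝ) : ℂ) = ((nsq x ^ k : ℝ) : ℂ) := by
      rw [Complex.ofReal_pow, Complex.ofReal_pow]
      exact h2
    have h5 := Complex.ofReal_injective h4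
    rw [h5, ← enm_sq, ← pow_mul, ← pow_mul, mul_comm]
  exact (pow_left_inj₀ (norm_nonneg _) (pow_nonneg (enm_nonneg x) k) (by norm_num)).1 h1

theorem norm_pd_le {m k : ℕ} (F : V m k) (x : Pt m) : ‖pd F 0 x‖ ≤ ‖F‖ * enm x ^ k := by
  rw [← inner_evd, ← norm_ev, mul_comm]
  exact norm_inner_le_norm _ _

theorem continuous_dm {m : ℕ} (al a : Fin m → ℕ) : Continuous (fun x : Pt m => dm al a x) := by
  unfold dm
  fun_prop

theorem continuous_evd {m : ℕ} (k : ℕ) (al : Fin m → ℕ) :
    Continuous (fun x : Pt m => evd k al x) := by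
  unfold evd
  refine (PiLp.continuous_toLp 2 _).comp ?_
  refine continuous_pi fun a => ?_
  have := continuous_dm al a.1 (m := m)
  exact Complex.continuous_conj.comp (continuous_const.mul this)

theorem continuous_pd {m k : ℕ} (F : V m k) (al : Fin m → ℕ) :
    Continuous (fun x : Pt m => pd F al x) := by
  unfold pd
  refine continuous_finsetSum _ fun a _ => ?_
  exact continuous_const.mul (continuous_const.mul (continuous_dm al a.1))

theorem continuous_enm {m : ℕ} : Continuous (fun x : Pt m => enm x) := by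
  unfold enm nsq
  fun_prop

theorem continuous_nsq {m : ℕ} : Continuous (fun x : Pt m => nsq x) := by
  unfold nsq
  fun_prop

/-- joint continuity -/
theorem continuous_pd₂ {m k : ℕ} (al : Fin m → ℕ) :
    Continuous (fun p : V m k × Pt m => pd p.1 al p.2) := by
  unfold pd
  refine continuous_finsetSum _ fun a _ => ?_
  refine Continuous.mul ?_ (continuous_const.mul ((continuous_dm al a.1).comp continuous_snd))
  fun_prop

theorem pd_smul_left {m k : ℕ} (t : ℂ) (F : V m k) (al : Fin m → ℕ) (x : Pt m) :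
    pd (t • F) al x = t * pd F al x := by
  simp [pd, Finset.mul_sum, mul_assoc]

theorem pd_add_left {m k : ℕ} (F G : V m k) (al : Fin m → ℕ) (x : Pt m) :
    pd (F + G) al x = pd F al x + pd G al x := by
  simp [pd, ← Finset.sum_add_distrib, add_mul]

theorem pd_sub_left {m k : ℕ} (F G : V m k) (al : Fin m → ℕ) (x : Pt m) :
    pd (F - G) al x = pd F al x - pd G al x := by
  simp [pd, ← Finset.sum_sub_distrib, sub_mul]

theorem pd_zero_left {m k : ℕ} (al : Fin m → ℕ) (x : Pt m) : pd (0 : V m k) al x = 0 := by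
  simp [pd]

theorem dm_smul {m : ℕ} (t : ℂ) (al a : Fin m → ℕ) (x : Pt m) :
    dm al a (t • x) = t ^ (∑ i, (a i - al i)) * dm al a x := by
  simp only [dm, Pi.smul_apply, smul_eq_mul, mul_pow]
  rw [← Finset.prod_pow_eq_pow_sum, ← Finset.prod_mul_distrib]
  refine Finset.prod_congr rfl fun i _ => ?_
  ring

theorem evd_smul {m k : ℕ} (t : ℂ) (x : Pt m) :
    evd k 0 (t • x) = (starRingEnd ℂ) (t ^ k) • evd k 0 x := by
  ext a
  simp only [evd, PiLp.smul_apply, smul_eq_mul, dm_smul, map_mul, map_pow]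
  have : ∑ i, (a.1 i - (0 : Fin m → ℕ) i) = k := by simpa using a.2
  rw [this]; ring

theorem pd_smul {m k : ℕ} (t : ℂ) (F : V m k) (x : Pt m) :
    pd F 0 (t • x) = t ^ k * pd F 0 x := by
  simp only [pd, dm_smul, Finset.mul_sum]
  refine Finset.sum_congr rfl fun a _ => ?_
  have : ∑ i, (a.1 i - (0 : Fin m → ℕ) i) = k := by simpa using a.2
  rw [this]; ring

theorem hasDerivAt_dm {m : ℕ} (al a : Fin m → ℕ) (x : Pt m) (i : Fin m) (z : ℂ) :
    HasDerivAt (fun z : ℂ => dm al a (Function.update x i z))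
      (dm (al + Pi.single i 1) a (Function.update x i z)) z := by
  classical
  have h1 : ∀ (al : Fin m → ℕ) (z : ℂ), dm al a (Function.update x i z) =
      ((((a i).descFactorial (al i) : ℕ) : ℂ) * z ^ (a i - al i)) *
      ∏ j ∈ Finset.univ.erase i, (((a j).descFactorial (al j) : ℕ) : ℂ) * x j ^ (a j - al j) := by
    intro al z
    rw [dm, ← Finset.mul_prod_erase _ _ (Finset.mem_univ i)]
    congr 1
    · simp
    · refine Finset.prod_congr rfl fun j hj => ?_
      rw [Function.update_of_ne (Finset.ne_of_mem_erase hj)]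
  have h2 : ∏ j ∈ Finset.univ.erase i,
      (((a j).descFactorial ((al + Pi.single i 1 : Fin m → ℕ) j) : ℕ) : ℂ) *
        x j ^ (a j - (al + Pi.single i 1 : Fin m → ℕ) j) =
      ∏ j ∈ Finset.univ.erase i, (((a j).descFactorial (al j) : ℕ) : ℂ) * x j ^ (a j - al j) := by
    refine Finset.prod_congr rfl fun j hj => ?_
    have : (Pi.single i 1 : Fin m → ℕ) j = 0 := Pi.single_eq_of_ne (Finset.ne_of_mem_erase hj) _
    simp [this]
  rw [h1 (al + Pi.single i 1) z, h2]
  simp_rw [h1 al]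
  refine HasDerivAt.mul_const ?_ _
  have h3 := ((hasDerivAt_pow (a i - al i) z).const_mul
    (((a i).descFactorial (al i) : ℕ) : ℂ))
  convert h3 using 1
  have h4 : (al + Pi.single i 1 : Fin m → ℕ) i = al i + 1 := by simp
  rw [h4, Nat.descFactorial_succ]
  push_cast
  have h5 : a i - (al i + 1) = a i - al i - 1 := by omega
  rw [h5]
  ring

theorem hasDerivAt_pd {m k : ℕ} (F : V m k) (al : Fin m → ℕ) (x : Pt m) (i : Fin m) (z : ℂ) :
    HasDerivAt (fun z : ℂ => pd F al (Function.update x i z))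
      (pd F (al + Pi.single i 1) (Function.update x i z)) z := by
  unfold pd
  refine HasDerivAt.fun_sum fun a _ => ?_
  exact ((hasDerivAt_dm al a.1 x i z).const_mul _).const_mul _

theorem Mx_apply {m k : ℕ} (X : Ex m k → Pt m) (j a : Ex m k) :
    Mx X j a = (bw a.1 : ℂ) * dm 0 a.1 (X j) := rfl

theorem Dl_sq {m k : ℕ} (X : Ex m k → Pt m) :
    ((Dl X ^ 2 : ℝ) : ℂ) =
      (Matrix.of fun i j : Ex m k => (∑ r, (starRingEnd ℂ) (X i r) * X j r) ^ k).det := by
  have h1 : (Matrix.of fun i j : Ex m k => (∑ r, (starRingEnd ℂ) (X i r) * X j r) ^ k)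
      = ((Mx X).map (starRingEnd ℂ)) * (Mx X).transpose := by
    ext i j
    rw [Matrix.of_apply, Matrix.mul_apply]
    have h2 := inner_ev_ev k (X j) (X i)
    have h3 : (∑ r, (starRingEnd ℂ) (X i r) * X j r) = ∑ r, X j r * (starRingEnd ℂ) (X i r) :=
      Finset.sum_congr rfl fun r _ => mul_comm _ _
    rw [h3, ← h2, inner_evd, pd]
    refine Finset.sum_congr rfl fun a _ => ?_
    simp [evd, Mx]
  rw [h1, Matrix.det_mul, Matrix.det_transpose]
  have h2 : ((Mx X).map (starRingEnd ℂ)).det = (starRingEnd ℂ) (Mx X).det := by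
    rw [RingHom.map_det]; rfl
  rw [h2, Dl, ← Complex.normSq_eq_norm_sq, Complex.normSq_eq_conj_mul_self]

theorem Dl_nonneg {m k : ℕ} (X : Ex m k → Pt m) : 0 ≤ Dl X := norm_nonneg _

theorem Dl_smul_at {m k : ℕ} (X : Ex m k → Pt m) (j : Ex m k) (t : ℂ) :
    Dl (Function.update X j (t • X j)) = ‖t‖ ^ k * Dl X := by
  have h1 : Mx (Function.update X j (t • X j)) = (Mx X).updateRow j ((t ^ k) • (Mx X) j) := by
    ext i a
    by_cases hij : i = j
    · subst hij
      simp only [Mx_apply, Function.update_self, Matrix.updateRow_self, Pi.smul_apply, dm_smul,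
        smul_eq_mul]
      have : ∑ r, (a.1 r - (0 : Fin m → ℕ) r) = k := by simpa using a.2
      rw [this]; ring
    · simp [Mx_apply, Function.update_of_ne hij, Matrix.updateRow_ne hij]
  rw [Dl, h1, Matrix.det_updateRow_smul]
  have h2 : (Mx X).updateRow j ((Mx X) j) = Mx X := Matrix.updateRow_eq_self _ _
  rw [h2, norm_mul, norm_pow, Dl]

theorem continuous_Dl {m k : ℕ} : Continuous (fun X : Ex m k → Pt m => Dl X) := by
  unfold Dl
  refine Continuous.norm ?_
  refine Continuous.matrix_det ?_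
  refine continuous_matrix fun j a => ?_
  simp only [Mx_apply]
  exact continuous_const.mul ((continuous_dm 0 a.1).comp (continuous_apply j))

theorem card_Ex' (m k : ℕ) : Fintype.card (Ex m k) = (Finset.piAntidiag (Finset.univ : Finset (Fin m)) k).card := by
  exact Fintype.subtype_card _ _

theorem card_Ex (n k : ℕ) : Fintype.card (Ex (n + 1) k) = (n + k).choose n := by
  have e : Ex (n + 1) k ≃ Sym (Fin (n + 1)) k := by
    unfold Ex
    exact (Sym.equivNatSumOfFintype (Fin (n + 1)) k).symm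
  have h1 : Fintype.card (Ex (n + 1) k) = Fintype.card (Sym (Fin (n + 1)) k) :=
    Fintype.card_congr e
  rw [h1, Sym.card_sym_eq_choose, Fintype.card_fin]
  have : n + 1 + k - 1 = n + k := by omega
  rw [this, Nat.choose_symm_add]

end GPn
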