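/- piece EN: zero sets of polynomials are null -/
import Pool.Agent.Lib_MP_e0d435_ag.Basic

open Finset MeasureTheory Complex
open scoped ENNReal ContDiff

namespace GPn

/-- the zero set of a nonzero polynomial in r variables is Lebesgue-null -/
theorem mv_null : ∀ {r : ℕ} (p : MvPolynomial (Fin r) ℂ), p ≠ 0 →
    volume {x : Fin r → ℂ | MvPolynomial.eval x p = 0} = 0 := by
  intro r
  induction r with
  | zero =>
    intro p hp
    have h : {x : Fin 0 → ℂ | MvPolynomial.eval x p = 0} = ∅ := by
      ext x
      simp only [Set.mem_ofPred_eq, Set.mem_empty_iff_false, iff_false]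
      intro hx
      apply hp
      rw [MvPolynomial.eq_C_of_isEmpty p] at hx ⊢
      rw [MvPolynomial.eval_C] at hx
      rw [hx, MvPolynomial.C_0]
    rw [h, measure_empty]
  | succ r ih =>
    intro p hp
    set q : Polynomial (MvPolynomial (Fin r) ℂ) := MvPolynomial.finSuccEquiv ℂ r p with hq
    have hq0 : q ≠ 0 := by
      intro h
      apply hp
      have := (MvPolynomial.finSuccEquiv ℂ r).injective (a₁ := p) (a₂ := 0)
      apply this
      rw [← hq, h, map_zero]
    set s : Set (ℂ × (Fin r → ℂ)) :=
      {z | MvPolynomial.eval (Fin.cons z.1 z.2 : Fin (r + 1) → ℂ) p = 0} with hs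
    have hcont : Continuous (fun z : ℂ × (Fin r → ℂ) =>
        MvPolynomial.eval (Fin.cons z.1 z.2 : Fin (r + 1) → ℂ) p) := by
      have h1 : Continuous (fun z : ℂ × (Fin r → ℂ) => (Fin.cons z.1 z.2 : Fin (r + 1) → ℂ)) := by
        refine continuous_pi fun i => ?_
        refine Fin.cases ?_ (fun j => ?_) i
        · simpa using continuous_fst
        · simp only [Fin.cons_succ]
          exact (continuous_apply j).comp continuous_snd
      exact (MvPolynomial.continuous_eval p).comp h1
    have hsm : MeasurableSet s := (isClosed_singleton.preimage hcont).measurableSet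
    have hs0 : (volume : Measure (ℂ × (Fin r → ℂ))) s = 0 := by
      rw [Measure.volume_eq_prod, Measure.measure_prod_null hsm]
      have hfin : Set.Finite {x0 : ℂ | q.eval (MvPolynomial.C x0) = 0} := by
        refine Set.Finite.preimage (MvPolynomial.C_injective (Fin r) ℂ).injOn
          (s := {y | q.eval y = 0}) ?_
        refine (q.roots.toFinset.finite_toSet).subset ?_
        intro y hy
        simp only [Finset.mem_coe, Multiset.mem_toFinset]
        exact (Polynomial.mem_roots hq0).2 hy
      have hae : ∀ᵐ x0 : ℂ, x0 ∉ {x0 : ℂ | q.eval (MvPolynomial.C x0) = 0} :=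
        measure_eq_zero_iff_ae_notMem.1 (hfin.measure_zero volume)
      filter_upwards [hae] with x0 hx0
      have hne : q.eval (MvPolynomial.C x0) ≠ 0 := hx0
      have h2 := ih _ hne
      have h3 : Prod.mk x0 ⁻¹' s = {x : Fin r → ℂ |
          MvPolynomial.eval x (q.eval (MvPolynomial.C x0)) = 0} := by
        ext x
        simp only [hs, Set.mem_preimage, Set.mem_ofPred_eq]
        rw [MvPolynomial.eval_eq_eval_mv_eval', ← hq, Polynomial.eval_map]
        have h4 := Polynomial.eval₂_at_apply (p := q) (MvPolynomial.eval x)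
          (MvPolynomial.C x0 : MvPolynomial (Fin r) ℂ)
        rw [MvPolynomial.eval_C] at h4
        rw [h4]
      rw [h3, h2]
      rfl
    have hmp := volume_preserving_piFinSuccAbove (fun _ : Fin (r + 1) => ℂ) 0
    have h5 : {x : Fin (r + 1) → ℂ | MvPolynomial.eval x p = 0} =
        (MeasurableEquiv.piFinSuccAbove (fun _ : Fin (r + 1) => ℂ) 0) ⁻¹' s := by
      ext x
      simp only [hs, Set.mem_preimage, Set.mem_ofPred_eq]
      have h6 : (Fin.cons ((MeasurableEquiv.piFinSuccAbove (fun _ : Fin (r + 1) => ℂ) 0) x).1
          ((MeasurableEquiv.piFinSuccAbove (fun _ : Fin (r + 1) => ℂ) 0) x).2 :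
          Fin (r + 1) → ℂ) = x := by
        funext i
        refine Fin.cases ?_ (fun j => ?_) i
        · rfl
        · rfl
      rw [h6]
    rw [h5, hmp.measure_preimage hsm.nullMeasurableSet, hs0]

/-- nonzero polynomials have null zero sets -/
theorem null_zero {m k : ℕ} (F : V m k) (hF : F ≠ 0) : volume {x : Pt m | pd F 0 x = 0} = 0 := by
  set P : MvPolynomial (Fin m) ℂ :=
    ∑ a : Ex m k, MvPolynomial.monomial (Finsupp.equivFunOnFinite.symm a.1)
      (F a * (bw a.1 : ℂ)) with hP
  have hev : ∀ x : Pt m, MvPolynomial.eval x P = pd F 0 x := by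
    intro x
    rw [hP, map_sum, pd]
    refine Finset.sum_congr rfl fun a _ => ?_
    rw [MvPolynomial.eval_monomial, dm_zero, Finsupp.prod_fintype]
    · simp only [Finsupp.equivFunOnFinite_symm_apply_apply]
      ring
    · intro i
      simp
  have hne : P ≠ 0 := by
    intro h0
    apply hF
    ext a
    have h1 : MvPolynomial.coeff (Finsupp.equivFunOnFinite.symm a.1) P = F a * (bw a.1 : ℂ) := by
      rw [hP, MvPolynomial.coeff_sum]
      rw [Finset.sum_eq_single a]
      · simp
      · intro b _ hb
        rw [MvPolynomial.coeff_monomial, if_neg]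
        intro h
        apply hb
        exact Subtype.ext (Finsupp.equivFunOnFinite.symm.injective h)
      · intro h
        exact absurd (Finset.mem_univ a) h
    rw [h0, MvPolynomial.coeff_zero] at h1
    have h2 : (bw a.1 : ℂ) ≠ 0 := by
      exact_mod_cast (bw_pos a.1).ne'
    have h3 := (mul_eq_zero.1 h1.symm).resolve_right h2
    simpa using h3
  have := mv_null P hne
  simpa only [hev] using this

end GPn
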