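/-
Definitions for the Poincare inequality (piece H of MP_e0d435_ag).
-/
import Mathlib

open Finset MeasureTheory Complex
open scoped ENNReal ContDiff

namespace GPn

section
variable {E : Type*} [NormedAddCommGroup E] [NormedSpace ℂ E]

/-- holomorphic Wirtinger derivative in direction v -/
noncomputable def dz (v : E) (F : E → ℂ) (x : E) : ℂ :=
  (fderiv ℝ F x v - I * fderiv ℝ F x (I • v)) / 2

/-- antiholomorphic Wirtinger derivative in direction v -/
noncomputable def dzb (v : E) (F : E → ℂ) (x : E) : ℂ :=
  (fderiv ℝ F x v + I * fderiv ℝ F x (I • v)) / 2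

/-- formal adjoint of dzb v for the weight exp(-Ps) -/
noncomputable def del (Ps : E → ℝ) (v : E) (F : E → ℂ) (x : E) : ℂ :=
  - dz v F x + dz v (fun y => (Ps y : ℂ)) x * F x

/-- Levi form of Ps at x in direction a (a quarter of the Laplacian of Ps on the complex line) -/
noncomputable def Lform (Ps : E → ℝ) (x a : E) : ℝ :=
  (fderiv ℝ (fun y => fderiv ℝ Ps y a) x a
    + fderiv ℝ (fun y => fderiv ℝ Ps y (I • a)) x (I • a)) / 4

/-- smooth with compact support -/
def SC (F : E → ℂ) : Prop := ContDiff ℝ ∞ F ∧ HasCompactSupport F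

/-- the measure exp(-Ps) mu -/
noncomputable def gm [MeasurableSpace E] (mu : Measure E) (Ps : E → ℝ) : Measure E :=
  mu.withDensity fun x => ENNReal.ofReal (Real.exp (-Ps x))

end

end GPn
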