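/- piece HM: mollification in L^2 on compact sets -/
import Pool.Agent.Lib_MP_e0d435_ag.HDefs

open Finset MeasureTheory Complex
open scoped ENNReal ContDiff

namespace GPn

variable {E : Type*} [NormedAddCommGroup E] [NormedSpace ℂ E] [FiniteDimensional ℂ E]
  [MeasurableSpace E] [BorelSpace E]

omit [NormedSpace ℂ E] [FiniteDimensional ℂ E] [BorelSpace E] in
/-- the square of the L^2 norm -/
private theorem HMoll_sq (mu : Measure E) (f : E → ℂ) :
    (eLpNorm f 2 mu) ^ 2 = ∫⁻ x, ‖f x‖ₑ ^ 2 ∂mu := by
  have h := eLpNorm_eq_lintegral_rpow_enorm_toReal (μ := mu) (f := f) (p := 2) two_ne_zero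
    ENNReal.ofNat_ne_top
  rw [h, ENNReal.toReal_ofNat, ← ENNReal.rpow_natCast, ← ENNReal.rpow_mul]
  norm_num

/-- continuity of the translations in L^2 -/
private theorem HMoll_translate (mu : Measure E) [mu.IsAddHaarMeasure] (v : E → ℂ)
    (hv : MemLp v 2 mu) :
    Filter.Tendsto (fun t : E => eLpNorm (fun x => v (x - t) - v x) 2 mu) (nhds 0) (nhds 0) := by
  have : FiniteDimensional ℝ E := FiniteDimensional.complexToReal E
  have : ProperSpace E := FiniteDimensional.proper_real E
  have : SecondCountableTopology E := inferInstance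
  let g : E → C(E, E) := fun t => ⟨fun x => x - t, by fun_prop⟩
  have hgc : Continuous g := by
    have h1 : Continuous (fun p : E × E => p.2 - p.1) := by fun_prop
    exact (ContinuousMap.curry ⟨fun p : E × E => p.2 - p.1, h1⟩).continuous
  have hgm : ∀ t, MeasurePreserving (g t) mu mu := fun t => measurePreserving_sub_right mu t
  have ht := Filter.Tendsto.compMeasurePreservingLp (E := ℂ) (p := 2) (l := nhds (0 : E))
    (f := fun _ => hv.toLp v) (f₀ := hv.toLp v) (g := g) (g₀ := g 0) tendsto_const_nhds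
    (hgc.tendsto 0) hgm (hgm 0) ENNReal.ofNat_ne_top
  rw [tendsto_iff_edist_tendsto_0] at ht
  refine ht.congr fun t => ?_
  rw [Lp.edist_def]
  apply eLpNorm_congr_ae
  have h1 := Lp.coeFn_compMeasurePreserving (hv.toLp v) (hgm t)
  have h2 := Lp.coeFn_compMeasurePreserving (hv.toLp v) (hgm 0)
  have h3 := hv.coeFn_toLp
  have h4 := (hgm t).quasiMeasurePreserving.ae_eq_comp h3
  have h5 := (hgm 0).quasiMeasurePreserving.ae_eq_comp h3
  filter_upwards [h1, h2, h4, h5] with x e1 e2 e4 e5
  rw [Pi.sub_apply, e1, e2, e4, e5]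
  simp [g]

/-- Jensen: the mollification error is at most the largest translation error -/
private theorem HMoll_jensen (mu : Measure E) [mu.IsAddHaarMeasure] (r : E → ℝ)
    (hr0 : ∀ x, 0 ≤ r x) (hrc : Continuous r) (hrs : HasCompactSupport r)
    (hr1 : ∫ x, r x ∂mu = 1) (v : E → ℂ) (hv : MemLp v 2 mu) (hvm : StronglyMeasurable v)
    (d : ℝ≥0∞) (hd : ∀ t, r t ≠ 0 → eLpNorm (fun x => v (x - t) - v x) 2 mu ≤ d) :
    eLpNorm (fun x => (∫ y, (r (x - y) : ℂ) * v y ∂mu) - v x) 2 mu ≤ d := by
  have : FiniteDimensional ℝ E := FiniteDimensional.complexToReal E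
  have : ProperSpace E := FiniteDimensional.proper_real E
  have : SecondCountableTopology E := inferInstance
  have hrm : Measurable fun t => ENNReal.ofReal (r t) := hrc.measurable.ennreal_ofReal
  have hri : Integrable r mu := hrc.integrable_of_hasCompactSupport hrs
  set nu : Measure E := mu.withDensity (fun t => ENNReal.ofReal (r t)) with hnu
  have : IsProbabilityMeasure nu := by
    constructor
    rw [hnu, withDensity_apply _ MeasurableSet.univ, Measure.restrict_univ,
      ← ofReal_integral_eq_lintegral_ofReal hri (Filter.Eventually.of_forall hr0), hr1,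
      ENNReal.ofReal_one]
  -- pointwise
  have hint : ∀ x, Integrable (fun t => (r t : ℂ) * v (x - t)) mu := by
    intro x
    have h1 : MemLp (fun t => (r t : ℂ)) 2 mu := by
      have hc : Continuous fun t => (r t : ℂ) := Complex.continuous_ofReal.comp hrc
      refine hc.memLp_of_hasCompactSupport ?_
      exact hrs.comp_left Complex.ofReal_zero
    have h2 : MemLp (fun t => v (x - t)) 2 mu :=
      hv.comp_measurePreserving (Measure.measurePreserving_sub_left mu x)
    exact h1.integrable_mul h2
  have hpt : ∀ x, ‖(∫ y, (r (x - y) : ℂ) * v y ∂mu) - v x‖ₑ ^ 2 ≤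
      ∫⁻ t, ENNReal.ofReal (r t) * ‖v (x - t) - v x‖ₑ ^ 2 ∂mu := by
    intro x
    have hmeas : StronglyMeasurable fun t => v (x - t) - v x := by
      refine StronglyMeasurable.sub (hvm.comp_measurable ?_) stronglyMeasurable_const
      fun_prop
    have e1 : (∫ y, (r (x - y) : ℂ) * v y ∂mu) = ∫ t, (r t : ℂ) * v (x - t) ∂mu := by
      rw [← integral_sub_left_eq_self (fun t => (r t : ℂ) * v (x - t)) mu x]
      simp
    have e2 : ∫ t, (v (x - t) - v x) ∂nu = (∫ t, (r t : ℂ) * v (x - t) ∂mu) - v x := by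
      rw [hnu, integral_withDensity_eq_integral_toReal_smul hrm
        (Filter.Eventually.of_forall fun t => ENNReal.ofReal_lt_top)]
      have e3 : ∀ t, (ENNReal.ofReal (r t)).toReal • (v (x - t) - v x) =
          (r t : ℂ) * v (x - t) - (r t : ℂ) * v x := by
        intro t
        rw [ENNReal.toReal_ofReal (hr0 t), Complex.real_smul]
        ring
      simp_rw [e3]
      have hi2 : Integrable (fun t => (r t : ℂ) * v x) mu := (hri.ofReal).mul_const (v x)
      rw [integral_sub (hint x) hi2, integral_mul_const, integral_complex_ofReal, hr1]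
      simp
    rw [e1, ← e2]
    have h4 : ‖∫ t, (v (x - t) - v x) ∂nu‖ₑ ≤ eLpNorm (fun t => v (x - t) - v x) 2 nu := by
      refine (enorm_integral_le_lintegral_enorm _).trans ?_
      rw [← eLpNorm_one_eq_lintegral_enorm]
      exact eLpNorm_le_eLpNorm_of_exponent_le (by norm_num) hmeas.aestronglyMeasurable
    calc ‖∫ t, (v (x - t) - v x) ∂nu‖ₑ ^ 2
        ≤ (eLpNorm (fun t => v (x - t) - v x) 2 nu) ^ 2 := by gcongr
      _ = ∫⁻ t, ‖v (x - t) - v x‖ₑ ^ 2 ∂nu := HMoll_sq _ _
      _ = ∫⁻ t, ENNReal.ofReal (r t) * ‖v (x - t) - v x‖ₑ ^ 2 ∂mu := by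
          rw [hnu, lintegral_withDensity_eq_lintegral_mul _ hrm]
          · rfl
          · exact hmeas.enorm.pow_const 2
  -- integrate in x
  have hjoint : Measurable (Function.uncurry fun x t : E =>
      ENNReal.ofReal (r t) * ‖v (x - t) - v x‖ₑ ^ 2) := by
    have m1 : Measurable fun q : E × E => ENNReal.ofReal (r q.2) := hrm.comp measurable_snd
    have m2 : StronglyMeasurable fun q : E × E => v (q.1 - q.2) - v q.1 := by
      refine StronglyMeasurable.sub (hvm.comp_measurable ?_) (hvm.comp_measurable measurable_fst)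
      exact measurable_fst.sub measurable_snd
    exact m1.mul (m2.enorm.pow_const 2)
  have hfin : (eLpNorm (fun x => (∫ y, (r (x - y) : ℂ) * v y ∂mu) - v x) 2 mu) ^ 2 ≤ d ^ 2 := by
    rw [HMoll_sq]
    calc ∫⁻ x, ‖(∫ y, (r (x - y) : ℂ) * v y ∂mu) - v x‖ₑ ^ 2 ∂mu
        ≤ ∫⁻ x, ∫⁻ t, ENNReal.ofReal (r t) * ‖v (x - t) - v x‖ₑ ^ 2 ∂mu ∂mu :=
          lintegral_mono hpt
      _ = ∫⁻ t, ∫⁻ x, ENNReal.ofReal (r t) * ‖v (x - t) - v x‖ₑ ^ 2 ∂mu ∂mu :=
          lintegral_lintegral_swap hjoint.aemeasurable
      _ ≤ ∫⁻ t, ENNReal.ofReal (r t) * d ^ 2 ∂mu := by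
          apply lintegral_mono
          intro t
          have hm : Measurable fun x => ‖v (x - t) - v x‖ₑ ^ 2 := by
            refine (StronglyMeasurable.enorm ?_).pow_const 2
            refine StronglyMeasurable.sub (hvm.comp_measurable ?_) hvm
            fun_prop
          show ∫⁻ x, ENNReal.ofReal (r t) * ‖v (x - t) - v x‖ₑ ^ 2 ∂mu ≤
            ENNReal.ofReal (r t) * d ^ 2
          rw [lintegral_const_mul _ hm, ← HMoll_sq]
          by_cases h0 : r t = 0
          · simp [h0]
          · gcongr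
            exact hd t h0
      _ = d ^ 2 := by
          rw [lintegral_mul_const _ hrm,
            ← ofReal_integral_eq_lintegral_ofReal hri (Filter.Eventually.of_forall hr0), hr1,
            ENNReal.ofReal_one, one_mul]
  exact (ENNReal.pow_le_pow_left_iff two_ne_zero).1 hfin

/-- there are smooth bumps r n, supports shrinking to 0, with total mass 1, such that the
convolutions of u converge to u in L^2 on every compact set, for every locally L^2 function u -/
theorem exists_mollifier (mu : Measure E) [mu.IsAddHaarMeasure] :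
    ∃ r : ℕ → E → ℝ, (∀ n, ContDiff ℝ ∞ (r n)) ∧ (∀ n, HasCompactSupport (r n)) ∧
      (∀ n x, 0 ≤ r n x) ∧ (∀ n, ∫ x, r n x ∂mu = 1) ∧
      (∀ n x, r n x ≠ 0 → ‖x‖ ≤ 1 / ((n : ℝ) + 1)) ∧
      ∀ u : E → ℂ, (∀ K : Set E, IsCompact K → MemLp u 2 (mu.restrict K)) →
        ∀ K : Set E, IsCompact K →
          Filter.Tendsto (fun n => eLpNorm (fun x => (∫ y, (r n (x - y) : ℂ) * u y ∂mu) - u x) 2
            (mu.restrict K)) Filter.atTop (nhds 0) := by
  have : FiniteDimensional ℝ E := FiniteDimensional.complexToReal E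
  have : ProperSpace E := FiniteDimensional.proper_real E
  have : SecondCountableTopology E := inferInstance
  let f : ℕ → ContDiffBump (0 : E) := fun n =>
    ⟨1 / (2 * ((n : ℝ) + 1)), 1 / ((n : ℝ) + 1), by positivity, by
      apply one_div_lt_one_div_of_lt (by positivity)
      have : (0 : ℝ) ≤ n := Nat.cast_nonneg n
      linarith⟩
  have hsupp : ∀ n x, (f n).normed mu x ≠ 0 → ‖x‖ ≤ 1 / ((n : ℝ) + 1) := by
    intro n x hx
    have h1 : x ∈ Function.support ((f n).normed mu) := hx
    rw [(f n).support_normed_eq, mem_ball_zero_iff] at h1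
    exact h1.le
  refine ⟨fun n => (f n).normed mu, fun n => (f n).contDiff_normed,
    fun n => (f n).hasCompactSupport_normed, fun n x => (f n).nonneg_normed x,
    fun n => (f n).integral_normed, hsupp, ?_⟩
  intro u hu K hK
  -- cut off
  set K' : Set E := Metric.cthickening 1 K with hK'
  have hK'c : IsCompact K' := hK.cthickening
  have hv0 : MemLp (K'.indicator u) 2 mu :=
    (memLp_indicator_iff_restrict hK'c.measurableSet).2 (hu K' hK'c)
  set v : E → ℂ := hv0.1.mk (K'.indicator u) with hvdef
  have hvae : K'.indicator u =ᵐ[mu] v := hv0.1.ae_eq_mk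
  have hv : MemLp v 2 mu := (memLp_congr_ae hvae).1 hv0
  have hvm : StronglyMeasurable v := hv0.1.stronglyMeasurable_mk
  have hconv : ∀ n x, x ∈ K → ∫ y, ((f n).normed mu (x - y) : ℂ) * u y ∂mu =
      ∫ y, ((f n).normed mu (x - y) : ℂ) * v y ∂mu := by
    intro n x hx
    have h1 : ∀ y, ((f n).normed mu (x - y) : ℂ) * u y =
        ((f n).normed mu (x - y) : ℂ) * K'.indicator u y := by
      intro y
      by_cases h0 : (f n).normed mu (x - y) = 0
      · simp [h0]
      · have h2 := hsupp n _ h0
        have h3 : y ∈ K' := by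
          refine Metric.mem_cthickening_of_dist_le y x 1 K hx ?_
          rw [dist_comm, dist_eq_norm]
          refine h2.trans ?_
          rw [div_le_one (by positivity)]
          have : (0 : ℝ) ≤ n := Nat.cast_nonneg n
          linarith
        rw [Set.indicator_of_mem h3]
    simp_rw [h1]
    apply integral_congr_ae
    filter_upwards [hvae] with y hy
    rw [hy]
  have hle : ∀ n, eLpNorm (fun x => (∫ y, ((f n).normed mu (x - y) : ℂ) * u y ∂mu) - u x) 2
      (mu.restrict K) ≤
      eLpNorm (fun x => (∫ y, ((f n).normed mu (x - y) : ℂ) * v y ∂mu) - v x) 2 mu := by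
    intro n
    have h1 : (fun x => (∫ y, ((f n).normed mu (x - y) : ℂ) * u y ∂mu) - u x)
        =ᵐ[mu.restrict K]
        (fun x => (∫ y, ((f n).normed mu (x - y) : ℂ) * v y ∂mu) - v x) := by
      filter_upwards [ae_restrict_mem hK.measurableSet, ae_restrict_of_ae hvae] with x hx hxv
      rw [hconv n x hx, ← hxv, Set.indicator_of_mem (Metric.self_subset_cthickening K hx)]
    rw [eLpNorm_congr_ae h1]
    exact eLpNorm_mono_measure _ Measure.restrict_le_self
  rw [ENNReal.tendsto_nhds_zero]
  intro eps heps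
  have ht := HMoll_translate mu v hv
  rw [ENNReal.tendsto_nhds_zero] at ht
  have ht' := ht eps heps
  rw [Metric.eventually_nhds_iff] at ht'
  obtain ⟨del, hdel, hball⟩ := ht'
  have hsmall : ∀ᶠ n : ℕ in Filter.atTop, 1 / ((n : ℝ) + 1) < del :=
    (tendsto_one_div_add_atTop_nhds_zero_nat).eventually (gt_mem_nhds hdel)
  filter_upwards [hsmall] with n hn
  refine (hle n).trans ?_
  apply HMoll_jensen mu _ (fun x => (f n).nonneg_normed x) (f n).continuous_normed
    (f n).hasCompactSupport_normed (f n).integral_normed v hv hvm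
  intro t ht0
  apply hball
  rw [dist_zero_right]
  exact (hsupp n t ht0).trans_lt hn

end GPn
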