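/- definitions for the final statement, and comparison of the determinants -/
import Pool.Agent.Lib_MP_e0d435_ag.Basic

open Finset MeasureTheory Complex
open scoped ENNReal ContDiff

namespace GPn

/-- determinant of the evaluation matrix of all monomials of degree k at the points X j -/
noncomputable def detMon (n k : ℕ) (X : Ex (n + 1) k → Fin (n + 1) → ℂ) : ℂ :=
  (Matrix.of fun j a : Ex (n + 1) k => ∏ i, X j i ^ a.1 i).det

/-- the affine chart number i of projective n-space, in homogeneous coordinates -/
def chart {n : ℕ} (i : Fin (n + 1)) (x : Fin n → ℂ) : Fin (n + 1) → ℂ := i.insertNth 1 x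

/-- local equation of the divisor of the determinant section of O(k) on (P^n)^N in the product
of the affine charts i j -/
noncomputable def locEq (n k : ℕ) (i : Ex (n + 1) k → Fin (n + 1))
    (x : Ex (n + 1) k → Fin n → ℂ) : ℂ := detMon n k fun j => chart (i j) (x j)

/-- the log canonical threshold of the divisor D of the determinant section of O(k) on (P^n)^N:
supremum of the c >= 0 such that |f|^(-2c) is locally integrable for the local equation f of D in
every product of affine charts -/
noncomputable def lct (n k : ℕ) : ℝ :=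
  sSup {c : ℝ | 0 ≤ c ∧ ∀ i : Ex (n + 1) k → Fin (n + 1),
    LocallyIntegrable (fun x : Ex (n + 1) k → Fin n → ℂ => ‖locEq n k i x‖ ^ (-(2 * c)))}

theorem Dl_eq_detMon (n k : ℕ) : ∃ C : ℝ, 0 < C ∧ ∀ X : Ex (n + 1) k → Pt (n + 1),
    Dl X = C * ‖detMon n k X‖ := by
  refine ⟨∏ a : Ex (n + 1) k, bw a.1, Finset.prod_pos fun a _ => bw_pos _, fun X => ?_⟩
  have h1 : Mx X = Matrix.of fun j a : Ex (n + 1) k =>
      (bw a.1 : ℂ) * (Matrix.of fun j a : Ex (n + 1) k => ∏ i, X j i ^ a.1 i) j a := by
    ext j a
    simp [Mx_apply, dm_zero]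
  rw [Dl, h1, Matrix.det_mul_row, norm_mul, detMon]
  congr 1
  rw [norm_prod]
  refine Finset.prod_congr rfl fun a _ => ?_
  rw [Complex.norm_real, Real.norm_of_nonneg (bw_pos _).le]

end GPn
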