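/- piece FA: from the cone to the charts -/
import Pool.Agent.Lib_MP_e0d435_ag.FDefs

open Finset MeasureTheory Complex
open scoped ENNReal ContDiff

namespace GPn

/-- insert the numbers lambda_j at the places i_j -/
private def ChartCone_ins {n k : ℕ} (i : Ex (n + 1) k → Fin (n + 1))
    (p : (Ex (n + 1) k → ℂ) × (Ex (n + 1) k → Fin n → ℂ)) : Ex (n + 1) k → Pt (n + 1) :=
  fun j => (i j).insertNth (p.1 j) (p.2 j)

private theorem ChartCone_meas {n k : ℕ} (i : Ex (n + 1) k → Fin (n + 1)) :
    Measurable (ChartCone_ins (n := n) (k := k) i) := by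
  refine measurable_pi_iff.2 fun j => ?_
  have h := (MeasurableEquiv.piFinSuccAbove (fun _ : Fin (n + 1) => ℂ) (i j)).symm.measurable
  have h2 : Measurable (fun p : (Ex (n + 1) k → ℂ) × (Ex (n + 1) k → Fin n → ℂ) =>
      (p.1 j, p.2 j)) :=
    ((measurable_pi_apply j).comp measurable_fst).prodMk
      ((measurable_pi_apply j).comp measurable_snd)
  exact h.comp h2

/-- the map X -> (places i_j, other places) is measure preserving -/
private theorem ChartCone_mp {n k : ℕ} (i : Ex (n + 1) k → Fin (n + 1)) :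
    MeasurePreserving (fun X : Ex (n + 1) k → Pt (n + 1) =>
      ((fun j => X j (i j) : Ex (n + 1) k → ℂ),
        (fun j l => X j ((i j).succAbove l) : Ex (n + 1) k → Fin n → ℂ)))
      volume volume := by
  have h1 : MeasurePreserving (fun (X : Ex (n + 1) k → Fin (n + 1) → ℂ) (j : Ex (n + 1) k) =>
      MeasurableEquiv.piFinSuccAbove (fun _ : Fin (n + 1) => ℂ) (i j) (X j)) volume volume :=
    volume_preserving_pi fun j => volume_preserving_piFinSuccAbove (fun _ => ℂ) (i j)
  have h2 := volume_measurePreserving_arrowProdEquivProdArrow ℂ (Fin n → ℂ) (Ex (n + 1) k)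
  exact h2.comp h1

private theorem ChartCone_Dl {n k : ℕ} (la : Ex (n + 1) k → ℂ) (X : Ex (n + 1) k → Pt (n + 1)) :
    Dl (fun j => la j • X j) = (∏ j, ‖la j‖ ^ k) * Dl X := by
  have h1 : Mx (fun j => la j • X j) = Matrix.of fun j a => (la j) ^ k * Mx X j a := by
    ext j a
    simp only [Mx_apply, Matrix.of_apply, dm_smul]
    have : ∑ r, (a.1 r - (0 : Fin (n + 1) → ℕ) r) = k := by simpa using a.2
    rw [this]; ring
  rw [Dl, h1, Matrix.det_mul_column, norm_mul, norm_prod, Dl]
  simp only [norm_pow]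

private theorem ChartCone_chart {n k : ℕ} (i : Ex (n + 1) k → Fin (n + 1))
    (la : Ex (n + 1) k → ℂ) (x : Ex (n + 1) k → Fin n → ℂ) :
    ChartCone_ins i (la, fun j => la j • x j) = fun j => la j • chart (i j) (x j) := by
  funext j
  show (i j).insertNth (la j) (la j • x j) = la j • (i j).insertNth 1 (x j)
  refine (Fin.insertNth_eq_iff).2 ⟨?_, ?_⟩
  · simp
  · funext l
    simp [Fin.removeNth]

private theorem ChartCone_pt {c K y : ℝ} (hc : 0 ≤ c) (hK : 0 < K) (hy : 0 ≤ y) :
    ENNReal.ofReal (y ^ (-(2 * c))) ≤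
      ENNReal.ofReal (K ^ (2 * c)) * (ENNReal.ofReal (K * y)) ^ (-(2 * c)) := by
  rcases hy.eq_or_lt with h0 | h0
  · rcases hc.eq_or_lt with hc0 | hc0
    · simp [← hc0]
    · rw [← h0, Real.zero_rpow (by linarith)]
      simp
  · rw [ENNReal.ofReal_rpow_of_pos (by positivity), ← ENNReal.ofReal_mul (by positivity)]
    refine ENNReal.ofReal_le_ofReal (le_of_eq ?_)
    rw [Real.mul_rpow hK.le h0.le, ← mul_assoc, ← Real.rpow_add hK]
    simp

theorem chart_of_cone (n k : ℕ) (c : ℝ) (hc : 0 ≤ c)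
    (h : ∀ R : ℝ, ∫⁻ X in {X : Ex (n + 1) k → Pt (n + 1) | ∀ j, nsq (X j) ≤ R},
        (ENNReal.ofReal (Dl X)) ^ (-(2 * c)) < ⊤) (i : Ex (n + 1) k → Fin (n + 1)) :
    LocallyIntegrable (fun x : Ex (n + 1) k → Fin n → ℂ => ‖locEq n k i x‖ ^ (-(2 * c))) := by
  classical
  -- the weight on the cone
  set F : (Ex (n + 1) k → Pt (n + 1)) → ℝ≥0∞ := fun X => (ENNReal.ofReal (Dl X)) ^ (-(2 * c))
    with hF
  have hFm : Measurable F := by
    rw [hF]
    exact (ENNReal.measurable_ofReal.comp continuous_Dl.measurable).pow_const _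
  obtain ⟨C, hC, hDl⟩ := Dl_eq_detMon n k
  -- measurability of the local function
  have hcont : Continuous (fun x : Ex (n + 1) k → Fin n → ℂ => ‖locEq n k i x‖) := by
    refine Continuous.norm ?_
    unfold locEq detMon
    refine Continuous.matrix_det ?_
    refine continuous_matrix fun j a => ?_
    simp only [Matrix.of_apply]
    refine continuous_finsetProd _ fun l _ => Continuous.pow ?_ _
    have hch : Continuous (fun x : Ex (n + 1) k → Fin n → ℂ => chart (i j) (x j)) := by
      unfold chart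
      exact Continuous.finInsertNth (i j) continuous_const (continuous_apply j)
    exact (continuous_apply l).comp hch
  have hgm : Measurable (fun x : Ex (n + 1) k → Fin n → ℂ => ‖locEq n k i x‖ ^ (-(2 * c))) :=
    hcont.measurable.pow_const _
  -- boxes
  set B : ℝ → Set (Ex (n + 1) k → Fin n → ℂ) := fun rho => {x | ∀ j l, ‖x j l‖ ≤ rho} with hB
  have hBm : ∀ rho, MeasurableSet (B rho) := by
    intro rho
    have : B rho = ⋂ j, ⋂ l, {x | ‖x j l‖ ≤ rho} := by ext x; simp [hB]
    rw [this]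
    refine MeasurableSet.iInter fun j => MeasurableSet.iInter fun l => ?_
    have hcl : IsClosed {x : Ex (n + 1) k → Fin n → ℂ | ‖x j l‖ ≤ rho} :=
      isClosed_le (by fun_prop) continuous_const
    exact hcl.measurableSet
  suffices hbox : ∀ rho : ℝ, 0 < rho →
      ∫⁻ x in B rho, ENNReal.ofReal (‖locEq n k i x‖ ^ (-(2 * c))) < ⊤ by
    intro x0
    set rho : ℝ := ‖x0‖ + 1 with hrho
    have hrp : 0 < rho := by positivity
    refine ⟨Metric.ball x0 1, Metric.ball_mem_nhds _ one_pos, ?_⟩
    have hsub : Metric.ball x0 1 ⊆ B rho := by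
      intro x hx j l
      have h1 : ‖x‖ ≤ ‖x0‖ + 1 := by
        have := norm_sub_norm_le x x0
        rw [Metric.mem_ball, dist_eq_norm] at hx
        linarith
      calc ‖x j l‖ ≤ ‖x j‖ := norm_le_pi_norm (x j) l
        _ ≤ ‖x‖ := norm_le_pi_norm x j
        _ ≤ rho := h1
    refine ⟨hgm.aestronglyMeasurable, ?_⟩
    rw [hasFiniteIntegral_iff_norm]
    refine lt_of_le_of_lt (lintegral_mono_set hsub) ?_
    refine lt_of_le_of_lt (le_of_eq ?_) (hbox rho hrp)
    refine lintegral_congr fun x => ?_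
    rw [Real.norm_of_nonneg (Real.rpow_nonneg (norm_nonneg _) _)]
  intro rho hrho
  -- the auxiliary function on the product
  set A : Set (Ex (n + 1) k → ℂ) := {la | ∀ j, 1 < ‖la j‖ ∧ ‖la j‖ < 2} with hA
  have hAo : IsOpen A := by
    have : A = ⋂ j, ({la | 1 < ‖la j‖} ∩ {la | ‖la j‖ < 2}) := by ext x; simp [hA]
    rw [this]
    refine isOpen_iInter_of_finite fun j => IsOpen.inter ?_ ?_
    · exact isOpen_lt continuous_const (by fun_prop)
    · exact isOpen_lt (by fun_prop) continuous_const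
  have hAne : A.Nonempty := ⟨fun _ => (3 / 2 : ℝ), fun j => by
    rw [Complex.norm_real]; norm_num⟩
  set H : (Ex (n + 1) k → ℂ) × (Ex (n + 1) k → Fin n → ℂ) → ℝ≥0∞ :=
    (A ×ˢ B (2 * rho)).indicator fun p => F (ChartCone_ins i p) with hH
  have hHm : Measurable H :=
    (hFm.comp (ChartCone_meas i)).indicator (hAo.measurableSet.prod (hBm _))
  have hHfin : ∫⁻ p, H p ∂(volume.prod volume) < ⊤ := by
    have h1 := (ChartCone_mp (n := n) (k := k) i).lintegral_comp hHm
    have h2 : ∫⁻ p, H p ∂(volume.prod volume) = ∫⁻ p, H p := rfl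
    rw [h2, ← h1]
    refine lt_of_le_of_lt ?_ (h (4 + n * (2 * rho) ^ 2))
    have hSm : MeasurableSet {X : Ex (n + 1) k → Pt (n + 1) |
        ∀ j, nsq (X j) ≤ 4 + n * (2 * rho) ^ 2} := by
      have : {X : Ex (n + 1) k → Pt (n + 1) | ∀ j, nsq (X j) ≤ 4 + n * (2 * rho) ^ 2} =
          ⋂ j, {X | nsq (X j) ≤ 4 + n * (2 * rho) ^ 2} := by ext X; simp
      rw [this]
      refine MeasurableSet.iInter fun j => ?_
      exact (isClosed_le (continuous_nsq.comp (continuous_apply j)) continuous_const).measurableSet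
    rw [← lintegral_indicator hSm]
    refine lintegral_mono fun X => ?_
    by_cases hX : ((fun j => X j (i j)), (fun j l => X j ((i j).succAbove l))) ∈
        A ×ˢ B (2 * rho)
    · have hins : ChartCone_ins i ((fun j => X j (i j)), (fun j l => X j ((i j).succAbove l)))
          = X := by
        funext j
        show (i j).insertNth (X j (i j)) (fun l => X j ((i j).succAbove l)) = X j
        exact (Fin.insertNth_eq_iff).2 ⟨rfl, rfl⟩
      have hmem : X ∈ {X : Ex (n + 1) k → Pt (n + 1) | ∀ j, nsq (X j) ≤ 4 + n * (2 * rho) ^ 2} := by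
        intro j
        rw [nsq, Fin.sum_univ_succAbove _ (i j)]
        have ha : ‖X j (i j)‖ ^ 2 ≤ 4 := by
          have := (hX.1 j).2
          have h0 := norm_nonneg (X j (i j))
          simp only at this
          nlinarith
        have hb : ∑ l : Fin n, ‖X j ((i j).succAbove l)‖ ^ 2 ≤ n * (2 * rho) ^ 2 := by
          have : ∀ l ∈ (Finset.univ : Finset (Fin n)),
              ‖X j ((i j).succAbove l)‖ ^ 2 ≤ (2 * rho) ^ 2 := by
            intro l _
            exact pow_le_pow_left₀ (norm_nonneg _) (hX.2 j l) 2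
          calc _ ≤ ∑ _l : Fin n, (2 * rho) ^ 2 := Finset.sum_le_sum this
            _ = _ := by simp
        linarith
      simp only [hH]
      rw [Set.indicator_of_mem hX, Set.indicator_of_mem hmem, hins]
    · simp only [hH]
      rw [Set.indicator_of_notMem hX]
      exact zero_le
  rw [lintegral_prod _ hHm.aemeasurable] at hHfin
  have hae : ∀ᵐ la : Ex (n + 1) k → ℂ, ∫⁻ y, H (la, y) < ⊤ :=
    ae_lt_top hHm.lintegral_prod_right' hHfin.ne
  obtain ⟨la, hlaA, hla⟩ := (Measure.dense_of_ae hae).exists_mem_open hAo hAne |>.imp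
    fun x hx => And.intro hx.2 hx.1
  -- the scaling by la
  have hla0 : ∀ j, la j ≠ 0 := fun j h0 => by
    have := (hlaA j).1
    rw [h0, norm_zero] at this
    linarith
  let L : (Ex (n + 1) k → Fin n → ℂ) ≃ₗ[ℝ] (Ex (n + 1) k → Fin n → ℂ) :=
    { toFun := fun x j => la j • x j
      map_add' := fun x y => by funext j; simp [smul_add]
      map_smul' := fun r x => by
        funext j l
        simp only [Pi.smul_apply, RingHom.id_apply, smul_eq_mul, Complex.real_smul]
        ring
      invFun := fun x j => (la j)⁻¹ • x j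
      left_inv := fun x => by
        funext j
        simp only [smul_smul]
        rw [inv_mul_cancel₀ (hla0 j), one_smul]
      right_inv := fun x => by
        funext j
        simp only [smul_smul]
        rw [mul_inv_cancel₀ (hla0 j), one_smul] }
  have hLdet : LinearMap.det (L : (Ex (n + 1) k → Fin n → ℂ) →ₗ[ℝ] (Ex (n + 1) k → Fin n → ℂ)) ≠ 0 :=
    (LinearEquiv.isUnit_det' L).ne_zero
  have inst1 : (volume : Measure (Fin n → ℂ)).IsAddHaarMeasure :=
    Measure.pi.isAddHaarMeasure (fun _ : Fin n => (volume : Measure ℂ))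
  have inst2 : (volume : Measure (Ex (n + 1) k → Fin n → ℂ)).IsAddHaarMeasure :=
    Measure.pi.isAddHaarMeasure (fun _ : Ex (n + 1) k => (volume : Measure (Fin n → ℂ)))
  have hmap := Measure.map_linearMap_addHaar_eq_smul_addHaar
    (volume : Measure (Ex (n + 1) k → Fin n → ℂ)) hLdet
  have hLcont : Continuous (fun x : Ex (n + 1) k → Fin n → ℂ =>
      (L : (Ex (n + 1) k → Fin n → ℂ) →ₗ[ℝ] (Ex (n + 1) k → Fin n → ℂ)) x) :=
    LinearMap.continuous_of_finiteDimensional _
  set K : ℝ := (∏ j, ‖la j‖ ^ k) * C with hK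
  have hKpos : 0 < K := by
    rw [hK]
    refine mul_pos (Finset.prod_pos fun j _ => ?_) hC
    exact pow_pos (norm_pos_iff.2 (hla0 j)) _
  have hHla : Measurable fun y => H (la, y) := hHm.comp measurable_prodMk_left
  have hbound : ∀ x ∈ B rho, ENNReal.ofReal (‖locEq n k i x‖ ^ (-(2 * c))) ≤
      ENNReal.ofReal (K ^ (2 * c)) * H (la, L x) := by
    intro x hx
    have hmem : (la, L x) ∈ A ×ˢ B (2 * rho) := by
      refine ⟨hlaA, fun j l => ?_⟩
      show ‖(la j • x j) l‖ ≤ 2 * rho
      rw [Pi.smul_apply, norm_smul]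
      exact mul_le_mul (hlaA j).2.le (hx j l) (norm_nonneg _) (by norm_num)
    simp only [hH]
    rw [Set.indicator_of_mem hmem]
    have hch : ChartCone_ins i (la, L x) = fun j => la j • chart (i j) (x j) :=
      ChartCone_chart i la x
    rw [hch, hF]
    simp only
    rw [ChartCone_Dl, hDl, ← mul_assoc]
    exact ChartCone_pt hc hKpos (norm_nonneg _)
  calc ∫⁻ x in B rho, ENNReal.ofReal (‖locEq n k i x‖ ^ (-(2 * c)))
      ≤ ∫⁻ x in B rho, ENNReal.ofReal (K ^ (2 * c)) * H (la, L x) :=
        setLIntegral_mono' (hBm rho) hbound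
    _ ≤ ∫⁻ x, ENNReal.ofReal (K ^ (2 * c)) * H (la, L x) := setLIntegral_le_lintegral _ _
    _ = ENNReal.ofReal (K ^ (2 * c)) * ∫⁻ x, H (la, L x) := by
        rw [lintegral_const_mul]
        exact hHla.comp hLcont.measurable
    _ = ENNReal.ofReal (K ^ (2 * c)) * ∫⁻ y, H (la, y)
          ∂(Measure.map (L : (Ex (n + 1) k → Fin n → ℂ) →ₗ[ℝ] (Ex (n + 1) k → Fin n → ℂ))
            volume) := by
        rw [lintegral_map hHla hLcont.measurable]
        rfl
    _ < ⊤ := by
        rw [hmap, lintegral_smul_measure]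
        exact ENNReal.mul_lt_top ENNReal.ofReal_lt_top
          (ENNReal.mul_lt_top ENNReal.ofReal_lt_top hla)

end GPn
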