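/- piece EF1, second file: polynomials with small jets are close to polynomials with zero jets -/
import Pool.Agent.Lib_MP_e0d435_ag.Basic

open Finset MeasureTheory Complex
open scoped ENNReal ContDiff

namespace GPn

namespace Jet

/-- the derivatives of the k-th power of a linear form -/
theorem pd_power {m k : ℕ} (xi : Pt m) (s : ℕ) : ∀ (al : Fin m → ℕ), ∑ i, al i = s →
    ∀ y : Pt m, pd (evd k 0 (fun i => (starRingEnd ℂ) (xi i)) : V m k) al y =
      ((k.descFactorial s : ℕ) : ℂ) * (∏ i, xi i ^ al i) * (∑ i, y i * xi i) ^ (k - s) := by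
  classical
  induction s with
  | zero =>
    intro al hal y
    have h0 : al = 0 := by
      funext i
      have := (Finset.sum_eq_zero_iff.1 hal) i (Finset.mem_univ i)
      simpa using this
    subst h0
    rw [← inner_evd, inner_ev_ev]
    simp
  | succ s ih =>
    intro al hal y
    obtain ⟨i, hi⟩ : ∃ i, al i ≠ 0 := by
      by_contra hcon
      push Not at hcon
      simp [hcon] at hal
    set be : Fin m → ℕ := al - Pi.single i 1 with hbe
    have hal' : al = be + Pi.single i 1 := by
      funext j
      by_cases hj : j = i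
      · subst hj
        simp only [hbe, Pi.add_apply, Pi.sub_apply, Pi.single_eq_same]
        omega
      · simp [hbe, Pi.single_eq_of_ne hj]
    have hsum : ∑ j, be j = s := by
      have h1 : ∑ j, al j = ∑ j, be j + ∑ j, (Pi.single i 1 : Fin m → ℕ) j := by
        rw [← Finset.sum_add_distrib]
        exact Finset.sum_congr rfl fun j _ => by rw [hal']; rfl
      have h2 : ∑ j, (Pi.single i 1 : Fin m → ℕ) j = 1 := by simp
      omega
    have hd := hasDerivAt_pd (evd k 0 (fun i => (starRingEnd ℂ) (xi i)) : V m k) be y i (y i)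
    rw [Function.update_eq_self] at hd
    have hd' : HasDerivAt (fun z : ℂ => ((k.descFactorial s : ℕ) : ℂ) * (∏ j, xi j ^ be j) *
        (∑ j, (Function.update y i z) j * xi j) ^ (k - s))
        (pd (evd k 0 (fun i => (starRingEnd ℂ) (xi i)) : V m k) (be + Pi.single i 1) y) (y i) := by
      refine hd.congr_of_eventuallyEq (Filter.Eventually.of_forall fun z => ?_)
      simp only
      rw [ih be hsum]
    have hlin : ∀ z : ℂ, ∑ j, (Function.update y i z) j * xi j =
        z * xi i + ∑ j ∈ Finset.univ.erase i, y j * xi j := by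
      intro z
      rw [← Finset.add_sum_erase _ _ (Finset.mem_univ i)]
      congr 1
      · simp
      · refine Finset.sum_congr rfl fun j hj => ?_
        rw [Function.update_of_ne (Finset.ne_of_mem_erase hj)]
    have hd2 : HasDerivAt (fun z : ℂ => ((k.descFactorial s : ℕ) : ℂ) * (∏ j, xi j ^ be j) *
        (∑ j, (Function.update y i z) j * xi j) ^ (k - s))
        (((k.descFactorial s : ℕ) : ℂ) * (∏ j, xi j ^ be j) *
          (((k - s : ℕ) : ℂ) * (∑ j, y j * xi j) ^ (k - s - 1) * xi i)) (y i) := by
      refine HasDerivAt.const_mul _ ?_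
      have h3 : HasDerivAt (fun z : ℂ => ∑ j, (Function.update y i z) j * xi j) (xi i) (y i) := by
        have h4 : (fun z : ℂ => ∑ j, (Function.update y i z) j * xi j) =
            fun z => z * xi i + ∑ j ∈ Finset.univ.erase i, y j * xi j := funext hlin
        rw [h4]
        simpa using ((hasDerivAt_id (y i)).mul_const (xi i)).add_const
          (∑ j ∈ Finset.univ.erase i, y j * xi j)
      have h5 := h3.pow (k - s)
      have h6 : ∑ j, (Function.update y i (y i)) j * xi j = ∑ j, y j * xi j := by
        rw [Function.update_eq_self]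
      rw [h6] at h5
      exact h5
    have := hd'.unique hd2
    rw [hal', this]
    have h7 : ∏ j, xi j ^ (be + Pi.single i 1 : Fin m → ℕ) j = (∏ j, xi j ^ be j) * xi i := by
      simp only [Pi.add_apply, pow_add, Finset.prod_mul_distrib]
      congr 1
      rw [Finset.prod_eq_single i]
      · simp
      · intro j _ hj
        rw [Pi.single_eq_of_ne hj, pow_zero]
      · intro h
        exact absurd (Finset.mem_univ i) h
    rw [h7, Nat.descFactorial_succ]
    push_cast
    rw [Nat.sub_sub]
    ring

/-- Gram matrix of the jet functionals -/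
noncomputable def Gr {m : ℕ} (k l : ℕ) (y : Pt m) : Matrix (Ex m l) (Ex m l) ℂ :=
  Matrix.of fun al be => pd (evd k be.1 y : V m k) al.1 y

theorem Gr_det_ne {m k l : ℕ} (hl : l ≤ k) (y : Pt m) (hy : nsq y ≠ 0) : (Gr k l y).det ≠ 0 := by
  intro hdet
  obtain ⟨v, hv, hGv⟩ := Matrix.exists_mulVec_eq_zero_iff.2 hdet
  set w : V m k := ∑ be : Ex m l, v be • (evd k be.1 y : V m k) with hw
  have h1 : ∀ al : Ex m l, inner ℂ (evd k al.1 y : V m k) w = 0 := by
    intro al
    have h2 := congrFun hGv al
    rw [Matrix.mulVec, dotProduct] at h2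
    rw [hw, inner_sum]
    simp only [inner_smul_right, inner_evd]
    have h3 : (0 : Ex m l → ℂ) al = 0 := rfl
    rw [h3] at h2
    refine Eq.trans (Finset.sum_congr rfl fun be _ => ?_) h2
    simp only [Gr, Matrix.of_apply]
    ring
  have hw0 : w = 0 := by
    have h3 : inner ℂ w w = 0 := by
      conv_lhs => rw [hw]
      rw [sum_inner]
      refine Finset.sum_eq_zero fun be _ => ?_
      rw [inner_smul_left, ← hw, h1, mul_zero]
    exact inner_self_eq_zero.1 h3
  have h4 : ∀ xi : Pt m, (∑ be : Ex m l, (starRingEnd ℂ) (v be) * ∏ i, xi i ^ be.1 i) *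
      (∑ i, y i * xi i) ^ (k - l) = 0 := by
    intro xi
    have h5 : inner ℂ w (evd k 0 (fun i => (starRingEnd ℂ) (xi i)) : V m k) = 0 := by
      rw [hw0, inner_zero_left]
    rw [hw, sum_inner] at h5
    simp only [inner_smul_left, inner_evd] at h5
    have h6 : ∀ be : Ex m l, pd (evd k 0 (fun i => (starRingEnd ℂ) (xi i)) : V m k) be.1 y =
        ((k.descFactorial l : ℕ) : ℂ) * (∏ i, xi i ^ be.1 i) * (∑ i, y i * xi i) ^ (k - l) :=
      fun be => pd_power xi l be.1 be.2 y
    simp only [h6] at h5
    have h7 : ((k.descFactorial l : ℕ) : ℂ) ≠ 0 := by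
      have : k.descFactorial l ≠ 0 := by
        rw [Ne, Nat.descFactorial_eq_zero_iff_lt]
        omega
      exact_mod_cast this
    have h8 : ((k.descFactorial l : ℕ) : ℂ) *
        ((∑ be : Ex m l, (starRingEnd ℂ) (v be) * ∏ i, xi i ^ be.1 i) *
          (∑ i, y i * xi i) ^ (k - l)) = 0 := by
      rw [← h5, Finset.sum_mul, Finset.mul_sum]
      refine Finset.sum_congr rfl fun be _ => ?_
      ring
    exact (mul_eq_zero.1 h8).resolve_left h7
  let P : MvPolynomial (Fin m) ℂ :=
    ∑ be : Ex m l, MvPolynomial.monomial (Finsupp.equivFunOnFinite.symm be.1)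
      ((starRingEnd ℂ) (v be))
  let R : MvPolynomial (Fin m) ℂ := ∑ i, MvPolynomial.C (y i) * MvPolynomial.X i
  have hP : ∀ xi : Pt m, MvPolynomial.eval xi P =
      ∑ be : Ex m l, (starRingEnd ℂ) (v be) * ∏ i, xi i ^ be.1 i := by
    intro xi
    simp only [P, map_sum, MvPolynomial.eval_monomial]
    refine Finset.sum_congr rfl fun be _ => ?_
    congr 1
    rw [Finsupp.prod_fintype _ _ (fun i => by simp)]
    rfl
  have hR : ∀ xi : Pt m, MvPolynomial.eval xi R = ∑ i, y i * xi i := by
    intro xi
    simp [R]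
  have hPR : P * R ^ (k - l) = 0 := by
    refine MvPolynomial.funext fun xi => ?_
    rw [map_mul, map_pow, hP, hR, h4, map_zero]
  have hR0 : R ≠ 0 := by
    intro hR0
    have h9 := hR (fun i => (starRingEnd ℂ) (y i))
    rw [hR0, map_zero] at h9
    apply hy
    have h10 : ((nsq y : ℝ) : ℂ) = ∑ i, y i * (starRingEnd ℂ) (y i) := by
      simp only [nsq, Complex.ofReal_sum]
      refine Finset.sum_congr rfl fun i _ => ?_
      rw [Complex.mul_conj, Complex.normSq_eq_norm_sq]
    rw [← h9] at h10
    exact_mod_cast h10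
  have hP0 : P = 0 := (mul_eq_zero.1 hPR).resolve_right (pow_ne_zero _ hR0)
  apply hv
  funext al
  have h11 : MvPolynomial.coeff (Finsupp.equivFunOnFinite.symm al.1) P = (starRingEnd ℂ) (v al) := by
    simp only [P, MvPolynomial.coeff_sum, MvPolynomial.coeff_monomial]
    rw [Finset.sum_eq_single al]
    · simp
    · intro be _ hbe
      rw [if_neg]
      intro h
      apply hbe
      exact Subtype.ext (Finsupp.equivFunOnFinite.symm.injective h)
    · intro h
      exact absurd (Finset.mem_univ al) h
  rw [hP0, MvPolynomial.coeff_zero] at h11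
  have := congrArg (starRingEnd ℂ) h11
  simpa using this.symm

theorem isCompact_Ann (m : ℕ) : IsCompact (Ann m) := by
  refine Metric.isCompact_of_isClosed_isBounded ?_ ?_
  · exact (isClosed_le continuous_const continuous_nsq).inter
      (isClosed_le continuous_nsq continuous_const)
  · rw [isBounded_iff_forall_norm_le]
    refine ⟨2, fun x hx => ?_⟩
    rw [pi_norm_le_iff_of_nonneg (by norm_num)]
    intro i
    have h1 : ‖x i‖ ^ 2 ≤ nsq x := by
      unfold nsq
      exact Finset.single_le_sum (f := fun i => ‖x i‖ ^ 2) (fun j _ => by positivity)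
        (Finset.mem_univ i)
    have h2 := hx.2
    nlinarith [norm_nonneg (x i)]

end Jet

/-- polynomials with small jets at y are close to polynomials with zero jets -/
theorem jet_projection (m k l : ℕ) (hm : 1 ≤ m) (hl : l ≤ k) : ∃ C : ℝ, 0 < C ∧ ∀ y ∈ Ann m,
    ∀ F : V m k, ∃ F' : V m k, (∀ al : Ex m l, pd F' al.1 y = 0) ∧
      ‖F - F'‖ ≤ C * ∑ al : Ex m l, ‖pd F al.1 y‖ := by
  have hcG : Continuous (fun y : Pt m => Jet.Gr k l y) := by
    refine continuous_matrix fun al be => ?_
    simp only [Jet.Gr, Matrix.of_apply]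
    exact (continuous_pd₂ al.1).comp ((continuous_evd k be.1).prodMk continuous_id)
  let phi : Pt m → ℝ := fun y => ∑ be : Ex m l, ∑ al : Ex m l,
    ‖(Jet.Gr k l y).det‖⁻¹ * ‖(Jet.Gr k l y).adjugate be al‖ * ‖(evd k be.1 y : V m k)‖
  have hne : ∀ y ∈ Ann m, (Jet.Gr k l y).det ≠ 0 := fun y hy =>
    Jet.Gr_det_ne hl y (by have := hy.1; linarith)
  have hphi : ContinuousOn phi (Ann m) := by
    refine continuousOn_finsetSum _ fun be _ => continuousOn_finsetSum _ fun al _ => ?_
    refine ContinuousOn.mul (ContinuousOn.mul ?_ ?_) ?_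
    · refine ContinuousOn.inv₀ (hcG.matrix_det.norm.continuousOn) fun y hy => ?_
      exact norm_ne_zero_iff.2 (hne y hy)
    · exact (hcG.matrix_adjugate.matrix_elem be al).norm.continuousOn
    · exact (continuous_evd k be.1).norm.continuousOn
  obtain ⟨C, hC⟩ := (Jet.isCompact_Ann m).exists_bound_of_continuousOn hphi
  refine ⟨|C| + 1, by positivity, fun y hy F => ?_⟩
  set G := Jet.Gr k l y with hG
  set t : Ex m l → ℂ := fun al => pd F al.1 y with ht
  set c : Ex m l → ℂ := G⁻¹.mulVec t with hc
  set S : V m k := ∑ be : Ex m l, c be • (evd k be.1 y : V m k) with hS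
  refine ⟨F - S, fun al => ?_, ?_⟩
  · have h1 : pd S al.1 y = t al := by
      have h2 : pd S al.1 y = (G.mulVec c) al := by
        rw [← inner_evd, hS, inner_sum, Matrix.mulVec, dotProduct]
        refine Finset.sum_congr rfl fun be _ => ?_
        rw [inner_smul_right, inner_evd, hG, Jet.Gr, Matrix.of_apply]
        ring
      rw [h2, hc, Matrix.mulVec_mulVec, Matrix.mul_nonsing_inv _ (hne y hy).isUnit,
        Matrix.one_mulVec]
    rw [pd_sub_left, h1, ht]
    simp
  · have h1 : F - (F - S) = S := by abel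
    rw [h1]
    have hinv : ∀ be al, G⁻¹ be al = (G.det)⁻¹ * G.adjugate be al := by
      intro be al
      rw [Matrix.inv_def, Matrix.smul_apply, Ring.inverse_eq_inv', smul_eq_mul]
    have h2 : ∀ be, ‖c be‖ ≤ ∑ al, ‖G.det‖⁻¹ * ‖G.adjugate be al‖ * ‖t al‖ := by
      intro be
      rw [hc, Matrix.mulVec, dotProduct]
      refine (norm_sum_le _ _).trans (Finset.sum_le_sum fun al _ => ?_)
      rw [norm_mul, hinv, norm_mul, norm_inv]
    set T : ℝ := ∑ al, ‖t al‖ with hT
    have hT0 : 0 ≤ T := Finset.sum_nonneg fun _ _ => norm_nonneg _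
    have ht1 : ∀ al, ‖t al‖ ≤ T := fun al =>
      Finset.single_le_sum (f := fun al => ‖t al‖) (fun _ _ => norm_nonneg _) (Finset.mem_univ al)
    have h3 : ‖S‖ ≤ phi y * T := by
      rw [hS]
      refine (norm_sum_le _ _).trans ?_
      simp only [phi]
      rw [Finset.sum_mul]
      refine Finset.sum_le_sum fun be _ => ?_
      rw [norm_smul, Finset.sum_mul]
      calc ‖c be‖ * ‖(evd k be.1 y : V m k)‖
          ≤ (∑ al, ‖G.det‖⁻¹ * ‖G.adjugate be al‖ * ‖t al‖) * ‖(evd k be.1 y : V m k)‖ :=
            mul_le_mul_of_nonneg_right (h2 be) (norm_nonneg _)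
        _ = ∑ al, ‖G.det‖⁻¹ * ‖G.adjugate be al‖ * ‖(evd k be.1 y : V m k)‖ * ‖t al‖ := by
            rw [Finset.sum_mul]
            exact Finset.sum_congr rfl fun al _ => by ring
        _ ≤ _ := Finset.sum_le_sum fun al _ => mul_le_mul_of_nonneg_left (ht1 al) (by positivity)
    have h4 : phi y ≤ |C| + 1 := by
      have h5 := hC y hy
      have h6 := le_abs_self (phi y)
      rw [Real.norm_eq_abs] at h5
      have h7 := le_abs_self C
      linarith
    exact h3.trans (mul_le_mul_of_nonneg_right h4 hT0)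

end GPn
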