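/- piece EF1: cofactor polynomials and many approximate zeros -/
import Pool.Agent.Lib_MP_e0d435_ag.Basic
import Pool.Agent.Lib_MP_e0d435_ag.Jet

open Finset MeasureTheory Complex
open scoped ENNReal ContDiff

namespace GPn

/-- matrix with rows: jets of order l at y, evaluations at the points T t -/
noncomputable def Rm {m k l w : ℕ} (e : Ex m l ⊕ Fin w ≃ Ex m k) (y : Pt m) (T : Fin w → Pt m) :
    Matrix (Ex m k) (Ex m k) ℂ :=
  Matrix.of fun r a => Sum.elim (fun al : Ex m l => (bw a.1 : ℂ) * dm al.1 a.1 y)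
    (fun t : Fin w => (bw a.1 : ℂ) * dm 0 a.1 (T t)) (e.symm r)

/-- cofactor polynomial belonging to the row t -/
noncomputable def Cv {m k l w : ℕ} (e : Ex m l ⊕ Fin w ≃ Ex m k) (y : Pt m) (T : Fin w → Pt m)
    (t : Fin w) : V m k :=
  WithLp.toLp 2 fun a => (Rm e y T).adjugate a (e (Sum.inr t))

private theorem Rm_update {m k l w : ℕ} (e : Ex m l ⊕ Fin w ≃ Ex m k) (y : Pt m)
    (T : Fin w → Pt m) (t : Fin w) (x : Pt m) :
    Rm e y (Function.update T t x) =
      (Rm e y T).updateRow (e (Sum.inr t)) (fun a => (bw a.1 : ℂ) * dm 0 a.1 x) := by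
  ext r a
  by_cases hr : r = e (Sum.inr t)
  · subst hr
    simp [Rm, Matrix.updateRow_self]
  · rw [Matrix.updateRow_ne hr]
    simp only [Rm, Matrix.of_apply]
    rcases h : e.symm r with al | t'
    · simp
    · have ht : t' ≠ t := by
        rintro rfl
        exact hr (by rw [← h, Equiv.apply_symm_apply])
      simp [Function.update_of_ne ht]

private theorem det_updateRow_eq {n : Type*} [DecidableEq n] [Fintype n] (A : Matrix n n ℂ)
    (i : n) (v : n → ℂ) : (A.updateRow i v).det = ∑ a, A.adjugate a i * v a := by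
  rw [Matrix.det_eq_sum_mul_adjugate_row (A.updateRow i v) i]
  refine Finset.sum_congr rfl fun a _ => ?_
  rw [Matrix.updateRow_self, Matrix.adjugate_apply, Matrix.adjugate_apply, Matrix.updateRow_idem,
    mul_comm]

theorem pd_Cv {m k l w : ℕ} (e : Ex m l ⊕ Fin w ≃ Ex m k) (y : Pt m) (T : Fin w → Pt m)
    (t : Fin w) (x : Pt m) :
    pd (Cv e y T t) 0 x = (Rm e y (Function.update T t x)).det := by
  rw [Rm_update, det_updateRow_eq]
  rfl

theorem Cv_update {m k l w : ℕ} (e : Ex m l ⊕ Fin w ≃ Ex m k) (y : Pt m) (T : Fin w → Pt m)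
    (t : Fin w) (x : Pt m) : Cv e y (Function.update T t x) t = Cv e y T t := by
  unfold Cv
  congr 1
  funext a
  rw [Rm_update, Matrix.adjugate_apply, Matrix.adjugate_apply, Matrix.updateRow_idem]

theorem continuous_Cv {m k l w : ℕ} (e : Ex m l ⊕ Fin w ≃ Ex m k) (t : Fin w) :
    Continuous (fun p : Pt m × (Fin w → Pt m) => Cv e p.1 p.2 t) := by
  unfold Cv
  refine (PiLp.continuous_toLp 2 _).comp ?_
  refine continuous_pi fun a => ?_
  have h : Continuous (fun p : Pt m × (Fin w → Pt m) => (Rm e p.1 p.2).adjugate) := by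
    refine Continuous.matrix_adjugate ?_
    refine continuous_matrix fun r b => ?_
    simp only [Rm, Matrix.of_apply]
    rcases e.symm r with al | t'
    · exact continuous_const.mul ((continuous_dm al.1 b.1).comp continuous_fst)
    · exact continuous_const.mul ((continuous_dm 0 b.1).comp
        ((continuous_apply t').comp continuous_snd))
  exact h.matrix_elem a (e (Sum.inr t))

/-- Cramer's rule -/
theorem cramer_bound {m k l w : ℕ} (e : Ex m l ⊕ Fin w ≃ Ex m k) (y : Pt m) (T : Fin w → Pt m)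
    (F : V m k) (hF : ∀ al : Ex m l, pd F al.1 y = 0) :
    ‖(Rm e y T).det‖ * ‖F‖ ≤ ∑ t, ‖pd F 0 (T t)‖ * ‖Cv e y T t‖ := by
  have hmul : ∀ r, ((Rm e y T).mulVec (fun a => F a)) r =
      Sum.elim (fun al : Ex m l => pd F al.1 y) (fun t : Fin w => pd F 0 (T t)) (e.symm r) := by
    intro r
    simp only [Matrix.mulVec, dotProduct, Rm, Matrix.of_apply]
    rcases e.symm r with al | t'
    · simp only [Sum.elim_inl, pd]
      exact Finset.sum_congr rfl fun a _ => mul_comm _ _
    · simp only [Sum.elim_inr, pd]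
      exact Finset.sum_congr rfl fun a _ => mul_comm _ _
  have hvec : (Rm e y T).det • F = ∑ t, pd F 0 (T t) • Cv e y T t := by
    ext a
    have h1 : ((Rm e y T).adjugate.mulVec ((Rm e y T).mulVec (fun a => F a))) a =
        (Rm e y T).det * F a := by
      rw [Matrix.mulVec_mulVec, Matrix.adjugate_mul, Matrix.smul_mulVec, Matrix.one_mulVec]
      rfl
    have h2 : ((Rm e y T).adjugate.mulVec ((Rm e y T).mulVec (fun a => F a))) a =
        ∑ t, pd F 0 (T t) * (Rm e y T).adjugate a (e (Sum.inr t)) := by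
      simp only [Matrix.mulVec, dotProduct] at hmul ⊢
      simp_rw [hmul]
      rw [← Equiv.sum_comp e, Fintype.sum_sum_type]
      simp only [Equiv.symm_apply_apply, Sum.elim_inl, Sum.elim_inr, hF, mul_zero,
        Finset.sum_const_zero, zero_add]
      exact Finset.sum_congr rfl fun t _ => mul_comm _ _
    have h3 : (∑ t, pd F 0 (T t) • Cv e y T t) a =
        ∑ t, pd F 0 (T t) * (Rm e y T).adjugate a (e (Sum.inr t)) := by
      simp [Cv]
    rw [h3, ← h2, h1]
    simp
  calc ‖(Rm e y T).det‖ * ‖F‖ = ‖(Rm e y T).det • F‖ := (norm_smul _ _).symm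
    _ = ‖∑ t, pd F 0 (T t) • Cv e y T t‖ := by rw [hvec]
    _ ≤ ∑ t, ‖pd F 0 (T t) • Cv e y T t‖ := norm_sum_le _ _
    _ = ∑ t, ‖pd F 0 (T t)‖ * ‖Cv e y T t‖ :=
        Finset.sum_congr rfl fun t _ => norm_smul _ _

private theorem enm_le_two {m : ℕ} {x : Pt m} (hx : x ∈ Ann m) : enm x ≤ 2 := by
  have : enm x ≤ Real.sqrt (2 ^ 2) := Real.sqrt_le_sqrt (by have := hx.2; norm_num; exact this)
  rwa [Real.sqrt_sq (by norm_num)] at this

private theorem norm_pd_le_two {m k : ℕ} (F : V m k) {x : Pt m} (hx : x ∈ Ann m) :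
    ‖pd F 0 x‖ ≤ ‖F‖ * 2 ^ k :=
  (norm_pd_le F x).trans (mul_le_mul_of_nonneg_left
    (pow_le_pow_left₀ (enm_nonneg x) (enm_le_two hx) k) (norm_nonneg _))

/-- a unit polynomial vanishing at the earlier points, with small jets -/
private theorem cofactor_unit {m k l N : ℕ} (hN : N = Fintype.card (Ex m k))
    (X : Ex m k → Pt m) (s : Fin N ≃ Ex m k) (i : Fin N) (io : ℝ)
    (hJ : JW l (Wo X s i) (X (s i)) ≤ io) :
    ∃ G : V m k, ‖G‖ = 1 ∧ (∀ j, j < i → pd G 0 (X (s j)) = 0) ∧
      ∑ al : Ex m l, ‖pd G al.1 (X (s i))‖ ≤ io := by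
  classical
  set S : Set (V m k) := {v | ∃ j : Fin N, j < i ∧ v = evd k 0 (X (s j))} with hS
  have hfin : Module.finrank ℂ (Submodule.span ℂ S) ≤ (i : ℕ) := by
    have hSe : S = ↑((Finset.univ.filter fun j : Fin N => j < i).image
        fun j => evd k 0 (X (s j))) := by
      ext v
      simp only [hS, Set.mem_ofPred_eq, Finset.coe_image, Finset.coe_filter, Finset.mem_univ,
        true_and, Set.mem_image]
      constructor
      · rintro ⟨j, hj, rfl⟩
        exact ⟨j, hj, rfl⟩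
      · rintro ⟨j, hj, rfl⟩
        exact ⟨j, hj, rfl⟩
    rw [hSe]
    refine (finrank_span_finset_le_card _).trans (Finset.card_image_le.trans ?_)
    have : (Finset.univ.filter fun j : Fin N => j < i) = Finset.Iio i := by
      ext j; simp
    rw [this]
    simp
  have hdim : Module.finrank ℂ (V m k) = N := by
    rw [finrank_euclideanSpace, hN]
  have hpos : 0 < Module.finrank ℂ (Submodule.span ℂ S)ᗮ := by
    have h1 := Submodule.finrank_add_finrank_orthogonal (Submodule.span ℂ S)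
    have := i.2
    omega
  have hne : (Submodule.span ℂ S)ᗮ ≠ ⊥ := by
    intro h
    rw [h, finrank_bot] at hpos
    exact absurd hpos (lt_irrefl _)
  obtain ⟨G0, hG0, hG0'⟩ := Submodule.exists_mem_ne_zero_of_ne_bot hne
  have hn : ‖G0‖ ≠ 0 := norm_ne_zero_iff.2 hG0'
  refine ⟨((‖G0‖⁻¹ : ℝ) : ℂ) • G0, ?_, ?_, ?_⟩
  · rw [norm_smul]
    simp [hn]
  · intro j hj
    rw [pd_smul_left]
    have : pd G0 0 (X (s j)) = 0 := by
      rw [← inner_evd]
      exact (Submodule.mem_orthogonal _ _).1 hG0 _ (Submodule.subset_span ⟨j, hj, rfl⟩)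
    rw [this, mul_zero]
  · refine le_trans ?_ hJ
    unfold JW
    refine Finset.sum_le_sum fun al _ => ?_
    set G : V m k := ((‖G0‖⁻¹ : ℝ) : ℂ) • G0 with hG
    have hGmem : G ∈ Wo X s i := Submodule.smul_mem _ _ hG0
    have hGn : ‖G‖ = 1 := by
      rw [hG, norm_smul]; simp [hn]
    rw [← inner_evd]
    have h1 : inner ℂ (evd k al.1 (X (s i))) G =
        inner ℂ ((Wo X s i).starProjection (evd k al.1 (X (s i)))) G := by
      have h2 : (Wo X s i).starProjection G = G :=
        Submodule.starProjection_eq_self_iff.2 hGmem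
      conv_lhs => rw [← h2]
      rw [← Submodule.inner_starProjection_left_eq_right]
    rw [h1]
    refine (norm_inner_le_norm _ _).trans ?_
    rw [hGn, mul_one]

theorem exists_many_zeros (m k l w N : ℕ) (hm : 1 ≤ m) (hl : l ≤ k) (hw : 1 ≤ w)
    (hN : N = Fintype.card (Ex m k)) (e : Ex m l ⊕ Fin w ≃ Ex m k) :
    ∃ C : ℝ, 0 < C ∧ ∀ io : ℝ, 0 < io → ∀ X ∈ AnnC m k, ∀ (s : Fin N ≃ Ex m k) (i : Fin N),
      w ≤ (i : ℕ) → JW l (Wo X s i) (X (s i)) ≤ io →
      ∃ ta : Fin w → Ex m k, Function.Injective ta ∧ (∀ t, ∃ j, j < i ∧ ta t = s j) ∧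
        ∃ t0 : Fin w, ∀ r : Ex m k, (∃ j, j < i ∧ r = s j) → (∀ t, t ≠ t0 → ta t ≠ r) →
          ‖pd (Cv e (X (s i)) (X ∘ ta) t0) 0 (X r)‖ ≤ C * io * ‖Cv e (X (s i)) (X ∘ ta) t0‖ := by
  classical
  obtain ⟨C1, hC1, hjet⟩ := jet_projection m k l hm hl
  have hw0 : (0 : ℝ) < w := by exact_mod_cast hw
  refine ⟨2 ^ k * 2 * C1 * w, by positivity, ?_⟩
  intro io hio X hX s i hwi hJ
  set y := X (s i) with hy
  obtain ⟨G, hG1, hG0, hGj⟩ := cofactor_unit hN X s i io hJ
  obtain ⟨F', hF'0, hF'⟩ := hjet y (hX (s i)) G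
  have hGF : ‖G - F'‖ ≤ C1 * io := hF'.trans (mul_le_mul_of_nonneg_left hGj hC1.le)
  -- the admissible pairs
  let A : Finset ((Fin w → Ex m k) × Fin w) := Finset.univ.filter fun p =>
    Function.Injective p.1 ∧ ∀ t, ∃ j, j < i ∧ p.1 t = s j
  have hAne : A.Nonempty := by
    let f : Fin w → Fin N := fun t => ⟨t, lt_of_lt_of_le t.2 (hwi.trans i.2.le)⟩
    refine ⟨(fun t => s (f t), ⟨0, hw⟩), ?_⟩
    simp only [A, Finset.mem_filter, Finset.mem_univ, true_and]
    constructor
    · intro t t' h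
      have h' := s.injective h
      simp only [f, Fin.mk.injEq] at h'
      exact Fin.ext h'
    · intro t
      exact ⟨f t, Fin.lt_def.2 (lt_of_lt_of_le t.2 hwi), rfl⟩
  obtain ⟨⟨ta, t0⟩, hmem, hmax⟩ := A.exists_max_image
    (fun p => ‖Cv e y (X ∘ p.1) p.2‖) hAne
  simp only [A, Finset.mem_filter, Finset.mem_univ, true_and] at hmem hmax
  refine ⟨ta, hmem.1, hmem.2, t0, ?_⟩
  intro r hr hrt
  have hXr : X r ∈ Ann m := hX r
  rcases le_or_gt (C1 * io) (1 / 2) with hsm | hlg
  · -- small case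
    have hF'n : 1 / 2 ≤ ‖F'‖ := by
      have h1 : ‖G‖ ≤ ‖G - F'‖ + ‖F'‖ := by
        have := norm_add_le (G - F') F'
        simpa using this
      rw [hG1] at h1
      linarith
    set ta' : Fin w → Ex m k := Function.update ta t0 r with hta'
    have hinj' : Function.Injective ta' := by
      intro t t' h
      by_cases h1 : t = t0
      · by_cases h2 : t' = t0
        · rw [h1, h2]
        · rw [hta', h1, Function.update_self, Function.update_of_ne h2] at h
          exact absurd h.symm (hrt t' h2)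
      · by_cases h2 : t' = t0
        · rw [hta', h2, Function.update_self, Function.update_of_ne h1] at h
          exact absurd h (hrt t h1)
        · rw [hta', Function.update_of_ne h1, Function.update_of_ne h2] at h
          exact hmem.1 h
    have hear' : ∀ t, ∃ j, j < i ∧ ta' t = s j := by
      intro t
      by_cases h1 : t = t0
      · obtain ⟨j, hj, hj'⟩ := hr
        exact ⟨j, hj, by rw [hta', h1, Function.update_self, hj']⟩
      · obtain ⟨j, hj, hj'⟩ := hmem.2 t
        exact ⟨j, hj, by rw [hta', Function.update_of_ne h1, hj']⟩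
    have hcomp : Function.update (X ∘ ta) t0 (X r) = X ∘ ta' := by
      rw [hta', Function.comp_update]
    rw [pd_Cv, hcomp]
    have hcr := cramer_bound e y (X ∘ ta') F' hF'0
    have hsum : ∑ t, ‖pd F' 0 ((X ∘ ta') t)‖ * ‖Cv e y (X ∘ ta') t‖ ≤
        ∑ _t : Fin w, (C1 * io * 2 ^ k) * ‖Cv e y (X ∘ ta) t0‖ := by
      refine Finset.sum_le_sum fun t _ => ?_
      have h1 : ‖pd F' 0 ((X ∘ ta') t)‖ ≤ C1 * io * 2 ^ k := by
        obtain ⟨j, hj, hj'⟩ := hear' t
        have h2 : pd F' 0 (X (s j)) = - pd (G - F') 0 (X (s j)) := by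
          rw [pd_sub_left, hG0 j hj]; ring
        rw [Function.comp_apply, hj', h2, norm_neg]
        refine (norm_pd_le_two _ (hX (s j))).trans ?_
        exact mul_le_mul_of_nonneg_right hGF (by positivity)
      have h2 : ‖Cv e y (X ∘ ta') t‖ ≤ ‖Cv e y (X ∘ ta) t0‖ := hmax (ta', t) ⟨hinj', hear'⟩
      exact mul_le_mul h1 h2 (norm_nonneg _) (by positivity)
    rw [Finset.sum_const, Finset.card_univ, Fintype.card_fin, nsmul_eq_mul] at hsum
    have h3 : ‖(Rm e y (X ∘ ta')).det‖ * (1 / 2) ≤ ‖(Rm e y (X ∘ ta')).det‖ * ‖F'‖ :=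
      mul_le_mul_of_nonneg_left hF'n (norm_nonneg _)
    have h4 : ‖(Rm e y (X ∘ ta')).det‖ * (1 / 2) ≤
        w * ((C1 * io * 2 ^ k) * ‖Cv e y (X ∘ ta) t0‖) := h3.trans (hcr.trans hsum)
    nlinarith [h4]
  · -- large case
    have h1 := norm_pd_le_two (Cv e y (X ∘ ta) t0) hXr
    refine h1.trans ?_
    have h2 : (1 : ℝ) ≤ 2 * C1 * w * io := by
      have hw1 : (1 : ℝ) ≤ w := by exact_mod_cast hw
      nlinarith [mul_pos hC1 hio]
    have h3 : 0 ≤ ‖Cv e y (X ∘ ta) t0‖ * 2 ^ k := by positivity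
    nlinarith [mul_le_mul_of_nonneg_left h2 h3]

end GPn
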