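/- piece EB: dimension count -/
import Pool.Agent.Lib_MP_e0d435_ag.Basic

open Finset MeasureTheory Complex
open scoped ENNReal ContDiff

namespace GPn

/-! ### arithmetic -/

private theorem dimCount_choose_prod (n A : ℕ) :
    (A + 1).ascFactorial n = n.factorial * (n + A).choose n := by
  rw [Nat.ascFactorial_eq_factorial_mul_choose, add_comm A n]

private theorem dimCount_prod_le (n D mu r : ℕ) (hmu : 1 ≤ mu) (hr : r + 1 = (D + 1) * mu) :
    (r + 1).ascFactorial n ≤ (D + 1).ascFactorial n * (mu - 1 + 1).ascFactorial n := by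
  induction n with
  | zero => simp
  | succ n ih =>
    rw [Nat.ascFactorial_succ, Nat.ascFactorial_succ, Nat.ascFactorial_succ]
    have h1 : r + 1 + n ≤ (D + 1 + n) * (mu - 1 + 1 + n) := by
      have h2 : mu - 1 + 1 = mu := by omega
      rw [h2, hr]
      nlinarith [Nat.zero_le (D * n), Nat.zero_le (n * mu), Nat.zero_le (n * n)]
    calc (r + 1 + n) * (r + 1).ascFactorial n
        ≤ ((D + 1 + n) * (mu - 1 + 1 + n)) *
          ((D + 1).ascFactorial n * (mu - 1 + 1).ascFactorial n) := Nat.mul_le_mul h1 ih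
      _ = _ := by ring

private theorem dimCount_mul (n D mu r : ℕ) (hmu : 1 ≤ mu) (hr : r + 1 = (D + 1) * mu) :
    (n + r).choose n ≤ n.factorial * ((n + D).choose n * (n + (mu - 1)).choose n) := by
  have h1 := dimCount_prod_le n D mu r hmu hr
  rw [dimCount_choose_prod, dimCount_choose_prod, dimCount_choose_prod] at h1
  have h2 : n.factorial * (n + r).choose n ≤
      n.factorial * (n.factorial * ((n + D).choose n * (n + (mu - 1)).choose n)) := by
    calc n.factorial * (n + r).choose n ≤ _ := h1
      _ = _ := by ring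
  exact Nat.le_of_mul_le_mul_left h2 (Nat.factorial_pos n)

private theorem dimCount_tele (n r k : ℕ) (hk : k ≤ r) :
    (n + 1 + r).choose (n + 1) ≤ (n + 1 + (r - k)).choose (n + 1) + k * (n + r).choose n := by
  induction k with
  | zero => simp
  | succ k ih =>
    have h1 := ih (by omega)
    have h2 : n + 1 + (r - k) = (n + 1 + (r - (k + 1))) + 1 := by omega
    have h3 : (n + 1 + (r - k)).choose (n + 1)
        = (n + 1 + (r - (k + 1))).choose n + (n + 1 + (r - (k + 1))).choose (n + 1) := by
      rw [h2, Nat.choose_succ_succ]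
    have h4 : (n + 1 + (r - (k + 1))).choose n ≤ (n + r).choose n :=
      Nat.choose_le_choose n (by omega)
    rw [h3] at h1
    calc (n + 1 + r).choose (n + 1) ≤ _ := h1
      _ ≤ _ := by
        rw [add_mul, one_mul]
        omega

private theorem dimCount_sub (n r k : ℕ) (hn : 1 ≤ n) (hk : k ≤ r) :
    (r + 1) * (n + r).choose n ≤ (r + 1) * (n + (r - k)).choose n + n * k * (n + r).choose n := by
  obtain ⟨n, rfl⟩ : ∃ n', n = n' + 1 := ⟨n - 1, by omega⟩
  have h1 := dimCount_tele n r k hk
  have h2 : (n + 1 + r) * (n + r).choose n = (n + 1 + r).choose (n + 1) * (n + 1) := by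
    have := Nat.add_one_mul_choose_eq (n + r) n
    have h3 : n + r + 1 = n + 1 + r := by ring
    rw [h3] at this
    exact this
  have h4 : (r + 1) * (n + r).choose n ≤ (n + 1) * (n + 1 + r).choose (n + 1) := by
    calc (r + 1) * (n + r).choose n ≤ (n + 1 + r) * (n + r).choose n :=
          Nat.mul_le_mul_right _ (by omega)
      _ = _ := by rw [h2]; ring
  calc (r + 1) * (n + 1 + r).choose (n + 1)
      ≤ (r + 1) * ((n + 1 + (r - k)).choose (n + 1) + k * (n + r).choose n) :=
        Nat.mul_le_mul_left _ h1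
    _ = (r + 1) * (n + 1 + (r - k)).choose (n + 1) + k * ((r + 1) * (n + r).choose n) := by ring
    _ ≤ (r + 1) * (n + 1 + (r - k)).choose (n + 1)
        + k * ((n + 1) * (n + 1 + r).choose (n + 1)) := by
        apply Nat.add_le_add_left
        exact Nat.mul_le_mul_left _ h4
    _ = _ := by ring

private theorem dimCount_arith (n D mu k r : ℕ) (hn : 1 ≤ n) (hmu : 1 ≤ mu)
    (hr : r + 1 = (D + 1) * mu) (hk : k ≤ r)
    (h : (n + D).choose n * (n + (mu - 1)).choose n + (n + (r - k)).choose n ≤ (n + r).choose n) :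
    (D + 1) * mu ≤ n * n.factorial * k := by
  have h1 := dimCount_mul n D mu r hmu hr
  have h2 := dimCount_sub n r k hn hk
  set Nr := (n + r).choose n with hNr
  set B := (n + D).choose n * (n + (mu - 1)).choose n with hB
  set A := (n + (r - k)).choose n with hA
  have hpos : 0 < Nr := Nat.choose_pos (by omega)
  have h3 : (r + 1) * B ≤ n * k * Nr := by
    have h4 : (r + 1) * B + (r + 1) * A ≤ (r + 1) * Nr := by
      rw [← Nat.mul_add]; exact Nat.mul_le_mul_left _ h
    omega
  rw [← hr]
  have h5 : (r + 1) * Nr ≤ (n * n.factorial * k) * Nr := by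
    calc (r + 1) * Nr ≤ (r + 1) * (n.factorial * B) := Nat.mul_le_mul_left _ h1
      _ = n.factorial * ((r + 1) * B) := by ring
      _ ≤ n.factorial * (n * k * Nr) := Nat.mul_le_mul_left _ h3
      _ = _ := by ring
  exact Nat.le_of_mul_le_mul_right h5 hpos

/-! ### restriction to lines -/

/-- the restriction of a polynomial to the line `y + t z` -/
private noncomputable def dimCountLn {m : ℕ} (y z : Pt m) :
    MvPolynomial (Fin m) ℂ →ₐ[ℂ] Polynomial ℂ :=
  MvPolynomial.aeval fun i => Polynomial.C (y i) + Polynomial.X * Polynomial.C (z i)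

private theorem dimCountLn_eval {m : ℕ} (y z : Pt m) (p : MvPolynomial (Fin m) ℂ) (s : ℂ) :
    (dimCountLn y z p).eval s = MvPolynomial.eval (fun i => y i + s * z i) p := by
  induction p using MvPolynomial.induction_on with
  | C a => simp [dimCountLn]
  | add p q hp hq => simp [map_add, hp, hq]
  | mul_X p i hp =>
    rw [map_mul, Polynomial.eval_mul, hp, map_mul, MvPolynomial.eval_X]
    congr 1
    simp only [dimCountLn, MvPolynomial.aeval_X, Polynomial.eval_add, Polynomial.eval_mul,
      Polynomial.eval_C, Polynomial.eval_X]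

/-- vanishing to order at least `mu` at `y` -/
private def dimCountMult {m : ℕ} (mu : ℕ) (y : Pt m) (p : MvPolynomial (Fin m) ℂ) : Prop :=
  ∀ z, (Polynomial.X : Polynomial ℂ) ^ mu ∣ dimCountLn y z p

private theorem dimCountMult_zero_of {m d mu : ℕ} (hd : d < mu) (y : Pt m)
    (p : MvPolynomial (Fin m) ℂ) (hp : p.IsHomogeneous d) (h : dimCountMult mu y p) : p = 0 := by
  have h1 : ∀ z, dimCountLn y z p = 0 := by
    intro z
    apply Polynomial.eq_zero_of_dvd_of_natDegree_lt (h z)
    rw [Polynomial.natDegree_X_pow]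
    have h2 : (dimCountLn y z p).natDegree ≤ d * 1 := by
      apply MvPolynomial.aeval_natDegree_le p hp.totalDegree_le
      intro i
      compute_degree
    omega
  apply MvPolynomial.funext
  intro x
  have h3 := dimCountLn_eval y (fun i => x i - y i) p 1
  rw [h1] at h3
  simp only [Polynomial.eval_zero, one_mul, add_sub_cancel] at h3
  rw [map_zero, ← h3]

private theorem dimCountMult_cancel {m mu : ℕ} (y : Pt m) (p q : MvPolynomial (Fin m) ℂ)
    (hp : MvPolynomial.eval y p ≠ 0) (h : dimCountMult mu y (p * q)) : dimCountMult mu y q := by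
  intro z
  have h1 := h z
  rw [map_mul] at h1
  apply (Polynomial.prime_X).pow_dvd_of_dvd_mul_left mu _ h1
  rw [Polynomial.X_dvd_iff]
  intro h2
  apply hp
  have h3 := dimCountLn_eval y z p 0
  rw [← Polynomial.coeff_zero_eq_eval_zero, h2] at h3
  simp only [zero_mul, add_zero] at h3
  exact h3.symm

private theorem dimCountMult_pow {m : ℕ} (mu : ℕ) (y : Pt m) (p q : MvPolynomial (Fin m) ℂ)
    (hp : MvPolynomial.eval y p = 0) : dimCountMult mu y (p ^ mu * q) := by
  intro z
  rw [map_mul, map_pow]
  apply Dvd.dvd.mul_right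
  apply pow_dvd_pow_of_dvd
  rw [Polynomial.X_dvd_iff, Polynomial.coeff_zero_eq_eval_zero, dimCountLn_eval]
  simpa using hp

private theorem dimCountMult_mul {m mu : ℕ} (y : Pt m) (p q : MvPolynomial (Fin m) ℂ)
    (hp : dimCountMult mu y p) : dimCountMult mu y (p * q) := by
  intro z
  rw [map_mul]
  exact Dvd.dvd.mul_right (hp z) _

/-! ### the polynomial of a coefficient vector -/

/-- the exponent as a finitely supported function -/
private noncomputable def dimCountExp {m d : ℕ} (a : Ex m d) : Fin m →₀ ℕ :=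
  Finsupp.equivFunOnFinite.symm a.1

private theorem dimCountExp_apply {m d : ℕ} (a : Ex m d) (i : Fin m) : dimCountExp a i = a.1 i := rfl

private theorem dimCountExp_inj {m d : ℕ} {a b : Ex m d} (h : dimCountExp a = dimCountExp b) :
    a = b := by
  apply Subtype.ext
  exact Finsupp.equivFunOnFinite.symm.injective h

private theorem dimCountExp_degree {m d : ℕ} (a : Ex m d) : (dimCountExp a).degree = d := by
  rw [Finsupp.degree_eq_sum]
  exact a.2

/-- the homogeneous polynomial with given coefficients -/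
private noncomputable def dimCountP (m d : ℕ) : (Ex m d → ℂ) →ₗ[ℂ] MvPolynomial (Fin m) ℂ :=
  ∑ a : Ex m d, (MvPolynomial.monomial (dimCountExp a)) ∘ₗ (LinearMap.proj a)

private theorem dimCountP_apply {m d : ℕ} (c : Ex m d → ℂ) :
    dimCountP m d c = ∑ a : Ex m d, MvPolynomial.monomial (dimCountExp a) (c a) := by
  simp [dimCountP]

private theorem dimCountP_hom {m d : ℕ} (c : Ex m d → ℂ) : (dimCountP m d c).IsHomogeneous d := by
  rw [dimCountP_apply]
  apply MvPolynomial.IsHomogeneous.sum
  intro a _
  exact MvPolynomial.isHomogeneous_monomial _ (dimCountExp_degree a)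

private theorem dimCountP_coeff {m d : ℕ} (c : Ex m d → ℂ) (b : Ex m d) :
    (dimCountP m d c).coeff (dimCountExp b) = c b := by
  classical
  rw [dimCountP_apply, MvPolynomial.coeff_sum, Finset.sum_eq_single b]
  · simp
  · intro a _ hab
    rw [MvPolynomial.coeff_monomial, if_neg]
    intro h
    exact hab (dimCountExp_inj h)
  · intro h; exact absurd (Finset.mem_univ b) h

private theorem dimCountP_inj {m d : ℕ} {c : Ex m d → ℂ} (h : dimCountP m d c = 0) : c = 0 := by
  funext b
  rw [← dimCountP_coeff c b, h]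
  simp

private theorem dimCountP_eval {m d : ℕ} (c : Ex m d → ℂ) (y : Pt m) :
    MvPolynomial.eval y (dimCountP m d c) = ∑ a : Ex m d, c a * dm 0 a.1 y := by
  rw [dimCountP_apply, map_sum]
  apply Finset.sum_congr rfl
  intro a _
  rw [MvPolynomial.eval_monomial, dm_zero]
  congr 1
  rw [Finsupp.prod_fintype _ _ (by intro i; simp)]
  rfl

/-- coefficients of degree `r` -/
private noncomputable def dimCountC (m r : ℕ) : MvPolynomial (Fin m) ℂ →ₗ[ℂ] (Ex m r → ℂ) :=
  LinearMap.pi fun a => MvPolynomial.lcoeff ℂ (dimCountExp a)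

private theorem dimCountC_inj {m r : ℕ} {p : MvPolynomial (Fin m) ℂ} (hp : p.IsHomogeneous r)
    (h : dimCountC m r p = 0) : p = 0 := by
  ext s
  by_cases hs : s.degree = r
  · have hs' : ∑ i, s i = r := by rw [← Finsupp.degree_eq_sum]; exact hs
    have h2 : dimCountExp (⟨s, hs'⟩ : Ex m r) = s := by
      ext i
      rfl
    have h1 : MvPolynomial.coeff (dimCountExp (⟨s, hs'⟩ : Ex m r)) p = 0 :=
      congrFun h ⟨s, hs'⟩
    rw [h2] at h1
    rw [h1]
    simp
  · rw [hp.coeff_eq_zero hs]
    simp

/-! ### derivatives along a line -/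

/-- the derivative of order `al` on the line `y + t z` -/
private noncomputable def dimCountG {m k : ℕ} (F : V m k) (al : Fin m → ℕ) (y z : Pt m) :
    Polynomial ℂ :=
  ∑ a : Ex m k, Polynomial.C (F a * (bw a.1 : ℂ)) *
    ∏ i, (Polynomial.C (((a.1 i).descFactorial (al i) : ℕ) : ℂ) *
      (Polynomial.C (y i) + Polynomial.X * Polynomial.C (z i)) ^ (a.1 i - al i))

private theorem dimCountG_eval {m k : ℕ} (F : V m k) (al : Fin m → ℕ) (y z : Pt m) :
    (dimCountG F al y z).eval 0 = pd F al y := by
  simp only [dimCountG, Polynomial.eval_finsetSum, Polynomial.eval_mul, Polynomial.eval_C,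
    Polynomial.eval_prod, Polynomial.eval_pow, Polynomial.eval_add, Polynomial.eval_X, zero_mul,
    add_zero, pd, dm]
  apply Finset.sum_congr rfl
  intro a _
  ring

private theorem dimCountG_zero {m k : ℕ} (F : V m k) (y z : Pt m) :
    dimCountG F 0 y z = dimCountLn y z (dimCountP m k fun a => F a * (bw a.1 : ℂ)) := by
  rw [dimCountP_apply, map_sum, dimCountG]
  apply Finset.sum_congr rfl
  intro a _
  rw [dimCountLn, MvPolynomial.aeval_monomial]
  rw [Finsupp.prod_fintype _ _ (by intro i; simp)]
  simp [dimCountExp_apply]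

private theorem dimCount_one_deriv (a al : ℕ) (y z : ℂ) :
    Polynomial.derivative (Polynomial.C (((a.descFactorial al : ℕ) : ℂ)) *
      (Polynomial.C y + Polynomial.X * Polynomial.C z) ^ (a - al))
    = Polynomial.C z * (Polynomial.C (((a.descFactorial (al + 1) : ℕ) : ℂ)) *
      (Polynomial.C y + Polynomial.X * Polynomial.C z) ^ (a - (al + 1))) := by
  rw [Polynomial.derivative_C_mul, Polynomial.derivative_pow, Nat.descFactorial_succ]
  have h5 : a - (al + 1) = a - al - 1 := by omega
  rw [h5]
  simp only [Polynomial.derivative_add, Polynomial.derivative_C, Polynomial.derivative_mul,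
    Polynomial.derivative_X, one_mul, mul_zero, add_zero, zero_add, Nat.cast_mul, map_mul]
  ring

private theorem dimCountG_deriv {m k : ℕ} (F : V m k) (al : Fin m → ℕ) (y z : Pt m) :
    Polynomial.derivative (dimCountG F al y z)
      = ∑ i, Polynomial.C (z i) * dimCountG F (al + Pi.single i 1) y z := by
  classical
  have h1 : ∀ (i : Fin m), Polynomial.C (z i) * dimCountG F (al + Pi.single i 1) y z
      = ∑ a : Ex m k, Polynomial.C (F a * (bw a.1 : ℂ)) *
        ((∏ j ∈ Finset.univ.erase i, (Polynomial.C (((a.1 j).descFactorial (al j) : ℕ) : ℂ) *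
          (Polynomial.C (y j) + Polynomial.X * Polynomial.C (z j)) ^ (a.1 j - al j))) *
        Polynomial.derivative (Polynomial.C (((a.1 i).descFactorial (al i) : ℕ) : ℂ) *
          (Polynomial.C (y i) + Polynomial.X * Polynomial.C (z i)) ^ (a.1 i - al i))) := by
    intro i
    rw [dimCountG, Finset.mul_sum]
    apply Finset.sum_congr rfl
    intro a _
    rw [dimCount_one_deriv, ← Finset.mul_prod_erase _ _ (Finset.mem_univ i)]
    have h2 : ∏ j ∈ Finset.univ.erase i,
        (Polynomial.C (((a.1 j).descFactorial ((al + Pi.single i 1 : Fin m → ℕ) j) : ℕ) : ℂ) *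
          (Polynomial.C (y j) + Polynomial.X * Polynomial.C (z j)) ^
            (a.1 j - (al + Pi.single i 1 : Fin m → ℕ) j))
        = ∏ j ∈ Finset.univ.erase i, (Polynomial.C (((a.1 j).descFactorial (al j) : ℕ) : ℂ) *
          (Polynomial.C (y j) + Polynomial.X * Polynomial.C (z j)) ^ (a.1 j - al j)) := by
      refine Finset.prod_congr rfl fun j hj => ?_
      have : (Pi.single i 1 : Fin m → ℕ) j = 0 := Pi.single_eq_of_ne (Finset.ne_of_mem_erase hj) _
      simp [this]
    have h4 : (al + Pi.single i 1 : Fin m → ℕ) i = al i + 1 := by simp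
    rw [h2, h4]
    ring
  rw [dimCountG, Polynomial.derivative_sum]
  simp_rw [h1]
  rw [Finset.sum_comm]
  apply Finset.sum_congr rfl
  intro a _
  rw [Polynomial.derivative_C_mul, Polynomial.derivative_prod_finset, Finset.mul_sum]

private theorem dimCountG_iter {m k : ℕ} (F : V m k) (y z : Pt m) (s : ℕ) :
    ∀ al : Fin m → ℕ, (∀ be : Fin m → ℕ, ∑ i, be i = ∑ i, al i + s → pd F be y = 0) →
    (Polynomial.derivative^[s] (dimCountG F al y z)).eval 0 = 0 := by
  induction s with
  | zero =>
    intro al h
    rw [Function.iterate_zero, id, dimCountG_eval]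
    exact h al (by simp)
  | succ s ih =>
    intro al h
    rw [Function.iterate_succ_apply, dimCountG_deriv, Polynomial.iterate_derivative_sum,
      Polynomial.eval_finsetSum]
    apply Finset.sum_eq_zero
    intro i _
    rw [Polynomial.iterate_derivative_C_mul, Polynomial.eval_mul, ih, mul_zero]
    intro be hbe
    apply h be
    rw [hbe]
    simp only [Pi.add_apply, Finset.sum_add_distrib]
    simp
    ring

private theorem dimCount_euler {m k : ℕ} (F : V m k) (al : Fin m → ℕ) (y : Pt m) :
    ∑ i, y i * pd F (al + Pi.single i 1) y = ((k : ℂ) - (∑ i, al i : ℕ)) * pd F al y := by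
  classical
  have h1 : ∀ (a : Ex m k), ∑ i, y i * dm (al + Pi.single i 1) a.1 y
      = ((k : ℂ) - (∑ i, al i : ℕ)) * dm al a.1 y := by
    intro a
    have h2 : ∀ i, y i * dm (al + Pi.single i 1) a.1 y
        = ((a.1 i : ℂ) - al i) * dm al a.1 y := by
      intro i
      have h3 : dm (al + Pi.single i 1) a.1 y =
          ((((a.1 i).descFactorial (al i + 1) : ℕ) : ℂ) * y i ^ (a.1 i - (al i + 1))) *
          ∏ j ∈ Finset.univ.erase i, (((a.1 j).descFactorial (al j) : ℕ) : ℂ) *
            y j ^ (a.1 j - al j) := by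
        rw [dm, ← Finset.mul_prod_erase _ _ (Finset.mem_univ i)]
        congr 1
        · simp
        · refine Finset.prod_congr rfl fun j hj => ?_
          have : (Pi.single i 1 : Fin m → ℕ) j = 0 :=
            Pi.single_eq_of_ne (Finset.ne_of_mem_erase hj) _
          simp [this]
      have h4 : dm al a.1 y =
          ((((a.1 i).descFactorial (al i) : ℕ) : ℂ) * y i ^ (a.1 i - al i)) *
          ∏ j ∈ Finset.univ.erase i, (((a.1 j).descFactorial (al j) : ℕ) : ℂ) *
            y j ^ (a.1 j - al j) := by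
        rw [dm, ← Finset.mul_prod_erase _ _ (Finset.mem_univ i)]
      rw [h3, h4]
      rcases lt_or_ge (al i) (a.1 i) with hlt | hge
      · rw [Nat.descFactorial_succ]
        have h5 : y i ^ (a.1 i - al i) = y i ^ (a.1 i - (al i + 1)) * y i := by
          rw [← pow_succ]
          congr 1
          omega
        rw [h5, Nat.cast_mul, Nat.cast_sub hlt.le]
        ring
      · rcases eq_or_lt_of_le hge with heq | hlt
        · rw [Nat.descFactorial_of_lt (by omega : a.1 i < al i + 1), heq]
          simp
        · rw [Nat.descFactorial_of_lt (by omega : a.1 i < al i + 1),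
            Nat.descFactorial_of_lt hlt]
          simp
    simp_rw [h2]
    rw [← Finset.sum_mul, Finset.sum_sub_distrib]
    congr 2
    · rw [← Nat.cast_sum, a.2]
    · push_cast; rfl
  simp only [pd, Finset.mul_sum]
  rw [Finset.sum_comm]
  apply Finset.sum_congr rfl
  intro a _
  have h2 := h1 a
  calc ∑ i, y i * (F a * ((bw a.1 : ℂ) * dm (al + Pi.single i 1) a.1 y))
      = F a * (bw a.1 : ℂ) * ∑ i, y i * dm (al + Pi.single i 1) a.1 y := by
        rw [Finset.mul_sum]
        apply Finset.sum_congr rfl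
        intro i _
        ring
    _ = _ := by rw [h2]; ring

private theorem dimCount_lower {m k : ℕ} (F : V m k) (y : Pt m) (q : ℕ) (hq : q ≤ k)
    (h : ∀ be : Fin m → ℕ, ∑ i, be i = q → pd F be y = 0) :
    ∀ s ≤ q, ∀ be : Fin m → ℕ, ∑ i, be i = s → pd F be y = 0 := by
  intro s hs
  obtain ⟨t, rfl⟩ : ∃ t, q = s + t := ⟨q - s, by omega⟩
  clear hs
  induction t generalizing s with
  | zero => exact h
  | succ t ih =>
    have h1 := ih (s + 1) (by omega) (by
      intro be hbe
      exact h be (by omega))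
    intro be hbe
    have h2 := dimCount_euler F be y
    have h3 : ∑ i, y i * pd F (be + Pi.single i 1) y = 0 := by
      apply Finset.sum_eq_zero
      intro i _
      rw [h1, mul_zero]
      simp only [Pi.add_apply, Finset.sum_add_distrib]
      simp [hbe]
    rw [h3, hbe] at h2
    have h4 : ((k : ℂ) - (s : ℕ)) ≠ 0 := by
      rw [sub_ne_zero]
      intro h5
      have : k = s := by exact_mod_cast h5
      omega
    exact (mul_eq_zero.mp h2.symm).resolve_left h4

private theorem dimCount_mult {m k mu : ℕ} (F : V m k) (y : Pt m) (hmu : 1 ≤ mu)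
    (hmk : mu - 1 ≤ k) (h : ∀ be : Fin m → ℕ, ∑ i, be i = mu - 1 → pd F be y = 0) :
    dimCountMult mu y (dimCountP m k fun a => F a * (bw a.1 : ℂ)) := by
  intro z
  rw [← dimCountG_zero, Polynomial.X_pow_dvd_iff]
  intro d hd
  have h1 := dimCountG_iter F y z d 0 (by
    intro be hbe
    exact dimCount_lower F y (mu - 1) hmk h d (by omega) be (by simpa using hbe))
  rw [← Polynomial.coeff_zero_eq_eval_zero, Polynomial.coeff_iterate_derivative] at h1
  rw [zero_add, nsmul_eq_mul, Nat.descFactorial_self] at h1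
  have h2 : ((d.factorial : ℕ) : ℂ) ≠ 0 := by exact_mod_cast Nat.factorial_ne_zero d
  exact (mul_eq_zero.mp h1).resolve_left h2


theorem dimension_count (n D k mu : ℕ) (hn : 1 ≤ n) (hD : 1 ≤ D) (hmu : 1 ≤ mu) (hmk : mu - 1 ≤ k)
    (F : V (n + 1) k) (hF : F ≠ 0) (Y : Ex (n + 1) D → Pt (n + 1)) (hY : Dl Y ≠ 0)
    (hv : ∀ j, ∀ al : Ex (n + 1) (mu - 1), pd F al.1 (Y j) = 0) :
    (D + 1) * mu ≤ n * n.factorial * k := by
  classical
  obtain ⟨r, hr⟩ : ∃ r, r + 1 = (D + 1) * mu :=
    ⟨(D + 1) * mu - 1, by have : 0 < (D + 1) * mu := Nat.mul_pos (by omega) hmu; omega⟩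
  by_cases hk : k ≤ r
  swap
  · have h1 : (D + 1) * mu ≤ k := by omega
    exact h1.trans (Nat.le_mul_of_pos_left k (Nat.mul_pos hn (Nat.factorial_pos n)))
  apply dimCount_arith n D mu k r hn hmu hr hk
  -- the polynomial of `F`
  set PF := dimCountP (n + 1) k (fun a => F a * (bw a.1 : ℂ)) with hPFdef
  have hPF : PF ≠ 0 := by
    intro h
    apply hF
    have h0 := dimCountP_inj h
    ext a
    have h1 := congrFun h0 a
    rcases mul_eq_zero.mp h1 with h1 | h1
    · exact h1
    · exact absurd (Complex.ofReal_eq_zero.mp h1) (bw_pos _).ne'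
  have hmult : ∀ j, dimCountMult mu (Y j) PF := fun j =>
    dimCount_mult F (Y j) hmu hmk (fun be hbe => hv j ⟨be, hbe⟩)
  -- the Lagrange basis
  have hdet : IsUnit (Mx Y).det := by
    rw [isUnit_iff_ne_zero]
    intro h
    apply hY
    rw [Dl, h, norm_zero]
  have hW : Mx Y * (Mx Y)⁻¹ = 1 := Matrix.mul_nonsing_inv _ hdet
  set l : Ex (n + 1) D → MvPolynomial (Fin (n + 1)) ℂ :=
    fun j => dimCountP (n + 1) D (fun a => (bw a.1 : ℂ) * (Mx Y)⁻¹ a j) with hldef
  have hl : ∀ i j, MvPolynomial.eval (Y i) (l j) = (1 : Matrix _ _ ℂ) i j := by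
    intro i j
    rw [← hW, Matrix.mul_apply, hldef]
    simp only
    rw [dimCountP_eval]
    apply Finset.sum_congr rfl
    intro a _
    rw [Mx_apply]
    ring
  -- the linear map
  let L : (Ex (n + 1) D → Ex (n + 1) (mu - 1) → ℂ) × (Ex (n + 1) (r - k) → ℂ) →ₗ[ℂ]
      MvPolynomial (Fin (n + 1)) ℂ :=
    LinearMap.coprod
      (∑ j, (LinearMap.mulLeft ℂ (l j ^ mu)) ∘ₗ (dimCountP (n + 1) (mu - 1)) ∘ₗ
        (LinearMap.proj j))
      ((LinearMap.mulLeft ℂ PF) ∘ₗ dimCountP (n + 1) (r - k))
  have hL : ∀ q g, L (q, g) = ∑ j, l j ^ mu * dimCountP (n + 1) (mu - 1) (q j)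
      + PF * dimCountP (n + 1) (r - k) g := by
    intro q g
    simp [L]
  have hhom : ∀ x, (L x).IsHomogeneous r := by
    rintro ⟨q, g⟩
    rw [hL]
    apply MvPolynomial.IsHomogeneous.add
    · apply MvPolynomial.IsHomogeneous.sum
      intro j _
      have h1 : (l j ^ mu * dimCountP (n + 1) (mu - 1) (q j)).IsHomogeneous
          (D * mu + (mu - 1)) :=
        ((dimCountP_hom _).pow mu).mul (dimCountP_hom _)
      have h2 : D * mu + (mu - 1) = r := by
        have h3 : (D + 1) * mu = D * mu + mu := by ring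
        omega
      rwa [h2] at h1
    · have h1 : (PF * dimCountP (n + 1) (r - k) g).IsHomogeneous (k + (r - k)) :=
        (dimCountP_hom _).mul (dimCountP_hom _)
      have h2 : k + (r - k) = r := by omega
      rwa [h2] at h1
  have hinj : Function.Injective (dimCountC (n + 1) r ∘ₗ L) := by
    rw [← LinearMap.ker_eq_bot, LinearMap.ker_eq_bot']
    rintro ⟨q, g⟩ hx
    have h0 : L (q, g) = 0 := dimCountC_inj (hhom _) hx
    rw [hL] at h0
    have hq : ∀ i, q i = 0 := by
      intro i
      apply dimCountP_inj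
      apply dimCountMult_zero_of (by omega : mu - 1 < mu) (Y i) _ (dimCountP_hom _)
      apply dimCountMult_cancel (Y i) (l i ^ mu)
      · rw [map_pow, hl]
        simp
      · intro z
        have h1 : l i ^ mu * dimCountP (n + 1) (mu - 1) (q i)
            = - (∑ j ∈ Finset.univ.erase i, l j ^ mu * dimCountP (n + 1) (mu - 1) (q j))
              - PF * dimCountP (n + 1) (r - k) g := by
          rw [← Finset.add_sum_erase _ _ (Finset.mem_univ i)] at h0
          linear_combination h0
        rw [h1, map_sub, map_neg, map_sum]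
        apply dvd_sub
        · rw [dvd_neg]
          apply Finset.dvd_sum
          intro j hj
          apply dimCountMult_pow mu (Y i) (l j) _ _ z
          rw [hl, Matrix.one_apply_ne (Finset.ne_of_mem_erase hj).symm]
        · exact dimCountMult_mul (Y i) PF _ (hmult i) z
    have hq' : q = 0 := funext hq
    rw [hq'] at h0
    have h2 : PF * dimCountP (n + 1) (r - k) g = 0 := by
      simpa using h0
    have h3 : g = 0 := dimCountP_inj ((mul_eq_zero.mp h2).resolve_left hPF)
    rw [hq', h3]
    rfl
  have hfin := LinearMap.finrank_le_finrank_of_injective hinj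
  rw [Module.finrank_prod, Module.finrank_pi_fintype, Module.finrank_pi, Module.finrank_pi] at hfin
  simp only [Module.finrank_pi, Finset.sum_const, Finset.card_univ, smul_eq_mul, card_Ex] at hfin
  exact hfin

end GPn
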