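/- definitions for the Gibbs measure part -/
import Pool.Agent.Lib_MP_e0d435_ag.Defs
import Pool.Agent.Lib_MP_e0d435_ag.HDefs

open Finset MeasureTheory Complex
open scoped ENNReal ContDiff

namespace GPn

/-- the regularised energy; exp(-Psi) is the density of the regularised Gibbs measure -/
noncomputable def Psi (n k : ℕ) (c ep : ℝ) (X : Ex (n + 1) k → Pt (n + 1)) : ℝ :=
  c * Real.log (Dl X ^ 2 + ep)
    + ∑ j, (((n : ℝ) + 1 - c * k) / 2 * Real.log (nsq (X j) + ep) + nsq (X j))

/-- smooth substitute for the indicator function of the set where g is small -/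
noncomputable def wg {m D : ℕ} (p : ℕ) (ep : ℝ) (g : V m D) (x : Pt m) : ℝ :=
  (1 - ‖pd g 0 x‖ ^ 2 / (nsq x + ep) ^ D) ^ p

end GPn
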