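/- piece GC: integrability of exp(-Psi) and small radii -/
import Pool.Agent.Lib_MP_e0d435_ag.Basic
import Pool.Agent.Lib_MP_e0d435_ag.GDefs

open Finset MeasureTheory Complex
open scoped ENNReal ContDiff

namespace GPn

private theorem psiInt_gauss1 : Integrable (fun z : ℂ => Real.exp (-‖z‖ ^ 2)) := by
  have h0 : Integrable (fun x : ℝ => Real.exp (-x ^ 2)) := by
    have := integrable_exp_neg_mul_sq (b := 1) one_pos
    refine this.congr (Filter.Eventually.of_forall fun x => ?_)
    simp
  have h1 : Integrable (fun q : ℝ × ℝ => Real.exp (-q.1 ^ 2) * Real.exp (-q.2 ^ 2)) :=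
    h0.mul_prod h0
  have h2 := (Complex.volume_preserving_equiv_real_prod.integrable_comp_emb
    Complex.measurableEquivRealProd.measurableEmbedding).2 h1
  refine h2.congr (Filter.Eventually.of_forall fun z => ?_)
  simp only [Function.comp_apply, Complex.measurableEquivRealProd_apply]
  rw [← Real.exp_add]
  congr 1
  rw [← Complex.normSq_eq_norm_sq, Complex.normSq_apply]
  ring

private theorem psiInt_gauss2 (m : ℕ) : Integrable (fun x : Pt m => Real.exp (-nsq x)) := by
  have h := Integrable.fintype_prod (μ := fun _ : Fin m => (volume : Measure ℂ))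
    (f := fun (_ : Fin m) (z : ℂ) => Real.exp (-‖z‖ ^ 2)) (fun _ => psiInt_gauss1)
  refine h.congr (Filter.Eventually.of_forall fun x => ?_)
  simp only [nsq]
  rw [← Real.exp_sum]
  congr 1
  simp

private theorem psiInt_gauss3 (m k : ℕ) :
    Integrable (fun X : Ex m k → Pt m => ∏ j, Real.exp (-nsq (X j))) :=
  Integrable.fintype_prod (μ := fun _ : Ex m k => (volume : Measure (Pt m)))
    (f := fun (_ : Ex m k) (x : Pt m) => Real.exp (-nsq x)) (fun _ => psiInt_gauss2 m)

private theorem psiInt_pos1 {m k : ℕ} (X : Ex m k → Pt m) {ep : ℝ} (hep : 0 < ep) :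
    0 < Dl X ^ 2 + ep := by positivity

private theorem psiInt_pos2 {m : ℕ} (x : Pt m) {ep : ℝ} (hep : 0 < ep) : 0 < nsq x + ep := by
  have := nsq_nonneg x
  linarith

private theorem psiInt_cont (n k : ℕ) (c ep : ℝ) (hep : 0 < ep) :
    Continuous (fun X => Real.exp (-Psi n k c ep X)) := by
  unfold Psi
  refine Real.continuous_exp.comp (Continuous.neg (Continuous.add ?_ ?_))
  · exact continuous_const.mul (((continuous_Dl.pow 2).add continuous_const).log
      fun X => (psiInt_pos1 X hep).ne')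
  · refine continuous_finsetSum _ fun j _ => ?_
    have h : Continuous fun X : Ex (n + 1) k → Pt (n + 1) => nsq (X j) :=
      continuous_nsq.comp (continuous_apply j)
    exact (continuous_const.mul ((h.add continuous_const).log
      fun X => (psiInt_pos2 _ hep).ne')).add h

theorem exp_Psi_eq (n k : ℕ) (c ep : ℝ) (hep : 0 < ep) (X : Ex (n + 1) k → Pt (n + 1)) :
    Real.exp (-Psi n k c ep X) = (Dl X ^ 2 + ep) ^ (-c) *
      ∏ j, ((nsq (X j) + ep) ^ (-(((n : ℝ) + 1 - c * k) / 2)) * Real.exp (-nsq (X j))) := by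
  rw [Real.rpow_def_of_pos (psiInt_pos1 X hep)]
  have h1 : ∀ j, (nsq (X j) + ep) ^ (-(((n : ℝ) + 1 - c * k) / 2)) * Real.exp (-nsq (X j)) =
      Real.exp (-(((n : ℝ) + 1 - c * k) / 2 * Real.log (nsq (X j) + ep) + nsq (X j))) := by
    intro j
    rw [Real.rpow_def_of_pos (psiInt_pos2 _ hep), ← Real.exp_add]
    congr 1
    ring
  simp_rw [h1]
  rw [← Real.exp_sum, ← Real.exp_add]
  congr 1
  unfold Psi
  rw [Finset.sum_neg_distrib]
  ring

theorem exp_Psi_integrable (n k : ℕ) (c ep : ℝ) (hep : 0 < ep) (hc : 0 ≤ c)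
    (hck : c * k ≤ n + 1) : Integrable (fun X => Real.exp (-Psi n k c ep X)) := by
  have h1 := (psiInt_gauss3 (n + 1) k).const_mul
    (ep ^ (-c) * ∏ _j : Ex (n + 1) k, ep ^ (-(((n : ℝ) + 1 - c * k) / 2)))
  refine h1.mono' (psiInt_cont n k c ep hep).aestronglyMeasurable
    (Filter.Eventually.of_forall fun X => ?_)
  rw [Real.norm_of_nonneg (Real.exp_pos _).le, exp_Psi_eq n k c ep hep X, mul_assoc,
    ← Finset.prod_mul_distrib]
  have hb : -(((n : ℝ) + 1 - c * k) / 2) ≤ 0 := by linarith
  apply mul_le_mul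
  · apply Real.rpow_le_rpow_of_nonpos hep _ (by linarith)
    have : 0 ≤ Dl X ^ 2 := by positivity
    linarith
  · apply Finset.prod_le_prod
    · intro j _
      exact mul_nonneg (Real.rpow_nonneg (psiInt_pos2 _ hep).le _) (Real.exp_pos _).le
    · intro j _
      apply mul_le_mul_of_nonneg_right _ (Real.exp_pos _).le
      apply Real.rpow_le_rpow_of_nonpos hep _ hb
      have := nsq_nonneg (X j)
      linarith
  · apply Finset.prod_nonneg
    intro j _
    exact mul_nonneg (Real.rpow_nonneg (psiInt_pos2 _ hep).le _) (Real.exp_pos _).le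
  · exact Real.rpow_nonneg hep.le _

theorem exp_Psi_integral_pos (n k : ℕ) (c ep : ℝ) (hep : 0 < ep) (hc : 0 ≤ c)
    (hck : c * k ≤ n + 1) : 0 < ∫ X, Real.exp (-Psi n k c ep X) := by
  have hP : (volume : Measure (Pt (n + 1))).IsOpenPosMeasure := inferInstance
  have hne : NeZero (volume : Measure (Ex (n + 1) k → Pt (n + 1))) := ⟨fun h => by
    have h1 : (volume : Measure (Ex (n + 1) k → Pt (n + 1))) Set.univ ≠ 0 := by
      rw [volume_pi, Measure.pi_univ, Finset.prod_ne_zero_iff]
      intro i _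
      exact (isOpen_univ.measure_pos (volume : Measure (Pt (n + 1))) Set.univ_nonempty).ne'
    rw [h] at h1
    simp at h1⟩
  exact integral_exp_pos (exp_Psi_integrable n k c ep hep hc hck)

/-- scaling of one block -/
private noncomputable def psiInt_T {m k : ℕ} (j : Ex m k) (r : ℝ) :
    (Ex m k → Pt m) → (Ex m k → Pt m) := fun X => Function.update X j ((r : ℂ) • X j)

private theorem psiInt_T_cont {m k : ℕ} (j : Ex m k) (r : ℝ) : Continuous (psiInt_T j r) := by
  unfold psiInt_T
  have h : Continuous fun X : Ex m k → Pt m => (r : ℂ) • X j :=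
    (continuous_apply j).const_smul (r : ℂ)
  exact continuous_id.update j h

private theorem psiInt_map1 (m : ℕ) {r : ℝ} (hr : 0 < r) (s : Set (Pt m))
    (hs : MeasurableSet s) :
    volume ((fun x : Pt m => (r : ℂ) • x) ⁻¹' s) = ENNReal.ofReal ((r ^ (2 * m))⁻¹) * volume s := by
  have h1 := Measure.map_addHaar_smul (volume : Measure (Pt m)) hr.ne'
  have h2 : Module.finrank ℝ (Pt m) = 2 * m := by
    rw [Module.finrank_pi_fintype]
    simp [Complex.finrank_real_complex, mul_comm]
  rw [h2, abs_of_pos (by positivity)] at h1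
  have h3 : (fun x : Pt m => (r : ℂ) • x) = fun x : Pt m => r • x := by
    funext x
    ext i
    simp
  rw [h3]
  have h4 := congrArg (fun μ : Measure (Pt m) => μ s) h1
  simp only [Measure.smul_apply, smul_eq_mul] at h4
  rw [← h4, Measure.map_apply (measurable_const_smul r) hs]

private theorem psiInt_map2 {m k : ℕ} (j : Ex m k) {r : ℝ} (hr : 0 < r) :
    Measure.map (psiInt_T j r) (volume : Measure (Ex m k → Pt m)) =
      ENNReal.ofReal ((r ^ (2 * m))⁻¹) • (volume : Measure (Ex m k → Pt m)) := by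
  set c : ℝ≥0∞ := ENNReal.ofReal ((r ^ (2 * m))⁻¹) with hc
  have hc0 : c ≠ 0 := by
    rw [hc]
    have : 0 < (r ^ (2 * m))⁻¹ := by positivity
    simpa using this
  have hct : c ≠ ⊤ := ENNReal.ofReal_ne_top
  have key : Measure.pi (fun _ : Ex m k => (volume : Measure (Pt m))) =
      c⁻¹ • Measure.map (psiInt_T j r) (volume : Measure (Ex m k → Pt m)) := by
    apply Measure.pi_eq
    intro s hs
    rw [Measure.smul_apply, smul_eq_mul,
      Measure.map_apply (psiInt_T_cont j r).measurable (MeasurableSet.univ_pi hs)]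
    have h1 : psiInt_T j r ⁻¹' (Set.pi Set.univ s) = Set.pi Set.univ
        (fun i => if i = j then (fun x : Pt m => (r : ℂ) • x) ⁻¹' (s i) else s i) := by
      ext X
      simp only [Set.mem_preimage, Set.mem_univ_pi, psiInt_T]
      refine forall_congr' fun i => ?_
      by_cases hij : i = j
      · subst hij; simp
      · simp [hij]
    rw [h1, volume_pi, Measure.pi_pi, ← Finset.mul_prod_erase _ _ (Finset.mem_univ j),
      ← Finset.mul_prod_erase (Finset.univ) (fun i => volume (s i)) (Finset.mem_univ j), if_pos rfl,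
      psiInt_map1 m hr _ (hs j), ← hc]
    have h2 : ∏ i ∈ Finset.univ.erase j, volume
        (if i = j then (fun x : Pt m => (r : ℂ) • x) ⁻¹' (s i) else s i) =
        ∏ i ∈ Finset.univ.erase j, volume (s i) := by
      apply Finset.prod_congr rfl
      intro i hi
      rw [if_neg (Finset.ne_of_mem_erase hi)]
    rw [h2, mul_assoc, ← mul_assoc, ENNReal.inv_mul_cancel hc0 hct, one_mul]
  have h3 : (volume : Measure (Ex m k → Pt m)) =
      c⁻¹ • Measure.map (psiInt_T j r) (volume : Measure (Ex m k → Pt m)) := by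
    rw [← key]; rfl
  conv_rhs => rw [h3]
  rw [smul_smul, ENNReal.mul_inv_cancel hc0 hct, one_smul]

private theorem psiInt_nsq_smul {m : ℕ} (r : ℝ) (x : Pt m) :
    nsq ((r : ℂ) • x) = r ^ 2 * nsq x := by
  unfold nsq
  rw [Finset.mul_sum]
  refine Finset.sum_congr rfl fun i _ => ?_
  rw [Pi.smul_apply, smul_eq_mul, norm_mul, mul_pow, Complex.norm_real, Real.norm_eq_abs, sq_abs]

private theorem psiInt_psi_T (n k : ℕ) (c ep : ℝ) (hep : 0 < ep) (hc : 0 ≤ c)
    (hck : c * k < n + 1) (a : ℝ) (ha : 0 < a) (ha1 : a ≤ 1) (j : Ex (n + 1) k)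
    (X : Ex (n + 1) k → Pt (n + 1)) (hX : nsq (X j) < 1) :
    Psi n k c ep X + (c * k + ((n : ℝ) + 1 - c * k) / 2) * Real.log a - 1 ≤
      Psi n k c ep (psiInt_T j (Real.sqrt a) X) := by
  have hsq : Real.sqrt a ^ 2 = a := Real.sq_sqrt ha.le
  have hD : Dl (psiInt_T j (Real.sqrt a) X) ^ 2 = a ^ k * Dl X ^ 2 := by
    unfold psiInt_T
    rw [Dl_smul_at, Complex.norm_real, Real.norm_of_nonneg (Real.sqrt_nonneg a), mul_pow,
      ← pow_mul, mul_comm k 2, pow_mul, hsq]
  have hlog1 : (k : ℝ) * Real.log a + Real.log (Dl X ^ 2 + ep) ≤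
      Real.log (Dl (psiInt_T j (Real.sqrt a) X) ^ 2 + ep) := by
    rw [hD, ← Real.log_pow, ← Real.log_mul (by positivity) (psiInt_pos1 X hep).ne']
    apply Real.log_le_log
    · exact mul_pos (by positivity) (psiInt_pos1 X hep)
    · have h1 : a ^ k ≤ 1 := pow_le_one₀ ha.le ha1
      nlinarith
  set β : ℝ := ((n : ℝ) + 1 - c * k) / 2 with hβ
  have hβ0 : 0 ≤ β := by rw [hβ]; linarith
  have hlog2 : Real.log a + Real.log (nsq (X j) + ep) ≤
      Real.log (nsq (psiInt_T j (Real.sqrt a) X j) + ep) := by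
    unfold psiInt_T
    rw [Function.update_self, psiInt_nsq_smul, hsq, ← Real.log_mul ha.ne'
      (psiInt_pos2 _ hep).ne']
    apply Real.log_le_log
    · exact mul_pos ha (psiInt_pos2 _ hep)
    · nlinarith
  have hn : nsq (X j) - 1 ≤ nsq (psiInt_T j (Real.sqrt a) X j) := by
    have h1 := nsq_nonneg (psiInt_T j (Real.sqrt a) X j)
    linarith
  have hsum : ∑ i, (β * Real.log (nsq (X i) + ep) + nsq (X i)) + (β * Real.log a - 1) ≤
      ∑ i, (β * Real.log (nsq (psiInt_T j (Real.sqrt a) X i) + ep) +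
        nsq (psiInt_T j (Real.sqrt a) X i)) := by
    rw [← Finset.add_sum_erase _ _ (Finset.mem_univ j),
      ← Finset.add_sum_erase _ (fun i => β * Real.log (nsq (psiInt_T j (Real.sqrt a) X i) + ep) +
        nsq (psiInt_T j (Real.sqrt a) X i)) (Finset.mem_univ j)]
    have h1 : ∑ i ∈ Finset.univ.erase j,
        (β * Real.log (nsq (psiInt_T j (Real.sqrt a) X i) + ep) +
          nsq (psiInt_T j (Real.sqrt a) X i)) =
        ∑ i ∈ Finset.univ.erase j, (β * Real.log (nsq (X i) + ep) + nsq (X i)) := by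
      apply Finset.sum_congr rfl
      intro i hi
      unfold psiInt_T
      rw [Function.update_of_ne (Finset.ne_of_mem_erase hi)]
    rw [h1]
    have h2 := mul_le_mul_of_nonneg_left hlog2 hβ0
    linarith
  have h3 := mul_le_mul_of_nonneg_left hlog1 hc
  unfold Psi
  rw [← hβ]
  linarith

theorem small_radius (n k : ℕ) (c ep : ℝ) (hep : 0 < ep) (hc : 0 ≤ c) (hck : c * k < n + 1)
    (a : ℝ) (ha : 0 < a) (ha1 : a ≤ 1) (j : Ex (n + 1) k) :
    ∫ X in {X : Ex (n + 1) k → Pt (n + 1) | nsq (X j) < a}, Real.exp (-Psi n k c ep X) ≤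
      Real.exp 1 * a ^ (((n : ℝ) + 1 - c * k) / 2) * ∫ X, Real.exp (-Psi n k c ep X) := by
  set F : (Ex (n + 1) k → Pt (n + 1)) → ℝ := fun X => Real.exp (-Psi n k c ep X) with hF
  have hFint : Integrable F := exp_Psi_integrable n k c ep hep hc hck.le
  have hFcont : Continuous F := psiInt_cont n k c ep hep
  have hFpos : ∀ X, 0 < F X := fun X => Real.exp_pos _
  set r : ℝ := Real.sqrt a with hr
  have hr0 : 0 < r := Real.sqrt_pos.2 ha
  have hsq : r ^ 2 = a := Real.sq_sqrt ha.le
  have hcn : Continuous fun X : Ex (n + 1) k → Pt (n + 1) => nsq (X j) :=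
    continuous_nsq.comp (continuous_apply j)
  have hmeas : MeasurableSet {X : Ex (n + 1) k → Pt (n + 1) | nsq (X j) < a} :=
    (isOpen_lt hcn continuous_const).measurableSet
  set G : (Ex (n + 1) k → Pt (n + 1)) → ℝ :=
    Set.indicator {X : Ex (n + 1) k → Pt (n + 1) | nsq (X j) < a} F with hG
  have hGint : Integrable G := hFint.indicator hmeas
  have hmap := psiInt_map2 j hr0
  have hcpos : 0 < (r ^ (2 * (n + 1)))⁻¹ := by positivity
  have hTm : Measurable (psiInt_T j r) := (psiInt_T_cont j r).measurable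
  have hGmeas : AEStronglyMeasurable G (Measure.map (psiInt_T j r) volume) := by
    rw [hmap]
    exact hGint.aestronglyMeasurable.mono_ac Measure.smul_absolutelyContinuous
  have h1 : ∫ X, G (psiInt_T j r X) = (r ^ (2 * (n + 1)))⁻¹ * ∫ X, G X := by
    rw [← integral_map hTm.aemeasurable hGmeas, hmap, integral_smul_measure,
      ENNReal.toReal_ofReal hcpos.le, smul_eq_mul]
  have hrp : r ^ (2 * (n + 1)) = a ^ (n + 1) := by rw [pow_mul, hsq]
  have h2 : ∫ X, G X = a ^ (n + 1) * ∫ X, G (psiInt_T j r X) := by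
    rw [h1, hrp, ← mul_assoc, mul_inv_cancel₀ (by positivity), one_mul]
  set β : ℝ := ((n : ℝ) + 1 - c * k) / 2 with hβ
  have h3 : ∀ X, G (psiInt_T j r X) ≤ Real.exp 1 * a ^ (-(c * k + β)) * F X := by
    intro X
    have hpos : 0 ≤ Real.exp 1 * a ^ (-(c * k + β)) * F X :=
      mul_nonneg (mul_nonneg (Real.exp_pos _).le (Real.rpow_nonneg ha.le _)) (hFpos X).le
    rw [hG]
    by_cases hX : psiInt_T j r X ∈ {X : Ex (n + 1) k → Pt (n + 1) | nsq (X j) < a}
    · rw [Set.indicator_of_mem hX]
      have hX1 : nsq (X j) < 1 := by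
        have h4 : nsq (psiInt_T j r X j) < a := hX
        unfold psiInt_T at h4
        rw [Function.update_self, psiInt_nsq_smul, hsq] at h4
        by_contra hcon
        rw [not_lt] at hcon
        nlinarith
      have h5 := psiInt_psi_T n k c ep hep hc hck a ha ha1 j X hX1
      rw [Real.rpow_def_of_pos ha, hF]
      simp only
      rw [← Real.exp_add, ← Real.exp_add]
      apply Real.exp_le_exp.2
      rw [← hr, ← hβ] at h5
      linarith
    · rw [Set.indicator_of_notMem hX]
      exact hpos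
  have hGT : Integrable (fun X => G (psiInt_T j r X)) := by
    have h4 : Integrable G (Measure.map (psiInt_T j r) volume) := by
      rw [hmap]
      exact hGint.smul_measure ENNReal.ofReal_ne_top
    exact (integrable_map_measure hGmeas hTm.aemeasurable).1 h4
  have h4 : ∫ X, G (psiInt_T j r X) ≤ Real.exp 1 * a ^ (-(c * k + β)) * ∫ X, F X := by
    rw [← integral_const_mul]
    exact integral_mono hGT (hFint.const_mul _) h3
  have h5 : ∫ X in {X : Ex (n + 1) k → Pt (n + 1) | nsq (X j) < a}, F X = ∫ X, G X := by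
    rw [hG, integral_indicator hmeas]
  have h6 : a ^ (n + 1) * (Real.exp 1 * a ^ (-(c * k + β)) * ∫ X, F X) =
      Real.exp 1 * a ^ β * ∫ X, F X := by
    have h7 : (a ^ (n + 1) : ℝ) * a ^ (-(c * k + β)) = a ^ β := by
      rw [← Real.rpow_natCast, ← Real.rpow_add ha]
      congr 1
      rw [hβ]
      push_cast
      ring
    calc a ^ (n + 1) * (Real.exp 1 * a ^ (-(c * k + β)) * ∫ X, F X)
        = Real.exp 1 * (a ^ (n + 1) * a ^ (-(c * k + β))) * ∫ X, F X := by ring
      _ = _ := by rw [h7]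
  rw [h5, h2, ← h6]
  exact mul_le_mul_of_nonneg_left h4 (by positivity)

end GPn
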