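/- piece GE1: radial densities -/
import Pool.Agent.Lib_MP_e0d435_ag.Basic

open Finset MeasureTheory Complex
open scoped ENNReal ContDiff

namespace GPn

private theorem radial_nsq_smul {m : ℕ} (t : ℝ) (x : Pt m) : nsq ((t : ℂ) • x) = t ^ 2 * nsq x := by
  simp only [nsq, Pi.smul_apply, smul_eq_mul, norm_mul, mul_pow, Complex.norm_real,
    Real.norm_eq_abs, sq_abs, Finset.mul_sum]

private theorem radial_scale {m : ℕ} (t : ℝ) (ht : 0 < t) (f : Pt m → ℝ≥0∞) (hf : Measurable f) :
    ∫⁻ x, f ((t : ℂ) • x) = ENNReal.ofReal ((t ^ (2 * m))⁻¹) * ∫⁻ x, f x := by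
  have h1 : (fun x : Pt m => f ((t : ℂ) • x)) = fun x : Pt m => f (t • x) := by
    funext x
    congr 1
  have h2 : Module.finrank ℝ (Pt m) = 2 * m := by
    rw [Module.finrank_pi_fintype]
    simp [mul_comm]
  have h3 := Measure.map_addHaar_smul (volume : Measure (Pt m)) ht.ne'
  rw [h2, abs_of_pos (by positivity)] at h3
  rw [h1, ← lintegral_map (g := fun x : Pt m => t • x) hf (measurable_const_smul t), h3,
    lintegral_smul_measure, smul_eq_mul]

private theorem radial_scale1 (r : ℝ) (hr : 0 < r) (f : ℝ → ℝ≥0∞) (hf : Measurable f) :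
    ∫⁻ t, f (r * t) = ENNReal.ofReal (r⁻¹) * ∫⁻ x, f x := by
  have h3 := Real.map_volume_mul_left hr.ne'
  rw [abs_of_pos (by positivity)] at h3
  rw [← lintegral_map (g := fun x : ℝ => r * x) hf (measurable_const_mul r), h3,
    lintegral_smul_measure, smul_eq_mul]

/-- the log integral -/
private theorem radial_log (r : ℝ) (hr : 0 < r) :
    ∫⁻ t : ℝ, (Set.Icc (r / 2) r).indicator (fun t => ENNReal.ofReal t⁻¹) t =
      ENNReal.ofReal (Real.log 2) := by
  rw [lintegral_indicator measurableSet_Icc]
  have h0 : r / 2 ≤ r := by linarith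
  have hint : IntegrableOn (fun t : ℝ => t⁻¹) (Set.Icc (r / 2) r) := by
    refine ContinuousOn.integrableOn_Icc ?_
    refine ContinuousOn.inv₀ continuousOn_id fun x hx => ?_
    have h1 := hx.1
    have h2 : 0 < x := by linarith
    exact h2.ne'
  rw [← ofReal_integral_eq_lintegral_ofReal hint]
  · congr 1
    rw [integral_Icc_eq_integral_Ioc, ← intervalIntegral.integral_of_le h0,
      integral_inv_of_pos (by linarith) hr]
    congr 1
    field_simp
  · refine (ae_restrict_iff' measurableSet_Icc).2 (Filter.Eventually.of_forall fun x hx => ?_)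
    have := hx.1
    have : 0 < x := by linarith
    simp only [Pi.zero_apply]
    positivity

private theorem radial_meas_Ann (m : ℕ) : MeasurableSet (Ann m) := by
  have h : Measurable (fun x : Pt m => nsq x) := continuous_nsq.measurable
  exact (measurableSet_le measurable_const h).inter (measurableSet_le h measurable_const)

private theorem radial_null (m : ℕ) (hm : 1 ≤ m) : ∀ᵐ x : Pt m, 0 < nsq x := by
  have : Nonempty (Fin m) := ⟨⟨0, hm⟩⟩
  have h0 : ∀ᵐ x : Pt m, x ≠ 0 := by
    have : (volume : Measure (Pt m)) {0} = 0 := measure_singleton 0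
    rw [ae_iff]
    simp
  filter_upwards [h0] with x hx
  rcases (nsq_nonneg x).lt_or_eq with h | h
  · exact h
  · exfalso
    apply hx
    funext i
    have h1 := (Finset.sum_eq_zero_iff_of_nonneg (s := Finset.univ)
      (f := fun i => ‖x i‖ ^ 2) fun i _ => by positivity).1 h.symm i (Finset.mem_univ i)
    simpa using h1

/-- the auxiliary one-dimensional integral -/
private noncomputable def radialC {m : ℕ} (rh : Pt m → ℝ≥0∞) (e : Pt m) : ℝ≥0∞ :=
  ∫⁻ s : ℝ, (Set.Ioi (0 : ℝ)).indicator
    (fun s => rh ((s : ℂ) • e) * ENNReal.ofReal (s ^ (2 * m) * s⁻¹)) s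

private theorem radial_key {m : ℕ} (hm : 1 ≤ m) (rh h : Pt m → ℝ≥0∞) (hrm : Measurable rh)
    (hr : ∀ x y, nsq x = nsq y → rh x = rh y) (hhm : Measurable h)
    (hh : ∀ (t : ℝ), 0 < t → ∀ x : Pt m, h ((t : ℂ) • x) = h x) (e : Pt m) (he : nsq e = 1) :
    ENNReal.ofReal (Real.log 2) * (∫⁻ x, h x * rh x) =
      radialC rh e * ∫⁻ x in Ann m, h x * ENNReal.ofReal (nsq x ^ (-(m : ℝ))) := by
  have hA := radial_meas_Ann m
  have hnm : Measurable (fun x : Pt m => nsq x) := continuous_nsq.measurable
  have hsm : Measurable (fun p : Pt m × ℝ => ((p.2 : ℂ)) • p.1) := by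
    refine Continuous.measurable ?_
    fun_prop
  have hsm' : Measurable (fun p : Pt m × ℝ => ((p.2⁻¹ : ℝ) : ℂ) • p.1) := by
    refine measurable_pi_iff.2 fun i => ?_
    simp only [Pi.smul_apply, smul_eq_mul]
    refine Measurable.mul ?_ ?_
    · exact Complex.measurable_ofReal.comp measurable_snd.inv
    · exact (measurable_pi_apply i).comp measurable_fst
  have hindA : Measurable ((Ann m).indicator (1 : Pt m → ℝ≥0∞)) :=
    measurable_one.indicator hA
  -- the double integral
  set G : Pt m → ℝ → ℝ≥0∞ := fun x t => (Set.Ioi (0 : ℝ)).indicator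
    (fun t => (Ann m).indicator 1 x * h x * rh ((t : ℂ) • x) *
      ENNReal.ofReal (t ^ (2 * m) * t⁻¹)) t with hG
  have hGm : Measurable (Function.uncurry G) := by
    have h1 : Measurable (fun p : Pt m × ℝ => (Ann m).indicator (1 : Pt m → ℝ≥0∞) p.1 * h p.1 *
        rh ((p.2 : ℂ) • p.1) * ENNReal.ofReal (p.2 ^ (2 * m) * p.2⁻¹)) := by
      refine Measurable.mul (Measurable.mul (Measurable.mul ?_ ?_) ?_) ?_
      · exact hindA.comp measurable_fst
      · exact hhm.comp measurable_fst
      · exact hrm.comp hsm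
      · exact ((measurable_snd.pow_const _).mul measurable_snd.inv).ennreal_ofReal
    have h2 : Function.uncurry G = (Prod.snd ⁻¹' (Set.Ioi (0 : ℝ))).indicator
        (fun p : Pt m × ℝ => (Ann m).indicator (1 : Pt m → ℝ≥0∞) p.1 * h p.1 *
        rh ((p.2 : ℂ) • p.1) * ENNReal.ofReal (p.2 ^ (2 * m) * p.2⁻¹)) := by
      funext p
      rcases p with ⟨x, t⟩
      simp only [Function.uncurry, hG, Set.indicator, Set.mem_preimage]
    rw [h2]
    exact h1.indicator (measurable_snd measurableSet_Ioi)
  -- first evaluation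
  have hfirst : ∫⁻ x, ∫⁻ t, G x t =
      radialC rh e * ∫⁻ x in Ann m, h x * ENNReal.ofReal (nsq x ^ (-(m : ℝ))) := by
    rw [← lintegral_indicator hA]
    have hmm : Measurable ((Ann m).indicator fun x => h x * ENNReal.ofReal (nsq x ^ (-(m : ℝ)))) := by
      refine Measurable.indicator ?_ hA
      exact hhm.mul (hnm.pow_const _).ennreal_ofReal
    rw [← lintegral_const_mul _ hmm]
    refine lintegral_congr fun x => ?_
    by_cases hx : x ∈ Ann m
    · have hn0 : 0 < nsq x := lt_of_lt_of_le one_pos hx.1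
      set r := Real.sqrt (nsq x) with hrdef
      have hr0 : 0 < r := Real.sqrt_pos.2 hn0
      have hr2 : r ^ 2 = nsq x := Real.sq_sqrt hn0.le
      set g : ℝ → ℝ≥0∞ := (Set.Ioi (0 : ℝ)).indicator
        (fun s => rh ((s : ℂ) • e) * ENNReal.ofReal (s ^ (2 * m) * s⁻¹)) with hg
      have hgm : Measurable g := by
        refine Measurable.indicator ?_ measurableSet_Ioi
        refine Measurable.mul ?_ ?_
        · refine hrm.comp ?_
          refine Continuous.measurable ?_
          fun_prop
        · exact ((measurable_id.pow_const _).mul measurable_id.inv).ennreal_ofReal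
      have h1 : ∀ t : ℝ, G x t * ENNReal.ofReal (r ^ (2 * m) * r⁻¹) = h x * g (r * t) := by
        intro t
        simp only [hG, hg]
        by_cases ht : 0 < t
        · have hrt : 0 < r * t := by positivity
          rw [Set.indicator_of_mem (Set.mem_Ioi.2 ht), Set.indicator_of_mem (Set.mem_Ioi.2 hrt),
            Set.indicator_of_mem hx, Pi.one_apply, one_mul]
          have h2 : rh ((t : ℂ) • x) = rh (((r * t : ℝ) : ℂ) • e) := by
            apply hr
            rw [radial_nsq_smul, radial_nsq_smul, he, mul_pow, hr2]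
            ring
          have h3 : ENNReal.ofReal (t ^ (2 * m) * t⁻¹) * ENNReal.ofReal (r ^ (2 * m) * r⁻¹) =
              ENNReal.ofReal ((r * t) ^ (2 * m) * (r * t)⁻¹) := by
            rw [← ENNReal.ofReal_mul (by positivity)]
            congr 1
            rw [mul_pow, mul_inv]
            ring
          rw [h2, mul_assoc, h3, mul_assoc]
        · have hrt : ¬ 0 < r * t := by
            intro h
            exact ht ((mul_pos_iff_of_pos_left hr0).1 h)
          rw [Set.indicator_of_notMem (by simpa using ht), Set.indicator_of_notMem (by simpa using hrt)]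
          simp
      have h2 : (∫⁻ t, G x t) * ENNReal.ofReal (r ^ (2 * m) * r⁻¹) =
          h x * (ENNReal.ofReal (r⁻¹) * radialC rh e) := by
        have hGx : Measurable (G x) := hGm.comp measurable_prodMk_left
        rw [← lintegral_mul_const _ hGx]
        simp_rw [h1]
        have hgr : Measurable (fun t : ℝ => g (r * t)) := hgm.comp (measurable_const_mul r)
        rw [lintegral_const_mul _ hgr, radial_scale1 r hr0 g hgm]
        rfl
      rw [Set.indicator_of_mem hx]
      have h4 : ENNReal.ofReal (r⁻¹) =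
          ENNReal.ofReal (r ^ (2 * m) * r⁻¹) * ENNReal.ofReal (nsq x ^ (-(m : ℝ))) := by
        rw [← ENNReal.ofReal_mul (by positivity)]
        congr 1
        rw [Real.rpow_neg hn0.le, Real.rpow_natCast, ← hr2, pow_mul]
        field_simp
      have h5 : ENNReal.ofReal (r ^ (2 * m) * r⁻¹) ≠ 0 := by
        rw [Ne, ENNReal.ofReal_eq_zero, not_le]
        positivity
      have h6 : ENNReal.ofReal (r ^ (2 * m) * r⁻¹) ≠ ⊤ := ENNReal.ofReal_ne_top
      refine (ENNReal.mul_left_inj h5 h6).1 ?_
      rw [h2, h4]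
      ring
    · have : ∀ t, G x t = 0 := by
        intro t
        simp only [hG, Set.indicator_of_notMem hx, zero_mul]
        simp
      simp [this, Set.indicator_of_notMem hx]
  -- second evaluation
  have hsecond : ∫⁻ t, ∫⁻ x, G x t =
      ENNReal.ofReal (Real.log 2) * (∫⁻ x, h x * rh x) := by
    set F : ℝ → Pt m → ℝ≥0∞ := fun t y => (Set.Ioi (0 : ℝ)).indicator
      (fun t => (Ann m).indicator 1 (((t⁻¹ : ℝ) : ℂ) • y) * ENNReal.ofReal t⁻¹ *
        (h y * rh y)) t with hF
    have hFm : Measurable (Function.uncurry F) := by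
      have h1 : Measurable (fun p : ℝ × Pt m =>
          (Ann m).indicator (1 : Pt m → ℝ≥0∞) (((p.1⁻¹ : ℝ) : ℂ) • p.2) * ENNReal.ofReal p.1⁻¹ *
          (h p.2 * rh p.2)) := by
        refine Measurable.mul (Measurable.mul ?_ ?_) (Measurable.mul ?_ ?_)
        · exact hindA.comp (hsm'.comp measurable_swap)
        · exact measurable_fst.inv.ennreal_ofReal
        · exact hhm.comp measurable_snd
        · exact hrm.comp measurable_snd
      have h2 : Function.uncurry F = (Prod.fst ⁻¹' (Set.Ioi (0 : ℝ))).indicator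
          (fun p : ℝ × Pt m =>
          (Ann m).indicator (1 : Pt m → ℝ≥0∞) (((p.1⁻¹ : ℝ) : ℂ) • p.2) * ENNReal.ofReal p.1⁻¹ *
          (h p.2 * rh p.2)) := by
        funext p
        rcases p with ⟨t, x⟩
        simp only [Function.uncurry, hF, Set.indicator, Set.mem_preimage]
      rw [h2]
      exact h1.indicator (measurable_fst measurableSet_Ioi)
    have h1 : ∀ t, ∫⁻ x, G x t = ∫⁻ y, F t y := by
      intro t
      by_cases ht : 0 < t
      · have h2 : ∀ x, G x t = ENNReal.ofReal (t ^ (2 * m)) * F t ((t : ℂ) • x) := by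
          intro x
          simp only [hG, hF]
          rw [Set.indicator_of_mem (Set.mem_Ioi.2 ht), Set.indicator_of_mem (Set.mem_Ioi.2 ht)]
          have h3 : ((t⁻¹ : ℝ) : ℂ) • ((t : ℂ) • x) = x := by
            rw [smul_smul, ← Complex.ofReal_mul, inv_mul_cancel₀ ht.ne', Complex.ofReal_one,
              one_smul]
          rw [h3, hh t ht x, ENNReal.ofReal_mul (by positivity)]
          ring
        simp_rw [h2]
        have hFt : Measurable (F t) := hFm.comp measurable_prodMk_left
        have hsmt : Measurable (fun x : Pt m => (t : ℂ) • x) := by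
          refine Continuous.measurable ?_
          fun_prop
        have hFts : Measurable (fun x : Pt m => F t ((t : ℂ) • x)) := hFt.comp hsmt
        rw [lintegral_const_mul _ hFts, radial_scale t ht (F t) hFt, ← mul_assoc,
          ← ENNReal.ofReal_mul (by positivity), mul_inv_cancel₀ (by positivity),
          ENNReal.ofReal_one, one_mul]
      · have h2 : ∀ x, G x t = 0 := fun x => Set.indicator_of_notMem (by simpa using ht) _
        have h3 : ∀ x, F t x = 0 := fun x => Set.indicator_of_notMem (by simpa using ht) _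
        simp [h2, h3]
    simp_rw [h1]
    have hhr : Measurable (fun x => h x * rh x) := hhm.mul hrm
    rw [lintegral_lintegral_swap hFm.aemeasurable, ← lintegral_const_mul _ hhr]
    refine lintegral_congr_ae ?_
    filter_upwards [radial_null m hm] with y hy
    set r := Real.sqrt (nsq y) with hrdef
    have hr0 : 0 < r := Real.sqrt_pos.2 hy
    have hr2 : r ^ 2 = nsq y := Real.sq_sqrt hy.le
    rw [← radial_log r hr0]
    have hmlog : Measurable ((Set.Icc (r / 2) r).indicator fun t : ℝ => ENNReal.ofReal t⁻¹) :=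
      (measurable_id.inv.ennreal_ofReal).indicator measurableSet_Icc
    rw [← lintegral_mul_const _ hmlog]
    refine lintegral_congr fun t => ?_
    simp only [hF]
    by_cases ht : 0 < t
    · rw [Set.indicator_of_mem (Set.mem_Ioi.2 ht)]
      congr 1
      have h3 : (((t⁻¹ : ℝ) : ℂ) • y ∈ Ann m) ↔ t ∈ Set.Icc (r / 2) r := by
        simp only [Ann, Set.mem_ofPred_eq, radial_nsq_smul, Set.mem_Icc, ← hr2, ← mul_pow]
        have h5 : (t⁻¹ * r) ^ 2 ≤ 4 ↔ r / 2 ≤ t := by
          rw [show (4 : ℝ) = 2 ^ 2 by norm_num, pow_le_pow_iff_left₀ (by positivity) (by norm_num)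
            (by norm_num), inv_mul_le_iff₀ ht, div_le_iff₀ (by norm_num)]
        have h6 : 1 ≤ (t⁻¹ * r) ^ 2 ↔ t ≤ r := by
          rw [show (1 : ℝ) = 1 ^ 2 by norm_num, pow_le_pow_iff_left₀ (by norm_num) (by positivity)
            (by norm_num), le_inv_mul_iff₀ ht, mul_one]
        rw [h5, h6]
        exact and_comm
      by_cases hmem : ((t⁻¹ : ℝ) : ℂ) • y ∈ Ann m
      · rw [Set.indicator_of_mem hmem, Set.indicator_of_mem (h3.1 hmem), Pi.one_apply, one_mul]
      · rw [Set.indicator_of_notMem hmem, Set.indicator_of_notMem (fun hc => hmem (h3.2 hc)),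
          zero_mul]
    · rw [Set.indicator_of_notMem (by simpa using ht), Set.indicator_of_notMem, zero_mul]
      intro hc
      apply ht
      have := hc.1
      linarith
  rw [← hsecond, ← hfirst, lintegral_lintegral_swap hGm.aemeasurable]

theorem mean_radial {m : ℕ} (hm : 1 ≤ m) (rh h : Pt m → ℝ≥0∞) (hrm : Measurable rh)
    (hr : ∀ x y, nsq x = nsq y → rh x = rh y) (hhm : Measurable h)
    (hh : ∀ (t : ℝ), 0 < t → ∀ x : Pt m, h ((t : ℂ) • x) = h x) :
    (∫⁻ x, h x * rh x) * (∫⁻ x in Ann m, ENNReal.ofReal (nsq x ^ (-(m : ℝ)))) =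
      (∫⁻ x, rh x) * (∫⁻ x in Ann m, h x * ENNReal.ofReal (nsq x ^ (-(m : ℝ)))) := by
  set e : Pt m := Pi.single ⟨0, hm⟩ 1 with he
  have hen : nsq e = 1 := by
    rw [nsq, Finset.sum_eq_single ⟨0, hm⟩]
    · simp [he]
    · intro b _ hb
      simp [he, Pi.single_eq_of_ne hb]
    · intro h
      exact absurd (Finset.mem_univ _) h
  have k1 := radial_key hm rh h hrm hr hhm hh e hen
  have k2 := radial_key hm rh (fun _ => 1) hrm hr measurable_const (fun _ _ _ => rfl) e hen
  simp only [one_mul] at k2
  have hl0 : ENNReal.ofReal (Real.log 2) ≠ 0 := by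
    rw [Ne, ENNReal.ofReal_eq_zero, not_le]
    exact Real.log_pos (by norm_num)
  refine (ENNReal.mul_right_inj hl0 ENNReal.ofReal_ne_top).1 ?_
  rw [← mul_assoc, k1, ← mul_assoc, k2]
  ring

end GPn
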