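/- piece GE2: transitivity of unitary maps -/
import Pool.Agent.Lib_MP_e0d435_ag.Basic

open Finset MeasureTheory Complex
open scoped ENNReal ContDiff

namespace GPn

private theorem nsq_eq_norm {m : ℕ} (x : Pt m) :
    nsq x = ‖(WithLp.toLp 2 x : EuclideanSpace ℂ (Fin m))‖ ^ 2 := by
  rw [EuclideanSpace.norm_sq_eq]; rfl

private theorem unitary_measPres {m : ℕ} (L : Pt m ≃ₗ[ℂ] Pt m) (hL : ∀ u, nsq (L u) = nsq u) :
    MeasurePreserving L volume volume := by
  have hcont : Continuous L := LinearMap.continuous_of_finiteDimensional (L : Pt m →ₗ[ℂ] Pt m)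
  refine ⟨hcont.measurable, ?_⟩
  let f : Pt m →ₗ[ℝ] Pt m := (L : Pt m →ₗ[ℂ] Pt m).restrictScalars ℝ
  have hdet : LinearMap.det f ≠ 0 := by
    have h1 : IsUnit (LinearMap.det f) := by
      have : f = ((L.restrictScalars ℝ : Pt m ≃ₗ[ℝ] Pt m) : Pt m →ₗ[ℝ] Pt m) := rfl
      rw [this]
      exact LinearEquiv.isUnit_det' _
    exact h1.ne_zero
  have hmap := Measure.map_linearMap_addHaar_eq_smul_addHaar (μ := (volume : Measure (Pt m))) hdet
  have hfL : (⇑f : Pt m → Pt m) = ⇑L := rfl
  rw [hfL] at hmap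
  -- unit ball
  set B : Set (Pt m) := {x | nsq x ≤ 1} with hB
  have hBm : MeasurableSet B := (isClosed_le continuous_nsq continuous_const).measurableSet
  have hpre : L ⁻¹' B = B := by
    ext u; simp [hB, hL]
  have hcomp : IsCompact B := by
    refine Metric.isCompact_of_isClosed_isBounded (isClosed_le continuous_nsq continuous_const) ?_
    refine (Metric.isBounded_closedBall (x := (0 : Pt m)) (r := 1)).subset ?_
    intro u hu
    rw [mem_closedBall_zero_iff, pi_norm_le_iff_of_nonneg zero_le_one]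
    intro i
    have h1 : ‖u i‖ ^ 2 ≤ nsq u :=
      Finset.single_le_sum (f := fun i => ‖u i‖ ^ 2) (fun i _ => by positivity) (Finset.mem_univ i)
    have h2 : ‖u i‖ ^ 2 ≤ 1 := h1.trans hu
    nlinarith [norm_nonneg (u i)]
  have hfin : volume B ≠ ⊤ := hcomp.measure_lt_top.ne
  have hpos : volume B ≠ 0 := by
    have hopen : IsOpen {x : Pt m | nsq x < 1} := isOpen_lt continuous_nsq continuous_const
    have hne : ({x : Pt m | nsq x < 1}).Nonempty := ⟨0, by simp [nsq]⟩
    have h1 := hopen.measure_pos volume hne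
    have h2 : volume {x : Pt m | nsq x < 1} ≤ volume B := measure_mono (fun x (hx : nsq x < 1) => show nsq x ≤ 1 from le_of_lt hx)
    exact (h1.trans_le h2).ne'
  have h3 : (Measure.map L volume) B = volume B := by
    rw [Measure.map_apply hcont.measurable hBm, hpre]
  rw [hmap] at h3
  have h4 : ENNReal.ofReal |(LinearMap.det f)⁻¹| = 1 := by
    have h5 : ENNReal.ofReal |(LinearMap.det f)⁻¹| * volume B = 1 * volume B := by
      rw [one_mul]; exact h3
    exact (ENNReal.mul_left_inj hpos hfin).1 h5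
  rw [hmap, h4, one_smul]

/-- unitary maps act transitively on spheres and preserve the volume -/
theorem exists_unitary {m : ℕ} (x y : Pt m) (h : nsq x = nsq y) :
    ∃ L : Pt m ≃ₗ[ℂ] Pt m, (∀ u v, ∑ i, (starRingEnd ℂ) (L u i) * L v i
      = ∑ i, (starRingEnd ℂ) (u i) * v i) ∧ L x = y ∧ MeasurePreserving L volume volume := by
  classical
  let E := EuclideanSpace ℂ (Fin m)
  let e : E ≃ₗ[ℂ] Pt m := WithLp.linearEquiv 2 ℂ (Fin m → ℂ)
  have hinner : ∀ u v : Pt m, inner ℂ (e.symm u) (e.symm v) = ∑ i, (starRingEnd ℂ) (u i) * v i := by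
    intro u v
    rw [PiLp.inner_apply]
    refine Finset.sum_congr rfl fun i _ => ?_
    rw [RCLike.inner_apply, mul_comm]
    rfl
  obtain ⟨T, hT⟩ : ∃ T : E ≃ₗᵢ[ℂ] E, T (e.symm x) = e.symm y := by
    have hn : ‖e.symm x‖ = ‖e.symm y‖ := by
      have h1 := nsq_eq_norm x
      have h2 := nsq_eq_norm y
      have h3 : ‖e.symm x‖ ^ 2 = ‖e.symm y‖ ^ 2 := by
        rw [h1, h2] at h; exact h
      exact (pow_left_inj₀ (norm_nonneg _) (norm_nonneg _) (by norm_num)).1 h3
    by_cases hx : e.symm x = 0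
    · refine ⟨LinearIsometryEquiv.refl ℂ E, ?_⟩
      rw [hx, norm_zero] at hn
      have : e.symm y = 0 := norm_eq_zero.1 hn.symm
      rw [this, hx]; simp
    · let S := Submodule.span ℂ {e.symm x}
      let q := (LinearEquiv.toSpanNonzeroSingleton ℂ E (e.symm x) hx).symm
      let g : S →ₗ[ℂ] E := (LinearMap.toSpanSingleton ℂ E (e.symm y)).comp q.toLinearMap
      have hg : ∀ s : S, ‖g s‖ = ‖s‖ := by
        intro s
        obtain ⟨c, rfl⟩ := (LinearEquiv.toSpanNonzeroSingleton ℂ E (e.symm x) hx).surjective s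
        have h1 : g ((LinearEquiv.toSpanNonzeroSingleton ℂ E (e.symm x) hx) c) = c • e.symm y := by
          change (q ((LinearEquiv.toSpanNonzeroSingleton ℂ E (e.symm x) hx) c)) • e.symm y = _
          rw [LinearEquiv.symm_apply_apply]
        rw [h1]
        have h2 : ((LinearEquiv.toSpanNonzeroSingleton ℂ E (e.symm x) hx) c : E) = c • e.symm x := rfl
        rw [Submodule.coe_norm, h2, norm_smul, norm_smul, hn]
      let gi : S →ₗᵢ[ℂ] E := ⟨g, hg⟩
      let G := gi.extend
      refine ⟨G.toLinearIsometryEquiv rfl, ?_⟩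
      have h1 : G (e.symm x) = gi ⟨e.symm x, Submodule.mem_span_singleton_self _⟩ :=
        LinearIsometry.extend_apply gi ⟨e.symm x, Submodule.mem_span_singleton_self _⟩
      have h2 : gi ⟨e.symm x, Submodule.mem_span_singleton_self _⟩ = e.symm y := by
        have h3 : (⟨e.symm x, Submodule.mem_span_singleton_self _⟩ : S)
            = (LinearEquiv.toSpanNonzeroSingleton ℂ E (e.symm x) hx) 1 := by
          apply Subtype.ext
          exact (one_smul ℂ (e.symm x)).symm
        rw [h3]
        change (q ((LinearEquiv.toSpanNonzeroSingleton ℂ E (e.symm x) hx) 1)) • e.symm y = _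
        rw [LinearEquiv.symm_apply_apply, one_smul]
      rw [LinearIsometry.coe_toLinearIsometryEquiv, h1, h2]
  let L : Pt m ≃ₗ[ℂ] Pt m := (e.symm.trans T.toLinearEquiv).trans e
  have hLe : ∀ u, e.symm (L u) = T (e.symm u) := by
    intro u; simp [L]
  have hin : ∀ u v, ∑ i, (starRingEnd ℂ) (L u i) * L v i = ∑ i, (starRingEnd ℂ) (u i) * v i := by
    intro u v
    rw [← hinner, ← hinner, hLe, hLe, T.inner_map_map]
  refine ⟨L, hin, ?_, unitary_measPres L ?_⟩
  · change e (T (e.symm x)) = y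
    rw [hT]; simp
  · intro u
    rw [nsq_eq_norm, nsq_eq_norm]
    have h1 : (WithLp.toLp 2 (L u) : E) = T (WithLp.toLp 2 u) := hLe u
    rw [h1, T.norm_map]

end GPn
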