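/- piece GB: the test functions wg -/
import Pool.Agent.Lib_MP_e0d435_ag.Basic
import Pool.Agent.Lib_MP_e0d435_ag.GDefs

open Finset MeasureTheory Complex
open scoped ENNReal ContDiff

namespace GPn

private theorem WGrad_pd_contDiff {m k : ℕ} (F : V m k) :
    ContDiff ℂ ∞ (fun x : Pt m => pd F 0 x) := by
  unfold pd dm
  fun_prop

private theorem WGrad_pd_contDiffR {m k : ℕ} (F : V m k) :
    ContDiff ℝ ∞ (fun x : Pt m => pd F 0 x) :=
  (WGrad_pd_contDiff F).restrict_scalars ℝ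

private theorem WGrad_nsq_contDiff {m : ℕ} :
    ContDiff ℝ ∞ (fun x : Pt m => nsq x) := by
  unfold nsq
  refine ContDiff.sum fun i _ => ?_
  exact (contDiff_apply ℝ ℂ i).norm_sq ℝ

theorem wg_smooth {m D : ℕ} (p : ℕ) (ep : ℝ) (hep : 0 < ep) (g : V m D) :
    ContDiff ℝ ∞ (wg p ep g) := by
  unfold wg
  refine ContDiff.pow ?_ p
  refine contDiff_const.sub ?_
  refine ContDiff.div ((WGrad_pd_contDiffR g).norm_sq ℝ) ?_ ?_
  · exact (WGrad_nsq_contDiff.add contDiff_const).pow D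
  · intro x
    have := nsq_nonneg x
    positivity

private theorem WGrad_nsq_smul {m : ℕ} (t : ℂ) (x : Pt m) : nsq (t • x) = ‖t‖ ^ 2 * nsq x := by
  simp only [nsq, Pi.smul_apply, smul_eq_mul, norm_mul, mul_pow, Finset.mul_sum]

theorem wg_circle {m D : ℕ} (p : ℕ) (ep : ℝ) (g : V m D) (t : ℝ) (x : Pt m) :
    wg p ep g (Complex.exp (t * I) • x) = wg p ep g x := by
  have h1 : ‖Complex.exp (t * I)‖ = 1 := Complex.norm_exp_ofReal_mul_I t
  simp only [wg, pd_smul, WGrad_nsq_smul, norm_mul, norm_pow, h1, one_pow, one_mul]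

private theorem WGrad_pd_sq_le {m D : ℕ} (g : V m D) (hg : ‖g‖ = 1) (x : Pt m) :
    ‖pd g 0 x‖ ^ 2 ≤ nsq x ^ D := by
  have h1 := norm_pd_le g x
  rw [hg, one_mul] at h1
  have h2 : ‖pd g 0 x‖ ^ 2 ≤ (enm x ^ D) ^ 2 := pow_le_pow_left₀ (norm_nonneg _) h1 2
  rw [← pow_mul, mul_comm, pow_mul, enm_sq] at h2
  exact h2

private theorem WGrad_G_mem {m D : ℕ} (ep : ℝ) (hep : 0 < ep) (g : V m D) (hg : ‖g‖ = 1)
    (x : Pt m) : 0 ≤ 1 - ‖pd g 0 x‖ ^ 2 / (nsq x + ep) ^ D ∧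
      1 - ‖pd g 0 x‖ ^ 2 / (nsq x + ep) ^ D ≤ 1 := by
  have h0 := nsq_nonneg x
  have h1 : 0 < (nsq x + ep) ^ D := by positivity
  have h2 := WGrad_pd_sq_le g hg x
  have h3 : nsq x ^ D ≤ (nsq x + ep) ^ D := pow_le_pow_left₀ h0 (by linarith) D
  constructor
  · rw [sub_nonneg, div_le_one h1]
    exact h2.trans h3
  · rw [sub_le_self_iff]
    positivity

theorem wg_mem {m D : ℕ} (p : ℕ) (ep : ℝ) (hep : 0 < ep) (g : V m D) (hg : ‖g‖ = 1) (x : Pt m) :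
    0 ≤ wg p ep g x ∧ wg p ep g x ≤ 1 := by
  obtain ⟨h1, h2⟩ := WGrad_G_mem ep hep g hg x
  exact ⟨pow_nonneg h1 p, pow_le_one₀ h1 h2⟩

/-- representing vector of the derivative in direction b at x -/
private noncomputable def WGrad_dev {m : ℕ} (k : ℕ) (b x : Pt m) : V m k :=
  ∑ i, (starRingEnd ℂ) (b i) • evd k (Pi.single i 1) x

private theorem WGrad_inner_dev {m k : ℕ} (b x : Pt m) (F : V m k) :
    inner ℂ (WGrad_dev k b x) F = ∑ i, b i * pd F (Pi.single i 1) x := by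
  rw [WGrad_dev, sum_inner]
  refine Finset.sum_congr rfl fun i _ => ?_
  rw [inner_smul_left, inner_evd, Complex.conj_conj]

private theorem WGrad_hasFDerivAt {m k : ℕ} (F : V m k) (x : Pt m) :
    HasFDerivAt (fun y : Pt m => pd F 0 y) (fderiv ℂ (fun y : Pt m => pd F 0 y) x) x :=
  ((WGrad_pd_contDiff F).differentiable (by simp) x).hasFDerivAt

private theorem WGrad_fderiv_apply {m k : ℕ} (F : V m k) (x b : Pt m) :
    fderiv ℂ (fun y : Pt m => pd F 0 y) x b = inner ℂ (WGrad_dev k b x) F := by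
  classical
  rw [WGrad_inner_dev]
  have h1 : ∀ i, fderiv ℂ (fun y : Pt m => pd F 0 y) x (Pi.single i 1) =
      pd F (Pi.single i 1) x := by
    intro i
    have h2 := hasDerivAt_pd F 0 x i (x i)
    have h3 : HasDerivAt (Function.update x i) (Pi.single i (1 : ℂ)) (x i) :=
      hasDerivAt_update x i (x i)
    have h4 : HasFDerivAt (fun y : Pt m => pd F 0 y) (fderiv ℂ (fun y : Pt m => pd F 0 y) x)
        (Function.update x i (x i)) := by
      rw [Function.update_eq_self]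
      exact WGrad_hasFDerivAt F x
    have h5 := h4.comp_hasDerivAt (x i) h3
    have h6 := h5.unique h2
    rw [h6, Function.update_eq_self, zero_add]
  have h7 : b = ∑ i, b i • (Pi.single i (1 : ℂ) : Pt m) := by
    ext j
    simp [Finset.sum_apply, Pi.single_apply]
  conv_lhs => rw [h7]
  rw [map_sum]
  refine Finset.sum_congr rfl fun i _ => ?_
  rw [map_smul, h1, smul_eq_mul]

/-- uniqueness of directional derivatives -/
private theorem WGrad_dir {m k : ℕ} (F : V m k) (x b : Pt m) (d : ℂ)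
    (h : HasDerivAt (fun t : ℂ => pd F 0 (x + t • b)) d 0) :
    inner ℂ (WGrad_dev k b x) F = d := by
  have h1 : HasDerivAt (fun t : ℂ => x + t • b) b 0 := by
    have := ((hasDerivAt_id (0 : ℂ)).smul_const b).const_add x
    simpa using this
  have h2 : HasFDerivAt (fun y : Pt m => pd F 0 y) (fderiv ℂ (fun y : Pt m => pd F 0 y) x)
      (x + (0 : ℂ) • b) := by
    rw [zero_smul, add_zero]
    exact WGrad_hasFDerivAt F x
  have h3 := h2.comp_hasDerivAt (0 : ℂ) h1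
  rw [← WGrad_fderiv_apply]
  exact h3.unique h

private theorem WGrad_euler {m k : ℕ} (F : V m k) (x : Pt m) :
    inner ℂ (WGrad_dev k x x) F = k * pd F 0 x := by
  refine WGrad_dir F x x _ ?_
  have h1 : (fun t : ℂ => pd F 0 (x + t • x)) = fun t : ℂ => (1 + t) ^ k * pd F 0 x := by
    funext t
    have : x + t • x = (1 + t) • x := by rw [add_smul, one_smul]
    rw [this, pd_smul]
  rw [h1]
  have h2 : HasDerivAt (fun t : ℂ => (1 + t) ^ k) (k * (1 + 0) ^ (k - 1) * 1) 0 :=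
    ((hasDerivAt_id (0 : ℂ)).const_add 1).fun_pow k
  have h3 := h2.mul_const (pd F 0 x)
  simpa using h3

private theorem WGrad_inner_dev_ev {m k : ℕ} (b x y : Pt m) :
    inner ℂ (WGrad_dev k b x) (evd k 0 y) =
      k * (∑ i, x i * (starRingEnd ℂ) (y i)) ^ (k - 1) * ∑ i, b i * (starRingEnd ℂ) (y i) := by
  refine WGrad_dir _ x b _ ?_
  have h1 : (fun t : ℂ => pd (evd k 0 y) 0 (x + t • b)) =
      fun t : ℂ => ((∑ i, x i * (starRingEnd ℂ) (y i)) +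
        t * ∑ i, b i * (starRingEnd ℂ) (y i)) ^ k := by
    funext t
    rw [← inner_evd, inner_ev_ev]
    congr 1
    rw [Finset.mul_sum, ← Finset.sum_add_distrib]
    refine Finset.sum_congr rfl fun i _ => ?_
    simp only [Pi.add_apply, Pi.smul_apply, smul_eq_mul]
    ring
  rw [h1]
  have h2 : HasDerivAt (fun t : ℂ => (∑ i, x i * (starRingEnd ℂ) (y i)) +
        t * ∑ i, b i * (starRingEnd ℂ) (y i)) (1 * ∑ i, b i * (starRingEnd ℂ) (y i)) 0 :=
    ((hasDerivAt_id (0 : ℂ)).mul_const _).const_add _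
  have h3 := h2.fun_pow k
  simpa using h3

private theorem WGrad_inner_dev_dev {m k : ℕ} (b x : Pt m) :
    inner ℂ (WGrad_dev k b x) (WGrad_dev k b x) =
      (k : ℂ) * ((k - 1 : ℕ) : ℂ) * (∑ i, x i * (starRingEnd ℂ) (x i)) ^ (k - 1 - 1) *
        (∑ i, b i * (starRingEnd ℂ) (x i)) * (∑ i, x i * (starRingEnd ℂ) (b i)) +
      k * (∑ i, x i * (starRingEnd ℂ) (x i)) ^ (k - 1) * ∑ i, b i * (starRingEnd ℂ) (b i) := by
  refine WGrad_dir _ x b _ ?_
  have h1 : (fun t : ℂ => pd (WGrad_dev k b x) 0 (x + t • b)) =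
      fun t : ℂ => k * ((∑ i, x i * (starRingEnd ℂ) (x i)) +
        t * ∑ i, b i * (starRingEnd ℂ) (x i)) ^ (k - 1) *
        ((∑ i, x i * (starRingEnd ℂ) (b i)) + t * ∑ i, b i * (starRingEnd ℂ) (b i)) := by
    funext t
    rw [← inner_evd, ← inner_conj_symm, WGrad_inner_dev_ev]
    simp only [map_mul, map_pow, map_sum, Complex.conj_conj, map_natCast]
    congr 1
    · congr 1
      congr 1
      rw [Finset.mul_sum, ← Finset.sum_add_distrib]
      refine Finset.sum_congr rfl fun i _ => ?_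
      simp only [Pi.add_apply, Pi.smul_apply, smul_eq_mul]
      ring
    · rw [Finset.mul_sum, ← Finset.sum_add_distrib]
      refine Finset.sum_congr rfl fun i _ => ?_
      simp only [Pi.add_apply, Pi.smul_apply, smul_eq_mul]
      ring
  rw [h1]
  have h2 : HasDerivAt (fun t : ℂ => (∑ i, x i * (starRingEnd ℂ) (x i)) +
        t * ∑ i, b i * (starRingEnd ℂ) (x i)) (1 * ∑ i, b i * (starRingEnd ℂ) (x i)) 0 :=
    ((hasDerivAt_id (0 : ℂ)).mul_const _).const_add _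
  have h2' : HasDerivAt (fun t : ℂ => (∑ i, x i * (starRingEnd ℂ) (b i)) +
        t * ∑ i, b i * (starRingEnd ℂ) (b i)) (1 * ∑ i, b i * (starRingEnd ℂ) (b i)) 0 :=
    ((hasDerivAt_id (0 : ℂ)).mul_const _).const_add _
  have h3 := ((h2.fun_pow (k - 1)).const_mul (k : ℂ)).mul h2'
  refine h3.congr_deriv ?_
  simp only [zero_mul, add_zero, one_mul]
  ring

private theorem WGrad_self {m : ℕ} (x : Pt m) :
    ∑ i, x i * (starRingEnd ℂ) (x i) = ((nsq x : ℝ) : ℂ) := by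
  simp only [nsq, Complex.ofReal_sum]
  refine Finset.sum_congr rfl fun i _ => ?_
  rw [Complex.mul_conj, Complex.normSq_eq_norm_sq]

/-- Cauchy-Schwarz -/
private theorem WGrad_cs {m : ℕ} (x a : Pt m) :
    ‖∑ r, (starRingEnd ℂ) (x r) * a r‖ ^ 2 ≤ nsq x * nsq a := by
  have h1 : ‖∑ r, (starRingEnd ℂ) (x r) * a r‖ ≤ ∑ r, ‖x r‖ * ‖a r‖ := by
    refine (norm_sum_le _ _).trans (le_of_eq ?_)
    refine Finset.sum_congr rfl fun r _ => ?_
    rw [norm_mul, RCLike.norm_conj]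
  have h2 : (∑ r, ‖x r‖ * ‖a r‖) ^ 2 ≤ (∑ r, ‖x r‖ ^ 2) * ∑ r, ‖a r‖ ^ 2 :=
    Finset.sum_mul_sq_le_sq_mul_sq _ _ _
  calc ‖∑ r, (starRingEnd ℂ) (x r) * a r‖ ^ 2 ≤ (∑ r, ‖x r‖ * ‖a r‖) ^ 2 :=
        pow_le_pow_left₀ (norm_nonneg _) h1 2
    _ ≤ _ := h2

private theorem WGrad_norm_dev {m k : ℕ} (b x : Pt m) :
    ‖WGrad_dev k b x‖ ^ 2 ≤ (k : ℝ) ^ 2 * nsq x ^ (k - 1) * nsq b := by
  have h1 := WGrad_inner_dev_dev (k := k) b x
  rw [inner_self_eq_norm_sq_to_K, WGrad_self, WGrad_self] at h1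
  have h2 : (∑ i, b i * (starRingEnd ℂ) (x i)) = ∑ r, (starRingEnd ℂ) (x r) * b r :=
    Finset.sum_congr rfl fun i _ => mul_comm _ _
  have h3 : (∑ i, x i * (starRingEnd ℂ) (b i)) =
      (starRingEnd ℂ) (∑ r, (starRingEnd ℂ) (x r) * b r) := by
    rw [map_sum]
    refine Finset.sum_congr rfl fun i _ => ?_
    rw [map_mul, Complex.conj_conj]
  have h4 : (∑ i, b i * (starRingEnd ℂ) (x i)) * (∑ i, x i * (starRingEnd ℂ) (b i)) =
      ((‖∑ r, (starRingEnd ℂ) (x r) * b r‖ ^ 2 : ℝ) : ℂ) := by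
    rw [h2, h3, Complex.mul_conj, Complex.normSq_eq_norm_sq]
  rw [mul_assoc (_ * _) (∑ i, b i * (starRingEnd ℂ) (x i)), h4] at h1
  have h5 : ‖WGrad_dev k b x‖ ^ 2 = (k : ℝ) * ((k - 1 : ℕ) : ℝ) * nsq x ^ (k - 1 - 1) *
      ‖∑ r, (starRingEnd ℂ) (x r) * b r‖ ^ 2 + k * nsq x ^ (k - 1) * nsq b := by
    apply Complex.ofReal_injective
    push_cast
    push_cast at h1
    exact h1
  rw [h5]
  have hx := nsq_nonneg x
  have hb := nsq_nonneg b
  have hcs := WGrad_cs x b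
  rcases Nat.lt_or_ge k 2 with hk | hk
  · interval_cases k
    · simp
    · simp
  · obtain ⟨j, rfl⟩ : ∃ j, k = j + 2 := ⟨k - 2, by omega⟩
    have e1 : j + 2 - 1 = j + 1 := by omega
    have e2 : j + 1 - 1 = j := by omega
    rw [e1, e2]
    have h6 : ((j + 2 : ℕ) : ℝ) * ((j + 1 : ℕ) : ℝ) * nsq x ^ j *
        ‖∑ r, (starRingEnd ℂ) (x r) * b r‖ ^ 2 ≤
        ((j + 2 : ℕ) : ℝ) * ((j + 1 : ℕ) : ℝ) * nsq x ^ j * (nsq x * nsq b) :=
      mul_le_mul_of_nonneg_left hcs (by positivity)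
    have h7 : ((j + 2 : ℕ) : ℝ) * ((j + 1 : ℕ) : ℝ) * nsq x ^ j * (nsq x * nsq b) +
        ((j + 2 : ℕ) : ℝ) * nsq x ^ (j + 1) * nsq b =
        ((j + 2 : ℕ) : ℝ) ^ 2 * nsq x ^ (j + 1) * nsq b := by
      push_cast
      ring
    linarith

private theorem WGrad_dir_le {m k : ℕ} (g : V m k) (hg : ‖g‖ = 1) (b x : Pt m) :
    ‖inner ℂ (WGrad_dev k b x) g‖ ^ 2 ≤ (k : ℝ) ^ 2 * nsq x ^ (k - 1) * nsq b := by
  have h1 : ‖inner ℂ (WGrad_dev k b x) g‖ ≤ ‖WGrad_dev k b x‖ := by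
    have := norm_inner_le_norm (𝕜 := ℂ) (WGrad_dev k b x) g
    rwa [hg, mul_one] at this
  exact (pow_le_pow_left₀ (norm_nonneg _) h1 2).trans (WGrad_norm_dev b x)

private theorem WGrad_dev_sub {m k : ℕ} (a x : Pt m) (c : ℂ) (F : V m k) :
    inner ℂ (WGrad_dev k (a - c • x) x) F =
      inner ℂ (WGrad_dev k a x) F - c * (k * pd F 0 x) := by
  rw [← WGrad_euler, WGrad_inner_dev, WGrad_inner_dev, WGrad_inner_dev, Finset.mul_sum,
    ← Finset.sum_sub_distrib]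
  refine Finset.sum_congr rfl fun i _ => ?_
  simp only [Pi.sub_apply, Pi.smul_apply, smul_eq_mul]
  ring

private theorem WGrad_dev_I {m k : ℕ} (a x : Pt m) (F : V m k) :
    inner ℂ (WGrad_dev k (I • a) x) F = I * inner ℂ (WGrad_dev k a x) F := by
  rw [WGrad_inner_dev, WGrad_inner_dev, Finset.mul_sum]
  refine Finset.sum_congr rfl fun i _ => ?_
  simp only [Pi.smul_apply, smul_eq_mul]
  ring

/-- expansion of the norm of a - (u / S) x -/
private theorem WGrad_nsq_sub {m : ℕ} (a x : Pt m) (S : ℝ) (hS : 0 < S) (hxS : nsq x ≤ S) :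
    nsq (a - ((∑ r, (starRingEnd ℂ) (x r) * a r) / S) • x) ≤
      nsq a - ‖∑ r, (starRingEnd ℂ) (x r) * a r‖ ^ 2 / S := by
  set u := ∑ r, (starRingEnd ℂ) (x r) * a r with hu
  have h1 : ((nsq (a - (u / S) • x) : ℝ) : ℂ) =
      nsq a - (starRingEnd ℂ) (u / S) * u - (u / S) * (starRingEnd ℂ) u
        + (u / S) * (starRingEnd ℂ) (u / S) * nsq x := by
    have hu2 : (starRingEnd ℂ) u = ∑ r, x r * (starRingEnd ℂ) (a r) := by
      rw [hu, map_sum]
      refine Finset.sum_congr rfl fun i _ => ?_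
      rw [map_mul, Complex.conj_conj]
    rw [← WGrad_self, ← WGrad_self a, ← WGrad_self x]
    conv_rhs => rw [hu2]
    conv_rhs =>
      enter [1, 1, 2, 2]
      rw [hu]
    rw [Finset.mul_sum, Finset.mul_sum, Finset.mul_sum, ← Finset.sum_sub_distrib,
      ← Finset.sum_sub_distrib, ← Finset.sum_add_distrib]
    refine Finset.sum_congr rfl fun i _ => ?_
    simp only [Pi.sub_apply, Pi.smul_apply, smul_eq_mul, map_sub, map_mul]
    ring
  have h2 : nsq (a - (u / S) • x) = nsq a - ‖u‖ ^ 2 / S - ‖u‖ ^ 2 / S + ‖u‖ ^ 2 / S ^ 2 * nsq x := by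
    apply Complex.ofReal_injective
    rw [h1]
    have h3 : (starRingEnd ℂ) u * u = ((‖u‖ ^ 2 : ℝ) : ℂ) := by
      rw [mul_comm, Complex.mul_conj, Complex.normSq_eq_norm_sq]
    have h4 : (starRingEnd ℂ) (u / S) = (starRingEnd ℂ) u / S := by
      rw [map_div₀, Complex.conj_ofReal]
    rw [h4]
    have h5 : (starRingEnd ℂ) u / S * u = ((‖u‖ ^ 2 : ℝ) : ℂ) / S := by
      rw [← h3]; ring
    have h6 : u / S * (starRingEnd ℂ) u = ((‖u‖ ^ 2 : ℝ) : ℂ) / S := by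
      rw [← h3]; ring
    have h7 : u / S * ((starRingEnd ℂ) u / S) = ((‖u‖ ^ 2 : ℝ) : ℂ) / S ^ 2 := by
      rw [← h3]; ring
    rw [h5, h6, h7]
    push_cast
    ring
  rw [h2]
  have h3 : ‖u‖ ^ 2 / S ^ 2 * nsq x ≤ ‖u‖ ^ 2 / S ^ 2 * S :=
    mul_le_mul_of_nonneg_left hxS (by positivity)
  have h4 : ‖u‖ ^ 2 / S ^ 2 * S = ‖u‖ ^ 2 / S := by
    field_simp
  linarith

/-- derivative of wg in direction a -/
private theorem WGrad_fderiv_wg {m D : ℕ} (p : ℕ) (ep : ℝ) (hep : 0 < ep) (g : V m D)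
    (x a : Pt m) :
    fderiv ℝ (wg p ep g) x a =
      -(p * (1 - ‖pd g 0 x‖ ^ 2 / (nsq x + ep) ^ D) ^ (p - 1) *
        (2 * ((starRingEnd ℂ) (pd g 0 x) * (inner ℂ (WGrad_dev D a x) g
          - ((∑ r, (starRingEnd ℂ) (x r) * a r) / ((nsq x + ep : ℝ) : ℂ)) *
            (D * pd g 0 x))).re / (nsq x + ep) ^ D)) := by
  have hγ : HasDerivAt (fun s : ℝ => x + s • a) a 0 := by
    have := ((hasDerivAt_id (0 : ℝ)).smul_const a).const_add x
    simpa using this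
  have hS : 0 < nsq x + ep := by
    have := nsq_nonneg x
    linarith
  -- the derivative by the chain rule
  have hw : HasDerivAt (fun s : ℝ => wg p ep g (x + s • a)) (fderiv ℝ (wg p ep g) x a) 0 := by
    have h1 : HasFDerivAt (wg p ep g) (fderiv ℝ (wg p ep g) x) (x + (0 : ℝ) • a) := by
      rw [zero_smul, add_zero]
      exact ((wg_smooth p ep hep g).differentiable (by simp) x).hasFDerivAt
    exact h1.comp_hasDerivAt (0 : ℝ) hγ
  -- the derivative of g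
  have hgd : HasDerivAt (fun s : ℝ => pd g 0 (x + s • a)) (inner ℂ (WGrad_dev D a x) g) 0 := by
    have h1 : HasFDerivAt (fun y : Pt m => pd g 0 y)
        ((fderiv ℂ (fun y : Pt m => pd g 0 y) x).restrictScalars ℝ) (x + (0 : ℝ) • a) := by
      rw [zero_smul, add_zero]
      exact (WGrad_hasFDerivAt g x).restrictScalars ℝ
    have h2 := h1.comp_hasDerivAt (0 : ℝ) hγ
    rw [← WGrad_fderiv_apply]
    exact h2
  have hg2 : HasDerivAt (fun s : ℝ => ‖pd g 0 (x + s • a)‖ ^ 2)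
      (2 * ((starRingEnd ℂ) (pd g 0 x) * inner ℂ (WGrad_dev D a x) g).re) 0 := by
    have h1 := hgd.norm_sq
    refine h1.congr_deriv ?_
    rw [Complex.inner]
    simp
    ring
  have hn : HasDerivAt (fun s : ℝ => nsq (x + s • a))
      (2 * (∑ r, (starRingEnd ℂ) (x r) * a r).re) 0 := by
    unfold nsq
    have h1 : ∀ i ∈ (Finset.univ : Finset (Fin m)),
        HasDerivAt (fun s : ℝ => ‖(x + s • a) i‖ ^ 2)
        (2 * ((starRingEnd ℂ) (x i) * a i).re) 0 := by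
      intro i _
      have h2 : HasDerivAt (fun s : ℝ => (x + s • a) i) (a i) 0 := (hasDerivAt_pi.1 hγ) i
      have h3 := h2.norm_sq
      refine h3.congr_deriv ?_
      rw [Complex.inner]
      simp
      ring
    have h4 := HasDerivAt.fun_sum h1
    refine h4.congr_deriv ?_
    rw [← Finset.mul_sum, Complex.re_sum]
  have hd : HasDerivAt (fun s : ℝ => (nsq (x + s • a) + ep) ^ D)
      (D * (nsq x + ep) ^ (D - 1) * (2 * (∑ r, (starRingEnd ℂ) (x r) * a r).re)) 0 := by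
    have h1 := (hn.add_const ep).fun_pow D
    simpa using h1
  have hq : HasDerivAt (fun s : ℝ => ‖pd g 0 (x + s • a)‖ ^ 2 / (nsq (x + s • a) + ep) ^ D)
      (((2 * ((starRingEnd ℂ) (pd g 0 x) * inner ℂ (WGrad_dev D a x) g).re) * (nsq x + ep) ^ D
        - ‖pd g 0 x‖ ^ 2 * (D * (nsq x + ep) ^ (D - 1) *
          (2 * (∑ r, (starRingEnd ℂ) (x r) * a r).re))) / ((nsq x + ep) ^ D) ^ 2) 0 := by
    have h1 := hg2.fun_div hd (by
      simp only [zero_smul, add_zero]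
      positivity)
    simpa using h1
  have hfin := (hq.const_sub 1).fun_pow p
  have heq := hw.unique hfin
  rw [heq]
  simp only [zero_smul, add_zero]
  set S := nsq x + ep with hSdef
  set u := ∑ r, (starRingEnd ℂ) (x r) * a r with hu
  set v := inner ℂ (WGrad_dev D a x) g with hv
  set z := pd g 0 x with hz
  have h8 : ((starRingEnd ℂ) z * (v - u / (S : ℂ) * (D * z))).re =
      ((starRingEnd ℂ) z * v).re - D * ‖z‖ ^ 2 * u.re / S := by
    have h9 : (starRingEnd ℂ) z * (v - u / (S : ℂ) * (D * z)) =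
        (starRingEnd ℂ) z * v - ((D * ‖z‖ ^ 2 / S : ℝ) : ℂ) * u := by
      have h10 : (starRingEnd ℂ) z * z = ((‖z‖ ^ 2 : ℝ) : ℂ) := by
        rw [mul_comm, Complex.mul_conj, Complex.normSq_eq_norm_sq]
      have h11 : (starRingEnd ℂ) z * (v - u / (S : ℂ) * (D * z)) =
        (starRingEnd ℂ) z * v - (D * ((starRingEnd ℂ) z * z) / (S : ℂ)) * u := by ring
      rw [h11, h10]
      push_cast
      ring
    rw [h9, Complex.sub_re, Complex.re_ofReal_mul]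
    ring
  rw [h8]
  have h12 : ((2 * ((starRingEnd ℂ) z * v).re) * S ^ D
        - ‖z‖ ^ 2 * (D * S ^ (D - 1) * (2 * u.re))) / (S ^ D) ^ 2 =
      2 * (((starRingEnd ℂ) z * v).re - D * ‖z‖ ^ 2 * u.re / S) / S ^ D := by
    rcases Nat.eq_zero_or_pos D with hD | hD
    · simp [hD]
    · obtain ⟨j, rfl⟩ : ∃ j, D = j + 1 := ⟨D - 1, by omega⟩
      rw [Nat.add_sub_cancel]
      field_simp
      ring
  rw [h12]
  ring

theorem wg_grad {m D : ℕ} (p : ℕ) (ep : ℝ) (hep : 0 < ep) (g : V m D) (hg : ‖g‖ = 1)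
    (x a : Pt m) :
    (fderiv ℝ (wg p ep g) x a) ^ 2 + (fderiv ℝ (wg p ep g) x (I • a)) ^ 2 ≤
      4 * (p : ℝ) ^ 2 * (D : ℝ) ^ 2 * (((nsq x + ep) * nsq a
        - ‖∑ r, (starRingEnd ℂ) (x r) * a r‖ ^ 2) / (nsq x + ep) ^ 2) := by
  have hx := nsq_nonneg x
  have hS : 0 < nsq x + ep := by linarith
  rw [WGrad_fderiv_wg p ep hep g x a, WGrad_fderiv_wg p ep hep g x (I • a), WGrad_dev_I]
  have hIu : ∑ r, (starRingEnd ℂ) (x r) * (I • a) r = I * ∑ r, (starRingEnd ℂ) (x r) * a r := by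
    rw [Finset.mul_sum]
    refine Finset.sum_congr rfl fun r _ => ?_
    simp only [Pi.smul_apply, smul_eq_mul]
    ring
  rw [hIu]
  obtain ⟨hG0, hG1⟩ := WGrad_G_mem ep hep g hg x
  set w := 1 - ‖pd g 0 x‖ ^ 2 / (nsq x + ep) ^ D with hw
  have hdir := WGrad_dir_le g hg
    (a - ((∑ r, (starRingEnd ℂ) (x r) * a r) / ((nsq x + ep : ℝ) : ℂ)) • x) x
  rw [WGrad_dev_sub] at hdir
  have hnb := WGrad_nsq_sub a x (nsq x + ep) hS (by linarith)
  have hz2 := WGrad_pd_sq_le g hg x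
  set S := nsq x + ep with hSdef
  set u := ∑ r, (starRingEnd ℂ) (x r) * a r with hu
  set v := inner ℂ (WGrad_dev D a x) g with hv
  set z := pd g 0 x with hz
  set d := v - u / (S : ℂ) * (D * z) with hd
  have h1 : I * v - I * u / (S : ℂ) * (D * z) = I * d := by rw [hd]; ring
  rw [h1]
  have h2 : ((starRingEnd ℂ) z * (I * d)).re = -((starRingEnd ℂ) z * d).im := by
    have : (starRingEnd ℂ) z * (I * d) = I * ((starRingEnd ℂ) z * d) := by ring
    rw [this, Complex.I_mul_re]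
  rw [h2]
  have h3 : ((starRingEnd ℂ) z * d).re ^ 2 + ((starRingEnd ℂ) z * d).im ^ 2 =
      ‖z‖ ^ 2 * ‖d‖ ^ 2 := by
    have h4 := Complex.normSq_eq_norm_sq ((starRingEnd ℂ) z * d)
    rw [Complex.normSq_apply, norm_mul, RCLike.norm_conj, mul_pow] at h4
    rw [← h4]; ring
  have h5 : (-(p * w ^ (p - 1) * (2 * ((starRingEnd ℂ) z * d).re / S ^ D))) ^ 2 +
      (-(p * w ^ (p - 1) * (2 * -((starRingEnd ℂ) z * d).im / S ^ D))) ^ 2 =
      4 * (p : ℝ) ^ 2 * (w ^ (p - 1)) ^ 2 * (‖z‖ ^ 2 * ‖d‖ ^ 2 / (S ^ D) ^ 2) := by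
    rw [← h3]
    field_simp
    ring
  rw [h5]
  have h6 : (w ^ (p - 1)) ^ 2 ≤ 1 := by
    have : w ^ (p - 1) ≤ 1 := pow_le_one₀ hG0 hG1
    exact pow_le_one₀ (pow_nonneg hG0 _) this
  have h7 : ‖z‖ ^ 2 * ‖d‖ ^ 2 / (S ^ D) ^ 2 ≤ (D : ℝ) ^ 2 * ((S * nsq a - ‖u‖ ^ 2) / S ^ 2) := by
    have h8 : ‖z‖ ^ 2 * ‖d‖ ^ 2 ≤ nsq x ^ D * ((D : ℝ) ^ 2 * nsq x ^ (D - 1) *
        (nsq a - ‖u‖ ^ 2 / S)) := by
      have h9 : ‖d‖ ^ 2 ≤ (D : ℝ) ^ 2 * nsq x ^ (D - 1) * (nsq a - ‖u‖ ^ 2 / S) := by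
        refine hdir.trans ?_
        exact mul_le_mul_of_nonneg_left hnb (by positivity)
      exact mul_le_mul hz2 h9 (by positivity) (by positivity)
    have hpos : 0 ≤ nsq a - ‖u‖ ^ 2 / S := by
      exact (nsq_nonneg _).trans hnb
    rw [div_le_iff₀ (by positivity)]
    rcases Nat.eq_zero_or_pos D with hD | hD
    · subst hD
      simp at h8 ⊢
      exact h8
    · obtain ⟨j, rfl⟩ : ∃ j, D = j + 1 := ⟨D - 1, by omega⟩
      rw [Nat.add_sub_cancel] at h8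
      have h10 : nsq x ^ (j + 1) * nsq x ^ j ≤ S ^ (j + 1) * S ^ j :=
        mul_le_mul (pow_le_pow_left₀ hx (by linarith) _) (pow_le_pow_left₀ hx (by linarith) _)
          (by positivity) (by positivity)
      calc ‖z‖ ^ 2 * ‖d‖ ^ 2 ≤ nsq x ^ (j + 1) * (((j + 1 : ℕ) : ℝ) ^ 2 * nsq x ^ j *
            (nsq a - ‖u‖ ^ 2 / S)) := h8
        _ = (nsq x ^ (j + 1) * nsq x ^ j) * (((j + 1 : ℕ) : ℝ) ^ 2 * (nsq a - ‖u‖ ^ 2 / S)) := by
            ring
        _ ≤ (S ^ (j + 1) * S ^ j) * (((j + 1 : ℕ) : ℝ) ^ 2 * (nsq a - ‖u‖ ^ 2 / S)) :=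
            mul_le_mul_of_nonneg_right h10 (by positivity)
        _ = _ := by
            field_simp
            ring
  have h11 : 0 ≤ ‖z‖ ^ 2 * ‖d‖ ^ 2 / (S ^ D) ^ 2 := by positivity
  calc 4 * (p : ℝ) ^ 2 * (w ^ (p - 1)) ^ 2 * (‖z‖ ^ 2 * ‖d‖ ^ 2 / (S ^ D) ^ 2)
      ≤ 4 * (p : ℝ) ^ 2 * 1 * (‖z‖ ^ 2 * ‖d‖ ^ 2 / (S ^ D) ^ 2) := by
        refine mul_le_mul_of_nonneg_right ?_ h11
        exact mul_le_mul_of_nonneg_left h6 (by positivity)
    _ ≤ 4 * (p : ℝ) ^ 2 * 1 * ((D : ℝ) ^ 2 * ((S * nsq a - ‖u‖ ^ 2) / S ^ 2)) :=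
        mul_le_mul_of_nonneg_left h7 (by positivity)
    _ = _ := by ring

theorem wg_fderiv_bounded {m D : ℕ} (p : ℕ) (ep : ℝ) (hep : 0 < ep) (g : V m D) (hg : ‖g‖ = 1) :
    ∃ C, ∀ x, ‖fderiv ℝ (wg p ep g) x‖ ≤ C := by
  refine ⟨Real.sqrt (4 * (p : ℝ) ^ 2 * (D : ℝ) ^ 2 * (m / ep)), fun x => ?_⟩
  refine ContinuousLinearMap.opNorm_le_bound _ (Real.sqrt_nonneg _) fun a => ?_
  have h1 := wg_grad p ep hep g hg x a
  have hx := nsq_nonneg x
  have hS : 0 < nsq x + ep := by linarith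
  have ha : nsq a ≤ m * ‖a‖ ^ 2 := by
    unfold nsq
    calc ∑ i, ‖a i‖ ^ 2 ≤ ∑ _i : Fin m, ‖a‖ ^ 2 :=
          Finset.sum_le_sum fun i _ => pow_le_pow_left₀ (norm_nonneg _) (norm_le_pi_norm a i) 2
      _ = m * ‖a‖ ^ 2 := by simp
  have h2 : ((nsq x + ep) * nsq a - ‖∑ r, (starRingEnd ℂ) (x r) * a r‖ ^ 2) / (nsq x + ep) ^ 2 ≤
      (m / ep) * ‖a‖ ^ 2 := by
    have h3 : ((nsq x + ep) * nsq a - ‖∑ r, (starRingEnd ℂ) (x r) * a r‖ ^ 2) /
        (nsq x + ep) ^ 2 ≤ ((nsq x + ep) * nsq a) / (nsq x + ep) ^ 2 := by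
      refine div_le_div_of_nonneg_right ?_ (by positivity)
      have : 0 ≤ ‖∑ r, (starRingEnd ℂ) (x r) * a r‖ ^ 2 := by positivity
      linarith
    have h4 : ((nsq x + ep) * nsq a) / (nsq x + ep) ^ 2 = nsq a / (nsq x + ep) := by
      field_simp
    have h5 : nsq a / (nsq x + ep) ≤ nsq a / ep :=
      div_le_div_of_nonneg_left (nsq_nonneg a) hep (by linarith)
    have h6 : nsq a / ep ≤ (m * ‖a‖ ^ 2) / ep := div_le_div_of_nonneg_right ha hep.le
    calc _ ≤ _ := h3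
      _ = _ := h4
      _ ≤ _ := h5
      _ ≤ _ := h6
      _ = _ := by ring
  have h7 : (fderiv ℝ (wg p ep g) x a) ^ 2 ≤
      4 * (p : ℝ) ^ 2 * (D : ℝ) ^ 2 * (m / ep) * ‖a‖ ^ 2 := by
    have h8 : 0 ≤ (fderiv ℝ (wg p ep g) x (I • a)) ^ 2 := sq_nonneg _
    have h9 := mul_le_mul_of_nonneg_left h2 (show 0 ≤ 4 * (p : ℝ) ^ 2 * (D : ℝ) ^ 2 by positivity)
    calc (fderiv ℝ (wg p ep g) x a) ^ 2 ≤ _ := le_add_of_nonneg_right h8
      _ ≤ _ := h1
      _ ≤ _ := h9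
      _ = _ := by ring
  rw [Real.norm_eq_abs, ← Real.sqrt_sq (norm_nonneg a), ← Real.sqrt_mul (by positivity)]
  exact Real.abs_le_sqrt h7

end GPn
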