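/- piece EA: sublevel estimate -/
import Pool.Agent.Lib_MP_e0d435_ag.Basic
import Pool.Agent.Lib_MP_e0d435_ag.Null

open Finset MeasureTheory Complex
open scoped ENNReal ContDiff

namespace GPn

/-- a chain of derivatives: some step has a large logarithmic derivative -/
private theorem Sublevel_chain {m k : ℕ} (F : V m k) (x : Pt m) (R : ℝ) (hR : 0 < R) :
    ∀ (l : ℕ) (al : Fin m → ℕ), ∑ i, al i = l → R ^ l * ‖pd F 0 x‖ < ‖pd F al x‖ →
    ∃ (be : Fin m → ℕ) (i : Fin m),
      be ∈ Fintype.piFinset (fun _ : Fin m => Finset.range (l + 1)) ∧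
      pd F (be + Pi.single i 1) x ≠ 0 ∧ R * ‖pd F be x‖ ≤ ‖pd F (be + Pi.single i 1) x‖ := by
  intro l
  induction l with
  | zero =>
    intro al hal h
    have h0 : al = 0 := by
      funext i
      simpa using (Finset.sum_eq_zero_iff.1 hal) i (Finset.mem_univ i)
    subst h0
    simp at h
  | succ l ih =>
    intro al hal h
    obtain ⟨i, hi⟩ : ∃ i, al i ≠ 0 := by
      by_contra hcon
      push Not at hcon
      simp [hcon] at hal
    set be : Fin m → ℕ := Function.update al i (al i - 1) with hbe
    have hab : be + Pi.single i 1 = al := by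
      funext j
      by_cases hj : j = i
      · subst hj
        simp [hbe]
        omega
      · simp [hbe, Function.update_of_ne hj, Pi.single_eq_of_ne hj]
    have hsum : ∑ j, be j = l := by
      have h1 : ∑ j, al j = ∑ j, be j + 1 := by
        rw [← hab]
        simp [Finset.sum_add_distrib]
      omega
    by_cases hc : R * ‖pd F be x‖ ≤ ‖pd F al x‖
    · refine ⟨be, i, ?_, ?_, ?_⟩
      · rw [Fintype.mem_piFinset]
        intro j
        rw [Finset.mem_range]
        have : be j ≤ ∑ j, be j := Finset.single_le_sum (fun _ _ => Nat.zero_le _) (Finset.mem_univ j)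
        omega
      · rw [hab]
        intro h0
        rw [h0, norm_zero] at h
        have : 0 ≤ R ^ (l + 1) * ‖pd F 0 x‖ := by positivity
        linarith
      · rw [hab]
        exact hc
    · push Not at hc
      have h2 : R ^ l * ‖pd F 0 x‖ < ‖pd F be x‖ := by
        have h3 : R * (R ^ l * ‖pd F 0 x‖) < R * ‖pd F be x‖ := by
          calc R * (R ^ l * ‖pd F 0 x‖) = R ^ (l + 1) * ‖pd F 0 x‖ := by ring
            _ < ‖pd F al x‖ := h
            _ < _ := hc
        exact lt_of_mul_lt_mul_left h3 hR.le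
      obtain ⟨be', i', h4, h5, h6⟩ := ih be hsum h2
      refine ⟨be', i', ?_, h5, h6⟩
      rw [Fintype.mem_piFinset] at h4 ⊢
      intro j
      have := h4 j
      rw [Finset.mem_range] at this ⊢
      omega

/-- the one variable estimate: the logarithmic derivative of a polynomial is large only near
the roots -/
private theorem Sublevel_onevar (k : ℕ) (h : Polynomial ℂ) (hk : h.natDegree ≤ k) (R : ℝ)
    (hR : 0 < R) :
    volume {z : ℂ | h.derivative.eval z ≠ 0 ∧ R * ‖h.eval z‖ ≤ ‖h.derivative.eval z‖} ≤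
      (k : ℝ≥0∞) * (ENNReal.ofReal (k / R) ^ 2 * NNReal.pi) := by
  classical
  have hsub : {z : ℂ | h.derivative.eval z ≠ 0 ∧ R * ‖h.eval z‖ ≤ ‖h.derivative.eval z‖} ⊆
      ⋃ r ∈ h.roots.toFinset, Metric.closedBall r (k / R) := by
    rintro z ⟨hz1, hz2⟩
    have hh : h ≠ 0 := by
      rintro rfl
      simp at hz1
    by_cases hz : h.eval z = 0
    · simp only [Set.mem_iUnion]
      refine ⟨z, ?_, ?_⟩
      · rw [Multiset.mem_toFinset, Polynomial.mem_roots hh]
        exact hz
      · exact Metric.mem_closedBall_self (by positivity)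
    · by_contra hcon
      simp only [Set.mem_iUnion, not_exists, Metric.mem_closedBall, not_le] at hcon
      have h1 := (IsAlgClosed.splits h).eval_derivative_eq_eval_mul_sum hz
      have h2 : ‖(h.roots.map fun w => 1 / (z - w)).sum‖ < R := by
        by_cases hroots : h.roots = 0
        · simpa [hroots] using hR
        · have hcard : 0 < Multiset.card h.roots := Multiset.card_pos.2 hroots
          have hcardk : Multiset.card h.roots ≤ k := (Polynomial.card_roots' h).trans hk
          have hk0 : (0 : ℝ) < k := by exact_mod_cast lt_of_lt_of_le hcard hcardk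
          have h3 : ‖(h.roots.map fun w => 1 / (z - w)).sum‖ ≤
              (h.roots.map fun w => ‖1 / (z - w)‖).sum := by
            have := norm_multiset_sum_le (h.roots.map fun w => 1 / (z - w))
            simpa [Multiset.map_map, Function.comp_def] using this
          have h4 : (h.roots.map fun w => ‖1 / (z - w)‖).sum <
              (h.roots.map fun _ => R / k).sum := by
            refine Multiset.sum_lt_sum_of_nonempty hroots ?_
            intro w hw
            have h5 := hcon w (Multiset.mem_toFinset.2 hw)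
            rw [dist_eq_norm] at h5
            have h6 : 0 < (k : ℝ) / R := by positivity
            rw [norm_div, norm_one]
            calc 1 / ‖z - w‖ < 1 / (k / R) := one_div_lt_one_div_of_lt h6 h5
              _ = R / k := one_div_div _ _
          have h7 : (h.roots.map fun _ => R / k).sum ≤ R := by
            rw [Multiset.map_const', Multiset.sum_replicate, nsmul_eq_mul]
            calc (Multiset.card h.roots : ℝ) * (R / k) ≤ k * (R / k) := by
                  refine mul_le_mul_of_nonneg_right ?_ (by positivity)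
                  exact_mod_cast hcardk
              _ = R := by field_simp
          linarith
      have h8 : 0 < ‖h.eval z‖ := norm_pos_iff.2 hz
      rw [h1, norm_mul] at hz2
      nlinarith
  refine (measure_mono hsub).trans ?_
  refine (measure_biUnion_finset_le _ _).trans ?_
  simp only [Complex.volume_closedBall, Finset.sum_const, nsmul_eq_mul]
  gcongr
  have : h.roots.toFinset.card ≤ Multiset.card h.roots := Multiset.toFinset_card_le _
  exact_mod_cast this.trans ((Polynomial.card_roots' h).trans hk)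

/-- restriction of a derivative of F to a coordinate line, as a polynomial -/
private theorem Sublevel_poly {m k : ℕ} (F : V m k) (be : Fin m → ℕ) (x : Pt m) (i : Fin m) :
    ∃ h : Polynomial ℂ, h.natDegree ≤ k ∧
      (∀ z, h.eval z = pd F be (Function.update x i z)) ∧
      (∀ z, h.derivative.eval z = pd F (be + Pi.single i 1) (Function.update x i z)) := by
  classical
  set h : Polynomial ℂ := ∑ a : Ex m k, Polynomial.C (F a * ((bw a.1 : ℂ) *
    ((((a.1 i).descFactorial (be i) : ℕ) : ℂ) *
    ∏ j ∈ Finset.univ.erase i, (((a.1 j).descFactorial (be j) : ℕ) : ℂ) *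
      x j ^ (a.1 j - be j)))) * Polynomial.X ^ (a.1 i - be i) with hh
  have heval : ∀ z, h.eval z = pd F be (Function.update x i z) := by
    intro z
    rw [hh, Polynomial.eval_finsetSum, pd]
    refine Finset.sum_congr rfl fun a _ => ?_
    rw [Polynomial.eval_mul, Polynomial.eval_C, Polynomial.eval_pow, Polynomial.eval_X, dm,
      ← Finset.mul_prod_erase _ _ (Finset.mem_univ i)]
    have h2 : ∏ j ∈ Finset.univ.erase i, (((a.1 j).descFactorial (be j) : ℕ) : ℂ) *
        Function.update x i z j ^ (a.1 j - be j) =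
        ∏ j ∈ Finset.univ.erase i, (((a.1 j).descFactorial (be j) : ℕ) : ℂ) *
          x j ^ (a.1 j - be j) := by
      refine Finset.prod_congr rfl fun j hj => ?_
      rw [Function.update_of_ne (Finset.ne_of_mem_erase hj)]
    rw [h2, Function.update_self]
    ring
  refine ⟨h, ?_, heval, ?_⟩
  · rw [hh]
    refine Polynomial.natDegree_sum_le_of_forall_le _ _ ?_
    intro a _
    refine (Polynomial.natDegree_C_mul_X_pow_le _ _).trans ?_
    have h1 : a.1 i ≤ ∑ j, a.1 j :=
      Finset.single_le_sum (fun _ _ => Nat.zero_le _) (Finset.mem_univ i)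
    have h2 := a.2
    omega
  · intro z
    have h1 := Polynomial.hasDerivAt h z
    have h2 := hasDerivAt_pd F be x i z
    have h3 : (fun z => Polynomial.eval z h) = (fun z => pd F be (Function.update x i z)) :=
      funext heval
    rw [h3] at h1
    exact h1.unique h2

/-- estimate for one step -/
private theorem Sublevel_step (m k : ℕ) : ∃ c : ℝ, 0 ≤ c ∧ ∀ (F : V m k) (be : Fin m → ℕ)
    (i : Fin m) (R : ℝ), 0 < R →
    volume {x : Pt m | x ∈ Ann m ∧ pd F (be + Pi.single i 1) x ≠ 0 ∧
      R * ‖pd F be x‖ ≤ ‖pd F (be + Pi.single i 1) x‖} ≤ ENNReal.ofReal (c / R ^ 2) := by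
  classical
  rcases m with _ | n
  · exact ⟨0, le_rfl, fun F be i => i.elim0⟩
  · set D : Set (Fin n → ℂ) := Metric.closedBall 0 2 with hD
    have hDfin : volume D ≠ ⊤ := (isCompact_closedBall _ _).measure_lt_top.ne
    refine ⟨(volume D).toReal * (k * (k ^ 2 * Real.pi)), by positivity, ?_⟩
    intro F be i R hR
    set T : Set (Pt (n + 1)) := {x : Pt (n + 1) | (∀ j, ‖x j‖ ≤ 2) ∧
      pd F (be + Pi.single i 1) x ≠ 0 ∧
      R * ‖pd F be x‖ ≤ ‖pd F (be + Pi.single i 1) x‖} with hT
    have hTm : MeasurableSet T := by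
      have e1 : MeasurableSet {x : Pt (n + 1) | ∀ j, ‖x j‖ ≤ 2} := by
        have : {x : Pt (n + 1) | ∀ j, ‖x j‖ ≤ 2} = ⋂ j, {x : Pt (n + 1) | ‖x j‖ ≤ 2} := by
          ext x; simp
        rw [this]
        refine MeasurableSet.iInter fun j => ?_
        exact measurableSet_le (by fun_prop) (by fun_prop)
      have e2 : MeasurableSet {x : Pt (n + 1) | pd F (be + Pi.single i 1) x ≠ 0} :=
        ((isClosed_singleton.preimage (continuous_pd F (be + Pi.single i 1))).measurableSet).compl
      have e3 : MeasurableSet {x : Pt (n + 1) |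
          R * ‖pd F be x‖ ≤ ‖pd F (be + Pi.single i 1) x‖} :=
        (isClosed_le (continuous_const.mul (continuous_pd F be).norm)
          (continuous_pd F (be + Pi.single i 1)).norm).measurableSet
      exact e1.inter (e2.inter e3)
    have hsub : {x : Pt (n + 1) | x ∈ Ann (n + 1) ∧ pd F (be + Pi.single i 1) x ≠ 0 ∧
      R * ‖pd F be x‖ ≤ ‖pd F (be + Pi.single i 1) x‖} ⊆ T := by
      rintro x ⟨h1, h2, h3⟩
      refine ⟨fun j => ?_, h2, h3⟩
      have h4 : ‖x j‖ ^ 2 ≤ nsq x :=
        Finset.single_le_sum (f := fun j => ‖x j‖ ^ 2) (fun _ _ => by positivity)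
          (Finset.mem_univ j)
      have h5 := h1.2
      nlinarith [norm_nonneg (x j)]
    refine (measure_mono hsub).trans ?_
    set e := (MeasurableEquiv.piFinSuccAbove (fun _ : Fin (n + 1) => ℂ) i) with he
    have hmp : MeasurePreserving e.symm (volume.prod volume) volume :=
      (volume_preserving_piFinSuccAbove (fun _ : Fin (n + 1) => ℂ) i).symm
    rw [← hmp.measure_preimage hTm.nullMeasurableSet,
      Measure.prod_apply_symm (hmp.measurable hTm)]
    have hslice : ∀ y : Fin n → ℂ, volume ((fun z : ℂ => (z, y)) ⁻¹' (e.symm ⁻¹' T)) ≤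
        D.indicator (fun _ => (k : ℝ≥0∞) * (ENNReal.ofReal (k / R) ^ 2 * NNReal.pi)) y := by
      intro y
      have hins : ∀ z : ℂ, e.symm (z, y) =
          Function.update (Fin.insertNth (α := fun _ => ℂ) i 0 y) i z := by
        intro z
        have e0 : e.symm (z, y) = Fin.insertNth (α := fun _ => ℂ) i z y := rfl
        rw [e0, Fin.update_insertNth]
      by_cases hy : y ∈ D
      · rw [Set.indicator_of_mem hy]
        obtain ⟨h, hk, h1, h2⟩ := Sublevel_poly F be (Fin.insertNth (α := fun _ => ℂ) i 0 y) i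
        refine le_trans (measure_mono ?_) (Sublevel_onevar k h hk R hR)
        intro z hz
        have hz' : e.symm (z, y) ∈ T := hz
        rw [hins] at hz'
        obtain ⟨_, h3, h4⟩ := hz'
        refine ⟨?_, ?_⟩
        · rw [h2]; exact h3
        · rw [h1, h2]; exact h4
      · rw [Set.indicator_of_notMem hy]
        have : (fun z : ℂ => (z, y)) ⁻¹' (e.symm ⁻¹' T) = ∅ := by
          ext z
          simp only [Set.mem_preimage, Set.mem_empty_iff_false, iff_false]
          intro hz
          apply hy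
          rw [hD, mem_closedBall_zero_iff, pi_norm_le_iff_of_nonneg (by norm_num)]
          intro j
          have h3 := hz.1 (i.succAbove j)
          rw [hins] at h3
          rw [Function.update_of_ne (Fin.succAbove_ne i j)] at h3
          simpa using h3
        rw [this, measure_empty]
    refine (lintegral_mono hslice).trans ?_
    rw [lintegral_indicator_const Metric.isClosed_closedBall.measurableSet]
    rw [← ENNReal.ofReal_toReal hDfin]
    have h9 : (NNReal.pi : ℝ≥0∞) = ENNReal.ofReal Real.pi := by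
      rw [← NNReal.coe_real_pi, ENNReal.ofReal_coe_nnreal]
    have h10 : (k : ℝ≥0∞) = ENNReal.ofReal k := by simp
    rw [h9, h10, ← ENNReal.ofReal_pow (by positivity), ← ENNReal.ofReal_mul (by positivity),
      ← ENNReal.ofReal_mul (by positivity), ← ENNReal.ofReal_mul (by positivity)]
    refine ENNReal.ofReal_le_ofReal (le_of_eq ?_)
    rw [ENNReal.toReal_ofReal (by positivity)]
    field_simp

theorem sublevel (m k l : ℕ) (hl : 1 ≤ l) : ∃ C : ℝ, 0 < C ∧ ∀ (F : V m k) (al : Ex m l) (ta s : ℝ),
    0 < ta → 0 < s →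
    volume {x : Pt m | x ∈ Ann m ∧ ‖pd F 0 x‖ ≤ ta ∧ s ≤ ‖pd F al.1 x‖} ≤
      ENNReal.ofReal (C * (ta / s) ^ (2 / (l : ℝ))) := by
  classical
  obtain ⟨c, hc, hstep⟩ := Sublevel_step m k
  set N : ℕ := (Fintype.piFinset (fun _ : Fin m => Finset.range (l + 1)) ×ˢ
    (Finset.univ : Finset (Fin m))).card with hN
  refine ⟨N * c * 4 + 1, by positivity, ?_⟩
  intro F al ta s hta hs
  have hl0 : (0 : ℝ) < l := by exact_mod_cast hl
  set R : ℝ := (s / (2 * ta)) ^ (1 / (l : ℝ)) with hRdef
  have hq : 0 < s / (2 * ta) := by positivity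
  have hR : 0 < R := Real.rpow_pos_of_pos hq _
  have hRl : R ^ l = s / (2 * ta) := by
    rw [hRdef, ← Real.rpow_natCast, ← Real.rpow_mul hq.le, one_div_mul_cancel hl0.ne',
      Real.rpow_one]
  have hsub : {x : Pt m | x ∈ Ann m ∧ ‖pd F 0 x‖ ≤ ta ∧ s ≤ ‖pd F al.1 x‖} ⊆
      ⋃ p ∈ Fintype.piFinset (fun _ : Fin m => Finset.range (l + 1)) ×ˢ
        (Finset.univ : Finset (Fin m)),
        {x : Pt m | x ∈ Ann m ∧ pd F (p.1 + Pi.single p.2 1) x ≠ 0 ∧
          R * ‖pd F p.1 x‖ ≤ ‖pd F (p.1 + Pi.single p.2 1) x‖} := by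
    rintro x ⟨h1, h2, h3⟩
    have h4 : R ^ l * ‖pd F 0 x‖ < ‖pd F al.1 x‖ := by
      rw [hRl]
      calc s / (2 * ta) * ‖pd F 0 x‖ ≤ s / (2 * ta) * ta := by gcongr
        _ = s / 2 := by field_simp
        _ < s := by linarith
        _ ≤ _ := h3
    obtain ⟨be, i, h5, h6, h7⟩ := Sublevel_chain F x R hR l al.1 al.2 h4
    simp only [Set.mem_iUnion]
    exact ⟨(be, i), Finset.mem_product.2 ⟨h5, Finset.mem_univ i⟩, h1, h6, h7⟩
  refine (measure_mono hsub).trans ?_
  refine (measure_biUnion_finset_le _ _).trans ?_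
  refine (Finset.sum_le_sum (g := fun _ => ENNReal.ofReal (c / R ^ 2)) fun p _ =>
    hstep F p.1 p.2 R hR).trans ?_
  rw [Finset.sum_const, ← hN, nsmul_eq_mul]
  have h10 : (N : ℝ≥0∞) = ENNReal.ofReal N := by simp
  rw [h10, ← ENNReal.ofReal_mul (by positivity)]
  refine ENNReal.ofReal_le_ofReal ?_
  have hR2 : (R ^ 2)⁻¹ ≤ 4 * (ta / s) ^ (2 / (l : ℝ)) := by
    have e1 : R ^ 2 = (s / (2 * ta)) ^ (2 / (l : ℝ)) := by
      rw [hRdef, ← Real.rpow_natCast, ← Real.rpow_mul hq.le]
      congr 1
      push_cast
      ring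
    rw [e1, ← Real.inv_rpow hq.le]
    have e2 : (s / (2 * ta))⁻¹ = 2 * (ta / s) := by
      field_simp
    rw [e2, Real.mul_rpow (by norm_num) (by positivity)]
    refine mul_le_mul_of_nonneg_right ?_ (by positivity)
    have e3 : (2 : ℝ) / l ≤ 2 := by
      rw [div_le_iff₀ hl0]
      have : (1 : ℝ) ≤ l := by exact_mod_cast hl
      linarith
    calc (2 : ℝ) ^ (2 / (l : ℝ)) ≤ 2 ^ (2 : ℝ) :=
          Real.rpow_le_rpow_of_exponent_le (by norm_num) e3
      _ = 4 := by norm_num
  have hpos : 0 ≤ (ta / s) ^ (2 / (l : ℝ)) := by positivity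
  calc (N : ℝ) * (c / R ^ 2) = N * c * (R ^ 2)⁻¹ := by rw [div_eq_mul_inv]; ring
    _ ≤ N * c * (4 * (ta / s) ^ (2 / (l : ℝ))) := by gcongr
    _ ≤ _ := by nlinarith

end GPn
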