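/- piece GF: the integral of wg over the annulus is small -/
import Pool.Agent.Lib_MP_e0d435_ag.Basic
import Pool.Agent.Lib_MP_e0d435_ag.Sublevel

open Finset MeasureTheory Complex
open scoped ENNReal ContDiff

namespace GPn

/-- derivative of order a of the monomial with exponent a -/
private theorem WgSmall_dm_self {m : ℕ} (a : Fin m → ℕ) (x : Pt m) :
    dm a a x = ((∏ i, (a i).factorial : ℕ) : ℂ) := by
  rw [dm, Nat.cast_prod]
  refine Finset.prod_congr rfl fun i _ => ?_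
  rw [Nat.descFactorial_self, Nat.sub_self, pow_zero, mul_one]

private theorem WgSmall_dm_ne {m : ℕ} (a b : Fin m → ℕ) (h : ∑ i, a i = ∑ i, b i) (hab : b ≠ a)
    (x : Pt m) : dm a b x = 0 := by
  obtain ⟨i, hi⟩ : ∃ i, b i < a i := by
    by_contra hcon
    push Not at hcon
    apply hab
    funext i
    have h1 : ∀ i ∈ (Finset.univ : Finset (Fin m)), a i ≤ b i := fun i _ => hcon i
    exact ((Finset.sum_eq_sum_iff_of_le h1).1 h i (Finset.mem_univ i)).symm
  rw [dm]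
  refine Finset.prod_eq_zero (Finset.mem_univ i) ?_
  rw [Nat.descFactorial_eq_zero_iff_lt.2 hi]
  simp

private theorem WgSmall_pd_top {m D : ℕ} (g : V m D) (a : Ex m D) (x : Pt m) :
    pd g a.1 x = g a * ((bw a.1 : ℂ) * ((∏ i, (a.1 i).factorial : ℕ) : ℂ)) := by
  rw [pd, Finset.sum_eq_single a]
  · rw [WgSmall_dm_self]
  · intro b _ hb
    rw [WgSmall_dm_ne a.1 b.1 (a.2.trans b.2.symm) (fun h => hb (Subtype.ext h)) x]
    simp
  · intro h
    exact absurd (Finset.mem_univ a) h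

private theorem WgSmall_pd_top_le {m D : ℕ} (g : V m D) (a : Ex m D) (x : Pt m) :
    ‖g a‖ ≤ ‖pd g a.1 x‖ := by
  rw [WgSmall_pd_top, norm_mul, norm_mul, Complex.norm_real, Real.norm_of_nonneg (bw_pos _).le,
    Complex.norm_natCast]
  have h1 : (1 : ℝ) ≤ bw a.1 := by
    rw [bw, Real.one_le_sqrt]
    exact_mod_cast Nat.multinomial_pos _ _
  have h2 : (1 : ℝ) ≤ ((∏ i, (a.1 i).factorial : ℕ) : ℝ) := by
    exact_mod_cast Finset.prod_pos fun i _ => Nat.factorial_pos _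
  have h3 : (1 : ℝ) ≤ bw a.1 * ((∏ i, (a.1 i).factorial : ℕ) : ℝ) := by
    nlinarith
  have h4 := norm_nonneg (g a)
  nlinarith

/-- a unit vector has a large coefficient -/
private theorem WgSmall_coeff {m D : ℕ} (g : V m D) (hg : ‖g‖ = 1) :
    ∃ a : Ex m D, 1 / ((Fintype.card (Ex m D) : ℝ) + 1) ≤ ‖g a‖ := by
  by_contra hcon
  push Not at hcon
  have h1 : ‖g‖ ^ 2 = ∑ a, ‖g a‖ ^ 2 := EuclideanSpace.norm_sq_eq g
  rw [hg] at h1
  set N : ℝ := (Fintype.card (Ex m D) : ℝ) with hN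
  have hN0 : 0 ≤ N := by positivity
  have h2 : ∑ a, ‖g a‖ ^ 2 ≤ ∑ _a : Ex m D, (1 / (N + 1)) ^ 2 := by
    refine Finset.sum_le_sum fun a _ => ?_
    exact pow_le_pow_left₀ (norm_nonneg _) (hcon a).le 2
  rw [Finset.sum_const, Finset.card_univ, nsmul_eq_mul, ← hN] at h2
  have h3 : N * (1 / (N + 1)) ^ 2 < 1 := by
    rw [div_pow, one_pow, mul_one_div, div_lt_one (by positivity)]
    nlinarith
  linarith

private theorem WgSmall_ann_fin (m : ℕ) : volume (Ann m) ≠ ⊤ := by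
  have hsub : Ann m ⊆ Metric.closedBall (0 : Pt m) 2 := by
    intro x hx
    rw [mem_closedBall_zero_iff, pi_norm_le_iff_of_nonneg (by norm_num)]
    intro j
    have h4 : ‖x j‖ ^ 2 ≤ nsq x :=
      Finset.single_le_sum (f := fun j => ‖x j‖ ^ 2) (fun _ _ => by positivity)
        (Finset.mem_univ j)
    have h5 := hx.2
    nlinarith [norm_nonneg (x j)]
  exact ((measure_mono hsub).trans_lt (isCompact_closedBall _ _).measure_lt_top).ne

private theorem WgSmall_pd_sq_le {m D : ℕ} (g : V m D) (hg : ‖g‖ = 1) (x : Pt m) :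
    ‖pd g 0 x‖ ^ 2 ≤ nsq x ^ D := by
  have h1 := norm_pd_le g x
  rw [hg, one_mul] at h1
  have h2 : ‖pd g 0 x‖ ^ 2 ≤ (enm x ^ D) ^ 2 := pow_le_pow_left₀ (norm_nonneg _) h1 2
  rw [← pow_mul, mul_comm, pow_mul, enm_sq] at h2
  exact h2

/-- the sublevel sets of unit vectors are uniformly small -/
private theorem WgSmall_level (m D : ℕ) (kap : ℝ) (hkap : 0 < kap) :
    ∃ ta : ℝ, 0 < ta ∧ ta ≤ 1 ∧ ∀ g : V m D, ‖g‖ = 1 →
      volume {x : Pt m | x ∈ Ann m ∧ ‖pd g 0 x‖ ≤ ta} ≤ ENNReal.ofReal kap := by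
  rcases Nat.eq_zero_or_pos D with hD | hD
  · subst hD
    refine ⟨1 / 2, by norm_num, by norm_num, fun g hg => ?_⟩
    have hset : {x : Pt m | x ∈ Ann m ∧ ‖pd g 0 x‖ ≤ 1 / 2} = ∅ := by
      ext x
      simp only [Set.mem_setOf_eq, Set.mem_empty_iff_false, iff_false, not_and, not_le]
      intro _
      obtain ⟨a, ha⟩ := WgSmall_coeff g hg
      have ha0 : ∀ b : Ex m 0, b.1 = 0 := by
        intro b
        funext i
        have := b.2
        simpa using (Finset.sum_eq_zero_iff.1 this) i (Finset.mem_univ i)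
      have hall : ∀ b : Ex m 0, b = a := fun b => Subtype.ext ((ha0 b).trans (ha0 a).symm)
      have h1 : ‖g‖ ^ 2 = ∑ a, ‖g a‖ ^ 2 := EuclideanSpace.norm_sq_eq g
      rw [hg, Finset.sum_eq_single a (fun b _ hb => absurd (hall b) hb)
        (fun h => absurd (Finset.mem_univ a) h)] at h1
      have h2 := WgSmall_pd_top_le g a x
      rw [ha0 a] at h2
      nlinarith [norm_nonneg (g a)]
    rw [hset, measure_empty]
    exact zero_le'
  · obtain ⟨C, hC, hsub⟩ := sublevel m D D hD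
    set s1 : ℝ := 1 / ((Fintype.card (Ex m D) : ℝ) + 1) with hs1
    have hs : 0 < s1 := by positivity
    have hD0 : (0 : ℝ) < D := by exact_mod_cast hD
    have hq : 0 < kap / C := by positivity
    set t0 : ℝ := s1 * (kap / C) ^ ((D : ℝ) / 2) with ht0
    have ht : 0 < t0 := mul_pos hs (Real.rpow_pos_of_pos hq _)
    refine ⟨min t0 1, lt_min ht one_pos, min_le_right _ _, fun g hg => ?_⟩
    obtain ⟨a, ha⟩ := WgSmall_coeff g hg
    have h1 : {x : Pt m | x ∈ Ann m ∧ ‖pd g 0 x‖ ≤ min t0 1} ⊆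
        {x : Pt m | x ∈ Ann m ∧ ‖pd g 0 x‖ ≤ t0 ∧ s1 ≤ ‖pd g a.1 x‖} := by
      rintro x ⟨h2, h3⟩
      exact ⟨h2, h3.trans (min_le_left _ _), ha.trans (WgSmall_pd_top_le g a x)⟩
    refine (measure_mono h1).trans ((hsub g a t0 s1 ht hs).trans ?_)
    refine ENNReal.ofReal_le_ofReal (le_of_eq ?_)
    have h4 : t0 / s1 = (kap / C) ^ ((D : ℝ) / 2) := by
      rw [ht0]
      field_simp
    rw [h4, ← Real.rpow_mul hq.le]
    have h5 : (D : ℝ) / 2 * (2 / D) = 1 := by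
      field_simp
    rw [h5, Real.rpow_one]
    field_simp

theorem wg_small (m D : ℕ) (kap : ℝ) (hkap : 0 < kap) : ∃ p : ℕ, ∀ g : V m D, ‖g‖ = 1 →
    ∫⁻ x in Ann m, ENNReal.ofReal ((1 - ‖pd g 0 x‖ ^ 2 / (2 * nsq x ^ D)) ^ p) ≤
      ENNReal.ofReal kap := by
  obtain ⟨ta, ht, ht1, hlev⟩ := WgSmall_level m D (kap / 2) (by positivity)
  set q : ℝ := 1 - ta ^ 2 / (2 * 4 ^ D) with hq
  have h4D : (1 : ℝ) ≤ 4 ^ D := one_le_pow₀ (by norm_num)
  have hq1 : q < 1 := by
    have : 0 < ta ^ 2 / (2 * 4 ^ D) := by positivity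
    linarith
  have hq0 : 0 ≤ q := by
    rw [hq, sub_nonneg, div_le_one (by positivity)]
    nlinarith
  set v : ℝ := (volume (Ann m)).toReal with hv
  have hv0 : 0 ≤ v := ENNReal.toReal_nonneg
  obtain ⟨p, hp⟩ : ∃ p : ℕ, q ^ p < kap / (2 * (v + 1)) :=
    exists_pow_lt_of_lt_one (by positivity) hq1
  refine ⟨p, fun g hg => ?_⟩
  set A : Set (Pt m) := {x : Pt m | x ∈ Ann m ∧ ‖pd g 0 x‖ ≤ ta} with hA
  have hAnn : MeasurableSet (Ann m) := by
    have e : Ann m = (fun x : Pt m => nsq x) ⁻¹' (Set.Icc 1 4) := rfl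
    rw [e]
    exact (isClosed_Icc.preimage continuous_nsq).measurableSet
  have hpt : ∀ x ∈ Ann m, ENNReal.ofReal ((1 - ‖pd g 0 x‖ ^ 2 / (2 * nsq x ^ D)) ^ p) ≤
      A.indicator 1 x + ENNReal.ofReal (q ^ p) := by
    intro x hx
    have hx1 : (1 : ℝ) ≤ nsq x := hx.1
    have hx4 : nsq x ≤ 4 := hx.2
    have hn0 : 0 < nsq x ^ D := by positivity
    have hn4 : nsq x ^ D ≤ 4 ^ D := pow_le_pow_left₀ (by linarith) hx4 D
    have hb0 : 0 ≤ 1 - ‖pd g 0 x‖ ^ 2 / (2 * nsq x ^ D) := by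
      rw [sub_nonneg, div_le_one (by positivity)]
      have := WgSmall_pd_sq_le g hg x
      linarith
    by_cases hxA : x ∈ A
    · rw [Set.indicator_of_mem hxA]
      have hb1 : 1 - ‖pd g 0 x‖ ^ 2 / (2 * nsq x ^ D) ≤ 1 := by
        have : 0 ≤ ‖pd g 0 x‖ ^ 2 / (2 * nsq x ^ D) := by positivity
        linarith
      have h1 : ENNReal.ofReal ((1 - ‖pd g 0 x‖ ^ 2 / (2 * nsq x ^ D)) ^ p) ≤ 1 := by
        rw [← ENNReal.ofReal_one]
        exact ENNReal.ofReal_le_ofReal (pow_le_one₀ hb0 hb1)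
      exact h1.trans (le_add_of_nonneg_right zero_le')
    · have hgt : ta < ‖pd g 0 x‖ := by
        by_contra hcon
        exact hxA ⟨hx, not_lt.1 hcon⟩
      refine le_trans ?_ (le_add_of_nonneg_left zero_le')
      refine ENNReal.ofReal_le_ofReal (pow_le_pow_left₀ hb0 ?_ p)
      rw [hq]
      have h2 : ta ^ 2 / (2 * 4 ^ D) ≤ ‖pd g 0 x‖ ^ 2 / (2 * nsq x ^ D) := by
        have h3 : ta ^ 2 ≤ ‖pd g 0 x‖ ^ 2 := pow_le_pow_left₀ ht.le hgt.le 2
        gcongr
      linarith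
  calc ∫⁻ x in Ann m, ENNReal.ofReal ((1 - ‖pd g 0 x‖ ^ 2 / (2 * nsq x ^ D)) ^ p)
      ≤ ∫⁻ x in Ann m, (A.indicator 1 x + ENNReal.ofReal (q ^ p)) :=
        setLIntegral_mono' hAnn hpt
    _ = (∫⁻ x in Ann m, A.indicator 1 x) + ∫⁻ _x in Ann m, ENNReal.ofReal (q ^ p) :=
        lintegral_add_right _ measurable_const
    _ ≤ ENNReal.ofReal (kap / 2) + ENNReal.ofReal (kap / 2) := by
        refine add_le_add ?_ ?_
        · refine le_trans (lintegral_mono' Measure.restrict_le_self le_rfl) ?_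
          exact (lintegral_indicator_one_le A).trans (hlev g hg)
        · rw [setLIntegral_const, ← ENNReal.ofReal_toReal (WgSmall_ann_fin m), ← hv,
            ← ENNReal.ofReal_mul (by positivity)]
          refine ENNReal.ofReal_le_ofReal ?_
          have h5 : q ^ p * v ≤ kap / (2 * (v + 1)) * v :=
            mul_le_mul_of_nonneg_right hp.le hv0
          refine h5.trans ?_
          rw [div_mul_eq_mul_div, div_le_div_iff₀ (by positivity) (by norm_num)]
          nlinarith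
    _ = ENNReal.ofReal kap := by
        rw [← ENNReal.ofReal_add (by positivity) (by positivity)]
        congr 1
        ring

end GPn
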