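/- piece GG: mean of wg -/
import Pool.Agent.Lib_MP_e0d435_ag.Basic
import Pool.Agent.Lib_MP_e0d435_ag.GDefs
import Pool.Agent.Lib_MP_e0d435_ag.WGrad
import Pool.Agent.Lib_MP_e0d435_ag.PsiInt
import Pool.Agent.Lib_MP_e0d435_ag.Radial
import Pool.Agent.Lib_MP_e0d435_ag.Unitary
import Pool.Agent.Lib_MP_e0d435_ag.WgSmall

open Finset MeasureTheory Complex
open scoped ENNReal ContDiff

namespace GPn

private theorem meanBound_meas_Ann (m : ℕ) : MeasurableSet (Ann m) := by
  have h : Measurable (fun x : Pt m => nsq x) := continuous_nsq.measurable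
  exact (measurableSet_le measurable_const h).inter (measurableSet_le h measurable_const)

private theorem meanBound_vol_lt_top (m : ℕ) : volume (Ann m) < ⊤ := by
  refine lt_of_le_of_lt (measure_mono (t := Metric.closedBall (0 : Pt m) 2) ?_)
    measure_closedBall_lt_top
  intro x hx
  rw [mem_closedBall_zero_iff, pi_norm_le_iff_of_nonneg (by norm_num)]
  intro i
  have h1 : ‖x i‖ ^ 2 ≤ nsq x := Finset.single_le_sum (f := fun i => ‖x i‖ ^ 2)
    (fun i _ => by positivity) (Finset.mem_univ i)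
  have h2 := hx.2
  have h3 : ‖x i‖ ^ 2 ≤ 2 ^ 2 := by linarith
  exact le_of_sq_le_sq h3 (by norm_num)

private theorem meanBound_vol_pos (n : ℕ) : 0 < volume (Ann (n + 1)) := by
  have ho : IsOpen {x : Pt (n + 1) | 1 < nsq x ∧ nsq x < 4} :=
    (isOpen_lt continuous_const continuous_nsq).inter (isOpen_lt continuous_nsq continuous_const)
  have hval : nsq (Pi.single 0 (3 / 2) : Pt (n + 1)) = 9 / 4 := by
    rw [nsq, Finset.sum_eq_single 0]
    · simp
      norm_num
    · intro b _ hb
      simp [Pi.single_eq_of_ne hb]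
    · intro h
      exact absurd (Finset.mem_univ _) h
  have hne : ({x : Pt (n + 1) | 1 < nsq x ∧ nsq x < 4}).Nonempty :=
    ⟨Pi.single 0 (3 / 2), by rw [Set.mem_ofPred_eq, hval]; norm_num⟩
  exact lt_of_lt_of_le (ho.measure_pos volume hne) (measure_mono fun x hx => ⟨hx.1.le, hx.2.le⟩)

private theorem meanBound_cont (n k : ℕ) (c ep : ℝ) (hep : 0 < ep) :
    Continuous (fun X => Real.exp (-Psi n k c ep X)) := by
  unfold Psi
  refine Real.continuous_exp.comp (Continuous.neg (Continuous.add ?_ ?_))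
  · exact continuous_const.mul (((continuous_Dl.pow 2).add continuous_const).log
      fun X => (by positivity : 0 < Dl X ^ 2 + ep).ne')
  · refine continuous_finsetSum _ fun j _ => ?_
    have h : Continuous fun X : Ex (n + 1) k → Pt (n + 1) => nsq (X j) :=
      continuous_nsq.comp (continuous_apply j)
    refine (continuous_const.mul ((h.add continuous_const).log
      fun X => ?_)).add h
    have h1 := nsq_nonneg (X j)
    have h2 : 0 < nsq (X j) + ep := by linarith
    exact h2.ne'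

private theorem meanBound_nsq_inner {m : ℕ} (x : Pt m) :
    ∑ i, (starRingEnd ℂ) (x i) * x i = ((nsq x : ℝ) : ℂ) := by
  simp only [nsq, Complex.ofReal_sum]
  refine Finset.sum_congr rfl fun i _ => ?_
  rw [← Complex.normSq_eq_conj_mul_self, Complex.normSq_eq_norm_sq]

private theorem meanBound_nsq_L {m : ℕ} (L : Pt m ≃ₗ[ℂ] Pt m)
    (hL : ∀ u v, ∑ i, (starRingEnd ℂ) (L u i) * L v i = ∑ i, (starRingEnd ℂ) (u i) * v i)
    (x : Pt m) : nsq (L x) = nsq x := by
  have h := hL x x
  rw [meanBound_nsq_inner, meanBound_nsq_inner] at h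
  exact Complex.ofReal_injective h

private theorem meanBound_Dl_L {m k : ℕ} (L : Pt m ≃ₗ[ℂ] Pt m)
    (hL : ∀ u v, ∑ i, (starRingEnd ℂ) (L u i) * L v i = ∑ i, (starRingEnd ℂ) (u i) * v i)
    (X : Ex m k → Pt m) : Dl (fun i => L (X i)) ^ 2 = Dl X ^ 2 := by
  apply Complex.ofReal_injective
  rw [Dl_sq, Dl_sq]
  congr 1
  ext i j
  rw [Matrix.of_apply, Matrix.of_apply, hL]

private theorem meanBound_Psi_L {n k : ℕ} (c ep : ℝ) (L : Pt (n + 1) ≃ₗ[ℂ] Pt (n + 1))
    (hL : ∀ u v, ∑ i, (starRingEnd ℂ) (L u i) * L v i = ∑ i, (starRingEnd ℂ) (u i) * v i)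
    (X : Ex (n + 1) k → Pt (n + 1)) : Psi n k c ep (fun i => L (X i)) = Psi n k c ep X := by
  unfold Psi
  rw [meanBound_Dl_L L hL]
  simp_rw [meanBound_nsq_L L hL]

/-- the density as a function with values in the extended nonnegative reals -/
private noncomputable def meanBoundF (n k : ℕ) (c ep : ℝ) (X : Ex (n + 1) k → Pt (n + 1)) :
    ℝ≥0∞ := ENNReal.ofReal (Real.exp (-Psi n k c ep X))

/-- the density of the law of the point number j -/
private noncomputable def meanBoundRh (n k : ℕ) (c ep : ℝ) (j : Ex (n + 1) k)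
    (x : Pt (n + 1)) : ℝ≥0∞ :=
  (lmarginal (fun _ => volume) (Finset.univ.erase j) (meanBoundF n k c ep))
    (Function.update 0 j x)

private theorem meanBound_F_meas (n k : ℕ) (c ep : ℝ) (hep : 0 < ep) :
    Measurable (meanBoundF n k c ep) :=
  (meanBound_cont n k c ep hep).measurable.ennreal_ofReal

private theorem meanBound_Rh_meas (n k : ℕ) (c ep : ℝ) (hep : 0 < ep) (j : Ex (n + 1) k) :
    Measurable (meanBoundRh n k c ep j) := by
  unfold meanBoundRh
  refine ((meanBound_F_meas n k c ep hep).lmarginal (fun _ => volume)).comp ?_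
  exact measurable_update 0

private theorem meanBound_int (n k : ℕ) (c ep : ℝ) (hep : 0 < ep) (j : Ex (n + 1) k)
    (h : Pt (n + 1) → ℝ≥0∞) (hh : Measurable h) :
    ∫⁻ X, h (X j) * meanBoundF n k c ep X = ∫⁻ x, h x * meanBoundRh n k c ep j x := by
  have hF := meanBound_F_meas n k c ep hep
  have hG : Measurable fun X : Ex (n + 1) k → Pt (n + 1) => h (X j) * meanBoundF n k c ep X :=
    (hh.comp (measurable_pi_apply j)).mul hF
  rw [volume_pi, lintegral_eq_lmarginal_univ (μ := fun _ => volume)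
    (0 : Ex (n + 1) k → Pt (n + 1)),
    lmarginal_erase _ hG (Finset.mem_univ j)]
  refine lintegral_congr fun x => ?_
  unfold meanBoundRh lmarginal
  rw [← lintegral_const_mul]
  · refine lintegral_congr fun Y => ?_
    have h1 : Function.updateFinset (Function.update (0 : Ex (n + 1) k → Pt (n + 1)) j x)
        (Finset.univ.erase j) Y j = x := by
      simp [Function.updateFinset]
    show h (Function.updateFinset (Function.update (0 : Ex (n + 1) k → Pt (n + 1)) j x)
        (Finset.univ.erase j) Y j) * _ = _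
    rw [h1]
  · exact hF.comp measurable_updateFinset

private theorem meanBound_Rh_radial (n k : ℕ) (c ep : ℝ) (hep : 0 < ep) (j : Ex (n + 1) k)
    (x y : Pt (n + 1)) (hxy : nsq x = nsq y) :
    meanBoundRh n k c ep j x = meanBoundRh n k c ep j y := by
  obtain ⟨L, hL, hLx, hLm⟩ := exists_unitary x y hxy
  have hF := meanBound_F_meas n k c ep hep
  subst hLx
  unfold meanBoundRh lmarginal
  have hmp : MeasurePreserving
      (fun (Y : (i : ↥(Finset.univ.erase j)) → Pt (n + 1)) i => L (Y i))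
      (Measure.pi fun _ => volume) (Measure.pi fun _ => volume) :=
    measurePreserving_pi _ _ fun _ => hLm
  have key := hmp.lintegral_comp (f := fun Y => meanBoundF n k c ep
    (Function.updateFinset (Function.update 0 j (L x)) (Finset.univ.erase j) Y))
    (hF.comp measurable_updateFinset)
  refine Eq.trans ?_ key
  refine lintegral_congr fun Y => ?_
  have hX : (fun i => L (Function.updateFinset (Function.update
        (0 : Ex (n + 1) k → Pt (n + 1)) j x) (Finset.univ.erase j) Y i)) =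
      Function.updateFinset (Function.update (0 : Ex (n + 1) k → Pt (n + 1)) j (L x))
        (Finset.univ.erase j) (fun i => L (Y i)) := by
    funext i
    simp only [Function.updateFinset]
    by_cases hi : i ∈ Finset.univ.erase j
    · simp [hi]
    · have hij : i = j := by simpa using hi
      subst hij
      simp
  rw [← hX]
  unfold meanBoundF
  rw [meanBound_Psi_L c ep L hL]

private theorem meanBound_pow (D : ℕ) (a ep t : ℝ) (ha : 0 < a) (hep : 0 < ep)
    (hep0 : ep < a * Real.log 2 / (D + 1)) (ht : a ≤ t) : (t + ep) ^ D ≤ 2 * t ^ D := by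
  have ht0 : 0 < t := lt_of_lt_of_le ha ht
  have hD : (0 : ℝ) < D + 1 := by positivity
  have h1 : (t + ep) ^ D = t ^ D * (ep / t + 1) ^ D := by
    rw [← mul_pow]
    congr 1
    field_simp
    ring
  have h2 : (ep / t + 1) ^ D ≤ 2 := by
    have h3 : ep / t + 1 ≤ Real.exp (ep / t) := Real.add_one_le_exp _
    have h4 : (ep / t + 1) ^ D ≤ Real.exp (ep / t) ^ D :=
      pow_le_pow_left₀ (by positivity) h3 D
    have h5 : Real.exp (ep / t) ^ D = Real.exp (D * (ep / t)) := by
      rw [Real.exp_nat_mul]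
    have h6 : (D : ℝ) * (ep / t) ≤ Real.log 2 := by
      have h7 : ep / t ≤ ep / a := div_le_div_of_nonneg_left hep.le ha ht
      have h8 : ep / a ≤ Real.log 2 / (D + 1) := by
        rw [div_le_div_iff₀ ha hD]
        rw [lt_div_iff₀ hD] at hep0
        linarith
      have h9 : (D : ℝ) * (ep / t) ≤ (D + 1) * (Real.log 2 / (D + 1)) := by
        apply mul_le_mul
        · linarith
        · exact h7.trans h8
        · positivity
        · positivity
      rwa [mul_div_cancel₀ _ hD.ne'] at h9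
    calc (ep / t + 1) ^ D ≤ Real.exp (D * (ep / t)) := by rw [← h5]; exact h4
      _ ≤ Real.exp (Real.log 2) := Real.exp_le_exp.2 h6
      _ = 2 := Real.exp_log (by norm_num)
  rw [h1, mul_comm 2]
  exact mul_le_mul_of_nonneg_left h2 (by positivity)


theorem mean_bound (n D : ℕ) (kap : ℝ) (hkap : 0 < kap) : ∃ p : ℕ, ∀ (k : ℕ) (c : ℝ), 0 ≤ c →
    c * k < n + 1 → ∃ ep0 : ℝ, 0 < ep0 ∧ ∀ ep : ℝ, 0 < ep → ep < ep0 → ∀ g : V (n + 1) D,
      ‖g‖ = 1 → ∀ j : Ex (n + 1) k,
      ∫ X, wg p ep g (X j) * Real.exp (-Psi n k c ep X) ≤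
        kap * ∫ X, Real.exp (-Psi n k c ep X) := by
  set vA : ℝ := (volume (Ann (n + 1))).toReal with hvA
  have hvA0 : 0 < vA := ENNReal.toReal_pos (meanBound_vol_pos n).ne' (meanBound_vol_lt_top _).ne
  set kap' : ℝ := kap * vA / (4 * 4 ^ (n + 1)) with hkap'
  have hkap'0 : 0 < kap' := by positivity
  obtain ⟨p, hp⟩ := wg_small (n + 1) D kap' hkap'0
  refine ⟨p, fun k c hc hck => ?_⟩
  -- the radius
  set th : ℝ := ((n : ℝ) + 1 - c * k) / 2 with hth
  have hth0 : 0 < th := by rw [hth]; linarith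
  obtain ⟨a, ha, ha1, hae⟩ : ∃ a : ℝ, 0 < a ∧ a ≤ 1 ∧ Real.exp 1 * a ^ th ≤ kap / 2 := by
    set b : ℝ := kap / 2 / Real.exp 1 with hb
    have hb0 : 0 < b := by positivity
    refine ⟨min 1 (b ^ (1 / th)), lt_min one_pos (Real.rpow_pos_of_pos hb0 _),
      min_le_left _ _, ?_⟩
    have h1 : (min 1 (b ^ (1 / th))) ^ th ≤ (b ^ (1 / th)) ^ th :=
      Real.rpow_le_rpow (lt_min one_pos (Real.rpow_pos_of_pos hb0 _)).le (min_le_right _ _)
        hth0.le
    rw [← Real.rpow_mul hb0.le, one_div_mul_cancel hth0.ne', Real.rpow_one] at h1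
    calc Real.exp 1 * (min 1 (b ^ (1 / th))) ^ th ≤ Real.exp 1 * b :=
          mul_le_mul_of_nonneg_left h1 (Real.exp_pos _).le
      _ = kap / 2 := by rw [hb]; field_simp
  refine ⟨a * Real.log 2 / (D + 1), by have := Real.log_pos one_lt_two; positivity,
    fun ep hep hep0 g hg j => ?_⟩
  set F : (Ex (n + 1) k → Pt (n + 1)) → ℝ := fun X => Real.exp (-Psi n k c ep X) with hF
  have hFint : Integrable F := exp_Psi_integrable n k c ep hep hc hck.le
  have hFpos : ∀ X, 0 < F X := fun X => Real.exp_pos _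
  set Z : ℝ := ∫ X, F X with hZ
  have hZ0 : 0 < Z := exp_Psi_integral_pos n k c ep hep hc hck.le
  have hFc : Continuous F := meanBound_cont n k c ep hep
  -- the homogeneous majorant
  set h : Pt (n + 1) → ℝ := fun x => (1 - ‖pd g 0 x‖ ^ 2 / (2 * nsq x ^ D)) ^ p with hh
  have hgle : ∀ x : Pt (n + 1), ‖pd g 0 x‖ ^ 2 ≤ nsq x ^ D := by
    intro x
    have h1 := norm_pd_le g x
    rw [hg, one_mul] at h1
    calc ‖pd g 0 x‖ ^ 2 ≤ (enm x ^ D) ^ 2 := pow_le_pow_left₀ (norm_nonneg _) h1 2
      _ = nsq x ^ D := by rw [← enm_sq, ← pow_mul, ← pow_mul, mul_comm]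
  have hfrac : ∀ x : Pt (n + 1), 0 ≤ ‖pd g 0 x‖ ^ 2 / (2 * nsq x ^ D) ∧
      ‖pd g 0 x‖ ^ 2 / (2 * nsq x ^ D) ≤ 1 := by
    intro x
    have h0 : 0 ≤ nsq x ^ D := pow_nonneg (nsq_nonneg x) D
    refine ⟨by positivity, ?_⟩
    apply div_le_one_of_le₀
    · linarith [hgle x]
    · positivity
  have hh01 : ∀ x, 0 ≤ h x ∧ h x ≤ 1 := by
    intro x
    have h1 := hfrac x
    exact ⟨pow_nonneg (by linarith) p, pow_le_one₀ (by linarith) (by linarith)⟩
  have hhm : Measurable h := by
    refine Measurable.pow_const (measurable_const.sub ?_) p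
    refine Measurable.div ?_ ?_
    · exact ((continuous_pd g 0).norm.pow 2).measurable
    · exact (continuous_const.mul (continuous_nsq.pow D)).measurable
  have hhom : ∀ t : ℝ, 0 < t → ∀ x : Pt (n + 1), h ((t : ℂ) • x) = h x := by
    intro t ht x
    have h1 : nsq ((t : ℂ) • x) = t ^ 2 * nsq x := by
      simp only [nsq, Pi.smul_apply, smul_eq_mul, norm_mul, mul_pow, Complex.norm_real,
        Real.norm_eq_abs, sq_abs, Finset.mul_sum]
    have h2 : ‖pd g 0 ((t : ℂ) • x)‖ ^ 2 = (t ^ 2) ^ D * ‖pd g 0 x‖ ^ 2 := by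
      rw [pd_smul, norm_mul, norm_pow, Complex.norm_real, Real.norm_eq_abs, mul_pow,
        abs_of_pos ht, ← pow_mul, ← pow_mul, mul_comm D 2]
    simp only [hh]
    rw [h1, h2, mul_pow]
    have h3 : (t ^ 2) ^ D ≠ 0 := by positivity
    have h4 : (t ^ 2) ^ D * ‖pd g 0 x‖ ^ 2 / (2 * ((t ^ 2) ^ D * nsq x ^ D)) =
        ‖pd g 0 x‖ ^ 2 / (2 * nsq x ^ D) := by
      rw [show 2 * ((t ^ 2) ^ D * nsq x ^ D) = (t ^ 2) ^ D * (2 * nsq x ^ D) by ring]
      exact mul_div_mul_left _ _ h3
    rw [h4]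
  -- pointwise bound
  have hmeasS : MeasurableSet {X : Ex (n + 1) k → Pt (n + 1) | nsq (X j) < a} := by
    have hcn : Continuous fun X : Ex (n + 1) k → Pt (n + 1) => nsq (X j) :=
      continuous_nsq.comp (continuous_apply j)
    exact (isOpen_lt hcn continuous_const).measurableSet
  have hpt : ∀ X : Ex (n + 1) k → Pt (n + 1), wg p ep g (X j) * F X ≤
      Set.indicator {X : Ex (n + 1) k → Pt (n + 1) | nsq (X j) < a} F X + h (X j) * F X := by
    intro X
    have hw := wg_mem p ep hep g hg (X j)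
    by_cases hX : nsq (X j) < a
    · rw [Set.indicator_of_mem (show X ∈ {X : Ex (n + 1) k → Pt (n + 1) | nsq (X j) < a} from hX)]
      have h1 : wg p ep g (X j) * F X ≤ 1 * F X := mul_le_mul_of_nonneg_right hw.2 (hFpos X).le
      have h2 : 0 ≤ h (X j) * F X := mul_nonneg (hh01 _).1 (hFpos X).le
      linarith
    · rw [Set.indicator_of_notMem
        (show X ∉ {X : Ex (n + 1) k → Pt (n + 1) | nsq (X j) < a} from hX), zero_add]
      apply mul_le_mul_of_nonneg_right _ (hFpos X).le
      rw [not_lt] at hX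
      have ht0 : 0 < nsq (X j) := lt_of_lt_of_le ha hX
      have h1 := meanBound_pow D a ep (nsq (X j)) ha hep hep0 hX
      unfold wg
      simp only [hh]
      have h2 : 0 < (nsq (X j) + ep) ^ D := by positivity
      have h3 : ‖pd g 0 (X j)‖ ^ 2 / (2 * nsq (X j) ^ D) ≤
          ‖pd g 0 (X j)‖ ^ 2 / (nsq (X j) + ep) ^ D :=
        div_le_div_of_nonneg_left (by positivity) h2 h1
      have h4 : ‖pd g 0 (X j)‖ ^ 2 / (nsq (X j) + ep) ^ D ≤ 1 := by
        apply div_le_one_of_le₀ _ h2.le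
        exact (hgle _).trans (pow_le_pow_left₀ ht0.le (by linarith) D)
      apply pow_le_pow_left₀ (by linarith)
      linarith
  -- integrability
  have hcj : Continuous fun X : Ex (n + 1) k → Pt (n + 1) => X j := continuous_apply j
  have hint1 : Integrable fun X => wg p ep g (X j) * F X := by
    refine hFint.mono' ?_ (Filter.Eventually.of_forall fun X => ?_)
    · exact (((wg_smooth p ep hep g).continuous.comp hcj).mul hFc).aestronglyMeasurable
    · have hw := wg_mem p ep hep g hg (X j)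
      rw [norm_mul, Real.norm_of_nonneg hw.1, Real.norm_of_nonneg (hFpos X).le]
      exact mul_le_of_le_one_left (hFpos X).le hw.2
  have hint2 : Integrable (Set.indicator {X : Ex (n + 1) k → Pt (n + 1) | nsq (X j) < a} F) :=
    hFint.indicator hmeasS
  have hint3 : Integrable fun X => h (X j) * F X := by
    refine hFint.mono' ?_ (Filter.Eventually.of_forall fun X => ?_)
    · exact ((hhm.comp hcj.measurable).mul hFc.measurable).aestronglyMeasurable
    · rw [norm_mul, Real.norm_of_nonneg (hh01 _).1, Real.norm_of_nonneg (hFpos X).le]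
      exact mul_le_of_le_one_left (hFpos X).le (hh01 _).2
  have hle : ∫ X, wg p ep g (X j) * F X ≤
      (∫ X in {X : Ex (n + 1) k → Pt (n + 1) | nsq (X j) < a}, F X) + ∫ X, h (X j) * F X := by
    rw [← integral_indicator hmeasS, ← integral_add hint2 hint3]
    exact integral_mono hint1 (hint2.add hint3) hpt
  have hsr : (∫ X in {X : Ex (n + 1) k → Pt (n + 1) | nsq (X j) < a}, F X) ≤ kap / 2 * Z :=
    (small_radius n k c ep hep hc hck a ha ha1 j).trans
      (mul_le_mul_of_nonneg_right hae hZ0.le)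
  -- the homogeneous part
  have hhE : Measurable fun x => ENNReal.ofReal (h x) := hhm.ennreal_ofReal
  have hRm := meanBound_Rh_meas n k c ep hep j
  have hA := meanBound_meas_Ann (n + 1)
  have hmr := mean_radial (m := n + 1) (by omega) (meanBoundRh n k c ep j)
    (fun x => ENNReal.ofReal (h x)) hRm (meanBound_Rh_radial n k c ep hep j) hhE
    (fun t ht x => by simp only [hhom t ht x])
  rw [← meanBound_int n k c ep hep j _ hhE] at hmr
  have hZE : ∫⁻ x, meanBoundRh n k c ep j x = ENNReal.ofReal Z := by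
    have h1 := meanBound_int n k c ep hep j (fun _ => 1) measurable_const
    simp only [one_mul] at h1
    rw [← h1, hZ, ofReal_integral_eq_lintegral_ofReal hFint
      (Filter.Eventually.of_forall fun X => (hFpos X).le)]
    rfl
  have hHE : ∫⁻ X, ENNReal.ofReal (h (X j)) * meanBoundF n k c ep X =
      ENNReal.ofReal (∫ X, h (X j) * F X) := by
    rw [ofReal_integral_eq_lintegral_ofReal hint3
      (Filter.Eventually.of_forall fun X => mul_nonneg (hh01 _).1 (hFpos X).le)]
    refine lintegral_congr fun X => ?_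
    rw [ENNReal.ofReal_mul (hh01 _).1]
    rfl
  rw [hZE, hHE] at hmr
  -- weights
  have hW1 : ENNReal.ofReal (vA / 4 ^ (n + 1)) ≤
      ∫⁻ x in Ann (n + 1), ENNReal.ofReal (nsq x ^ (-((n + 1 : ℕ) : ℝ))) := by
    have h1 : ∫⁻ _x in Ann (n + 1), ENNReal.ofReal ((4 : ℝ) ^ (-((n + 1 : ℕ) : ℝ))) ≤
        ∫⁻ x in Ann (n + 1), ENNReal.ofReal (nsq x ^ (-((n + 1 : ℕ) : ℝ))) := by
      refine setLIntegral_mono' hA fun x hx => ?_
      apply ENNReal.ofReal_le_ofReal
      have hx0 : 0 < nsq x := lt_of_lt_of_le one_pos hx.1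
      exact Real.rpow_le_rpow_of_nonpos hx0 hx.2 (neg_nonpos.2 (Nat.cast_nonneg _))
    refine le_trans (le_of_eq ?_) h1
    rw [setLIntegral_const, Real.rpow_neg (by norm_num), Real.rpow_natCast, hvA,
      div_eq_mul_inv, mul_comm, ENNReal.ofReal_mul (by positivity),
      ENNReal.ofReal_toReal (meanBound_vol_lt_top _).ne]
  have hW2 : ∫⁻ x in Ann (n + 1), ENNReal.ofReal (h x) *
      ENNReal.ofReal (nsq x ^ (-((n + 1 : ℕ) : ℝ))) ≤ ENNReal.ofReal kap' := by
    refine le_trans (setLIntegral_mono' hA fun x hx => ?_) (hp g hg)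
    have h1 : ENNReal.ofReal (nsq x ^ (-((n + 1 : ℕ) : ℝ))) ≤ 1 := by
      rw [ENNReal.ofReal_le_one]
      exact Real.rpow_le_one_of_one_le_of_nonpos hx.1 (neg_nonpos.2 (Nat.cast_nonneg _))
    calc ENNReal.ofReal (h x) * ENNReal.ofReal (nsq x ^ (-((n + 1 : ℕ) : ℝ)))
        ≤ ENNReal.ofReal (h x) * 1 := by gcongr
      _ = ENNReal.ofReal ((1 - ‖pd g 0 x‖ ^ 2 / (2 * nsq x ^ D)) ^ p) := by rw [mul_one]
  have hI0 : 0 ≤ ∫ X, h (X j) * F X :=
    integral_nonneg fun X => mul_nonneg (hh01 _).1 (hFpos X).le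
  have hfin : (∫ X, h (X j) * F X) * (vA / 4 ^ (n + 1)) ≤ Z * kap' := by
    have h1 : ENNReal.ofReal (∫ X, h (X j) * F X) * ENNReal.ofReal (vA / 4 ^ (n + 1)) ≤
        ENNReal.ofReal Z * ENNReal.ofReal kap' := by
      calc ENNReal.ofReal (∫ X, h (X j) * F X) * ENNReal.ofReal (vA / 4 ^ (n + 1))
          ≤ ENNReal.ofReal (∫ X, h (X j) * F X) *
            ∫⁻ x in Ann (n + 1), ENNReal.ofReal (nsq x ^ (-((n + 1 : ℕ) : ℝ))) := by gcongr
        _ = _ := hmr
        _ ≤ _ := by gcongr
    rw [← ENNReal.ofReal_mul hI0, ← ENNReal.ofReal_mul hZ0.le] at h1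
    exact (ENNReal.ofReal_le_ofReal_iff (by positivity)).1 h1
  have hfin2 : (∫ X, h (X j) * F X) ≤ kap / 4 * Z := by
    have h1 : 0 < vA / 4 ^ (n + 1) := by positivity
    have h2 : Z * kap' = kap / 4 * Z * (vA / 4 ^ (n + 1)) := by
      rw [hkap']
      field_simp
    rw [h2] at hfin
    exact le_of_mul_le_mul_right hfin h1
  have hlast : 0 ≤ kap * Z := by positivity
  linarith

end GPn
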