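/- piece HB -/
import Pool.Agent.Lib_MP_e0d435_ag.HDefs

open Finset MeasureTheory Complex
open scoped ENNReal ContDiff

namespace GPn

section hb_smooth

variable {E : Type*} [NormedAddCommGroup E] [NormedSpace ℂ E]

private lemma hb_fd {F : E → ℂ} (hF : ContDiff ℝ ∞ F) (v : E) :
    ContDiff ℝ ∞ (fun x => fderiv ℝ F x v) := by
  have h : ContDiff ℝ ∞ (fderiv ℝ F) := hF.fderiv_right (m := ∞) (by simp)
  exact h.clm_apply contDiff_const

private lemma hb_dz {F : E → ℂ} (hF : ContDiff ℝ ∞ F) (v : E) : ContDiff ℝ ∞ (dz v F) := by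
  have h1 := hb_fd hF v
  have h2 := hb_fd hF (I • v)
  have : dz v F = fun x => (fderiv ℝ F x v - I * fderiv ℝ F x (I • v)) / 2 := rfl
  rw [this]
  exact (h1.sub (contDiff_const.mul h2)).div_const 2

private lemma hb_dzb {F : E → ℂ} (hF : ContDiff ℝ ∞ F) (v : E) : ContDiff ℝ ∞ (dzb v F) := by
  have h1 := hb_fd hF v
  have h2 := hb_fd hF (I • v)
  have : dzb v F = fun x => (fderiv ℝ F x v + I * fderiv ℝ F x (I • v)) / 2 := rfl
  rw [this]
  exact (h1.add (contDiff_const.mul h2)).div_const 2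

private lemma hb_re {Ps : E → ℝ} (hPs : ContDiff ℝ ∞ Ps) :
    ContDiff ℝ ∞ (fun y => (Ps y : ℂ)) :=
  Complex.ofRealCLM.contDiff.comp hPs

private lemma hb_del {Ps : E → ℝ} (hPs : ContDiff ℝ ∞ Ps) {F : E → ℂ} (hF : ContDiff ℝ ∞ F)
    (v : E) : ContDiff ℝ ∞ (del Ps v F) := by
  have h1 := hb_dz hF v
  have h2 := hb_dz (hb_re hPs) v
  have : del Ps v F = fun x => - dz v F x + dz v (fun y => (Ps y : ℂ)) x * F x := rfl
  rw [this]
  exact h1.neg.add (h2.mul hF)

omit [NormedSpace ℂ E] in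
private lemma hb_supp {F : E → ℂ} (hc : HasCompactSupport F) {G : E → ℂ}
    (h : ∀ x, x ∉ tsupport F → G x = 0) : HasCompactSupport G :=
  HasCompactSupport.intro hc h

private lemma hb_fd0 {F : E → ℂ} {x : E} (hx : x ∉ tsupport F) : fderiv ℝ F x = 0 :=
  fderiv_of_notMem_tsupport ℝ hx

omit [NormedSpace ℂ E] in
private lemma hb_z0 {F : E → ℂ} {x : E} (hx : x ∉ tsupport F) : F x = 0 :=
  image_eq_zero_of_notMem_tsupport hx

private lemma hb_dzb_sc {F : E → ℂ} (hF : SC F) (v : E) : SC (dzb v F) := by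
  refine ⟨hb_dzb hF.1 v, hb_supp hF.2 fun x hx => ?_⟩
  simp [dzb, hb_fd0 hx]

private lemma hb_del_sc {Ps : E → ℝ} (hPs : ContDiff ℝ ∞ Ps) {F : E → ℂ} (hF : SC F) (v : E) :
    SC (del Ps v F) := by
  refine ⟨hb_del hPs hF.1 v, hb_supp hF.2 fun x hx => ?_⟩
  simp [del, dz, hb_fd0 hx, hb_z0 hx]

private lemma hb_da {F : E → ℂ} (hF : ContDiff ℝ ∞ F) (x : E) : DifferentiableAt ℝ F x :=
  hF.contDiffAt.differentiableAt (by simp)

/-- product rule for dzb -/
private lemma hb_dzb_mul {F G : E → ℂ} (hF : ContDiff ℝ ∞ F) (hG : ContDiff ℝ ∞ G) (v x : E) :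
    dzb v (fun y => F y * G y) x = dzb v F x * G x + F x * dzb v G x := by
  have h := fderiv_fun_mul (hb_da hF x) (hb_da hG x)
  simp only [dzb, h, add_apply, smul_apply, smul_eq_mul]
  ring

private lemma hb_dzb_add {F G : E → ℂ} (hF : ContDiff ℝ ∞ F) (hG : ContDiff ℝ ∞ G) (v x : E) :
    dzb v (fun y => F y + G y) x = dzb v F x + dzb v G x := by
  have h := fderiv_fun_add (hb_da hF x) (hb_da hG x)
  simp only [dzb, h, add_apply]
  ring

private lemma hb_dzb_neg {F : E → ℂ} (v x : E) :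
    dzb v (fun y => - F y) x = - dzb v F x := by
  have h : fderiv ℝ (fun y => - F y) x = - fderiv ℝ F x := fderiv_fun_neg
  simp only [dzb, h, neg_apply]
  ring

private lemma hb_dzb_sum {ι : Type*} (s : Finset ι) {F : ι → E → ℂ}
    (hF : ∀ i, ContDiff ℝ ∞ (F i)) (v x : E) :
    dzb v (fun y => ∑ i ∈ s, F i y) x = ∑ i ∈ s, dzb v (F i) x := by
  classical
  induction s using Finset.induction_on with
  | empty => simp [dzb]
  | insert i s hi ih =>
    simp only [Finset.sum_insert hi]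
    rw [hb_dzb_add (hF i) (ContDiff.sum fun i _ => hF i), ih]

/-- second derivative -/
private lemma hb_d2 {F : E → ℂ} (hF : ContDiff ℝ ∞ F) (v w x : E) :
    fderiv ℝ (fun y => fderiv ℝ F y v) x w = fderiv ℝ (fderiv ℝ F) x w v := by
  have h : ContDiff ℝ ∞ (fderiv ℝ F) := hF.fderiv_right (m := ∞) (by simp)
  have h1 : DifferentiableAt ℝ (fderiv ℝ F) x := h.contDiffAt.differentiableAt (by simp)
  have h2 := h1.hasFDerivAt.clm_apply (hasFDerivAt_const v x)
  rw [h2.fderiv]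
  simp

private lemma hb_symm {F : E → ℂ} (hF : ContDiff ℝ ∞ F) (v w x : E) :
    fderiv ℝ (fderiv ℝ F) x v w = fderiv ℝ (fderiv ℝ F) x w v := by
  have h : IsSymmSndFDerivAt ℝ F x :=
    hF.contDiffAt.isSymmSndFDerivAt (by
      rw [minSmoothness_of_isRCLikeNormedField]
      exact WithTop.coe_le_coe.2 le_top)
  exact h v w

private lemma hb_fdz {F : E → ℂ} (hF : ContDiff ℝ ∞ F) (v w x : E) :
    fderiv ℝ (dz v F) x w =
      (fderiv ℝ (fderiv ℝ F) x w v - I * fderiv ℝ (fderiv ℝ F) x w (I • v)) / 2 := by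
  have h1 := hb_fd hF v
  have h2 := hb_fd hF (I • v)
  have e : dz v F = fun x => (fderiv ℝ F x v - I * fderiv ℝ F x (I • v)) / 2 := rfl
  rw [e]
  have h3 := ((hb_da h1 x).hasFDerivAt.sub ((hb_da h2 x).hasFDerivAt.const_mul I)).mul_const
    ((2 : ℂ)⁻¹)
  simp only [div_eq_mul_inv]
  have h4 : HasFDerivAt (fun x => (fderiv ℝ F x v - I * fderiv ℝ F x (I • v)) * (2 : ℂ)⁻¹)
    _ x := h3
  rw [h4.fderiv]
  simp [hb_d2 hF]
  ring

private lemma hb_fdzb {F : E → ℂ} (hF : ContDiff ℝ ∞ F) (v w x : E) :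
    fderiv ℝ (dzb v F) x w =
      (fderiv ℝ (fderiv ℝ F) x w v + I * fderiv ℝ (fderiv ℝ F) x w (I • v)) / 2 := by
  have h1 := hb_fd hF v
  have h2 := hb_fd hF (I • v)
  have e : dzb v F = fun x => (fderiv ℝ F x v + I * fderiv ℝ F x (I • v)) / 2 := rfl
  rw [e]
  have h3 := ((hb_da h1 x).hasFDerivAt.add ((hb_da h2 x).hasFDerivAt.const_mul I)).mul_const
    ((2 : ℂ)⁻¹)
  simp only [div_eq_mul_inv]
  have h4 : HasFDerivAt (fun x => (fderiv ℝ F x v + I * fderiv ℝ F x (I • v)) * (2 : ℂ)⁻¹)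
    _ x := h3
  rw [h4.fderiv]
  simp [hb_d2 hF]
  ring

/-- mixed second derivatives commute -/
private lemma hb_comm {F : E → ℂ} (hF : ContDiff ℝ ∞ F) (a c x : E) :
    dzb c (dz a F) x = dz a (dzb c F) x := by
  simp only [dzb, dz]
  have h1 := hb_fdz hF a c x
  have h2 := hb_fdz hF a (I • c) x
  have h3 := hb_fdzb hF c a x
  have h4 := hb_fdzb hF c (I • a) x
  simp only [h1, h2, h3, h4]
  rw [hb_symm hF a c, hb_symm hF a (I • c), hb_symm hF (I • a) c, hb_symm hF (I • a) (I • c)]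
  ring_nf

/-- commutator of dzb and del -/
private lemma hb_commutator {Ps : E → ℝ} (hPs : ContDiff ℝ ∞ Ps) {F : E → ℂ}
    (hF : ContDiff ℝ ∞ F) (a c x : E) :
    dzb c (del Ps a F) x =
      del Ps a (dzb c F) x + dzb c (dz a (fun y => (Ps y : ℂ))) x * F x := by
  have e : del Ps a F = fun x => (- dz a F x) + dz a (fun y => (Ps y : ℂ)) x * F x := rfl
  rw [e, hb_dzb_add (hb_dz hF a).neg ((hb_dz (hb_re hPs) a).mul hF), hb_dzb_neg,
    hb_dzb_mul (hb_dz (hb_re hPs) a) hF, hb_comm hF]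
  simp only [del]
  ring

end hb_smooth

section hb_B

variable {E : Type*} [NormedAddCommGroup E] [NormedSpace ℂ E]

private noncomputable def hb_B (Ps : E → ℝ) (x a c : E) : ℂ :=
  dzb c (dz a (fun y => (Ps y : ℂ))) x

private lemma hb_B_eq {Ps : E → ℝ} (hPs : ContDiff ℝ ∞ Ps) (x a c : E) :
    hb_B Ps x a c =
      (fderiv ℝ (fderiv ℝ (fun y => (Ps y : ℂ))) x c a
        + fderiv ℝ (fderiv ℝ (fun y => (Ps y : ℂ))) x (I • c) (I • a)
        + I * (fderiv ℝ (fderiv ℝ (fun y => (Ps y : ℂ))) x (I • c) a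
          - fderiv ℝ (fderiv ℝ (fun y => (Ps y : ℂ))) x c (I • a))) / 4 := by
  have h1 := hb_fdz (hb_re hPs) a c x
  have h2 := hb_fdz (hb_re hPs) a (I • c) x
  simp only [hb_B, dzb]
  rw [h1, h2]
  linear_combination (- (fderiv ℝ (fderiv ℝ (fun y => (Ps y : ℂ))) x (I • c) (I • a)) / 4) * I_sq

private lemma hb_II (a : E) : (I : ℂ) • (I : ℂ) • a = - a := by
  rw [smul_smul, I_mul_I]; simp

private lemma hb_B_add_left {Ps : E → ℝ} (hPs : ContDiff ℝ ∞ Ps) (x a a' c : E) :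
    hb_B Ps x (a + a') c = hb_B Ps x a c + hb_B Ps x a' c := by
  simp only [hb_B_eq hPs, smul_add, map_add]
  ring

private lemma hb_B_add_right {Ps : E → ℝ} (hPs : ContDiff ℝ ∞ Ps) (x a c c' : E) :
    hb_B Ps x a (c + c') = hb_B Ps x a c + hb_B Ps x a c' := by
  simp only [hb_B_eq hPs, smul_add, map_add, add_apply]
  ring

private lemma hb_B_re_left {Ps : E → ℝ} (hPs : ContDiff ℝ ∞ Ps) (x a c : E) (r : ℝ) :
    hb_B Ps x (r • a) c = r * hb_B Ps x a c := by
  have e : (I : ℂ) • (r • a) = r • ((I : ℂ) • a) := smul_comm _ _ _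
  simp only [hb_B_eq hPs, e, map_smul, real_smul]
  ring

private lemma hb_B_re_right {Ps : E → ℝ} (hPs : ContDiff ℝ ∞ Ps) (x a c : E) (r : ℝ) :
    hb_B Ps x a (r • c) = r * hb_B Ps x a c := by
  have e : (I : ℂ) • (r • c) = r • ((I : ℂ) • c) := smul_comm _ _ _
  simp only [hb_B_eq hPs, e, map_smul, real_smul, smul_apply]
  ring

private lemma hb_B_I_left {Ps : E → ℝ} (hPs : ContDiff ℝ ∞ Ps) (x a c : E) :
    hb_B Ps x (I • a) c = I * hb_B Ps x a c := by
  simp only [hb_B_eq hPs, hb_II, map_neg]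
  linear_combination (- (fderiv ℝ (fderiv ℝ (fun y => (Ps y : ℂ))) x (I • c) a
    - fderiv ℝ (fderiv ℝ (fun y => (Ps y : ℂ))) x c (I • a)) / 4) * I_sq

private lemma hb_B_I_right {Ps : E → ℝ} (hPs : ContDiff ℝ ∞ Ps) (x a c : E) :
    hb_B Ps x a (I • c) = - I * hb_B Ps x a c := by
  simp only [hb_B_eq hPs, hb_II, map_neg, neg_apply]
  linear_combination ((fderiv ℝ (fderiv ℝ (fun y => (Ps y : ℂ))) x (I • c) a
    - fderiv ℝ (fderiv ℝ (fun y => (Ps y : ℂ))) x c (I • a)) / 4) * I_sq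

private lemma hb_smul_eq (z : ℂ) (a : E) : z • a = z.re • a + z.im • (I • a) := by
  conv_lhs => rw [← re_add_im z, add_smul, mul_smul]
  simp

private lemma hb_B_smul_left {Ps : E → ℝ} (hPs : ContDiff ℝ ∞ Ps) (x a c : E) (z : ℂ) :
    hb_B Ps x (z • a) c = z * hb_B Ps x a c := by
  rw [hb_smul_eq, hb_B_add_left hPs, hb_B_re_left hPs, hb_B_re_left hPs, hb_B_I_left hPs]
  conv_rhs => rw [← re_add_im z]
  ring

private lemma hb_B_smul_right {Ps : E → ℝ} (hPs : ContDiff ℝ ∞ Ps) (x a c : E) (z : ℂ) :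
    hb_B Ps x a (z • c) = (starRingEnd ℂ) z * hb_B Ps x a c := by
  have e : (starRingEnd ℂ) z = z.re - z.im * I := by apply Complex.ext <;> simp
  rw [hb_smul_eq, hb_B_add_right hPs, hb_B_re_right hPs, hb_B_re_right hPs, hb_B_I_right hPs, e]
  ring

private lemma hb_B_zero_left {Ps : E → ℝ} (hPs : ContDiff ℝ ∞ Ps) (x c : E) :
    hb_B Ps x 0 c = 0 := by
  simpa using hb_B_smul_left hPs x 0 c 0

private lemma hb_B_zero_right {Ps : E → ℝ} (hPs : ContDiff ℝ ∞ Ps) (x a : E) :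
    hb_B Ps x a 0 = 0 := by
  simpa using hb_B_smul_right hPs x a 0 0

private lemma hb_B_sum_left {Ps : E → ℝ} (hPs : ContDiff ℝ ∞ Ps) {ι : Type*} (s : Finset ι)
    (x : E) (a : ι → E) (c : E) :
    hb_B Ps x (∑ i ∈ s, a i) c = ∑ i ∈ s, hb_B Ps x (a i) c := by
  classical
  induction s using Finset.induction_on with
  | empty => simp [hb_B_zero_left hPs]
  | insert i s hi ih => rw [Finset.sum_insert hi, Finset.sum_insert hi, hb_B_add_left hPs, ih]

private lemma hb_B_sum_right {Ps : E → ℝ} (hPs : ContDiff ℝ ∞ Ps) {ι : Type*} (s : Finset ι)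
    (x : E) (a : E) (c : ι → E) :
    hb_B Ps x a (∑ i ∈ s, c i) = ∑ i ∈ s, hb_B Ps x a (c i) := by
  classical
  induction s using Finset.induction_on with
  | empty => simp [hb_B_zero_right hPs]
  | insert i s hi ih => rw [Finset.sum_insert hi, Finset.sum_insert hi, hb_B_add_right hPs, ih]

private lemma hb_fd_re {Ps : E → ℝ} (hPs : ContDiff ℝ ∞ Ps) (x v : E) :
    fderiv ℝ (fun y => (Ps y : ℂ)) x v = ((fderiv ℝ Ps x v : ℝ) : ℂ) := by
  have h : DifferentiableAt ℝ Ps x := hPs.contDiffAt.differentiableAt (by simp)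
  have h2 := (Complex.ofRealCLM.hasFDerivAt (x := Ps x)).comp x h.hasFDerivAt
  have h3 : HasFDerivAt (fun y => (Ps y : ℂ)) (Complex.ofRealCLM.comp (fderiv ℝ Ps x)) x := h2
  rw [h3.fderiv]
  simp

private lemma hb_fd_smooth {Ps : E → ℝ} (hPs : ContDiff ℝ ∞ Ps) (v : E) :
    ContDiff ℝ ∞ (fun x => fderiv ℝ Ps x v) := by
  have h : ContDiff ℝ ∞ (fderiv ℝ Ps) := hPs.fderiv_right (m := ∞) (by simp)
  exact h.clm_apply contDiff_const

private lemma hb_B_self {Ps : E → ℝ} (hPs : ContDiff ℝ ∞ Ps) (x a : E) :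
    hb_B Ps x a a = ((Lform Ps x a : ℝ) : ℂ) := by
  rw [hb_B_eq hPs, hb_symm (hb_re hPs) (I • a) a, sub_self, mul_zero, add_zero,
    ← hb_d2 (hb_re hPs), ← hb_d2 (hb_re hPs)]
  simp only [hb_fd_re hPs]
  rw [hb_fd_re (hb_fd_smooth hPs a), hb_fd_re (hb_fd_smooth hPs (I • a))]
  simp [Lform]

private lemma hb_Lform_sum {Ps : E → ℝ} (hPs : ContDiff ℝ ∞ Ps) {ι : Type*} [Fintype ι]
    (b : ι → E) (z : ι → ℂ) (x : E) :
    ((Lform Ps x (∑ j, z j • b j) : ℝ) : ℂ) =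
      ∑ k, ∑ j, hb_B Ps x (b j) (b k) * z j * (starRingEnd ℂ) (z k) := by
  rw [← hb_B_self hPs, hb_B_sum_right hPs]
  refine Finset.sum_congr rfl fun k _ => ?_
  rw [hb_B_sum_left hPs]
  refine Finset.sum_congr rfl fun j _ => ?_
  rw [hb_B_smul_left hPs, hb_B_smul_right hPs]
  ring

end hb_B

variable {E : Type*} [NormedAddCommGroup E] [NormedSpace ℂ E] [FiniteDimensional ℂ E]
  [MeasurableSpace E] [BorelSpace E]

section hb_int

private lemma hb_lf (mu : Measure E) [mu.IsAddHaarMeasure] {Ps : E → ℝ}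
    (hPs : ContDiff ℝ ∞ Ps) : IsLocallyFiniteMeasure (gm mu Ps) :=
  IsLocallyFiniteMeasure.withDensity_ofReal (Real.continuous_exp.comp hPs.continuous.neg)

private lemma hb_integrable (mu : Measure E) [mu.IsAddHaarMeasure] {Ps : E → ℝ}
    (hPs : ContDiff ℝ ∞ Ps) {G : Type*} [NormedAddCommGroup G] {F : E → G} (hF : Continuous F)
    (hc : HasCompactSupport F) : Integrable F (gm mu Ps) := by
  have := hb_lf mu hPs
  have : FiniteDimensional ℝ E := FiniteDimensional.complexToReal E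
  have : ProperSpace E := FiniteDimensional.proper ℝ E
  exact hF.integrable_of_hasCompactSupport hc

omit [FiniteDimensional ℂ E] in
private lemma hb_gm (mu : Measure E) {Ps : E → ℝ}
    (hPs : ContDiff ℝ ∞ Ps) (F : E → ℂ) :
    ∫ x, F x ∂(gm mu Ps) = ∫ x, (Real.exp (-Ps x) : ℂ) * F x ∂mu := by
  have hm : Measurable fun x => ENNReal.ofReal (Real.exp (-Ps x)) :=
    (Real.continuous_exp.comp hPs.continuous.neg).measurable.ennreal_ofReal
  rw [gm, integral_withDensity_eq_integral_toReal_smul hm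
    (Filter.Eventually.of_forall fun x => ENNReal.ofReal_lt_top)]
  refine integral_congr_ae (Filter.Eventually.of_forall fun x => ?_)
  simp only [ENNReal.toReal_ofReal (Real.exp_pos _).le, real_smul]

/-- integration by parts against Haar measure -/
private lemma hb_ibp0 (mu : Measure E) [mu.IsAddHaarMeasure] {u w : E → ℂ}
    (hu : ContDiff ℝ ∞ u) (hw : SC w) (a : E) :
    ∫ x, dzb a u x * w x ∂mu = - ∫ x, u x * dzb a w x ∂mu := by
  have : FiniteDimensional ℝ E := FiniteDimensional.complexToReal E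
  have : ProperSpace E := FiniteDimensional.proper ℝ E
  have hint : ∀ F : E → ℂ, Continuous F → (∀ x, x ∉ tsupport w → F x = 0) → Integrable F mu :=
    fun F hF h => hF.integrable_of_hasCompactSupport (hb_supp hw.2 h)
  have key : ∀ v : E, ∫ x, u x * fderiv ℝ w x v ∂mu = - ∫ x, fderiv ℝ u x v * w x ∂mu := by
    intro v
    refine integral_mul_fderiv_eq_neg_fderiv_mul_of_integrable ?_ ?_ ?_ ?_ ?_
    · exact hint _ ((hb_fd hu v).continuous.mul hw.1.continuous) fun x hx => by simp [hb_z0 hx]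
    · exact hint _ (hu.continuous.mul (hb_fd hw.1 v).continuous) fun x hx => by simp [hb_fd0 hx]
    · exact hint _ (hu.continuous.mul hw.1.continuous) fun x hx => by simp [hb_z0 hx]
    · exact fun x _ => hb_da hu x
    · exact fun x _ => hb_da hw.1 x
  have i1 : ∀ v : E, Integrable (fun x => fderiv ℝ u x v * w x) mu := fun v =>
    hint _ ((hb_fd hu v).continuous.mul hw.1.continuous) fun x hx => by simp [hb_z0 hx]
  have i2 : ∀ v : E, Integrable (fun x => u x * fderiv ℝ w x v) mu := fun v =>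
    hint _ (hu.continuous.mul (hb_fd hw.1 v).continuous) fun x hx => by simp [hb_fd0 hx]
  have e1 : ∫ x, dzb a u x * w x ∂mu =
      (∫ x, fderiv ℝ u x a * w x ∂mu) * 2⁻¹ + (∫ x, fderiv ℝ u x (I • a) * w x ∂mu) * (I * 2⁻¹) := by
    rw [← integral_mul_const, ← integral_mul_const, ← integral_add ((i1 a).mul_const _)
      ((i1 (I • a)).mul_const _)]
    refine integral_congr_ae (Filter.Eventually.of_forall fun x => ?_)
    simp only [dzb]
    ring
  have e2 : ∫ x, u x * dzb a w x ∂mu =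
      (∫ x, u x * fderiv ℝ w x a ∂mu) * 2⁻¹ + (∫ x, u x * fderiv ℝ w x (I • a) ∂mu) * (I * 2⁻¹) := by
    rw [← integral_mul_const, ← integral_mul_const, ← integral_add ((i2 a).mul_const _)
      ((i2 (I • a)).mul_const _)]
    refine integral_congr_ae (Filter.Eventually.of_forall fun x => ?_)
    simp only [dzb]
    ring
  rw [e1, e2, key a, key (I • a)]
  ring

end hb_int

section hb_conj

omit [FiniteDimensional ℂ E] [MeasurableSpace E] [BorelSpace E]

private lemma hb_conj_smooth {v : E → ℂ} (hv : ContDiff ℝ ∞ v) :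
    ContDiff ℝ ∞ (fun y => (starRingEnd ℂ) (v y)) :=
  Complex.conjCLE.contDiff.comp hv

private lemma hb_fd_conj {v : E → ℂ} (hv : ContDiff ℝ ∞ v) (x w : E) :
    fderiv ℝ (fun y => (starRingEnd ℂ) (v y)) x w = (starRingEnd ℂ) (fderiv ℝ v x w) := by
  have h2 := (Complex.conjCLE.toContinuousLinearMap.hasFDerivAt (x := v x)).comp x
    (hb_da hv x).hasFDerivAt
  have h3 : HasFDerivAt (fun y => (starRingEnd ℂ) (v y))
    (Complex.conjCLE.toContinuousLinearMap.comp (fderiv ℝ v x)) x := h2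
  rw [h3.fderiv]
  simp

private lemma hb_dzb_conj {v : E → ℂ} (hv : ContDiff ℝ ∞ v) (a x : E) :
    dzb a (fun y => (starRingEnd ℂ) (v y)) x = (starRingEnd ℂ) (dz a v x) := by
  simp only [dzb, dz, hb_fd_conj hv, map_div₀, map_sub, map_mul, conj_I,
    map_ofNat (starRingEnd ℂ) 2]
  ring

private lemma hb_exp_smooth {Ps : E → ℝ} (hPs : ContDiff ℝ ∞ Ps) :
    ContDiff ℝ ∞ (fun y => (Real.exp (-Ps y) : ℂ)) :=
  hb_re (Real.contDiff_exp.comp hPs.neg)

private lemma hb_dzb_exp {Ps : E → ℝ} (hPs : ContDiff ℝ ∞ Ps) (a x : E) :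
    dzb a (fun y => (Real.exp (-Ps y) : ℂ)) x =
      - ((Real.exp (-Ps x) : ℂ) * (starRingEnd ℂ) (dz a (fun y => (Ps y : ℂ)) x)) := by
  have hP : DifferentiableAt ℝ Ps x := hPs.contDiffAt.differentiableAt (by simp)
  have h1 : ∀ w, fderiv ℝ (fun y => Real.exp (-Ps y)) x w
      = - (Real.exp (-Ps x) * fderiv ℝ Ps x w) := by
    intro w
    have h := hP.hasFDerivAt.neg.exp
    have h' : HasFDerivAt (fun y => Real.exp (-Ps y)) _ x := h
    rw [h'.fderiv]
    simp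
  have hE : ContDiff ℝ ∞ fun y => Real.exp (-Ps y) := Real.contDiff_exp.comp hPs.neg
  simp only [dzb, dz]
  rw [hb_fd_re hE, hb_fd_re hE, h1, h1, hb_fd_re hPs, hb_fd_re hPs]
  simp only [map_div₀, map_sub, map_mul, conj_I, conj_ofReal, map_ofNat (starRingEnd ℂ) 2]
  push_cast
  ring

end hb_conj

/-- integration by parts -/
theorem ibp (mu : Measure E) [mu.IsAddHaarMeasure] (Ps : E → ℝ) (hPs : ContDiff ℝ ∞ Ps)
    (a : E) (u v : E → ℂ) (hu : ContDiff ℝ ∞ u) (hv : SC v) :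
    ∫ x, dzb a u x * (starRingEnd ℂ) (v x) ∂(gm mu Ps) =
      ∫ x, u x * (starRingEnd ℂ) (del Ps a v x) ∂(gm mu Ps) := by
  rw [hb_gm mu hPs, hb_gm mu hPs]
  have hw : SC (fun y => (Real.exp (-Ps y) : ℂ) * (starRingEnd ℂ) (v y)) := by
    refine ⟨(hb_exp_smooth hPs).mul (hb_conj_smooth hv.1), hb_supp hv.2 fun x hx => ?_⟩
    simp [hb_z0 hx]
  have h := hb_ibp0 mu hu hw a
  have e1 : ∫ x, (Real.exp (-Ps x) : ℂ) * (dzb a u x * (starRingEnd ℂ) (v x)) ∂mu =
      ∫ x, dzb a u x * ((Real.exp (-Ps x) : ℂ) * (starRingEnd ℂ) (v x)) ∂mu := by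
    congr 1
    ext x
    ring
  rw [e1, h, ← integral_neg]
  refine integral_congr_ae (Filter.Eventually.of_forall fun x => ?_)
  simp only
  rw [hb_dzb_mul (hb_exp_smooth hPs) (hb_conj_smooth hv.1), hb_dzb_conj hv.1, hb_dzb_exp hPs]
  simp only [del, map_add, map_neg, map_mul]
  ring

omit [FiniteDimensional ℂ E] [MeasurableSpace E] [BorelSpace E] in
private lemma hb_sc_sum {ι : Type*} (s : Finset ι) {F : ι → E → ℂ} (hF : ∀ i, SC (F i)) :
    SC (fun x => ∑ i ∈ s, F i x) := by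
  classical
  refine ⟨ContDiff.sum fun i _ => (hF i).1, ?_⟩
  induction s using Finset.induction_on with
  | empty =>
    simp only [Finset.sum_empty]
    exact HasCompactSupport.zero
  | insert i s hi ih =>
    simp only [Finset.sum_insert hi]
    exact (hF i).2.add ih

private lemma hb_swap (mu : Measure E) [mu.IsAddHaarMeasure] {Ps : E → ℝ} (hPs : ContDiff ℝ ∞ Ps)
    (a : E) {u v : E → ℂ} (hu : ContDiff ℝ ∞ u) (hv : SC v) :
    ∫ x, del Ps a v x * (starRingEnd ℂ) (u x) ∂(gm mu Ps) =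
      ∫ x, v x * (starRingEnd ℂ) (dzb a u x) ∂(gm mu Ps) := by
  have h := ibp mu Ps hPs a u v hu hv
  have h1 := congrArg (starRingEnd ℂ) h
  rw [← integral_conj, ← integral_conj] at h1
  simp only [map_mul, RingHomCompTriple.comp_apply, RingHom.id_apply] at h1
  have e1 : ∫ x, del Ps a v x * (starRingEnd ℂ) (u x) ∂(gm mu Ps) =
      ∫ x, (starRingEnd ℂ) (u x) * del Ps a v x ∂(gm mu Ps) := by
    congr 1; ext x; ring
  have e2 : ∫ x, v x * (starRingEnd ℂ) (dzb a u x) ∂(gm mu Ps) =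
      ∫ x, (starRingEnd ℂ) (dzb a u x) * v x ∂(gm mu Ps) := by
    congr 1; ext x; ring
  rw [e1, e2, h1]

private lemma hb_main (mu : Measure E) [mu.IsAddHaarMeasure] {Ps : E → ℝ}
    (hPs : ContDiff ℝ ∞ Ps) {ι : Type*} [Fintype ι] (b : ι → E) (al : ι → E → ℂ)
    (hal : ∀ j, SC (al j)) :
    ∫ x, (∑ j, del Ps (b j) (al j) x) * (starRingEnd ℂ) (∑ j, del Ps (b j) (al j) x)
        ∂(gm mu Ps) =
      ∫ x, ∑ k, ∑ j, dzb (b k) (al j) x * (starRingEnd ℂ) (dzb (b j) (al k) x) ∂(gm mu Ps)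
      + ∫ x, ((Lform Ps x (∑ j, al j x • b j) : ℝ) : ℂ) ∂(gm mu Ps) := by
  have hD : ∀ j, SC (del Ps (b j) (al j)) := fun j => hb_del_sc hPs (hal j) (b j)
  have hS : SC (fun x => ∑ j, del Ps (b j) (al j) x) := hb_sc_sum _ hD
  have hA : ∀ k j, SC (dzb (b k) (al j)) := fun k j => hb_dzb_sc (hal j) (b k)
  have hint : ∀ F : E → ℂ, Continuous F → HasCompactSupport F → Integrable F (gm mu Ps) :=
    fun F hF hc => hb_integrable mu hPs hF hc
  have hB : ∀ j k, ContDiff ℝ ∞ (fun x => hb_B Ps x (b j) (b k)) := fun j k =>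
    hb_dzb (hb_dz (hb_re hPs) (b j)) (b k)
  -- integrable pieces
  have I1 : ∀ k, Integrable (fun x => (∑ j, del Ps (b j) (al j) x) *
      (starRingEnd ℂ) (del Ps (b k) (al k) x)) (gm mu Ps) := fun k =>
    hint _ (hS.1.mul (hb_conj_smooth (hD k).1)).continuous
      (hb_supp (hD k).2 fun x hx => by rw [hb_z0 hx]; simp)
  have I2 : ∀ k j, Integrable (fun x => del Ps (b j) (dzb (b k) (al j)) x *
      (starRingEnd ℂ) (al k x)) (gm mu Ps) := fun k j =>
    hint _ ((hb_del hPs (hA k j).1 (b j)).mul (hb_conj_smooth (hal k).1)).continuous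
      (hb_supp (hal k).2 fun x hx => by rw [hb_z0 hx]; simp)
  have I3 : ∀ k j, Integrable (fun x => hb_B Ps x (b j) (b k) * al j x *
      (starRingEnd ℂ) (al k x)) (gm mu Ps) := fun k j =>
    hint _ (((hB j k).mul (hal j).1).mul (hb_conj_smooth (hal k).1)).continuous
      (hb_supp (hal k).2 fun x hx => by rw [hb_z0 hx]; simp)
  have I4 : ∀ k j, Integrable (fun x => dzb (b k) (al j) x *
      (starRingEnd ℂ) (dzb (b j) (al k) x)) (gm mu Ps) := fun k j =>
    hint _ ((hA k j).1.mul (hb_conj_smooth (hA j k).1)).continuous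
      (hb_supp (hA k j).2 fun x hx => by rw [hb_z0 hx]; simp)
  have step1 : ∫ x, (∑ j, del Ps (b j) (al j) x) *
      (starRingEnd ℂ) (∑ j, del Ps (b j) (al j) x) ∂(gm mu Ps) =
      ∑ k, ∫ x, (∑ j, del Ps (b j) (al j) x) *
        (starRingEnd ℂ) (del Ps (b k) (al k) x) ∂(gm mu Ps) := by
    rw [← integral_finsetSum _ fun k _ => I1 k]
    congr 1; ext x
    rw [map_sum, Finset.mul_sum]
  have step2 : ∀ k, ∫ x, (∑ j, del Ps (b j) (al j) x) *
        (starRingEnd ℂ) (del Ps (b k) (al k) x) ∂(gm mu Ps) =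
      ∑ j, (∫ x, dzb (b k) (al j) x * (starRingEnd ℂ) (dzb (b j) (al k) x) ∂(gm mu Ps)
        + ∫ x, hb_B Ps x (b j) (b k) * al j x * (starRingEnd ℂ) (al k x) ∂(gm mu Ps)) := by
    intro k
    rw [← ibp mu Ps hPs (b k) _ (al k) hS.1 (hal k)]
    have e : ∀ x, dzb (b k) (fun x => ∑ j, del Ps (b j) (al j) x) x * (starRingEnd ℂ) (al k x) =
        ∑ j, (del Ps (b j) (dzb (b k) (al j)) x * (starRingEnd ℂ) (al k x)
          + hb_B Ps x (b j) (b k) * al j x * (starRingEnd ℂ) (al k x)) := by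
      intro x
      rw [hb_dzb_sum _ (fun j => (hD j).1), Finset.sum_mul]
      refine Finset.sum_congr rfl fun j _ => ?_
      rw [hb_commutator hPs (hal j).1]
      simp only [hb_B]
      ring
    have I23 : ∀ j, Integrable (fun x => del Ps (b j) (dzb (b k) (al j)) x *
        (starRingEnd ℂ) (al k x) + hb_B Ps x (b j) (b k) * al j x *
        (starRingEnd ℂ) (al k x)) (gm mu Ps) := fun j => (I2 k j).add (I3 k j)
    simp only [e]
    rw [integral_finsetSum _ fun j _ => I23 j]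
    refine Finset.sum_congr rfl fun j _ => ?_
    rw [integral_add (I2 k j) (I3 k j), hb_swap mu hPs (b j) (hal k).1 (hA k j)]
  rw [step1]
  simp only [step2, Finset.sum_add_distrib]
  congr 1
  · rw [integral_finsetSum _ fun k _ => integrable_finsetSum _ fun j _ => I4 k j]
    refine Finset.sum_congr rfl fun k _ => ?_
    rw [integral_finsetSum _ fun j _ => I4 k j]
  · simp only [hb_Lform_sum hPs]
    rw [integral_finsetSum _ fun k _ => integrable_finsetSum _ fun j _ => I3 k j]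
    refine Finset.sum_congr rfl fun k _ => ?_
    rw [integral_finsetSum _ fun j _ => I3 k j]

private lemma hb_alg {ι : Type*} [Fintype ι] (A : ι → ι → ℂ) :
    -((1 / 2) * ∑ j, ∑ k, ‖A j k - A k j‖ ^ 2) ≤
      (∑ k, ∑ j, A k j * (starRingEnd ℂ) (A j k)).re := by
  have h1 : ∀ j k, ‖A j k - A k j‖ ^ 2 =
      ‖A j k‖ ^ 2 + ‖A k j‖ ^ 2 - 2 * (A k j * (starRingEnd ℂ) (A j k)).re := by
    intro j k
    simp only [← normSq_eq_norm_sq, normSq_apply, sub_re, sub_im, mul_re, conj_re, conj_im]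
    ring
  have h2 : (∑ k, ∑ j, A k j * (starRingEnd ℂ) (A j k)).re =
      ∑ j, ∑ k, (A k j * (starRingEnd ℂ) (A j k)).re := by
    rw [Finset.sum_comm, re_sum]
    refine Finset.sum_congr rfl fun j _ => ?_
    rw [re_sum]
  have h3 : ∑ j, ∑ k, ‖A j k - A k j‖ ^ 2 =
      ∑ j, ∑ k, ‖A j k‖ ^ 2 + ∑ j, ∑ k, ‖A k j‖ ^ 2
        - 2 * ∑ j, ∑ k, (A k j * (starRingEnd ℂ) (A j k)).re := by
    simp only [h1, Finset.sum_sub_distrib, Finset.sum_add_distrib, Finset.mul_sum]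
  have h4 : 0 ≤ ∑ j, ∑ k, ‖A j k‖ ^ 2 := by positivity
  have h5 : 0 ≤ ∑ j, ∑ k, ‖A k j‖ ^ 2 := by positivity
  rw [h2, h3]
  linarith

/-- Bochner-Hoermander inequality for compactly supported (0,1)-forms -/
theorem bochner (mu : Measure E) [mu.IsAddHaarMeasure] (Ps : E → ℝ) (hPs : ContDiff ℝ ∞ Ps)
    {ι : Type*} [Fintype ι] (b : Module.Basis ι ℂ E) (al : ι → E → ℂ) (hal : ∀ j, SC (al j)) :
    ∫ x, Lform Ps x (∑ j, al j x • b j) ∂(gm mu Ps) ≤
      ∫ x, ‖∑ j, del Ps (b j) (al j) x‖ ^ 2 ∂(gm mu Ps)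
      + (1 / 2) * ∫ x, ∑ j, ∑ k, ‖dzb (b j) (al k) x - dzb (b k) (al j) x‖ ^ 2 ∂(gm mu Ps) := by
  have hA : ∀ k j, SC (dzb (b k) (al j)) := fun k j => hb_dzb_sc (hal j) (b k)
  have hT : SC (fun x => ∑ k, ∑ j, dzb (b k) (al j) x *
      (starRingEnd ℂ) (dzb (b j) (al k) x)) := by
    refine hb_sc_sum _ fun k => hb_sc_sum _ fun j => ⟨(hA k j).1.mul (hb_conj_smooth (hA j k).1),
      hb_supp (hA k j).2 fun x hx => by rw [hb_z0 hx]; simp⟩
  have hTi : Integrable (fun x => ∑ k, ∑ j, dzb (b k) (al j) x *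
      (starRingEnd ℂ) (dzb (b j) (al k) x)) (gm mu Ps) :=
    hb_integrable mu hPs hT.1.continuous hT.2
  have hDi : Integrable (fun x => ∑ j, ∑ k,
      ‖dzb (b j) (al k) x - dzb (b k) (al j) x‖ ^ 2) (gm mu Ps) := by
    refine integrable_finsetSum _ fun j _ => integrable_finsetSum _ fun k _ => ?_
    have hc : Continuous fun x => dzb (b j) (al k) x - dzb (b k) (al j) x :=
      (hA j k).1.continuous.sub (hA k j).1.continuous
    have hs : HasCompactSupport fun x => dzb (b j) (al k) x - dzb (b k) (al j) x :=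
      (hA j k).2.sub (hA k j).2
    refine hb_integrable mu hPs (hc.norm.pow 2) ?_
    exact hs.comp_left (g := fun z : ℂ => ‖z‖ ^ 2) (by simp)
  have main := hb_main mu hPs b al hal
  have r1 : ∫ x, (∑ j, del Ps (b j) (al j) x) * (starRingEnd ℂ) (∑ j, del Ps (b j) (al j) x)
      ∂(gm mu Ps) = ((∫ x, ‖∑ j, del Ps (b j) (al j) x‖ ^ 2 ∂(gm mu Ps) : ℝ) : ℂ) := by
    have h : ∫ x, ((‖∑ j, del Ps (b j) (al j) x‖ ^ 2 : ℝ) : ℂ) ∂(gm mu Ps) =
      ((∫ x, ‖∑ j, del Ps (b j) (al j) x‖ ^ 2 ∂(gm mu Ps) : ℝ) : ℂ) := integral_ofReal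
    rw [← h]
    congr 1; ext x
    rw [mul_conj, normSq_eq_norm_sq]
  have r3 : ∫ x, ((Lform Ps x (∑ j, al j x • b j) : ℝ) : ℂ) ∂(gm mu Ps) =
      ((∫ x, Lform Ps x (∑ j, al j x • b j) ∂(gm mu Ps) : ℝ) : ℂ) := integral_ofReal
  rw [r1, r3] at main
  have r4 := congrArg Complex.re main
  rw [ofReal_re, add_re, ofReal_re] at r4
  have r5 : (∫ x, ∑ k, ∑ j, dzb (b k) (al j) x *
      (starRingEnd ℂ) (dzb (b j) (al k) x) ∂(gm mu Ps)).re =
      ∫ x, (∑ k, ∑ j, dzb (b k) (al j) x *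
      (starRingEnd ℂ) (dzb (b j) (al k) x)).re ∂(gm mu Ps) := (integral_re hTi).symm
  have r6 : -((1 / 2) * ∫ x, ∑ j, ∑ k, ‖dzb (b j) (al k) x - dzb (b k) (al j) x‖ ^ 2 ∂(gm mu Ps))
      ≤ ∫ x, (∑ k, ∑ j, dzb (b k) (al j) x *
        (starRingEnd ℂ) (dzb (b j) (al k) x)).re ∂(gm mu Ps) := by
    rw [← integral_const_mul, ← integral_neg]
    refine integral_mono (hDi.const_mul _).neg hTi.re fun x => ?_
    exact hb_alg fun j k => dzb (b j) (al k) x
  linarith

end GPn
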