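/- piece HW: the basic inequality for weak forms -/
import Pool.Agent.Lib_MP_e0d435_ag.HDefs
import Pool.Agent.Lib_MP_e0d435_ag.HBochner
import Pool.Agent.Lib_MP_e0d435_ag.HMoll

open Finset MeasureTheory Complex
open scoped ENNReal ContDiff

namespace GPn

section HWcalc

variable {E : Type*} [NormedAddCommGroup E] [NormedSpace ℂ E]

private lemma hw_dz_mul (v : E) (u w : E → ℂ) (x : E) (hu : DifferentiableAt ℝ u x)
    (hw : DifferentiableAt ℝ w x) :
    dz v (fun y => u y * w y) x = dz v u x * w x + u x * dz v w x := by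
  have h : fderiv ℝ (fun y => u y * w y) x = u x • fderiv ℝ w x + w x • fderiv ℝ u x :=
    fderiv_fun_mul hu hw
  simp only [dz, h, _root_.add_apply, _root_.smul_apply, smul_eq_mul]
  ring

private lemma hw_dzb_mul (v : E) (u w : E → ℂ) (x : E) (hu : DifferentiableAt ℝ u x)
    (hw : DifferentiableAt ℝ w x) :
    dzb v (fun y => u y * w y) x = dzb v u x * w x + u x * dzb v w x := by
  have h : fderiv ℝ (fun y => u y * w y) x = u x • fderiv ℝ w x + w x • fderiv ℝ u x :=
    fderiv_fun_mul hu hw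
  simp only [dzb, h, _root_.add_apply, _root_.smul_apply, smul_eq_mul]
  ring

private lemma hw_fderiv_ofReal (r : E → ℝ) (x v : E) (hr : DifferentiableAt ℝ r x) :
    fderiv ℝ (fun y => (r y : ℂ)) x v = ((fderiv ℝ r x v : ℝ) : ℂ) := by
  have h : HasFDerivAt (fun y => (r y : ℂ)) (Complex.ofRealCLM.comp (fderiv ℝ r x)) x :=
    Complex.ofRealCLM.hasFDerivAt.comp x hr.hasFDerivAt
  rw [h.fderiv]
  rfl

private lemma hw_conj_dz_real (r : E → ℝ) (x v : E) (hr : DifferentiableAt ℝ r x) :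
    (starRingEnd ℂ) (dz v (fun y => (r y : ℂ)) x) = dzb v (fun y => (r y : ℂ)) x := by
  simp only [dz, dzb, hw_fderiv_ofReal r x _ hr, map_div₀, map_sub, map_mul, Complex.conj_ofReal,
    Complex.conj_I, map_ofNat]
  ring

private lemma hw_conj_dzb_real (r : E → ℝ) (x v : E) (hr : DifferentiableAt ℝ r x) :
    (starRingEnd ℂ) (dzb v (fun y => (r y : ℂ)) x) = dz v (fun y => (r y : ℂ)) x := by
  rw [← hw_conj_dz_real r x v hr, Complex.conj_conj]

/-- the derivatives of y maps to r (x - y) -/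
private lemma hw_dz_flip (r : E → ℝ) (x y v : E) (hr : Differentiable ℝ r) :
    dz v (fun y => (r (x - y) : ℂ)) y = - dz v (fun y => (r y : ℂ)) (x - y) := by
  have h : HasFDerivAt (fun y => r (x - y)) (-(fderiv ℝ r (x - y))) y := by
    have h1 : HasFDerivAt (fun y : E => x - y) (-(ContinuousLinearMap.id ℝ E)) y :=
      (hasFDerivAt_id y).const_sub x
    have h2 : HasFDerivAt (fun y => r (x - y))
        ((fderiv ℝ r (x - y)).comp (-(ContinuousLinearMap.id ℝ E))) y :=
      (hr (x - y)).hasFDerivAt.comp y h1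
    have h3 : (fderiv ℝ r (x - y)).comp (-(ContinuousLinearMap.id ℝ E)) = -(fderiv ℝ r (x - y)) := by
      ext z
      simp
    rw [h3] at h2
    exact h2
  have hd : DifferentiableAt ℝ (fun y => r (x - y)) y := h.differentiableAt
  simp only [dz, hw_fderiv_ofReal (fun y => r (x - y)) y _ hd, hw_fderiv_ofReal r (x - y) _ (hr _),
    h.fderiv, _root_.neg_apply, Complex.ofReal_neg]
  ring

private lemma hw_dzb_flip (r : E → ℝ) (x y v : E) (hr : Differentiable ℝ r) :
    dzb v (fun y => (r (x - y) : ℂ)) y = - dzb v (fun y => (r y : ℂ)) (x - y) := by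
  have hd : DifferentiableAt ℝ (fun y => r (x - y)) y := by
    have h1 : DifferentiableAt ℝ (fun y : E => x - y) y := by fun_prop
    exact (hr (x - y)).comp y h1
  rw [← hw_conj_dz_real (fun y => r (x - y)) y v hd, hw_dz_flip r x y v hr, map_neg,
    hw_conj_dz_real r (x - y) v (hr _)]

/-- derivative of exp Ps -/
private lemma hw_dz_exp (Ps : E → ℝ) (y v : E) (hP : DifferentiableAt ℝ Ps y) :
    dz v (fun y => (Real.exp (Ps y) : ℂ)) y
      = (Real.exp (Ps y) : ℂ) * dz v (fun y => (Ps y : ℂ)) y := by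
  have h : HasFDerivAt (fun y => Real.exp (Ps y)) (Real.exp (Ps y) • fderiv ℝ Ps y) y :=
    hP.hasFDerivAt.exp
  simp only [dz, hw_fderiv_ofReal (fun y => Real.exp (Ps y)) y _ h.differentiableAt,
    hw_fderiv_ofReal Ps y _ hP, h.fderiv, _root_.smul_apply, smul_eq_mul,
    Complex.ofReal_mul]
  ring

private lemma hw_dzb_exp (Ps : E → ℝ) (y v : E) (hP : DifferentiableAt ℝ Ps y) :
    dzb v (fun y => (Real.exp (Ps y) : ℂ)) y
      = (Real.exp (Ps y) : ℂ) * dzb v (fun y => (Ps y : ℂ)) y := by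
  have h : HasFDerivAt (fun y => Real.exp (Ps y)) (Real.exp (Ps y) • fderiv ℝ Ps y) y :=
    hP.hasFDerivAt.exp
  simp only [dzb, hw_fderiv_ofReal (fun y => Real.exp (Ps y)) y _ h.differentiableAt,
    hw_fderiv_ofReal Ps y _ hP, h.fderiv, _root_.smul_apply, smul_eq_mul,
    Complex.ofReal_mul]
  ring

/-- the test function -/
private noncomputable def hw_test (r : E → ℝ) (Ps : E → ℝ) (x : E) : E → ℂ :=
  fun y => (r (x - y) : ℂ) * (Real.exp (Ps y) : ℂ)

private lemma hw_test_SC (r : E → ℝ) (Ps : E → ℝ) (x : E) (hr : ContDiff ℝ ∞ r)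
    (hc : HasCompactSupport r) (hPs : ContDiff ℝ ∞ Ps) : SC (hw_test r Ps x) := by
  constructor
  · unfold hw_test
    have h1 : ContDiff ℝ ∞ (fun y => r (x - y)) := hr.comp (contDiff_const.sub contDiff_id)
    have h2 : ContDiff ℝ ∞ (fun y => (r (x - y) : ℂ)) := Complex.ofRealCLM.contDiff.comp h1
    have h3 : ContDiff ℝ ∞ (fun y => (Real.exp (Ps y) : ℂ)) :=
      Complex.ofRealCLM.contDiff.comp (Real.contDiff_exp.comp hPs)
    exact h2.mul h3
  · have h1 : HasCompactSupport (fun y => r (x - y)) :=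
      hc.comp_homeomorph (Homeomorph.subLeft x)
    have h2 : HasCompactSupport (fun y => (r (x - y) : ℂ)) := h1.comp_left (g := fun t : ℝ => (t : ℂ)) (by simp)
    exact h2.mul_right

private lemma hw_test_del (r : E → ℝ) (Ps : E → ℝ) (x y v : E) (hr : ContDiff ℝ ∞ r)
    (hPs : ContDiff ℝ ∞ Ps) :
    (starRingEnd ℂ) (del Ps v (hw_test r Ps x) y)
      = dzb v (fun y => (r y : ℂ)) (x - y) * (Real.exp (Ps y) : ℂ) := by
  have hrd : Differentiable ℝ r := hr.differentiable (by simp)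
  have hPd : Differentiable ℝ Ps := hPs.differentiable (by simp)
  have hd1 : DifferentiableAt ℝ (fun y => (r (x - y) : ℂ)) y := by
    have h1 : DifferentiableAt ℝ (fun y => r (x - y)) y := by
      have h1 : DifferentiableAt ℝ (fun y : E => x - y) y := by fun_prop
      exact (hrd (x - y)).comp y h1
    exact Complex.ofRealCLM.differentiableAt.comp y h1
  have hd2 : DifferentiableAt ℝ (fun y => (Real.exp (Ps y) : ℂ)) y :=
    Complex.ofRealCLM.differentiableAt.comp y (hPd y).exp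
  have h : del Ps v (hw_test r Ps x) y
      = dz v (fun y => (r y : ℂ)) (x - y) * (Real.exp (Ps y) : ℂ) := by
    unfold del hw_test
    rw [hw_dz_mul v _ _ y hd1 hd2, hw_dz_flip r x y v hrd, hw_dz_exp Ps y v (hPd y)]
    ring
  rw [h, map_mul, hw_conj_dz_real r (x - y) v (hrd _), Complex.conj_ofReal]

private lemma hw_test_dzb (r : E → ℝ) (Ps : E → ℝ) (x y v : E) (hr : ContDiff ℝ ∞ r)
    (hPs : ContDiff ℝ ∞ Ps) :
    (starRingEnd ℂ) (dzb v (hw_test r Ps x) y)
      = (- dz v (fun y => (r y : ℂ)) (x - y)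
          + (r (x - y) : ℂ) * dz v (fun y => (Ps y : ℂ)) y) * (Real.exp (Ps y) : ℂ) := by
  have hrd : Differentiable ℝ r := hr.differentiable (by simp)
  have hPd : Differentiable ℝ Ps := hPs.differentiable (by simp)
  have hd1 : DifferentiableAt ℝ (fun y => (r (x - y) : ℂ)) y := by
    have h1 : DifferentiableAt ℝ (fun y => r (x - y)) y := by
      have h1 : DifferentiableAt ℝ (fun y : E => x - y) y := by fun_prop
      exact (hrd (x - y)).comp y h1
    exact Complex.ofRealCLM.differentiableAt.comp y h1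
  have hd2 : DifferentiableAt ℝ (fun y => (Real.exp (Ps y) : ℂ)) y :=
    Complex.ofRealCLM.differentiableAt.comp y (hPd y).exp
  have h : dzb v (hw_test r Ps x) y
      = - dzb v (fun y => (r y : ℂ)) (x - y) * (Real.exp (Ps y) : ℂ)
        + (r (x - y) : ℂ) * ((Real.exp (Ps y) : ℂ) * dzb v (fun y => (Ps y : ℂ)) y) := by
    unfold hw_test
    rw [hw_dzb_mul v _ _ y hd1 hd2, hw_dzb_flip r x y v hrd, hw_dzb_exp Ps y v (hPd y)]
  rw [h]
  simp only [map_add, map_mul, map_neg, Complex.conj_ofReal, hw_conj_dzb_real r (x - y) v (hrd _),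
    hw_conj_dzb_real Ps y v (hPd y)]
  ring

end HWcalc


section HWmeas

variable {E : Type*} [NormedAddCommGroup E] [NormedSpace ℂ E] [FiniteDimensional ℂ E]
  [MeasurableSpace E] [BorelSpace E]

private lemma hw_integral_gm (mu : Measure E) (Ps : E → ℝ) (hPs : ContDiff ℝ ∞ Ps)
    (f : E → ℂ) : ∫ x, f x ∂(gm mu Ps) = ∫ x, (Real.exp (-Ps x) : ℂ) * f x ∂mu := by
  unfold gm
  have hm : Measurable (fun x => ENNReal.ofReal (Real.exp (-Ps x))) := by
    have : Continuous (fun x => Real.exp (-Ps x)) := Real.continuous_exp.comp hPs.continuous.neg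
    exact this.measurable.ennreal_ofReal
  rw [integral_withDensity_eq_integral_toReal_smul hm (Filter.Eventually.of_forall fun x =>
    ENNReal.ofReal_lt_top)]
  refine integral_congr_ae (Filter.Eventually.of_forall fun x => ?_)
  simp only
  rw [ENNReal.toReal_ofReal (Real.exp_pos _).le]
  rw [Complex.real_smul]

private lemma hw_exists_bound {K : Set E} (hK : IsCompact K) (Ps : E → ℝ)
    (hPs : ContDiff ℝ ∞ Ps) : ∃ M : ℝ, ∀ x ∈ K, |Ps x| ≤ M := by
  obtain ⟨M, hM⟩ := hK.exists_bound_of_continuousOn hPs.continuous.continuousOn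
  exact ⟨M, fun x hx => by simpa using hM x hx⟩

private lemma hw_restrict_le (mu : Measure E) (Ps : E → ℝ) (hPs : ContDiff ℝ ∞ Ps)
    {K : Set E} (hK : IsCompact K) :
    ∃ C : ℝ≥0∞, C ≠ ⊤ ∧ mu.restrict K ≤ C • gm mu Ps := by
  obtain ⟨M, hM⟩ := hw_exists_bound hK Ps hPs
  have hmK : MeasurableSet K := hK.measurableSet
  have hm : Measurable (fun x => ENNReal.ofReal (Real.exp (-Ps x))) := by
    have : Continuous (fun x => Real.exp (-Ps x)) := Real.continuous_exp.comp hPs.continuous.neg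
    exact this.measurable.ennreal_ofReal
  refine ⟨ENNReal.ofReal (Real.exp M), ENNReal.ofReal_ne_top, ?_⟩
  calc mu.restrict K = (mu.restrict K).withDensity 1 := withDensity_one.symm
    _ ≤ (mu.restrict K).withDensity (ENNReal.ofReal (Real.exp M) •
          fun x => ENNReal.ofReal (Real.exp (-Ps x))) := by
        refine withDensity_mono ((ae_restrict_iff' hmK).2 (Filter.Eventually.of_forall
          fun x hx => ?_))
        simp only [Pi.one_apply, Pi.smul_apply, smul_eq_mul]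
        rw [← ENNReal.ofReal_mul (Real.exp_pos _).le, ← Real.exp_add,
          ← ENNReal.ofReal_one]
        refine ENNReal.ofReal_le_ofReal ?_
        rw [← Real.exp_zero]
        exact Real.exp_le_exp.2 (by linarith [(abs_le.1 (hM x hx)).2])
    _ = ENNReal.ofReal (Real.exp M) • (gm mu Ps).restrict K := by
        rw [withDensity_smul _ hm]
        unfold gm
        rw [restrict_withDensity hmK]
    _ ≤ ENNReal.ofReal (Real.exp M) • gm mu Ps := by
        gcongr
        exact Measure.restrict_le_self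

private lemma hw_le_restrict (mu : Measure E) (Ps : E → ℝ) (hPs : ContDiff ℝ ∞ Ps)
    {K : Set E} (hK : IsCompact K) :
    ∃ C : ℝ≥0∞, C ≠ ⊤ ∧ (gm mu Ps).restrict K ≤ C • mu.restrict K := by
  obtain ⟨M, hM⟩ := hw_exists_bound hK Ps hPs
  have hmK : MeasurableSet K := hK.measurableSet
  refine ⟨ENNReal.ofReal (Real.exp M), ENNReal.ofReal_ne_top, ?_⟩
  unfold gm
  rw [restrict_withDensity hmK]
  calc (mu.restrict K).withDensity (fun x => ENNReal.ofReal (Real.exp (-Ps x)))
      ≤ (mu.restrict K).withDensity (fun _ => ENNReal.ofReal (Real.exp M)) := by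
        refine withDensity_mono ((ae_restrict_iff' hmK).2 (Filter.Eventually.of_forall
          fun x hx => ?_))
        refine ENNReal.ofReal_le_ofReal (Real.exp_le_exp.2 ?_)
        linarith [(abs_le.1 (hM x hx)).1]
    _ = ENNReal.ofReal (Real.exp M) • mu.restrict K := by
        rw [withDensity_const]

/-- locally L^2 -/
private lemma hw_memLp_restrict (mu : Measure E) (Ps : E → ℝ) (hPs : ContDiff ℝ ∞ Ps)
    (u : E → ℂ) (hu : MemLp u 2 (gm mu Ps)) {K : Set E} (hK : IsCompact K) :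
    MemLp u 2 (mu.restrict K) := by
  obtain ⟨C, hC, hle⟩ := hw_restrict_le mu Ps hPs hK
  exact hu.of_measure_le_smul hC hle

private lemma hw_locInt (mu : Measure E) [IsFiniteMeasureOnCompacts mu] (u : E → ℂ)
    (hu : ∀ K : Set E, IsCompact K → MemLp u 2 (mu.restrict K)) : LocallyIntegrable u mu := by
  have : ProperSpace E := FiniteDimensional.proper_rclike ℂ E
  rw [locallyIntegrable_iff]
  intro K hK
  have : IsFiniteMeasure (mu.restrict K) := ⟨by
    rw [Measure.restrict_apply_univ]; exact hK.measure_lt_top⟩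
  exact (hu K hK).integrable (by norm_num)

/-- functions supported in a compact set -/
private lemma hw_eLpNorm_le (mu : Measure E) (Ps : E → ℝ) (hPs : ContDiff ℝ ∞ Ps)
    {K : Set E} (hK : IsCompact K) :
    ∃ C : ℝ≥0∞, C ≠ ⊤ ∧ ∀ f : E → ℝ, (∀ x, x ∉ K → f x = 0) →
      eLpNorm f 2 (gm mu Ps) ≤ C * eLpNorm f 2 (mu.restrict K) := by
  obtain ⟨C, hC, hle⟩ := hw_le_restrict mu Ps hPs hK
  refine ⟨C ^ (1 / (2 : ℝ≥0∞)).toReal, ?_, ?_⟩
  · refine ENNReal.rpow_ne_top_of_nonneg (by positivity) hC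
  · intro f hf
    have h1 : eLpNorm f 2 ((gm mu Ps).restrict K) = eLpNorm f 2 (gm mu Ps) := by
      refine eLpNorm_restrict_eq_of_support_subset ?_
      intro x hx
      by_contra hxK
      exact hx (hf x hxK)
    rw [← h1]
    calc eLpNorm f 2 ((gm mu Ps).restrict K) ≤ eLpNorm f 2 (C • mu.restrict K) :=
          eLpNorm_mono_measure f hle
      _ = C ^ (1 / (2 : ℝ≥0∞)).toReal * eLpNorm f 2 (mu.restrict K) := by
          rw [eLpNorm_smul_measure_of_ne_top (by norm_num)]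
          rfl

end HWmeas


section HWmoll

open scoped Convolution

variable {E : Type*} [NormedAddCommGroup E] [NormedSpace ℂ E] [FiniteDimensional ℂ E]
  [MeasurableSpace E] [BorelSpace E]

/-- mollification -/
private noncomputable def hw_moll (mu : Measure E) (r : E → ℝ) (u : E → ℂ) (x : E) : ℂ :=
  ∫ y, (r (x - y) : ℂ) * u y ∂mu

private lemma hw_moll_eq (mu : Measure E) (r : E → ℝ) (u : E → ℂ) :
    hw_moll mu r u = u ⋆[ContinuousLinearMap.mul ℝ ℂ, mu] (fun z => (r z : ℂ)) := by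
  funext x
  unfold hw_moll
  rw [convolution_def]
  refine integral_congr_ae (Filter.Eventually.of_forall fun y => ?_)
  simp only [ContinuousLinearMap.mul_apply']
  ring

private lemma hw_cast_smooth (r : E → ℝ) (hr : ContDiff ℝ ∞ r) :
    ContDiff ℝ ∞ (fun z => (r z : ℂ)) := Complex.ofRealCLM.contDiff.comp hr

private lemma hw_cast_supp (r : E → ℝ) (hc : HasCompactSupport r) :
    HasCompactSupport (fun z => (r z : ℂ)) :=
  hc.comp_left (g := fun t : ℝ => (t : ℂ)) (by simp)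

private lemma hw_moll_contDiff (mu : Measure E) [mu.IsAddHaarMeasure] (r : E → ℝ) (u : E → ℂ)
    (hr : ContDiff ℝ ∞ r) (hc : HasCompactSupport r) (hu : LocallyIntegrable u mu) :
    ContDiff ℝ ∞ (hw_moll mu r u) := by
  rw [hw_moll_eq]
  exact (hw_cast_supp r hc).contDiff_convolution_right _ hu (hw_cast_smooth r hr)

private lemma hw_integrable (mu : Measure E) [mu.IsAddHaarMeasure] (k : E → ℂ) (u : E → ℂ)
    (hk : Continuous k) (hc : HasCompactSupport k) (hu : LocallyIntegrable u mu) (x : E) :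
    Integrable (fun y => k (x - y) * u y) mu := by
  have h : ConvolutionExistsAt u k x (ContinuousLinearMap.mul ℝ ℂ) mu :=
    hc.convolutionExists_right _ hu hk x
  have h2 := h.integrable
  refine h2.congr (Filter.Eventually.of_forall fun y => ?_)
  simp only [ContinuousLinearMap.mul_apply']
  ring

private lemma hw_fderiv_cont (k : E → ℂ) (hk : ContDiff ℝ ∞ k) (v : E) :
    Continuous (fun z => fderiv ℝ k z v) := by
  have h1 : Continuous (fderiv ℝ k) := hk.continuous_fderiv (by simp)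
  exact h1.clm_apply continuous_const

private lemma hw_fderiv_supp (k : E → ℂ) (hc : HasCompactSupport k) (v : E) :
    HasCompactSupport (fun z => fderiv ℝ k z v) :=
  (hc.fderiv ℝ).comp_left (g := fun L : E →L[ℝ] ℂ => L v) (by simp)

private lemma hw_moll_fderiv (mu : Measure E) [mu.IsAddHaarMeasure] (r : E → ℝ) (u : E → ℂ)
    (hr : ContDiff ℝ ∞ r) (hc : HasCompactSupport r) (hu : LocallyIntegrable u mu) (x v : E) :
    fderiv ℝ (hw_moll mu r u) x v
      = ∫ y, fderiv ℝ (fun z => (r z : ℂ)) (x - y) v * u y ∂mu := by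
  have hk := hw_cast_smooth r hr
  have hs := hw_cast_supp r hc
  have h := hs.hasFDerivAt_convolution_right (ContinuousLinearMap.mul ℝ ℂ) hu
    (hk.of_le (by simp)) x
  rw [← hw_moll_eq] at h
  rw [h.fderiv]
  rw [convolution_precompR_apply (ContinuousLinearMap.mul ℝ ℂ) hu (hs.fderiv ℝ)
    (hk.continuous_fderiv (by simp)) x v]
  rw [convolution_def]
  refine integral_congr_ae (Filter.Eventually.of_forall fun y => ?_)
  simp only [ContinuousLinearMap.mul_apply']
  ring

private lemma hw_moll_dzb (mu : Measure E) [mu.IsAddHaarMeasure] (r : E → ℝ) (u : E → ℂ)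
    (hr : ContDiff ℝ ∞ r) (hc : HasCompactSupport r) (hu : LocallyIntegrable u mu) (x v : E) :
    dzb v (hw_moll mu r u) x = ∫ y, dzb v (fun z => (r z : ℂ)) (x - y) * u y ∂mu := by
  have hk := hw_cast_smooth r hr
  have hs := hw_cast_supp r hc
  have i1 := hw_integrable mu _ u (hw_fderiv_cont _ hk v) (hw_fderiv_supp _ hs v) hu x
  have i2 := hw_integrable mu _ u (hw_fderiv_cont _ hk (I • v)) (hw_fderiv_supp _ hs (I • v)) hu x
  unfold dzb
  rw [hw_moll_fderiv mu r u hr hc hu, hw_moll_fderiv mu r u hr hc hu]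
  rw [← integral_const_mul, ← integral_add i1 (i2.const_mul I), ← integral_div]
  refine integral_congr_ae (Filter.Eventually.of_forall fun y => ?_)
  simp only
  ring

private lemma hw_moll_dz (mu : Measure E) [mu.IsAddHaarMeasure] (r : E → ℝ) (u : E → ℂ)
    (hr : ContDiff ℝ ∞ r) (hc : HasCompactSupport r) (hu : LocallyIntegrable u mu) (x v : E) :
    dz v (hw_moll mu r u) x = ∫ y, dz v (fun z => (r z : ℂ)) (x - y) * u y ∂mu := by
  have hk := hw_cast_smooth r hr
  have hs := hw_cast_supp r hc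
  have i1 := hw_integrable mu _ u (hw_fderiv_cont _ hk v) (hw_fderiv_supp _ hs v) hu x
  have i2 := hw_integrable mu _ u (hw_fderiv_cont _ hk (I • v)) (hw_fderiv_supp _ hs (I • v)) hu x
  unfold dz
  rw [hw_moll_fderiv mu r u hr hc hu, hw_moll_fderiv mu r u hr hc hu]
  rw [← integral_const_mul, ← integral_sub i1 (i2.const_mul I), ← integral_div]
  refine integral_congr_ae (Filter.Eventually.of_forall fun y => ?_)
  simp only
  ring

private lemma hw_dz_cont (k : E → ℂ) (hk : ContDiff ℝ ∞ k) (v : E) : Continuous (dz v k) := by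
  unfold dz
  exact ((hw_fderiv_cont k hk v).sub (continuous_const.mul (hw_fderiv_cont k hk (I • v)))).div_const _

private lemma hw_dzb_cont (k : E → ℂ) (hk : ContDiff ℝ ∞ k) (v : E) : Continuous (dzb v k) := by
  unfold dzb
  exact ((hw_fderiv_cont k hk v).add (continuous_const.mul (hw_fderiv_cont k hk (I • v)))).div_const _

private lemma hw_dz_supp (k : E → ℂ) (hc : HasCompactSupport k) (v : E) :
    HasCompactSupport (dz v k) := by
  refine hc.mono' ?_
  intro x hx
  by_contra hx2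
  apply hx
  have h0 : fderiv ℝ k x = 0 := by
    by_contra h
    exact hx2 (tsupport_fderiv_subset ℝ (subset_tsupport _ h))
  simp [dz, h0]

private lemma hw_dzb_supp (k : E → ℂ) (hc : HasCompactSupport k) (v : E) :
    HasCompactSupport (dzb v k) := by
  refine hc.mono' ?_
  intro x hx
  by_contra hx2
  apply hx
  have h0 : fderiv ℝ k x = 0 := by
    by_contra h
    exact hx2 (tsupport_fderiv_subset ℝ (subset_tsupport _ h))
  simp [dzb, h0]

private lemma hw_exp_cancel (Ps : E → ℝ) (y : E) :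
    (Real.exp (-Ps y) : ℂ) * (Real.exp (Ps y) : ℂ) = 1 := by
  rw [← Complex.ofReal_mul, ← Real.exp_add]
  simp

/-- equation (a) -/
private lemma hw_eqA (mu : Measure E) [mu.IsAddHaarMeasure] (Ps : E → ℝ) (hPs : ContDiff ℝ ∞ Ps)
    (bj bk : E) (uj uk : E → ℂ) (huj : LocallyIntegrable uj mu) (huk : LocallyIntegrable uk mu)
    (hclosed : ∀ ph : E → ℂ, SC ph →
      ∫ x, uk x * (starRingEnd ℂ) (del Ps bj ph x) ∂(gm mu Ps) =
      ∫ x, uj x * (starRingEnd ℂ) (del Ps bk ph x) ∂(gm mu Ps))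
    (r : E → ℝ) (hr : ContDiff ℝ ∞ r) (hc : HasCompactSupport r) (x : E) :
    dzb bj (hw_moll mu r uk) x = dzb bk (hw_moll mu r uj) x := by
  have h := hclosed (hw_test r Ps x) (hw_test_SC r Ps x hr hc hPs)
  rw [hw_integral_gm mu Ps hPs, hw_integral_gm mu Ps hPs] at h
  rw [hw_moll_dzb mu r uk hr hc huk, hw_moll_dzb mu r uj hr hc huj]
  convert h using 1
  · refine integral_congr_ae (Filter.Eventually.of_forall fun y => ?_)
    simp only
    rw [hw_test_del r Ps x y bj hr hPs]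
    linear_combination (-(dzb bj (fun z => (r z : ℂ)) (x - y) * uk y)) * hw_exp_cancel Ps y
  · refine integral_congr_ae (Filter.Eventually.of_forall fun y => ?_)
    simp only
    rw [hw_test_del r Ps x y bk hr hPs]
    linear_combination (-(dzb bk (fun z => (r z : ℂ)) (x - y) * uj y)) * hw_exp_cancel Ps y

/-- equation (b) -/
private lemma hw_eqB (mu : Measure E) [mu.IsAddHaarMeasure] (Ps : E → ℝ) (hPs : ContDiff ℝ ∞ Ps)
    {ι : Type*} [Fintype ι] (b : ι → E) (al : ι → E → ℂ) (g : E → ℂ)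
    (hal : ∀ j, LocallyIntegrable (al j) mu)
    (hB : ∀ j, LocallyIntegrable (fun y => dz (b j) (fun y => (Ps y : ℂ)) y * al j y) mu)
    (hdelta : ∀ ph : E → ℂ, SC ph →
      ∫ x, ∑ j, al j x * (starRingEnd ℂ) (dzb (b j) ph x) ∂(gm mu Ps) =
      ∫ x, g x * (starRingEnd ℂ) (ph x) ∂(gm mu Ps))
    (r : E → ℝ) (hr : ContDiff ℝ ∞ r) (hc : HasCompactSupport r) (x : E) :
    - ∑ j, dz (b j) (hw_moll mu r (al j)) x
      = hw_moll mu r g x
        - hw_moll mu r (fun y => ∑ j, dz (b j) (fun y => (Ps y : ℂ)) y * al j y) x := by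
  have hk := hw_cast_smooth r hr
  have hs := hw_cast_supp r hc
  have h := hdelta (hw_test r Ps x) (hw_test_SC r Ps x hr hc hPs)
  rw [hw_integral_gm mu Ps hPs, hw_integral_gm mu Ps hPs] at h
  have e1 : ∫ y, (Real.exp (-Ps y) : ℂ) * (g y * (starRingEnd ℂ) (hw_test r Ps x y)) ∂mu
      = hw_moll mu r g x := by
    unfold hw_moll
    refine integral_congr_ae (Filter.Eventually.of_forall fun y => ?_)
    simp only [hw_test, map_mul, Complex.conj_ofReal]
    linear_combination ((r (x - y) : ℂ) * g y) * hw_exp_cancel Ps y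
  have i1 : ∀ j, Integrable (fun y => dz (b j) (fun z => (r z : ℂ)) (x - y) * al j y) mu :=
    fun j => hw_integrable mu _ (al j) (hw_dz_cont _ hk (b j)) (hw_dz_supp _ hs (b j)) (hal j) x
  have i1n : ∀ j, Integrable (fun y => -(dz (b j) (fun z => (r z : ℂ)) (x - y) * al j y)) mu :=
    fun j => (i1 j).neg
  have i2 : ∀ j, Integrable (fun y => (r (x - y) : ℂ) *
      (dz (b j) (fun y => (Ps y : ℂ)) y * al j y)) mu :=
    fun j => hw_integrable mu (fun z => (r z : ℂ)) _ hk.continuous hs (hB j) x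
  have e2 : ∫ y, (Real.exp (-Ps y) : ℂ) * (∑ j, al j y *
        (starRingEnd ℂ) (dzb (b j) (hw_test r Ps x) y)) ∂mu
      = (∑ j, - dz (b j) (hw_moll mu r (al j)) x)
        + hw_moll mu r (fun y => ∑ j, dz (b j) (fun y => (Ps y : ℂ)) y * al j y) x := by
    have s1 : (∑ j, - dz (b j) (hw_moll mu r (al j)) x)
        = ∫ y, ∑ j, -(dz (b j) (fun z => (r z : ℂ)) (x - y) * al j y) ∂mu := by
      rw [integral_finsetSum _ (fun j _ => i1n j)]
      refine Finset.sum_congr rfl fun j _ => ?_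
      rw [integral_neg, hw_moll_dz mu r (al j) hr hc (hal j)]
    have s2 : hw_moll mu r (fun y => ∑ j, dz (b j) (fun y => (Ps y : ℂ)) y * al j y) x
        = ∫ y, ∑ j, (r (x - y) : ℂ) * (dz (b j) (fun y => (Ps y : ℂ)) y * al j y) ∂mu := by
      unfold hw_moll
      refine integral_congr_ae (Filter.Eventually.of_forall fun y => ?_)
      simp only [Finset.mul_sum]
    rw [s1, s2, ← integral_add (integrable_finsetSum _ fun j _ => i1n j)
      (integrable_finsetSum _ fun j _ => i2 j)]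
    refine integral_congr_ae (Filter.Eventually.of_forall fun y => ?_)
    simp only
    rw [Finset.mul_sum, ← Finset.sum_add_distrib]
    refine Finset.sum_congr rfl fun j _ => ?_
    rw [hw_test_dzb r Ps x y (b j) hr hPs]
    linear_combination ((- dz (b j) (fun y => (r y : ℂ)) (x - y)
          + (r (x - y) : ℂ) * dz (b j) (fun y => (Ps y : ℂ)) y) * al j y) * hw_exp_cancel Ps y
  rw [e1, e2] at h
  rw [← h, Finset.sum_neg_distrib]
  ring

end HWmoll


section HWcut

variable {E : Type*} [NormedAddCommGroup E] [NormedSpace ℂ E]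

private lemma hw_norm_dz (c : ℝ) (F : E → ℂ) (x v : E) (h : ‖fderiv ℝ F x‖ ≤ c) :
    ‖dz v F x‖ ≤ c * ‖v‖ := by
  have h1 : ‖fderiv ℝ F x v‖ ≤ c * ‖v‖ :=
    ((fderiv ℝ F x).le_opNorm v).trans (mul_le_mul_of_nonneg_right h (norm_nonneg _))
  have h2 : ‖fderiv ℝ F x (I • v)‖ ≤ c * ‖v‖ := by
    have := ((fderiv ℝ F x).le_opNorm (I • v)).trans (mul_le_mul_of_nonneg_right h (norm_nonneg _))
    simpa [norm_smul] using this
  unfold dz
  rw [norm_div]
  have h3 : ‖fderiv ℝ F x v - I * fderiv ℝ F x (I • v)‖ ≤ c * ‖v‖ + c * ‖v‖ := by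
    refine (norm_sub_le _ _).trans (add_le_add h1 ?_)
    rw [norm_mul, Complex.norm_I, one_mul]
    exact h2
  have h4 : ‖(2 : ℂ)‖ = 2 := by simp
  rw [h4]
  linarith

private lemma hw_norm_dzb (c : ℝ) (F : E → ℂ) (x v : E) (h : ‖fderiv ℝ F x‖ ≤ c) :
    ‖dzb v F x‖ ≤ c * ‖v‖ := by
  have h1 : ‖fderiv ℝ F x v‖ ≤ c * ‖v‖ :=
    ((fderiv ℝ F x).le_opNorm v).trans (mul_le_mul_of_nonneg_right h (norm_nonneg _))
  have h2 : ‖fderiv ℝ F x (I • v)‖ ≤ c * ‖v‖ := by
    have := ((fderiv ℝ F x).le_opNorm (I • v)).trans (mul_le_mul_of_nonneg_right h (norm_nonneg _))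
    simpa [norm_smul] using this
  unfold dzb
  rw [norm_div]
  have h3 : ‖fderiv ℝ F x v + I * fderiv ℝ F x (I • v)‖ ≤ c * ‖v‖ + c * ‖v‖ := by
    refine (norm_add_le _ _).trans (add_le_add h1 ?_)
    rw [norm_mul, Complex.norm_I, one_mul]
    exact h2
  have h4 : ‖(2 : ℂ)‖ = 2 := by simp
  rw [h4]
  linarith

private lemma hw_norm_fderiv_cast (ch : E → ℝ) (x : E) (hd : DifferentiableAt ℝ ch x) :
    ‖fderiv ℝ (fun y => (ch y : ℂ)) x‖ ≤ ‖fderiv ℝ ch x‖ := by
  refine ContinuousLinearMap.opNorm_le_bound _ (norm_nonneg _) fun v => ?_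
  rw [hw_fderiv_ofReal ch x v hd, Complex.norm_real]
  exact (fderiv ℝ ch x).le_opNorm v

private lemma hw_cutoff [FiniteDimensional ℂ E] :
    ∃ C : ℝ, 0 ≤ C ∧ ∀ R : ℝ, 0 < R → ∃ ch : E → ℝ, ContDiff ℝ ∞ ch ∧ HasCompactSupport ch ∧
      (∀ x, 0 ≤ ch x) ∧ (∀ x, ch x ≤ 1) ∧ (∀ x, ‖x‖ ≤ R → ch x = 1) ∧
      ∀ x, ‖fderiv ℝ ch x‖ ≤ C / R := by
  have : FiniteDimensional ℝ E := FiniteDimensional.complexToReal E
  let ps : ContDiffBump (0 : E) := ⟨1, 2, one_pos, one_lt_two⟩
  have hps : ContDiff ℝ ∞ (ps : E → ℝ) := ps.contDiff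
  have hpc : HasCompactSupport (ps : E → ℝ) := ps.hasCompactSupport
  obtain ⟨C, hC⟩ := (hps.continuous_fderiv (by simp)).bounded_above_of_compact_support
    (hpc.fderiv ℝ)
  refine ⟨C, (norm_nonneg _).trans (hC 0), fun R hR => ⟨fun x => ps (R⁻¹ • x), ?_, ?_, ?_, ?_, ?_,
    ?_⟩⟩
  · exact hps.comp (contDiff_const_smul R⁻¹)
  · exact hpc.comp_homeomorph (Homeomorph.smulOfNeZero R⁻¹ (inv_ne_zero hR.ne'))
  · intro x; exact ps.nonneg
  · intro x; exact ps.le_one
  · intro x hx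
    refine ps.one_of_mem_closedBall ?_
    rw [mem_closedBall_zero_iff, norm_smul, norm_inv, Real.norm_of_nonneg hR.le]
    change R⁻¹ * ‖x‖ ≤ 1
    rw [inv_mul_le_iff₀ hR, mul_one]
    exact hx
  · intro x
    have h1 : HasFDerivAt (fun x : E => R⁻¹ • x) (R⁻¹ • ContinuousLinearMap.id ℝ E) x :=
      (hasFDerivAt_id x).const_smul R⁻¹
    have h2 : HasFDerivAt (fun x => ps (R⁻¹ • x))
        ((fderiv ℝ ps (R⁻¹ • x)).comp (R⁻¹ • ContinuousLinearMap.id ℝ E)) x :=
      ((hps.differentiable (by simp)) (R⁻¹ • x)).hasFDerivAt.comp x h1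
    rw [h2.fderiv]
    refine ContinuousLinearMap.opNorm_le_bound _ (div_nonneg ((norm_nonneg _).trans (hC 0)) hR.le)
      fun v => ?_
    have h3 := (fderiv ℝ ps (R⁻¹ • x)).le_opNorm (R⁻¹ • v)
    have h4 : ‖R⁻¹ • v‖ = R⁻¹ * ‖v‖ := by rw [norm_smul, norm_inv, Real.norm_of_nonneg hR.le]
    rw [h4] at h3
    have h5 : ((fderiv ℝ ps (R⁻¹ • x)).comp (R⁻¹ • ContinuousLinearMap.id ℝ E)) v
        = fderiv ℝ ps (R⁻¹ • x) (R⁻¹ • v) := rfl
    rw [h5]
    refine h3.trans ?_
    have h6 : 0 ≤ R⁻¹ * ‖v‖ := by positivity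
    calc ‖fderiv ℝ ps (R⁻¹ • x)‖ * (R⁻¹ * ‖v‖) ≤ C * (R⁻¹ * ‖v‖) :=
          mul_le_mul_of_nonneg_right (hC _) h6
      _ = C / R * ‖v‖ := by rw [div_eq_mul_inv]; ring

private lemma hw_Lform_eq (Ps : E → ℝ) (hPs : ContDiff ℝ ∞ Ps) (x a : E) :
    Lform Ps x a = (fderiv ℝ (fderiv ℝ Ps) x a a
      + fderiv ℝ (fderiv ℝ Ps) x (I • a) (I • a)) / 4 := by
  have hd : Differentiable ℝ (fderiv ℝ Ps) :=
    (hPs.fderiv_right (m := ∞) (by simp)).differentiable (by simp)
  have h : ∀ c : E, fderiv ℝ (fun y => fderiv ℝ Ps y c) x c = fderiv ℝ (fderiv ℝ Ps) x c c := by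
    intro c
    have h1 : HasFDerivAt (fun y => fderiv ℝ Ps y c)
        ((ContinuousLinearMap.apply ℝ ℝ c).comp (fderiv ℝ (fderiv ℝ Ps) x)) x :=
      (ContinuousLinearMap.apply ℝ ℝ c).hasFDerivAt.comp x (hd x).hasFDerivAt
    rw [h1.fderiv]
    rfl
  unfold Lform
  rw [h, h]

private lemma hw_Lform_cont (Ps : E → ℝ) (hPs : ContDiff ℝ ∞ Ps) {X : Type*} [TopologicalSpace X]
    (p a : X → E) (hp : Continuous p) (ha : Continuous a) :
    Continuous (fun t => Lform Ps (p t) (a t)) := by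
  have hc : Continuous (fderiv ℝ (fderiv ℝ Ps)) :=
    (hPs.fderiv_right (m := ∞) (by simp)).continuous_fderiv (by simp)
  have h : (fun t => Lform Ps (p t) (a t)) = fun t => (fderiv ℝ (fderiv ℝ Ps) (p t) (a t) (a t)
      + fderiv ℝ (fderiv ℝ Ps) (p t) (I • a t) (I • a t)) / 4 := by
    funext t; exact hw_Lform_eq Ps hPs (p t) (a t)
  rw [h]
  have hI : Continuous (fun t => I • a t) := ha.const_smul I
  have hcp : Continuous (fun t => fderiv ℝ (fderiv ℝ Ps) (p t)) := hc.comp hp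
  exact (((hcp.clm_apply ha).clm_apply ha).add ((hcp.clm_apply hI).clm_apply hI)).div_const _

private lemma hw_Lform_zero (Ps : E → ℝ) (hPs : ContDiff ℝ ∞ Ps) (x : E) : Lform Ps x 0 = 0 := by
  rw [hw_Lform_eq Ps hPs]
  simp

end HWcut


section HWboch

variable {E : Type*} [NormedAddCommGroup E] [NormedSpace ℂ E] [FiniteDimensional ℂ E]
  [MeasurableSpace E] [BorelSpace E]

private lemma hw_sq {X : Type*} [MeasurableSpace X] (nu : Measure X) (u : X → ℂ) :
    eLpNorm u 2 nu ^ 2 = ∫⁻ x, ENNReal.ofReal (‖u x‖ ^ 2) ∂nu := by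
  have h := eLpNorm_nnreal_pow_eq_lintegral (μ := nu) (f := u) (p := 2) (by norm_num)
  have h2 : eLpNorm u 2 nu ^ 2 = eLpNorm u ((2 : NNReal) : ℝ≥0∞) nu ^ ((2 : NNReal) : ℝ) := by
    norm_num
  rw [h2, h]
  refine lintegral_congr fun x => ?_
  rw [ENNReal.ofReal_pow (norm_nonneg _), ofReal_norm]
  norm_num

private lemma hw_gm_lf (mu : Measure E) [mu.IsAddHaarMeasure] (Ps : E → ℝ)
    (hPs : ContDiff ℝ ∞ Ps) : IsLocallyFiniteMeasure (gm mu Ps) := by
  unfold gm
  exact IsLocallyFiniteMeasure.withDensity_ofReal (Real.continuous_exp.comp hPs.continuous.neg)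

private lemma hw_int_sq (mu : Measure E) [mu.IsAddHaarMeasure] (Ps : E → ℝ)
    (hPs : ContDiff ℝ ∞ Ps) (u : E → ℂ) (hu : Continuous u) (hc : HasCompactSupport u) :
    Integrable (fun x => ‖u x‖ ^ 2) (gm mu Ps) := by
  have := hw_gm_lf mu Ps hPs
  have h1 : Continuous (fun x => ‖u x‖ ^ 2) := hu.norm.pow 2
  have h2 : HasCompactSupport (fun x => ‖u x‖ ^ 2) :=
    hc.comp_left (g := fun z : ℂ => ‖z‖ ^ 2) (by simp)
  exact h1.integrable_of_hasCompactSupport h2

private lemma hw_ofReal_int_sq (mu : Measure E) [mu.IsAddHaarMeasure] (Ps : E → ℝ)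
    (hPs : ContDiff ℝ ∞ Ps) (u : E → ℂ) (hu : Continuous u) (hc : HasCompactSupport u) :
    ENNReal.ofReal (∫ x, ‖u x‖ ^ 2 ∂(gm mu Ps)) = eLpNorm u 2 (gm mu Ps) ^ 2 := by
  rw [hw_sq, ofReal_integral_eq_lintegral_ofReal (hw_int_sq mu Ps hPs u hu hc)
    (Filter.Eventually.of_forall fun x => by positivity)]

private lemma hw_bochner (mu : Measure E) [mu.IsAddHaarMeasure] (Ps : E → ℝ)
    (hPs : ContDiff ℝ ∞ Ps) (hpsh : ∀ x a, 0 ≤ Lform Ps x a)
    {ι : Type*} [Fintype ι] (b : Module.Basis ι ℂ E) (al : ι → E → ℂ) (hal : ∀ j, SC (al j)) :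
    ∫⁻ x, ENNReal.ofReal (Lform Ps x (∑ j, al j x • b j)) ∂(gm mu Ps) ≤
      eLpNorm (fun x => ∑ j, del Ps (b j) (al j) x) 2 (gm mu Ps) ^ 2
      + ∑ j, ∑ k, eLpNorm (fun x => dzb (b j) (al k) x - dzb (b k) (al j) x) 2
          (gm mu Ps) ^ 2 := by
  have := hw_gm_lf mu Ps hPs
  have hPc : ContDiff ℝ ∞ (fun y => (Ps y : ℂ)) := Complex.ofRealCLM.contDiff.comp hPs
  -- continuity and supports
  have c1 : Continuous (fun x => ∑ j, al j x • b j) :=
    continuous_finsetSum _ fun j _ => ((hal j).1.continuous).smul continuous_const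
  have c2 : Continuous (fun x => Lform Ps x (∑ j, al j x • b j)) :=
    hw_Lform_cont Ps hPs (fun x => x) _ continuous_id c1
  have s1 : HasCompactSupport (fun x => ∑ j, al j x • b j) := by
    have hK : IsCompact (⋃ j, tsupport (al j)) := isCompact_iUnion fun j => (hal j).2
    refine HasCompactSupport.intro hK fun x hx => ?_
    refine Finset.sum_eq_zero fun j _ => ?_
    have : al j x = 0 := by
      by_contra h
      exact hx (Set.mem_iUnion.2 ⟨j, subset_tsupport _ h⟩)
    rw [this, zero_smul]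
  have s2 : HasCompactSupport (fun x => Lform Ps x (∑ j, al j x • b j)) := by
    refine s1.mono ?_
    intro x hx hx2
    simp only [Function.mem_support, ne_eq] at hx hx2
    exact hx (by rw [hx2]; exact hw_Lform_zero Ps hPs x)
  have i1 : Integrable (fun x => Lform Ps x (∑ j, al j x • b j)) (gm mu Ps) :=
    c2.integrable_of_hasCompactSupport s2
  have d1 : ∀ j, Continuous (fun x => del Ps (b j) (al j) x) := by
    intro j
    unfold del
    exact (hw_dz_cont _ (hal j).1 _).neg.add ((hw_dz_cont _ hPc _).mul (hal j).1.continuous)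
  have d2 : ∀ j, HasCompactSupport (fun x => del Ps (b j) (al j) x) := by
    intro j
    unfold del
    exact (hw_dz_supp _ (hal j).2 _).neg.add ((hal j).2.mul_left)
  have t1 : Continuous (fun x => ∑ j, del Ps (b j) (al j) x) :=
    continuous_finsetSum _ fun j _ => d1 j
  have t2 : HasCompactSupport (fun x => ∑ j, del Ps (b j) (al j) x) := by
    have hK : IsCompact (⋃ j, tsupport (fun x => del Ps (b j) (al j) x)) :=
      isCompact_iUnion fun j => d2 j
    refine HasCompactSupport.intro hK fun x hx => ?_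
    refine Finset.sum_eq_zero fun j _ => ?_
    by_contra h
    exact hx (Set.mem_iUnion.2 ⟨j, subset_tsupport _ h⟩)
  have e1 : ∀ j k, Continuous (fun x => dzb (b j) (al k) x - dzb (b k) (al j) x) :=
    fun j k => (hw_dzb_cont _ (hal k).1 _).sub (hw_dzb_cont _ (hal j).1 _)
  have e2 : ∀ j k, HasCompactSupport (fun x => dzb (b j) (al k) x - dzb (b k) (al j) x) :=
    fun j k => (hw_dzb_supp _ (hal k).2 _).sub (hw_dzb_supp _ (hal j).2 _)
  have e3 : ∀ j k, Integrable (fun x => ‖dzb (b j) (al k) x - dzb (b k) (al j) x‖ ^ 2)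
      (gm mu Ps) := fun j k => hw_int_sq mu Ps hPs _ (e1 j k) (e2 j k)
  have hb := bochner mu Ps hPs b al hal
  rw [integral_finsetSum _ (fun j _ => integrable_finsetSum _ fun k _ => e3 j k)] at hb
  have hb2 : ∀ j, ∫ x, ∑ k, ‖dzb (b j) (al k) x - dzb (b k) (al j) x‖ ^ 2 ∂(gm mu Ps)
      = ∑ k, ∫ x, ‖dzb (b j) (al k) x - dzb (b k) (al j) x‖ ^ 2 ∂(gm mu Ps) :=
    fun j => integral_finsetSum _ (fun k _ => e3 j k)
  simp only [hb2] at hb
  have hnn : 0 ≤ ∑ j, ∑ k, ∫ x, ‖dzb (b j) (al k) x - dzb (b k) (al j) x‖ ^ 2 ∂(gm mu Ps) :=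
    Finset.sum_nonneg fun j _ => Finset.sum_nonneg fun k _ =>
      integral_nonneg fun x => by positivity
  have hb3 : ∫ x, Lform Ps x (∑ j, al j x • b j) ∂(gm mu Ps) ≤
      ∫ x, ‖∑ j, del Ps (b j) (al j) x‖ ^ 2 ∂(gm mu Ps)
      + ∑ j, ∑ k, ∫ x, ‖dzb (b j) (al k) x - dzb (b k) (al j) x‖ ^ 2 ∂(gm mu Ps) := by
    linarith
  have hb4 := ENNReal.ofReal_le_ofReal hb3
  rw [ofReal_integral_eq_lintegral_ofReal i1
    (Filter.Eventually.of_forall fun x => hpsh x _)] at hb4
  refine hb4.trans ?_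
  refine ENNReal.ofReal_add_le.trans ?_
  rw [hw_ofReal_int_sq mu Ps hPs _ t1 t2]
  gcongr
  rw [ENNReal.ofReal_sum_of_nonneg (fun j _ => Finset.sum_nonneg fun k _ =>
      integral_nonneg fun x => by positivity)]
  refine Finset.sum_le_sum fun j _ => ?_
  rw [ENNReal.ofReal_sum_of_nonneg (fun k _ => integral_nonneg fun x => by positivity)]
  refine Finset.sum_le_sum fun k _ => ?_
  rw [hw_ofReal_int_sq mu Ps hPs _ (e1 j k) (e2 j k)]

end HWboch


section HWpt

variable {E : Type*} [NormedAddCommGroup E] [NormedSpace ℂ E]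

private lemma hw_ch_zero (ch : E → ℝ) (x v : E) (hx : x ∉ tsupport ch) :
    (ch x : ℂ) = 0 ∧ dz v (fun y => (ch y : ℂ)) x = 0 ∧ dzb v (fun y => (ch y : ℂ)) x = 0 := by
  have h1 : ch x = 0 := image_eq_zero_of_notMem_tsupport hx
  have h2 : fderiv ℝ (fun y => (ch y : ℂ)) x = 0 := by
    have hsub : tsupport (fun y => (ch y : ℂ)) ⊆ tsupport ch := by
      refine closure_mono ?_
      intro y hy hy2
      simp only [Function.mem_support, ne_eq] at hy
      exact hy (by rw [hy2]; simp)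
    by_contra h
    exact hx (hsub (tsupport_fderiv_subset ℝ (subset_tsupport _ h)))
  refine ⟨by rw [h1]; simp, ?_, ?_⟩
  · simp [dz, h2]
  · simp [dzb, h2]

private lemma hw_T_bound (Ps : E → ℝ) {ι : Type*} [Fintype ι]
    (b : ι → E) (ch : E → ℝ) (hch : ContDiff ℝ ∞ ch) (h0 : ∀ x, 0 ≤ ch x) (h1 : ∀ x, ch x ≤ 1)
    (c : ℝ) (hc0 : 0 ≤ c) (hc : ∀ x j, ‖dz (b j) (fun y => (ch y : ℂ)) x‖ ≤ c)
    (P : ℝ) (hP0 : 0 ≤ P) (hP : ∀ x ∈ tsupport ch, ∀ j, ‖dz (b j) (fun y => (Ps y : ℂ)) x‖ ≤ P)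
    (U : ι → E → ℂ) (hU : ∀ j, ContDiff ℝ ∞ (U j)) (al : ι → E → ℂ) (g G BB : E → ℂ)
    (hEq : ∀ x, - ∑ j, dz (b j) (U j) x = G x - BB x) (x : E) :
    ‖∑ j, del Ps (b j) (fun y => (ch y : ℂ) * U j y) x‖ ≤
      ‖g x‖ + (c * (∑ j, ‖al j x‖) + (1 + P + c) *
        (tsupport ch).indicator (fun x => ‖G x - g x‖
          + ‖BB x - ∑ j, dz (b j) (fun y => (Ps y : ℂ)) x * al j x‖
          + ∑ j, ‖U j x - al j x‖) x) := by
  by_cases hx : x ∈ tsupport ch
  · rw [Set.indicator_of_mem hx]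
    have hd : ∀ j, del Ps (b j) (fun y => (ch y : ℂ) * U j y) x
        = -(dz (b j) (fun y => (ch y : ℂ)) x * U j x + (ch x : ℂ) * dz (b j) (U j) x)
          + dz (b j) (fun y => (Ps y : ℂ)) x * ((ch x : ℂ) * U j x) := by
      intro j
      unfold del
      rw [hw_dz_mul (b j) (fun y => (ch y : ℂ)) (U j) x
        ((Complex.ofRealCLM.contDiff.comp hch).differentiable (by simp) x)
        ((hU j).differentiable (by simp) x)]
    have hs : ∑ j, del Ps (b j) (fun y => (ch y : ℂ) * U j y) x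
        = (ch x : ℂ) * g x
          + ((ch x : ℂ) * (G x - g x)
          + (-((ch x : ℂ) * (BB x - ∑ j, dz (b j) (fun y => (Ps y : ℂ)) x * al j x))
          + ((∑ j, (ch x : ℂ) * (dz (b j) (fun y => (Ps y : ℂ)) x * (U j x - al j x)))
          + (-(∑ j, dz (b j) (fun y => (ch y : ℂ)) x * al j x)
          + -(∑ j, dz (b j) (fun y => (ch y : ℂ)) x * (U j x - al j x)))))) := by
      have h3 : (ch x : ℂ) * (- ∑ j, dz (b j) (U j) x) = (ch x : ℂ) * (G x - BB x) := by
        rw [hEq]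
      have h4 : ∑ j, del Ps (b j) (fun y => (ch y : ℂ) * U j y) x
          = (ch x : ℂ) * (- ∑ j, dz (b j) (U j) x)
            + ∑ j, (-(dz (b j) (fun y => (ch y : ℂ)) x * U j x)
              + dz (b j) (fun y => (Ps y : ℂ)) x * ((ch x : ℂ) * U j x)) := by
        rw [← Finset.sum_neg_distrib, Finset.mul_sum, ← Finset.sum_add_distrib]
        refine Finset.sum_congr rfl fun j _ => ?_
        rw [hd j]
        ring
      rw [h4, h3]
      have h5 : ∑ j, (-(dz (b j) (fun y => (ch y : ℂ)) x * U j x)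
              + dz (b j) (fun y => (Ps y : ℂ)) x * ((ch x : ℂ) * U j x))
          = (ch x : ℂ) * (∑ j, dz (b j) (fun y => (Ps y : ℂ)) x * al j x)
            + ((∑ j, (ch x : ℂ) * (dz (b j) (fun y => (Ps y : ℂ)) x * (U j x - al j x)))
          + (-(∑ j, dz (b j) (fun y => (ch y : ℂ)) x * al j x)
          + -(∑ j, dz (b j) (fun y => (ch y : ℂ)) x * (U j x - al j x)))) := by
        rw [Finset.mul_sum, ← Finset.sum_neg_distrib, ← Finset.sum_neg_distrib,
          ← Finset.sum_add_distrib, ← Finset.sum_add_distrib, ← Finset.sum_add_distrib]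
        refine Finset.sum_congr rfl fun j _ => ?_
        ring
      rw [h5]
      ring
    rw [hs]
    have hcn : ‖(ch x : ℂ)‖ ≤ 1 := by
      rw [Complex.norm_real, Real.norm_of_nonneg (h0 x)]
      exact h1 x
    have hm : ∀ z : ℂ, ‖(ch x : ℂ) * z‖ ≤ ‖z‖ := by
      intro z
      rw [norm_mul]
      exact mul_le_of_le_one_left (norm_nonneg _) hcn
    have b1 := hm (g x)
    have b2 := hm (G x - g x)
    have b3 : ‖-((ch x : ℂ) * (BB x - ∑ j, dz (b j) (fun y => (Ps y : ℂ)) x * al j x))‖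
        ≤ ‖BB x - ∑ j, dz (b j) (fun y => (Ps y : ℂ)) x * al j x‖ := by
      rw [norm_neg]
      exact hm _
    have b4 : ‖∑ j, (ch x : ℂ) * (dz (b j) (fun y => (Ps y : ℂ)) x * (U j x - al j x))‖
        ≤ P * ∑ j, ‖U j x - al j x‖ := by
      rw [Finset.mul_sum]
      refine norm_sum_le_of_le _ fun j _ => ?_
      refine (hm _).trans ?_
      rw [norm_mul]
      exact mul_le_mul_of_nonneg_right (hP x hx j) (norm_nonneg _)
    have b5 : ‖-(∑ j, dz (b j) (fun y => (ch y : ℂ)) x * al j x)‖ ≤ c * ∑ j, ‖al j x‖ := by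
      rw [norm_neg, Finset.mul_sum]
      refine norm_sum_le_of_le _ fun j _ => ?_
      rw [norm_mul]
      exact mul_le_mul_of_nonneg_right (hc x j) (norm_nonneg _)
    have b6 : ‖-(∑ j, dz (b j) (fun y => (ch y : ℂ)) x * (U j x - al j x))‖
        ≤ c * ∑ j, ‖U j x - al j x‖ := by
      rw [norm_neg, Finset.mul_sum]
      refine norm_sum_le_of_le _ fun j _ => ?_
      rw [norm_mul]
      exact mul_le_mul_of_nonneg_right (hc x j) (norm_nonneg _)
    refine (norm_add_le_of_le b1 (norm_add_le_of_le b2 (norm_add_le_of_le b3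
      (norm_add_le_of_le b4 (norm_add_le_of_le b5 b6))))).trans ?_
    have n1 : 0 ≤ ‖G x - g x‖ := norm_nonneg _
    have n2 : 0 ≤ ‖BB x - ∑ j, dz (b j) (fun y => (Ps y : ℂ)) x * al j x‖ := norm_nonneg _
    have n3 : 0 ≤ ∑ j, ‖U j x - al j x‖ := Finset.sum_nonneg fun j _ => norm_nonneg _
    have n4 : 0 ≤ (P + c) * ‖G x - g x‖ := by positivity
    have n5 : 0 ≤ (P + c) * ‖BB x - ∑ j, dz (b j) (fun y => (Ps y : ℂ)) x * al j x‖ := by
      positivity
    nlinarith
  · have hz : ∑ j, del Ps (b j) (fun y => (ch y : ℂ) * U j y) x = 0 := by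
      refine Finset.sum_eq_zero fun j _ => ?_
      obtain ⟨z1, z2, _⟩ := hw_ch_zero ch x (b j) hx
      unfold del
      rw [hw_dz_mul (b j) (fun y => (ch y : ℂ)) (U j) x
        ((Complex.ofRealCLM.contDiff.comp hch).differentiable (by simp) x)
        ((hU j).differentiable (by simp) x), z2]
      simp only [z1]
      ring
    rw [hz, norm_zero, Set.indicator_of_notMem hx]
    have n1 : 0 ≤ ∑ j, ‖al j x‖ := Finset.sum_nonneg fun j _ => norm_nonneg _
    positivity

private lemma hw_S_bound {ι : Type*} [Fintype ι]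
    (b : ι → E) (ch : E → ℝ) (hch : ContDiff ℝ ∞ ch)
    (c : ℝ) (hc0 : 0 ≤ c) (hc : ∀ x j, ‖dzb (b j) (fun y => (ch y : ℂ)) x‖ ≤ c)
    (U : ι → E → ℂ) (hU : ∀ j, ContDiff ℝ ∞ (U j)) (al : ι → E → ℂ) (f : E → ℝ)
    (hf : ∀ x, 0 ≤ f x)
    (hEq : ∀ x j k, dzb (b j) (U k) x = dzb (b k) (U j) x) (x : E) (j k : ι) :
    ‖dzb (b j) (fun y => (ch y : ℂ) * U k y) x - dzb (b k) (fun y => (ch y : ℂ) * U j y) x‖ ≤
      (2 * c) * (∑ j, ‖al j x‖) + (2 * c) *
        (tsupport ch).indicator (fun x => f x + ∑ j, ‖U j x - al j x‖) x := by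
  have hd : ∀ j k, dzb (b j) (fun y => (ch y : ℂ) * U k y) x
      = dzb (b j) (fun y => (ch y : ℂ)) x * U k x + (ch x : ℂ) * dzb (b j) (U k) x := by
    intro j k
    rw [hw_dzb_mul (b j) (fun y => (ch y : ℂ)) (U k) x
      ((Complex.ofRealCLM.contDiff.comp hch).differentiable (by simp) x)
      ((hU k).differentiable (by simp) x)]
  have he : dzb (b j) (fun y => (ch y : ℂ) * U k y) x - dzb (b k) (fun y => (ch y : ℂ) * U j y) x
      = dzb (b j) (fun y => (ch y : ℂ)) x * U k x - dzb (b k) (fun y => (ch y : ℂ)) x * U j x := by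
    rw [hd, hd, hEq x j k]
    ring
  rw [he]
  have hH : ∀ i, ‖al i x‖ ≤ ∑ j, ‖al j x‖ := fun i =>
    Finset.single_le_sum (f := fun j => ‖al j x‖) (fun j _ => norm_nonneg _) (Finset.mem_univ i)
  have hD : ∀ i, ‖U i x - al i x‖ ≤ ∑ j, ‖U j x - al j x‖ := fun i =>
    Finset.single_le_sum (f := fun j => ‖U j x - al j x‖) (fun j _ => norm_nonneg _)
      (Finset.mem_univ i)
  by_cases hx : x ∈ tsupport ch
  · rw [Set.indicator_of_mem hx]
    have hUi : ∀ i, ‖U i x‖ ≤ (∑ j, ‖al j x‖) + (f x + ∑ j, ‖U j x - al j x‖) := by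
      intro i
      have : U i x = al i x + (U i x - al i x) := by ring
      calc ‖U i x‖ = ‖al i x + (U i x - al i x)‖ := by rw [← this]
        _ ≤ ‖al i x‖ + ‖U i x - al i x‖ := norm_add_le _ _
        _ ≤ _ := by linarith [hH i, hD i, hf x]
    have t1 : ‖dzb (b j) (fun y => (ch y : ℂ)) x * U k x‖
        ≤ c * ((∑ j, ‖al j x‖) + (f x + ∑ j, ‖U j x - al j x‖)) := by
      rw [norm_mul]
      exact mul_le_mul (hc x j) (hUi k) (norm_nonneg _) hc0
    have t2 : ‖dzb (b k) (fun y => (ch y : ℂ)) x * U j x‖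
        ≤ c * ((∑ j, ‖al j x‖) + (f x + ∑ j, ‖U j x - al j x‖)) := by
      rw [norm_mul]
      exact mul_le_mul (hc x k) (hUi j) (norm_nonneg _) hc0
    refine (norm_sub_le_of_le t1 t2).trans (le_of_eq ?_)
    ring
  · obtain ⟨_, _, z1⟩ := hw_ch_zero ch x (b j) hx
    obtain ⟨_, _, z2⟩ := hw_ch_zero ch x (b k) hx
    rw [z1, z2, zero_mul, zero_mul, sub_zero, norm_zero, Set.indicator_of_notMem hx]
    have n1 : 0 ≤ ∑ j, ‖al j x‖ := Finset.sum_nonneg fun j _ => norm_nonneg _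
    positivity

end HWpt


section HWfix

variable {E : Type*} [NormedAddCommGroup E] [NormedSpace ℂ E] [FiniteDimensional ℂ E]
  [MeasurableSpace E] [BorelSpace E]

private lemma hw_eL_const {X : Type*} [MeasurableSpace X] (nu : Measure X) (c : ℝ) (hc : 0 ≤ c)
    (f : X → ℝ) : eLpNorm (fun x => c * f x) 2 nu = ENNReal.ofReal c * eLpNorm f 2 nu := by
  have h := eLpNorm_const_smul (μ := nu) (p := 2) c f
  have h2 : (fun x => c * f x) = c • f := by
    funext x; simp
  rw [h2, h, Real.enorm_eq_ofReal hc]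

private lemma hw_eL_sum {X : Type*} [MeasurableSpace X] (nu : Measure X) {ι : Type*} [Fintype ι]
    (u : ι → X → ℂ) (hu : ∀ j, AEStronglyMeasurable (u j) nu) :
    eLpNorm (fun x => ∑ j, ‖u j x‖) 2 nu ≤ ∑ j, eLpNorm (u j) 2 nu := by
  have h : (fun x => ∑ j, ‖u j x‖) = ∑ j, (fun x => ‖u j x‖) := by
    funext x; simp
  rw [h]
  refine (eLpNorm_sum_le (fun j _ => (hu j).norm) (by norm_num)).trans ?_
  refine Finset.sum_le_sum fun j _ => ?_
  rw [eLpNorm_norm]

private lemma hw_mul_loc (mu : Measure E) (k : E → ℂ) (hk : Continuous k) (u : E → ℂ)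
    {K : Set E} (hK : IsCompact K) (hu : MemLp u 2 (mu.restrict K)) :
    MemLp (fun y => k y * u y) 2 (mu.restrict K) := by
  obtain ⟨M, hM⟩ := hK.exists_bound_of_continuousOn hk.continuousOn
  refine hu.of_le_mul (c := M) (hk.aestronglyMeasurable.mul hu.1) ?_
  refine (ae_restrict_iff' hK.measurableSet).2 (Filter.Eventually.of_forall fun x hx => ?_)
  rw [norm_mul]
  exact mul_le_mul_of_nonneg_right (hM x hx) (norm_nonneg _)

private lemma hw_fixed (mu : Measure E) [mu.IsAddHaarMeasure] (Ps : E → ℝ)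
    (hPs : ContDiff ℝ ∞ Ps) (hpsh : ∀ x a, 0 ≤ Lform Ps x a)
    {ι : Type*} [Fintype ι] (b : Module.Basis ι ℂ E) (al : ι → E → ℂ)
    (hal : ∀ j, MemLp (al j) 2 (gm mu Ps)) (g : E → ℂ) (hg : MemLp g 2 (gm mu Ps))
    (hclosed : ∀ j k, ∀ ph : E → ℂ, SC ph →
      ∫ x, al k x * (starRingEnd ℂ) (del Ps (b j) ph x) ∂(gm mu Ps) =
      ∫ x, al j x * (starRingEnd ℂ) (del Ps (b k) ph x) ∂(gm mu Ps))
    (hdelta : ∀ ph : E → ℂ, SC ph →
      ∫ x, ∑ j, al j x * (starRingEnd ℂ) (dzb (b j) ph x) ∂(gm mu Ps) =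
      ∫ x, g x * (starRingEnd ℂ) (ph x) ∂(gm mu Ps))
    (ch : E → ℝ) (hch : ContDiff ℝ ∞ ch) (hcs : HasCompactSupport ch)
    (h0 : ∀ x, 0 ≤ ch x) (h1 : ∀ x, ch x ≤ 1) (c : ℝ) (hc0 : 0 ≤ c)
    (hc1 : ∀ x j, ‖dz (b j) (fun y => (ch y : ℂ)) x‖ ≤ c)
    (hc2 : ∀ x j, ‖dzb (b j) (fun y => (ch y : ℂ)) x‖ ≤ c) :
    ∫⁻ x, ENNReal.ofReal (Lform Ps x (∑ j, ((ch x : ℂ) * al j x) • b j)) ∂(gm mu Ps) ≤
      (eLpNorm g 2 (gm mu Ps)
        + ENNReal.ofReal c * eLpNorm (fun x => ∑ j, ‖al j x‖) 2 (gm mu Ps)) ^ 2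
      + ∑ _j : ι, ∑ _k : ι, (ENNReal.ofReal (2 * c)
          * eLpNorm (fun x => ∑ j, ‖al j x‖) 2 (gm mu Ps)) ^ 2 := by
  classical
  have hPc : ContDiff ℝ ∞ (fun y => (Ps y : ℂ)) := Complex.ofRealCLM.contDiff.comp hPs
  have hchc : ContDiff ℝ ∞ (fun y => (ch y : ℂ)) := Complex.ofRealCLM.contDiff.comp hch
  obtain ⟨r, hr1, hr2, hr3, hr4, hr5, hr6⟩ := exists_mollifier mu
  set K := tsupport ch with hKdef
  have hK : IsCompact K := hcs
  have hmK : MeasurableSet K := hK.measurableSet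
  let Bf : E → ℂ := fun y => ∑ j, dz (b j) (fun y => (Ps y : ℂ)) y * al j y
  -- local L2 facts
  have lal : ∀ j, ∀ L : Set E, IsCompact L → MemLp (al j) 2 (mu.restrict L) :=
    fun j L hL => hw_memLp_restrict mu Ps hPs _ (hal j) hL
  have lg : ∀ L : Set E, IsCompact L → MemLp g 2 (mu.restrict L) :=
    fun L hL => hw_memLp_restrict mu Ps hPs _ hg hL
  have lB1 : ∀ j, ∀ L : Set E, IsCompact L →
      MemLp (fun y => dz (b j) (fun y => (Ps y : ℂ)) y * al j y) 2 (mu.restrict L) :=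
    fun j L hL => hw_mul_loc mu _ (hw_dz_cont _ hPc (b j)) _ hL (lal j L hL)
  have lB : ∀ L : Set E, IsCompact L → MemLp Bf 2 (mu.restrict L) := by
    intro L hL
    exact memLp_finsetSum _ fun j _ => lB1 j L hL
  have ial : ∀ j, LocallyIntegrable (al j) mu := fun j => hw_locInt mu _ (lal j)
  have ig : LocallyIntegrable g mu := hw_locInt mu _ lg
  have iB1 : ∀ j, LocallyIntegrable (fun y => dz (b j) (fun y => (Ps y : ℂ)) y * al j y) mu :=
    fun j => hw_locInt mu _ (lB1 j)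
  have iB : LocallyIntegrable Bf mu := hw_locInt mu _ lB
  -- mollified functions
  let U : ℕ → ι → E → ℂ := fun n j => hw_moll mu (r n) (al j)
  let G : ℕ → E → ℂ := fun n => hw_moll mu (r n) g
  let BB : ℕ → E → ℂ := fun n => hw_moll mu (r n) Bf
  have sU : ∀ n j, ContDiff ℝ ∞ (U n j) := fun n j =>
    hw_moll_contDiff mu (r n) _ (hr1 n) (hr2 n) (ial j)
  have sG : ∀ n, ContDiff ℝ ∞ (G n) := fun n =>
    hw_moll_contDiff mu (r n) _ (hr1 n) (hr2 n) ig
  have sB : ∀ n, ContDiff ℝ ∞ (BB n) := fun n =>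
    hw_moll_contDiff mu (r n) _ (hr1 n) (hr2 n) iB
  have eA : ∀ n x j k, dzb (b j) (U n k) x = dzb (b k) (U n j) x := fun n x j k =>
    hw_eqA mu Ps hPs (b j) (b k) (al j) (al k) (ial j) (ial k) (hclosed j k) (r n) (hr1 n)
      (hr2 n) x
  have eB : ∀ n x, - ∑ j, dz (b j) (U n j) x = G n x - BB n x := fun n x =>
    hw_eqB mu Ps hPs (fun j => b j) al g ial iB1 hdelta (r n) (hr1 n) (hr2 n) x
  -- bound for dz Ps on K
  have hPbd : ∃ P : ℝ, 0 ≤ P ∧ ∀ x ∈ K, ∀ j, ‖dz (b j) (fun y => (Ps y : ℂ)) x‖ ≤ P := by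
    have : ∀ j, ∃ M : ℝ, ∀ x ∈ K, ‖dz (b j) (fun y => (Ps y : ℂ)) x‖ ≤ M := fun j =>
      hK.exists_bound_of_continuousOn (hw_dz_cont _ hPc (b j)).continuousOn
    choose M hM using this
    refine ⟨∑ j, |M j|, Finset.sum_nonneg fun j _ => abs_nonneg _, fun x hx j => ?_⟩
    exact ((hM j x hx).trans (le_abs_self _)).trans
      (Finset.single_le_sum (f := fun j => |M j|) (fun j _ => abs_nonneg _) (Finset.mem_univ j))
  obtain ⟨P, hP0, hP⟩ := hPbd
  -- the error function
  let D : ℕ → E → ℝ := fun n => K.indicator (fun x => ‖G n x - g x‖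
          + ‖BB n x - Bf x‖ + ∑ j, ‖U n j x - al j x‖)
  have mG : ∀ nu : Measure E, AEStronglyMeasurable g nu → ∀ n,
      AEStronglyMeasurable (fun x => G n x - g x) nu := fun nu h n =>
    (sG n).continuous.aestronglyMeasurable.sub h
  have mB : ∀ nu : Measure E, AEStronglyMeasurable Bf nu → ∀ n,
      AEStronglyMeasurable (fun x => BB n x - Bf x) nu := fun nu h n =>
    (sB n).continuous.aestronglyMeasurable.sub h
  have mU : ∀ nu : Measure E, ∀ n j, AEStronglyMeasurable (al j) nu →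
      AEStronglyMeasurable (fun x => U n j x - al j x) nu := fun nu n j h =>
    (sU n j).continuous.aestronglyMeasurable.sub h
  have mBf : AEStronglyMeasurable Bf (gm mu Ps) :=
    Finset.aestronglyMeasurable_fun_sum _ fun j _ =>
      (hw_dz_cont _ hPc (b j)).aestronglyMeasurable.mul (hal j).1
  have mD1 : ∀ nu : Measure E, AEStronglyMeasurable g nu → AEStronglyMeasurable Bf nu →
      (∀ j, AEStronglyMeasurable (al j) nu) → ∀ n, AEStronglyMeasurable (fun x => ‖G n x - g x‖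
          + ‖BB n x - Bf x‖ + ∑ j, ‖U n j x - al j x‖) nu := by
    intro nu h1 h2 h3 n
    exact ((mG nu h1 n).norm.add (mB nu h2 n).norm).add
      (Finset.aestronglyMeasurable_fun_sum _ fun j _ => (mU nu n j (h3 j)).norm)
  have mD : ∀ n, AEStronglyMeasurable (D n) (gm mu Ps) := fun n =>
    (mD1 _ hg.1 mBf (fun j => (hal j).1) n).indicator hmK
  have mD' : ∀ n, AEStronglyMeasurable (D n) (mu.restrict K) := fun n =>
    (mD1 _ (lg K hK).1 (lB K hK).1 (fun j => (lal j K hK).1) n).indicator hmK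
  have hDK : Filter.Tendsto (fun n => eLpNorm (D n) 2 (mu.restrict K)) Filter.atTop (nhds 0) := by
    have hle : ∀ n, eLpNorm (D n) 2 (mu.restrict K) ≤
        eLpNorm (fun x => G n x - g x) 2 (mu.restrict K)
        + eLpNorm (fun x => BB n x - Bf x) 2 (mu.restrict K)
        + ∑ j, eLpNorm (fun x => U n j x - al j x) 2 (mu.restrict K) := by
      intro n
      refine (eLpNorm_indicator_le _).trans ?_
      have a1 := (mG _ (lg K hK).1 n)
      have a2 := (mB _ (lB K hK).1 n)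
      have a3 : ∀ j, AEStronglyMeasurable (fun x => U n j x - al j x) (mu.restrict K) :=
        fun j => mU _ n j (lal j K hK).1
      refine (eLpNorm_add_le (f := fun x => ‖G n x - g x‖ + ‖BB n x - Bf x‖)
        (g := fun x => ∑ j, ‖U n j x - al j x‖) (a1.norm.add a2.norm)
        (Finset.aestronglyMeasurable_fun_sum _ fun j _ => (a3 j).norm) (by norm_num)).trans ?_
      refine add_le_add ?_ (hw_eL_sum _ _ a3)
      refine (eLpNorm_add_le (f := fun x => ‖G n x - g x‖) (g := fun x => ‖BB n x - Bf x‖)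
        a1.norm a2.norm (by norm_num)).trans ?_
      rw [eLpNorm_norm, eLpNorm_norm]
    have t1 := hr6 g lg K hK
    have t2 := hr6 Bf lB K hK
    have t3 : Filter.Tendsto (fun n => ∑ j, eLpNorm (fun x => U n j x - al j x) 2
        (mu.restrict K)) Filter.atTop (nhds (∑ _j : ι, 0)) :=
      tendsto_finsetSum _ fun j _ => hr6 (al j) (lal j) K hK
    have t4 := (t1.add t2).add t3
    simp only [Finset.sum_const_zero, add_zero] at t4
    exact tendsto_of_tendsto_of_tendsto_of_le_of_le tendsto_const_nhds t4 (fun n => zero_le) hle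
  have hDg : Filter.Tendsto (fun n => eLpNorm (D n) 2 (gm mu Ps)) Filter.atTop (nhds 0) := by
    obtain ⟨C, hC, hCle⟩ := hw_eLpNorm_le mu Ps hPs hK
    have t1 : Filter.Tendsto (fun n => C * eLpNorm (D n) 2 (mu.restrict K)) Filter.atTop
        (nhds (C * 0)) := ENNReal.Tendsto.const_mul hDK (Or.inr hC)
    rw [mul_zero] at t1
    refine tendsto_of_tendsto_of_tendsto_of_le_of_le tendsto_const_nhds t1 (fun n => zero_le)
      (fun n => hCle (D n) fun x hx => ?_)
    exact Set.indicator_of_notMem hx _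
  -- bound for each n
  have mH : AEStronglyMeasurable (fun x => ∑ j, ‖al j x‖) (gm mu Ps) :=
    Finset.aestronglyMeasurable_fun_sum _ fun j _ => (hal j).1.norm
  have hM0 : 0 ≤ 1 + P + c := by linarith
  have hn : ∀ n, ∫⁻ x, ENNReal.ofReal (Lform Ps x (∑ j, ((ch x : ℂ) * U n j x) • b j))
        ∂(gm mu Ps) ≤
      (eLpNorm g 2 (gm mu Ps)
        + (ENNReal.ofReal c * eLpNorm (fun x => ∑ j, ‖al j x‖) 2 (gm mu Ps)
          + ENNReal.ofReal (1 + P + c) * eLpNorm (D n) 2 (gm mu Ps))) ^ 2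
      + ∑ _j : ι, ∑ _k : ι, (ENNReal.ofReal (2 * c)
          * eLpNorm (fun x => ∑ j, ‖al j x‖) 2 (gm mu Ps)
          + ENNReal.ofReal (2 * c) * eLpNorm (D n) 2 (gm mu Ps)) ^ 2 := by
    intro n
    have hsc : ∀ j, SC (fun x => (ch x : ℂ) * U n j x) := by
      intro j
      refine ⟨hchc.mul (sU n j), ?_⟩
      exact (hw_cast_supp ch hcs).mul_right
    refine (hw_bochner mu Ps hPs hpsh b (fun j x => (ch x : ℂ) * U n j x) hsc).trans ?_
    have hT : eLpNorm (fun x => ∑ j, del Ps (b j) (fun y => (ch y : ℂ) * U n j y) x) 2 (gm mu Ps)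
        ≤ eLpNorm g 2 (gm mu Ps)
        + (ENNReal.ofReal c * eLpNorm (fun x => ∑ j, ‖al j x‖) 2 (gm mu Ps)
          + ENNReal.ofReal (1 + P + c) * eLpNorm (D n) 2 (gm mu Ps)) := by
      have hb := hw_T_bound Ps (fun j => b j) ch hch h0 h1 c hc0 hc1 P hP0 hP (U n) (sU n) al g
        (G n) (BB n) (eB n)
      refine (eLpNorm_mono_real hb).trans ?_
      have a1 : AEStronglyMeasurable (fun x => c * ∑ j, ‖al j x‖) (gm mu Ps) := mH.const_mul c
      have a2 : AEStronglyMeasurable (fun x => (1 + P + c) * D n x) (gm mu Ps) :=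
        (mD n).const_mul _
      refine (eLpNorm_add_le (f := fun x => ‖g x‖) (g := fun x => c * (∑ j, ‖al j x‖)
        + (1 + P + c) * D n x) hg.1.norm (a1.add a2) (by norm_num)).trans ?_
      rw [eLpNorm_norm]
      refine add_le_add le_rfl ?_
      refine (eLpNorm_add_le (f := fun x => c * ∑ j, ‖al j x‖)
        (g := fun x => (1 + P + c) * D n x) a1 a2 (by norm_num)).trans ?_
      rw [hw_eL_const _ c hc0, hw_eL_const _ _ hM0]
    have hS : ∀ j k, eLpNorm (fun x => dzb (b j) (fun y => (ch y : ℂ) * U n k y) x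
          - dzb (b k) (fun y => (ch y : ℂ) * U n j y) x) 2 (gm mu Ps)
        ≤ ENNReal.ofReal (2 * c) * eLpNorm (fun x => ∑ j, ‖al j x‖) 2 (gm mu Ps)
          + ENNReal.ofReal (2 * c) * eLpNorm (D n) 2 (gm mu Ps) := by
      intro j k
      have hb := fun x => hw_S_bound (fun j => b j) ch hch c hc0 hc2 (U n) (sU n) al
        (fun x => ‖G n x - g x‖ + ‖BB n x - Bf x‖) (fun x => by positivity) (eA n) x j k
      refine (eLpNorm_mono_real hb).trans ?_
      have a1 : AEStronglyMeasurable (fun x => (2 * c) * ∑ j, ‖al j x‖) (gm mu Ps) :=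
        mH.const_mul _
      have a2 : AEStronglyMeasurable (fun x => (2 * c) * D n x) (gm mu Ps) :=
        (mD n).const_mul _
      refine (eLpNorm_add_le (f := fun x => (2 * c) * ∑ j, ‖al j x‖)
        (g := fun x => (2 * c) * D n x) a1 a2 (by norm_num)).trans ?_
      rw [hw_eL_const _ _ (by positivity), hw_eL_const _ _ (by positivity)]
    refine add_le_add (pow_le_pow_left' hT 2) ?_
    exact Finset.sum_le_sum fun j _ => Finset.sum_le_sum fun k _ => pow_le_pow_left' (hS j k) 2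
  -- subsequence
  have hTM : TendstoInMeasure (gm mu Ps) D Filter.atTop (fun _ => (0 : ℝ)) := by
    refine tendstoInMeasure_of_tendsto_eLpNorm (p := 2) (by norm_num) mD
      aestronglyMeasurable_const ?_
    have : ∀ n, D n - (fun _ => (0 : ℝ)) = D n := by
      intro n; funext x; simp
    simp only [this]
    exact hDg
  obtain ⟨ns, hns, hae⟩ := hTM.exists_seq_tendsto_ae
  have hlim : ∀ᵐ x ∂(gm mu Ps), ENNReal.ofReal (Lform Ps x (∑ j, ((ch x : ℂ) * al j x) • b j))
      = Filter.liminf (fun i => ENNReal.ofReal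
        (Lform Ps x (∑ j, ((ch x : ℂ) * U (ns i) j x) • b j))) Filter.atTop := by
    filter_upwards [hae] with x hx
    refine (Filter.Tendsto.liminf_eq ?_).symm
    refine ENNReal.tendsto_ofReal ?_
    have hcont : Continuous (fun a : E => Lform Ps x a) :=
      hw_Lform_cont Ps hPs (fun _ => x) (fun a => a) continuous_const continuous_id
    refine (hcont.tendsto _).comp ?_
    refine tendsto_finsetSum _ fun j _ => ?_
    refine Filter.Tendsto.smul ?_ tendsto_const_nhds
    by_cases hxK : x ∈ K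
    · refine Filter.Tendsto.const_mul _ ?_
      rw [tendsto_iff_norm_sub_tendsto_zero]
      refine tendsto_of_tendsto_of_tendsto_of_le_of_le tendsto_const_nhds hx
        (fun i => norm_nonneg _) (fun i => ?_)
      change ‖U (ns i) j x - al j x‖ ≤ D (ns i) x
      change _ ≤ K.indicator _ x
      rw [Set.indicator_of_mem hxK]
      have := Finset.single_le_sum (f := fun j => ‖U (ns i) j x - al j x‖)
        (fun j _ => norm_nonneg _) (Finset.mem_univ j)
      have p1 : 0 ≤ ‖G (ns i) x - g x‖ := norm_nonneg _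
      have p2 : 0 ≤ ‖BB (ns i) x - Bf x‖ := norm_nonneg _
      linarith
    · have hz : ch x = 0 := image_eq_zero_of_notMem_tsupport hxK
      simp only [hz, Complex.ofReal_zero, zero_mul]
      exact tendsto_const_nhds
  rw [lintegral_congr_ae hlim]
  have hmeas : ∀ i, Measurable (fun x => ENNReal.ofReal
        (Lform Ps x (∑ j, ((ch x : ℂ) * U (ns i) j x) • b j))) := by
    intro i
    refine Measurable.ennreal_ofReal ?_
    refine Continuous.measurable ?_
    refine hw_Lform_cont Ps hPs (fun x => x) _ continuous_id ?_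
    exact continuous_finsetSum _ fun j _ =>
      (hchc.continuous.mul (sU (ns i) j).continuous).smul continuous_const
  refine (lintegral_liminf_le hmeas).trans ?_
  have hFt : Filter.Tendsto (fun i => (eLpNorm g 2 (gm mu Ps)
        + (ENNReal.ofReal c * eLpNorm (fun x => ∑ j, ‖al j x‖) 2 (gm mu Ps)
          + ENNReal.ofReal (1 + P + c) * eLpNorm (D (ns i)) 2 (gm mu Ps))) ^ 2
      + ∑ _j : ι, ∑ _k : ι, (ENNReal.ofReal (2 * c)
          * eLpNorm (fun x => ∑ j, ‖al j x‖) 2 (gm mu Ps)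
          + ENNReal.ofReal (2 * c) * eLpNorm (D (ns i)) 2 (gm mu Ps)) ^ 2) Filter.atTop
      (nhds ((eLpNorm g 2 (gm mu Ps)
        + (ENNReal.ofReal c * eLpNorm (fun x => ∑ j, ‖al j x‖) 2 (gm mu Ps)
          + ENNReal.ofReal (1 + P + c) * 0)) ^ 2
      + ∑ _j : ι, ∑ _k : ι, (ENNReal.ofReal (2 * c)
          * eLpNorm (fun x => ∑ j, ‖al j x‖) 2 (gm mu Ps)
          + ENNReal.ofReal (2 * c) * 0) ^ 2)) := by
    have hDn := hDg.comp hns.tendsto_atTop
    refine Filter.Tendsto.add ?_ ?_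
    · refine ENNReal.Tendsto.pow ?_
      refine tendsto_const_nhds.add (tendsto_const_nhds.add ?_)
      exact ENNReal.Tendsto.const_mul hDn (Or.inr ENNReal.ofReal_ne_top)
    · refine tendsto_finsetSum _ fun j _ => tendsto_finsetSum _ fun k _ => ?_
      refine ENNReal.Tendsto.pow ?_
      refine tendsto_const_nhds.add ?_
      exact ENNReal.Tendsto.const_mul hDn (Or.inr ENNReal.ofReal_ne_top)
  simp only [mul_zero, add_zero] at hFt
  rw [← hFt.liminf_eq]
  exact Filter.liminf_le_liminf (Filter.Eventually.of_forall fun i => hn (ns i))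

end HWfix


variable {E : Type*} [NormedAddCommGroup E] [NormedSpace ℂ E] [FiniteDimensional ℂ E]
  [MeasurableSpace E] [BorelSpace E]

/-- basic inequality for a weakly dbar-closed form al in L^2 with weak delta al = g in L^2 -/
theorem weak_basic (mu : Measure E) [mu.IsAddHaarMeasure] (Ps : E → ℝ) (hPs : ContDiff ℝ ∞ Ps)
    (hpsh : ∀ x a, 0 ≤ Lform Ps x a)
    {ι : Type*} [Fintype ι] (b : Module.Basis ι ℂ E) (al : ι → E → ℂ)
    (hal : ∀ j, MemLp (al j) 2 (gm mu Ps)) (g : E → ℂ) (hg : MemLp g 2 (gm mu Ps))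
    (hclosed : ∀ j k, ∀ ph : E → ℂ, SC ph →
      ∫ x, al k x * (starRingEnd ℂ) (del Ps (b j) ph x) ∂(gm mu Ps) =
      ∫ x, al j x * (starRingEnd ℂ) (del Ps (b k) ph x) ∂(gm mu Ps))
    (hdelta : ∀ ph : E → ℂ, SC ph →
      ∫ x, ∑ j, al j x * (starRingEnd ℂ) (dzb (b j) ph x) ∂(gm mu Ps) =
      ∫ x, g x * (starRingEnd ℂ) (ph x) ∂(gm mu Ps)) :
    ∫⁻ x, ENNReal.ofReal (Lform Ps x (∑ j, al j x • b j)) ∂(gm mu Ps) ≤
      ∫⁻ x, ENNReal.ofReal (‖g x‖ ^ 2) ∂(gm mu Ps) := by
  obtain ⟨C, hC0, hC⟩ := hw_cutoff (E := E)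
  set cb : ℝ := ∑ j, ‖b j‖ with hcb
  have hcb0 : 0 ≤ cb := Finset.sum_nonneg fun j _ => norm_nonneg _
  have hbj : ∀ j, ‖b j‖ ≤ cb := fun j =>
    Finset.single_le_sum (f := fun j => ‖b j‖) (fun j _ => norm_nonneg _) (Finset.mem_univ j)
  set H : E → ℝ := fun x => ∑ j, ‖al j x‖ with hH
  have hHtop : eLpNorm H 2 (gm mu Ps) ≠ ⊤ := by
    have : MemLp H 2 (gm mu Ps) := memLp_finsetSum _ fun j _ => (hal j).norm
    exact this.2.ne
  -- bound on balls
  have hball : ∀ n : ℕ, ∫⁻ x in Metric.closedBall (0 : E) ((n : ℝ) + 1),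
      ENNReal.ofReal (Lform Ps x (∑ j, al j x • b j)) ∂(gm mu Ps) ≤
      (eLpNorm g 2 (gm mu Ps)
        + ENNReal.ofReal (C / ((n : ℝ) + 1) * cb) * eLpNorm H 2 (gm mu Ps)) ^ 2
      + ∑ _j : ι, ∑ _k : ι, (ENNReal.ofReal (2 * (C / ((n : ℝ) + 1) * cb))
          * eLpNorm H 2 (gm mu Ps)) ^ 2 := by
    intro n
    have hR : (0 : ℝ) < (n : ℝ) + 1 := by positivity
    obtain ⟨ch, hch, hcs, h0, h1, hone, hder⟩ := hC ((n : ℝ) + 1) hR
    have hdiff : Differentiable ℝ ch := hch.differentiable (by simp)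
    have hCn : 0 ≤ C / ((n : ℝ) + 1) := by positivity
    have hdz : ∀ x j, ‖dz (b j) (fun y => (ch y : ℂ)) x‖ ≤ C / ((n : ℝ) + 1) * cb := by
      intro x j
      refine (hw_norm_dz _ _ x (b j) ((hw_norm_fderiv_cast ch x (hdiff x)).trans (hder x))).trans ?_
      exact mul_le_mul_of_nonneg_left (hbj j) hCn
    have hdzb : ∀ x j, ‖dzb (b j) (fun y => (ch y : ℂ)) x‖ ≤ C / ((n : ℝ) + 1) * cb := by
      intro x j
      refine (hw_norm_dzb _ _ x (b j) ((hw_norm_fderiv_cast ch x (hdiff x)).trans (hder x))).trans ?_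
      exact mul_le_mul_of_nonneg_left (hbj j) hCn
    have hf := hw_fixed mu Ps hPs hpsh b al hal g hg hclosed hdelta ch hch hcs h0 h1
      (C / ((n : ℝ) + 1) * cb) (by positivity) hdz hdzb
    refine le_trans ?_ hf
    calc ∫⁻ x in Metric.closedBall (0 : E) ((n : ℝ) + 1),
          ENNReal.ofReal (Lform Ps x (∑ j, al j x • b j)) ∂(gm mu Ps)
        = ∫⁻ x in Metric.closedBall (0 : E) ((n : ℝ) + 1),
          ENNReal.ofReal (Lform Ps x (∑ j, ((ch x : ℂ) * al j x) • b j)) ∂(gm mu Ps) := by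
          refine setLIntegral_congr_fun Metric.isClosed_closedBall.measurableSet ?_
          intro x hx
          have : ch x = 1 := hone x (by simpa using hx)
          simp only [this, Complex.ofReal_one, one_mul]
      _ ≤ _ := setLIntegral_le_lintegral _ _
  -- limit of the right side
  have hlim : Filter.Tendsto (fun n : ℕ => (eLpNorm g 2 (gm mu Ps)
        + ENNReal.ofReal (C / ((n : ℝ) + 1) * cb) * eLpNorm H 2 (gm mu Ps)) ^ 2
      + ∑ _j : ι, ∑ _k : ι, (ENNReal.ofReal (2 * (C / ((n : ℝ) + 1) * cb))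
          * eLpNorm H 2 (gm mu Ps)) ^ 2) Filter.atTop
      (nhds (eLpNorm g 2 (gm mu Ps) ^ 2)) := by
    have t0 : Filter.Tendsto (fun n : ℕ => C / ((n : ℝ) + 1) * cb) Filter.atTop (nhds 0) := by
      have := (tendsto_const_div_atTop_nhds_zero_nat C).comp (Filter.tendsto_add_atTop_nat 1)
      have h2 := this.mul_const cb
      rw [zero_mul] at h2
      refine h2.congr fun n => ?_
      simp only [Function.comp_apply, Nat.cast_add, Nat.cast_one]
    have t1 : Filter.Tendsto (fun n : ℕ => ENNReal.ofReal (C / ((n : ℝ) + 1) * cb)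
        * eLpNorm H 2 (gm mu Ps)) Filter.atTop (nhds (0 * eLpNorm H 2 (gm mu Ps))) := by
      refine ENNReal.Tendsto.mul_const ?_ (Or.inr hHtop)
      rw [← ENNReal.ofReal_zero]
      exact ENNReal.tendsto_ofReal t0
    have t2 : Filter.Tendsto (fun n : ℕ => ENNReal.ofReal (2 * (C / ((n : ℝ) + 1) * cb))
        * eLpNorm H 2 (gm mu Ps)) Filter.atTop (nhds (0 * eLpNorm H 2 (gm mu Ps))) := by
      refine ENNReal.Tendsto.mul_const ?_ (Or.inr hHtop)
      rw [← ENNReal.ofReal_zero]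
      refine ENNReal.tendsto_ofReal ?_
      have := t0.const_mul 2
      rwa [mul_zero] at this
    rw [zero_mul] at t1 t2
    have t3 : Filter.Tendsto (fun n : ℕ => (eLpNorm g 2 (gm mu Ps)
        + ENNReal.ofReal (C / ((n : ℝ) + 1) * cb) * eLpNorm H 2 (gm mu Ps)) ^ 2
      + ∑ _j : ι, ∑ _k : ι, (ENNReal.ofReal (2 * (C / ((n : ℝ) + 1) * cb))
          * eLpNorm H 2 (gm mu Ps)) ^ 2) Filter.atTop
      (nhds ((eLpNorm g 2 (gm mu Ps) + 0) ^ 2 + ∑ _j : ι, ∑ _k : ι, (0 : ℝ≥0∞) ^ 2)) :=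
      (ENNReal.Tendsto.pow (tendsto_const_nhds.add t1)).add
        (tendsto_finsetSum _ fun j _ => tendsto_finsetSum _ fun k _ => ENNReal.Tendsto.pow t2)
    simpa using t3
  rw [← hw_sq]
  -- monotone convergence on the left side
  have hunion : (⋃ n : ℕ, Metric.closedBall (0 : E) ((n : ℝ) + 1)) = Set.univ := by
    refine Set.eq_univ_of_forall fun x => Set.mem_iUnion.2 ?_
    obtain ⟨n, hn⟩ := exists_nat_ge ‖x‖
    refine ⟨n, ?_⟩
    rw [mem_closedBall_zero_iff]
    linarith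
  have hmono : Monotone (fun n : ℕ => Metric.closedBall (0 : E) ((n : ℝ) + 1)) := by
    intro m n hmn
    refine Metric.closedBall_subset_closedBall ?_
    have : (m : ℝ) ≤ n := by exact_mod_cast hmn
    linarith
  have hL : Filter.Tendsto (fun n : ℕ => ∫⁻ x in Metric.closedBall (0 : E) ((n : ℝ) + 1),
      ENNReal.ofReal (Lform Ps x (∑ j, al j x • b j)) ∂(gm mu Ps)) Filter.atTop
      (nhds (∫⁻ x, ENNReal.ofReal (Lform Ps x (∑ j, al j x • b j)) ∂(gm mu Ps))) := by
    rw [← setLIntegral_univ, ← hunion,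
      setLIntegral_iUnion_of_directed _ (hmono.directed_le)]
    refine tendsto_atTop_iSup ?_
    intro m n hmn
    exact lintegral_mono_set (hmono hmn)
  exact le_of_tendsto_of_tendsto' hL hlim hball

end GPn
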