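/- piece HD: the dual estimate -/
import Pool.Agent.Lib_MP_e0d435_ag.HDefs
import Pool.Agent.Lib_MP_e0d435_ag.HBochner
import Pool.Agent.Lib_MP_e0d435_ag.HWeak

open Finset MeasureTheory Complex
open scoped ENNReal ContDiff

namespace GPn

variable {E : Type*} [NormedAddCommGroup E] [NormedSpace ℂ E] [FiniteDimensional ℂ E]
  [MeasurableSpace E] [BorelSpace E]

namespace HD

section calc1
omit [FiniteDimensional ℂ E] [MeasurableSpace E] [BorelSpace E]

theorem contDiff_fderiv_apply {F : E → ℂ} (hF : ContDiff ℝ ∞ F) (v : E) :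
    ContDiff ℝ ∞ (fun x => fderiv ℝ F x v) :=
  (hF.fderiv_right (m := ∞) (by simp)).clm_apply contDiff_const

theorem contDiff_dz {F : E → ℂ} (hF : ContDiff ℝ ∞ F) (v : E) : ContDiff ℝ ∞ (dz v F) := by
  unfold dz
  exact ((contDiff_fderiv_apply hF v).sub
    (contDiff_const.mul (contDiff_fderiv_apply hF (I • v)))).div_const 2

theorem contDiff_dzb {F : E → ℂ} (hF : ContDiff ℝ ∞ F) (v : E) : ContDiff ℝ ∞ (dzb v F) := by
  unfold dzb
  exact ((contDiff_fderiv_apply hF v).add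
    (contDiff_const.mul (contDiff_fderiv_apply hF (I • v)))).div_const 2

theorem contDiff_del {Ps : E → ℝ} (hPs : ContDiff ℝ ∞ Ps) {F : E → ℂ} (hF : ContDiff ℝ ∞ F)
    (v : E) : ContDiff ℝ ∞ (del Ps v F) := by
  unfold del
  exact (contDiff_dz hF v).neg.add
    ((contDiff_dz (Complex.ofRealCLM.contDiff.comp hPs) v).mul hF)

theorem hcs_fderiv_apply {F : E → ℂ} (hF : HasCompactSupport F) (v : E) :
    HasCompactSupport (fun x => fderiv ℝ F x v) :=
  (hF.fderiv ℝ).comp_left (g := fun L : E →L[ℝ] ℂ => L v) (by simp)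

theorem SC_dz {F : E → ℂ} (hF : SC F) (v : E) : SC (dz v F) := by
  refine ⟨contDiff_dz hF.1 v, ?_⟩
  have h1 := hcs_fderiv_apply hF.2 v
  have h2 := hcs_fderiv_apply hF.2 (I • v)
  have h3 := h1.comp₂_left h2 (m := fun a b : ℂ => (a - I * b) / 2) (by simp)
  exact h3

theorem SC_dzb {F : E → ℂ} (hF : SC F) (v : E) : SC (dzb v F) := by
  refine ⟨contDiff_dzb hF.1 v, ?_⟩
  have h1 := hcs_fderiv_apply hF.2 v
  have h2 := hcs_fderiv_apply hF.2 (I • v)
  have h3 := h1.comp₂_left h2 (m := fun a b : ℂ => (a + I * b) / 2) (by simp)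
  exact h3

theorem SC_del {Ps : E → ℝ} (hPs : ContDiff ℝ ∞ Ps) {F : E → ℂ} (hF : SC F) (v : E) :
    SC (del Ps v F) := by
  refine ⟨contDiff_del hPs hF.1 v, ?_⟩
  have h1 := (SC_dz hF v).2
  have h2 : HasCompactSupport (fun x => dz v (fun y => (Ps y : ℂ)) x * F x) :=
    hF.2.mul_left
  have h3 := h1.comp₂_left h2 (m := fun a b : ℂ => - a + b) (by simp)
  exact h3

theorem SC_sum {ι : Type*} [Fintype ι] {F : ι → E → ℂ} (hF : ∀ j, SC (F j)) :
    SC (fun x => ∑ j, F j x) := by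
  classical
  refine ⟨ContDiff.sum fun j _ => (hF j).1, ?_⟩
  have : ∀ s : Finset ι, HasCompactSupport (fun x => ∑ j ∈ s, F j x) := by
    intro s
    induction s using Finset.induction_on with
    | empty =>
      simp only [Finset.sum_empty]
      exact HasCompactSupport.zero
    | insert a s ha ih =>
      have h3 := (hF a).2.comp₂_left ih (m := fun a b : ℂ => a + b) (by simp)
      simpa [Finset.sum_insert ha] using h3
  exact this _

/-- complex linearity of dz in the direction -/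
theorem dz_sum {ι : Type*} [Fintype ι] (b : ι → E) (c : ι → ℂ) (F : E → ℂ) (x : E) :
    dz (∑ j, c j • b j) F x = ∑ j, c j * dz (b j) F x := by
  have hadd : ∀ v w, dz (v + w) F x = dz v F x + dz w F x := by
    intro v w
    simp only [dz, map_add, smul_add]
    ring
  have hsm : ∀ (c : ℂ) v, dz (c • v) F x = c * dz v F x := by
    intro c v
    have h1 : c • v = c.re • v + c.im • (I • v) := by
      conv_lhs => rw [← Complex.re_add_im c]
      rw [add_smul, mul_smul]
      simp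
    have h2 : I • (c • v) = c.re • (I • v) - c.im • v := by
      rw [h1, smul_add, smul_comm I c.re, smul_comm I c.im, ← mul_smul I I, I_mul_I]
      simp [sub_eq_add_neg]
    simp only [dz]
    rw [h2, h1]
    simp only [map_add, map_sub, map_smul, real_smul]
    conv_rhs => rw [← Complex.re_add_im c]
    ring_nf
    simp only [I_sq]
    ring
  have h0 : dz 0 F x = 0 := by simp [dz]
  classical
  have : ∀ s : Finset ι, dz (∑ j ∈ s, c j • b j) F x = ∑ j ∈ s, c j * dz (b j) F x := by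
    intro s
    induction s using Finset.induction_on with
    | empty => simpa using h0
    | insert a s ha ih => rw [Finset.sum_insert ha, Finset.sum_insert ha, hadd, hsm, ih]
  exact this _

theorem fderiv_ofReal {f : E → ℝ} (hf : ContDiff ℝ ∞ f) (x v : E) :
    fderiv ℝ (fun y => (f y : ℂ)) x v = ((fderiv ℝ f x v : ℝ) : ℂ) := by
  have h1 : HasFDerivAt f (fderiv ℝ f x) x := ((hf.differentiable (by simp)) x).hasFDerivAt
  have h2 := Complex.ofRealCLM.hasFDerivAt.comp x h1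
  have h3 : fderiv ℝ (fun y => (f y : ℂ)) x = Complex.ofRealCLM.comp (fderiv ℝ f x) := h2.fderiv
  rw [h3]
  rfl

theorem dzb_ofReal {f : E → ℝ} (hf : ContDiff ℝ ∞ f) (v x : E) :
    dzb v (fun y => (f y : ℂ)) x = (starRingEnd ℂ) (dz v (fun y => (f y : ℂ)) x) := by
  simp only [dzb, dz, fderiv_ofReal hf, map_div₀, map_sub, map_mul, conj_I, conj_ofReal]
  have : (starRingEnd ℂ) 2 = 2 := Complex.conj_ofNat 2
  rw [this]
  ring

theorem norm_dz_ofReal_sq {f : E → ℝ} (hf : ContDiff ℝ ∞ f) (v x : E) :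
    ‖dz v (fun y => (f y : ℂ)) x‖ ^ 2 =
      ((fderiv ℝ f x v) ^ 2 + (fderiv ℝ f x (I • v)) ^ 2) / 4 := by
  rw [← Complex.normSq_eq_norm_sq]
  simp only [dz, fderiv_ofReal hf]
  have : (((fderiv ℝ f x v : ℝ) : ℂ) - I * ((fderiv ℝ f x (I • v) : ℝ) : ℂ)) / 2 =
      ((fderiv ℝ f x v / 2 : ℝ) : ℂ) + ((- fderiv ℝ f x (I • v) / 2 : ℝ) : ℂ) * I := by
    push_cast
    ring
  rw [this, Complex.normSq_add_mul_I]
  ring

/-- the operators dzb commute -/
theorem dzb_comm {F : E → ℂ} (hF : ContDiff ℝ ∞ F) (v w x : E) :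
    dzb v (dzb w F) x = dzb w (dzb v F) x := by
  have hd2 : Differentiable ℝ (fderiv ℝ F) :=
    (hF.fderiv_right (m := ∞) (by simp)).differentiable (by simp)
  have key : ∀ v w : E, fderiv ℝ (fun y => fderiv ℝ F y w) x v = fderiv ℝ (fderiv ℝ F) x v w := by
    intro v w
    have h1 : HasFDerivAt (fun y => fderiv ℝ F y w)
        ((ContinuousLinearMap.apply ℝ ℂ w).comp (fderiv ℝ (fderiv ℝ F) x)) x :=
      (ContinuousLinearMap.apply ℝ ℂ w).hasFDerivAt.comp x (hd2 x).hasFDerivAt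
    rw [h1.fderiv]
    rfl
  have hsym : ∀ v w : E, fderiv ℝ (fderiv ℝ F) x v w = fderiv ℝ (fderiv ℝ F) x w v := by
    intro v w
    have := (hF.contDiffAt (x := x)).isSymmSndFDerivAt
      (by rw [minSmoothness_of_isRCLikeNormedField]; exact WithTop.coe_le_coe.2 le_top)
    exact this v w
  have hda : ∀ w : E, DifferentiableAt ℝ (fun y => fderiv ℝ F y w) x := fun w =>
    (hd2 x).clm_apply (differentiableAt_const w)
  have expand : ∀ v w : E, fderiv ℝ (dzb w F) x v =
      (fderiv ℝ (fderiv ℝ F) x v w + I * fderiv ℝ (fderiv ℝ F) x v (I • w)) / 2 := by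
    intro v w
    have h1 : HasFDerivAt (fun y => fderiv ℝ F y w) (fderiv ℝ (fun y => fderiv ℝ F y w) x) x :=
      (hda w).hasFDerivAt
    have h2 : HasFDerivAt (fun y => fderiv ℝ F y (I • w))
        (fderiv ℝ (fun y => fderiv ℝ F y (I • w)) x) x := (hda (I • w)).hasFDerivAt
    have h3 := (h1.add (h2.const_mul I)).mul_const ((2 : ℂ)⁻¹)
    have h4 : dzb w F = fun y => (fderiv ℝ F y w + I * fderiv ℝ F y (I • w)) * (2 : ℂ)⁻¹ := by
      funext y
      simp [dzb, div_eq_mul_inv]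
    have h5 : HasFDerivAt (dzb w F) ((2 : ℂ)⁻¹ • (fderiv ℝ (fun y => fderiv ℝ F y w) x +
        I • fderiv ℝ (fun y => fderiv ℝ F y (I • w)) x)) x := by
      rw [h4]
      exact h3
    rw [h5.fderiv]
    simp only [ContinuousLinearMap.smul_apply, ContinuousLinearMap.add_apply, smul_eq_mul, key]
    ring
  rw [dzb, dzb, expand, expand, expand, expand, hsym w v, hsym w (I • v), hsym (I • w) v,
    hsym (I • w) (I • v)]
  ring

end calc1

section hilb

instance lf_gm (mu : Measure E) (Ps : E → ℝ) [IsFiniteMeasure (gm mu Ps)] :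
    IsFiniteMeasureOnCompacts (gm mu Ps) := inferInstance

omit [FiniteDimensional ℂ E] in
theorem SC_memLp (nu : Measure E) [IsFiniteMeasure nu] {F : E → ℂ} (hF : SC F) : MemLp F 2 nu :=
  hF.1.continuous.memLp_of_hasCompactSupport hF.2

variable {ι : Type*} [Fintype ι]

/-- the Hilbert space of (0,1)-forms -/
abbrev HH (nu : Measure E) (ι : Type*) [Fintype ι] := PiLp 2 (fun _ : ι => Lp ℂ 2 nu)

/-- element of the Hilbert space from a family of functions -/
noncomputable def mk (nu : Measure E) (u : ι → E → ℂ) (hu : ∀ j, MemLp (u j) 2 nu) :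
    HH nu ι := WithLp.toLp 2 (fun j => (hu j).toLp (u j))

omit [NormedAddCommGroup E] [FiniteDimensional ℂ E] [NormedSpace ℂ E] [BorelSpace E] in
theorem mk_apply (nu : Measure E) (u : ι → E → ℂ) (hu : ∀ j, MemLp (u j) 2 nu) (j : ι) :
    (mk nu u hu) j = (hu j).toLp (u j) := rfl

omit [FiniteDimensional ℂ E] [NormedSpace ℂ E] [BorelSpace E] in
theorem inner_toLp_left (nu : Measure E) {u : E → ℂ} (hu : MemLp u 2 nu) (g : Lp ℂ 2 nu) :
    inner ℂ (hu.toLp u) g = ∫ x, g x * (starRingEnd ℂ) (u x) ∂nu := by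
  rw [MeasureTheory.L2.inner_def]
  refine integral_congr_ae ?_
  filter_upwards [hu.coeFn_toLp] with x hx
  rw [hx, RCLike.inner_apply]

omit [FiniteDimensional ℂ E] [NormedSpace ℂ E] [BorelSpace E] in
theorem inner_mk_left (nu : Measure E) (u : ι → E → ℂ) (hu : ∀ j, MemLp (u j) 2 nu)
    (g : HH nu ι) :
    inner ℂ (mk nu u hu) g = ∑ j, ∫ x, g j x * (starRingEnd ℂ) (u j x) ∂nu := by
  rw [PiLp.inner_apply]
  refine Finset.sum_congr rfl fun j _ => ?_
  rw [mk_apply, inner_toLp_left]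

/-- the form with only one nonzero component -/
noncomputable def sg [DecidableEq ι] (nu : Measure E) (k : ι) (F : E → ℂ) (hF : MemLp F 2 nu) :
    HH nu ι :=
  mk nu (fun i => if i = k then F else 0) (fun i => by
    by_cases h : i = k
    · simpa [h] using hF
    · simp [h])

omit [FiniteDimensional ℂ E] [NormedSpace ℂ E] [BorelSpace E] in
theorem inner_sg [DecidableEq ι] (nu : Measure E) (k : ι) (F : E → ℂ) (hF : MemLp F 2 nu)
    (g : HH nu ι) :
    inner ℂ (sg nu k F hF) g = ∫ x, g k x * (starRingEnd ℂ) (F x) ∂nu := by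
  rw [sg, inner_mk_left, Finset.sum_eq_single k]
  · simp
  · intro j _ hj
    simp [hj]
  · intro h
    exact absurd (Finset.mem_univ k) h

/-- the closed subspace of weakly dbar closed forms -/
noncomputable def KK [DecidableEq ι] (Ps : E → ℝ) (hPs : ContDiff ℝ ∞ Ps) (b : ι → E)
    (nu : Measure E) [IsFiniteMeasure nu] : Submodule ℂ (HH nu ι) :=
  (Submodule.span ℂ {T : HH nu ι | ∃ j k, ∃ ph : E → ℂ, ∃ h : SC ph,
    T = sg nu k (del Ps (b j) ph) (SC_memLp nu (SC_del hPs h (b j))) -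
      sg nu j (del Ps (b k) ph) (SC_memLp nu (SC_del hPs h (b k)))})ᗮ

theorem mem_KK [DecidableEq ι] (Ps : E → ℝ) (hPs : ContDiff ℝ ∞ Ps) (b : ι → E)
    (nu : Measure E) [IsFiniteMeasure nu] (be : HH nu ι) :
    be ∈ KK Ps hPs b nu ↔ ∀ j k, ∀ ph : E → ℂ, SC ph →
      ∫ x, be k x * (starRingEnd ℂ) (del Ps (b j) ph x) ∂nu =
      ∫ x, be j x * (starRingEnd ℂ) (del Ps (b k) ph x) ∂nu := by
  rw [KK, Submodule.mem_orthogonal]
  constructor
  · intro H j k ph hph
    have := H _ (Submodule.subset_span ⟨j, k, ph, hph, rfl⟩)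
    rw [inner_sub_left, inner_sg, inner_sg] at this
    exact sub_eq_zero.1 this
  · intro H u hu
    induction hu using Submodule.span_induction with
    | mem x hx =>
      obtain ⟨j, k, ph, hph, rfl⟩ := hx
      rw [inner_sub_left, inner_sg, inner_sg]
      exact sub_eq_zero.2 (H j k ph hph)
    | zero => exact inner_zero_left _
    | add x y _ _ hx hy => rw [inner_add_left, hx, hy, add_zero]
    | smul a x _ hx => rw [inner_smul_left, hx, mul_zero]

theorem mk_dzb_mem (mu : Measure E) [mu.IsAddHaarMeasure] (Ps : E → ℝ) (hPs : ContDiff ℝ ∞ Ps)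
    [IsFiniteMeasure (gm mu Ps)] [DecidableEq ι] (b : ι → E) (u : E → ℂ) (hu : ContDiff ℝ ∞ u)
    (hL : ∀ j, MemLp (dzb (b j) u) 2 (gm mu Ps)) :
    mk (gm mu Ps) (fun j => dzb (b j) u) hL ∈ KK Ps hPs b (gm mu Ps) := by
  rw [mem_KK]
  intro j k ph hph
  have h1 : ∀ i : ι, ∀ F : E → ℂ,
      ∫ x, (mk (gm mu Ps) (fun j => dzb (b j) u) hL) i x * (starRingEnd ℂ) (F x) ∂(gm mu Ps) =
      ∫ x, dzb (b i) u x * (starRingEnd ℂ) (F x) ∂(gm mu Ps) := by
    intro i F
    refine integral_congr_ae ?_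
    filter_upwards [(hL i).coeFn_toLp] with x hx
    rw [mk_apply, hx]
  rw [h1, h1, ← ibp mu Ps hPs (b j) (dzb (b k) u) ph (contDiff_dzb hu _) hph,
    ← ibp mu Ps hPs (b k) (dzb (b j) u) ph (contDiff_dzb hu _) hph]
  refine integral_congr_ae (Filter.Eventually.of_forall fun x => ?_)
  simp only
  rw [dzb_comm hu]

end hilb

section meas

omit [NormedAddCommGroup E] [FiniteDimensional ℂ E] [NormedSpace ℂ E] [BorelSpace E] in
theorem lintegral_sq_le (nu : Measure E) (f : E → ℝ≥0∞) (hf : AEMeasurable f nu) :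
    (∫⁻ x, f x ∂nu) ^ 2 ≤ nu Set.univ * ∫⁻ x, f x ^ 2 ∂nu := by
  have h := ENNReal.lintegral_mul_le_Lp_mul_Lq nu (Real.HolderConjugate.two_two) hf
    (aemeasurable_const (b := (1 : ℝ≥0∞)))
  simp only [Pi.mul_apply, mul_one, ENNReal.one_rpow, lintegral_const, one_mul] at h
  have h2 := ENNReal.pow_le_pow_left h (n := 2)
  refine h2.trans (le_of_eq ?_)
  rw [mul_pow, ← ENNReal.rpow_natCast, ← ENNReal.rpow_natCast, ← ENNReal.rpow_mul,
    ← ENNReal.rpow_mul]
  norm_num
  rw [mul_comm]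

end meas

end HD

/-- key estimate: the functional alpha -> <dbar f, alpha> is bounded by delta alpha -/
theorem dual_estimate (mu : Measure E) [mu.IsAddHaarMeasure] (Ps : E → ℝ) (hPs : ContDiff ℝ ∞ Ps)
    (hpsh : ∀ x a, 0 ≤ Lform Ps x a) [IsFiniteMeasure (gm mu Ps)]
    (f : E → ℝ) (hf : ContDiff ℝ ∞ f) (hfd : ∃ C, ∀ x, ‖fderiv ℝ f x‖ ≤ C)
    (Q : ℝ) (hQ : 0 ≤ Q)
    (H : ∀ x a, (fderiv ℝ f x a) ^ 2 + (fderiv ℝ f x (I • a)) ^ 2 ≤ 4 * Q * Lform Ps x a)
    {ι : Type*} [Fintype ι] (b : Module.Basis ι ℂ E) (al : ι → E → ℂ) (hal : ∀ j, SC (al j)) :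
    ‖∫ x, ∑ j, dzb (b j) (fun y => (f y : ℂ)) x * (starRingEnd ℂ) (al j x) ∂(gm mu Ps)‖ ^ 2 ≤
      Q * (gm mu Ps).real Set.univ *
        ∫ x, ‖∑ j, del Ps (b j) (al j) x‖ ^ 2 ∂(gm mu Ps) := by
  classical
  set nu := gm mu Ps with hnu
  have hfC : ContDiff ℝ ∞ (fun y => (f y : ℂ)) := Complex.ofRealCLM.contDiff.comp hf
  -- dbar f is in L^2
  have hdf : ∀ j, MemLp (dzb (b j) (fun y => (f y : ℂ))) 2 nu := by
    intro j
    obtain ⟨C, hC⟩ := hfd
    refine MemLp.of_bound (HD.contDiff_dzb hfC (b j)).continuous.aestronglyMeasurable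
      ((C * ‖b j‖ + C * ‖I • b j‖) / 2) (Filter.Eventually.of_forall fun x => ?_)
    have h1 : ‖fderiv ℝ f x (b j)‖ ≤ C * ‖b j‖ :=
      ((fderiv ℝ f x).le_opNorm _).trans (mul_le_mul_of_nonneg_right (hC x) (norm_nonneg _))
    have h2 : ‖fderiv ℝ f x (I • b j)‖ ≤ C * ‖I • b j‖ :=
      ((fderiv ℝ f x).le_opNorm _).trans (mul_le_mul_of_nonneg_right (hC x) (norm_nonneg _))
    rw [dzb, norm_div, HD.fderiv_ofReal hf, HD.fderiv_ofReal hf]
    have h3 : ‖((fderiv ℝ f x (b j) : ℝ) : ℂ) + I * ((fderiv ℝ f x (I • b j) : ℝ) : ℂ)‖ ≤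
        ‖fderiv ℝ f x (b j)‖ + ‖fderiv ℝ f x (I • b j)‖ := by
      refine (norm_add_le _ _).trans (le_of_eq ?_)
      rw [norm_mul, norm_I, one_mul, Complex.norm_real, Complex.norm_real]
    have h4 : ‖(2 : ℂ)‖ = 2 := by simp
    rw [h4]
    linarith
  have halL : ∀ j, MemLp (al j) 2 nu := fun j => HD.SC_memLp nu (hal j)
  set A : HD.HH nu ι := HD.mk nu al halL with hA
  set F : HD.HH nu ι := HD.mk nu (fun j => dzb (b j) (fun y => (f y : ℂ))) hdf with hF
  have hFK : F ∈ HD.KK Ps hPs b nu := HD.mk_dzb_mem mu Ps hPs b _ hfC hdf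
  have hKcomplete : (HD.KK Ps hPs b nu).HasOrthogonalProjection := by
    unfold HD.KK
    infer_instance
  obtain ⟨y, hy, z, hz, hyz⟩ := (HD.KK Ps hPs b nu).exists_add_mem_mem_orthogonal A
  -- the divergence
  set g : E → ℂ := fun x => ∑ j, del Ps (b j) (al j) x with hg
  have hgSC : SC g := HD.SC_sum fun j => HD.SC_del hPs (hal j) (b j)
  have hgL : MemLp g 2 nu := HD.SC_memLp nu hgSC
  have hyL : ∀ j, MemLp (y j : E → ℂ) 2 nu := fun j => Lp.memLp (y j)
  have hint : ∀ u v : E → ℂ, MemLp u 2 nu → MemLp v 2 nu →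
      Integrable (fun x => u x * (starRingEnd ℂ) (v x)) nu := by
    intro u v hu hv
    have := L2.integrable_inner (𝕜 := ℂ) (hv.toLp v) (hu.toLp u)
    refine this.congr ?_
    filter_upwards [hu.coeFn_toLp, hv.coeFn_toLp] with x h1 h2
    rw [h1, h2, RCLike.inner_apply]
  have hdelta : ∀ ph : E → ℂ, SC ph →
      ∫ x, ∑ j, y j x * (starRingEnd ℂ) (dzb (b j) ph x) ∂nu =
      ∫ x, g x * (starRingEnd ℂ) (ph x) ∂nu := by
    intro ph hph
    have hpL : ∀ j, MemLp (dzb (b j) ph) 2 nu := fun j => HD.SC_memLp nu (HD.SC_dzb hph (b j))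
    have hPK := HD.mk_dzb_mem mu Ps hPs b ph hph.1 hpL
    have h1 : inner ℂ (HD.mk nu (fun j => dzb (b j) ph) hpL) y =
        inner ℂ (HD.mk nu (fun j => dzb (b j) ph) hpL) A := by
      rw [hyz, inner_add_right, Submodule.inner_right_of_mem_orthogonal hPK hz, add_zero]
    rw [HD.inner_mk_left, HD.inner_mk_left] at h1
    rw [integral_finsetSum _ fun j _ => hint _ _ (hyL j) (hpL j), h1]
    have h2 : ∀ j, ∫ x, A j x * (starRingEnd ℂ) (dzb (b j) ph x) ∂nu =
        ∫ x, del Ps (b j) (al j) x * (starRingEnd ℂ) (ph x) ∂nu := by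
      intro j
      have h3 := ibp mu Ps hPs (b j) ph (al j) hph.1 (hal j)
      have h4 := congrArg (starRingEnd ℂ) h3
      rw [← integral_conj, ← integral_conj] at h4
      simp only [map_mul, conj_conj] at h4
      calc ∫ x, A j x * (starRingEnd ℂ) (dzb (b j) ph x) ∂nu
          = ∫ x, (starRingEnd ℂ) (dzb (b j) ph x) * al j x ∂nu := by
            refine integral_congr_ae ?_
            filter_upwards [(halL j).coeFn_toLp] with x hx
            rw [hA, HD.mk_apply, hx, mul_comm]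
        _ = ∫ x, (starRingEnd ℂ) (ph x) * del Ps (b j) (al j) x ∂nu := h4
        _ = _ := by
            refine integral_congr_ae (Filter.Eventually.of_forall fun x => ?_)
            simp only
            rw [mul_comm]
    rw [Finset.sum_congr rfl fun j _ => h2 j, ← integral_finsetSum]
    · refine integral_congr_ae (Filter.Eventually.of_forall fun x => ?_)
      simp only [hg]
      rw [Finset.sum_mul]
    · intro j _
      exact hint _ _ (HD.SC_memLp nu (HD.SC_del hPs (hal j) (b j))) (HD.SC_memLp nu hph)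
  have hbasic := weak_basic mu Ps hPs hpsh b (fun j => (y j : E → ℂ)) hyL g hgL
    ((HD.mem_KK Ps hPs b nu y).1 hy) hdelta
  -- the pairing only sees y
  have hpair : ∫ x, ∑ j, dzb (b j) (fun y => (f y : ℂ)) x * (starRingEnd ℂ) (al j x) ∂nu =
      ∫ x, ∑ j, dzb (b j) (fun y => (f y : ℂ)) x * (starRingEnd ℂ) (y j x) ∂nu := by
    have h1 : inner ℂ A F = inner ℂ y F := by
      rw [hyz, inner_add_left, Submodule.inner_left_of_mem_orthogonal hFK hz, add_zero]
    rw [hA, HD.inner_mk_left, PiLp.inner_apply] at h1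
    rw [integral_finsetSum _ fun j _ => hint _ _ (hdf j) (halL j),
      integral_finsetSum _ fun j _ => hint _ _ (hdf j) (hyL j)]
    have h2 : ∀ j, ∫ x, F j x * (starRingEnd ℂ) (al j x) ∂nu =
        ∫ x, dzb (b j) (fun y => (f y : ℂ)) x * (starRingEnd ℂ) (al j x) ∂nu := by
      intro j
      refine integral_congr_ae ?_
      filter_upwards [(hdf j).coeFn_toLp] with x hx
      rw [hF, HD.mk_apply, hx]
    have h3 : ∀ j, inner ℂ (y j) (F j) =
        ∫ x, dzb (b j) (fun y => (f y : ℂ)) x * (starRingEnd ℂ) (y j x) ∂nu := by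
      intro j
      rw [MeasureTheory.L2.inner_def]
      refine integral_congr_ae ?_
      filter_upwards [(hdf j).coeFn_toLp] with x hx
      rw [RCLike.inner_apply, hF, HD.mk_apply, hx]
    rw [Finset.sum_congr rfl fun j _ => (h2 j).symm, h1]
    exact Finset.sum_congr rfl fun j _ => h3 j
  rw [hpair]
  set G : E → ℂ := fun x => ∑ j, dzb (b j) (fun y => (f y : ℂ)) x * (starRingEnd ℂ) (y j x) with hG
  have hGm : AEStronglyMeasurable G nu := by
    refine Finset.aestronglyMeasurable_fun_sum _ fun j _ => ?_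
    exact (hint _ _ (hdf j) (hyL j)).aestronglyMeasurable
  have hGb : ∀ x, ‖G x‖ ^ 2 ≤ Q * Lform Ps x (∑ j, y j x • b j) := by
    intro x
    have h1 : G x = (starRingEnd ℂ) (dz (∑ j, y j x • b j) (fun y => (f y : ℂ)) x) := by
      rw [HD.dz_sum, map_sum]
      refine Finset.sum_congr rfl fun j _ => ?_
      rw [map_mul, HD.dzb_ofReal hf, mul_comm]
    rw [h1, RCLike.norm_conj, HD.norm_dz_ofReal_sq hf]
    have := H x (∑ j, y j x • b j)
    linarith
  have hgi : Integrable (fun x => ‖g x‖ ^ 2) nu := hgL.integrable_norm_pow (by norm_num)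
  have hfin : ENNReal.ofReal (‖∫ x, G x ∂nu‖ ^ 2) ≤
      ENNReal.ofReal (Q * nu.real Set.univ * ∫ x, ‖g x‖ ^ 2 ∂nu) := by
    calc ENNReal.ofReal (‖∫ x, G x ∂nu‖ ^ 2) = ‖∫ x, G x ∂nu‖ₑ ^ 2 := by
          rw [ENNReal.ofReal_pow (norm_nonneg _), ofReal_norm]
      _ ≤ (∫⁻ x, ‖G x‖ₑ ∂nu) ^ 2 :=
          ENNReal.pow_le_pow_left (enorm_integral_le_lintegral_enorm _)
      _ ≤ nu Set.univ * ∫⁻ x, ‖G x‖ₑ ^ 2 ∂nu := HD.lintegral_sq_le nu _ hGm.enorm
      _ ≤ nu Set.univ * ∫⁻ x, ENNReal.ofReal Q *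
            ENNReal.ofReal (Lform Ps x (∑ j, y j x • b j)) ∂nu := by
          gcongr with x
          rw [← ENNReal.ofReal_mul hQ, ← ofReal_norm, ← ENNReal.ofReal_pow (norm_nonneg _)]
          exact ENNReal.ofReal_le_ofReal (hGb x)
      _ = nu Set.univ * (ENNReal.ofReal Q *
            ∫⁻ x, ENNReal.ofReal (Lform Ps x (∑ j, y j x • b j)) ∂nu) := by
          rw [lintegral_const_mul' _ _ ENNReal.ofReal_ne_top]
      _ ≤ nu Set.univ * (ENNReal.ofReal Q * ∫⁻ x, ENNReal.ofReal (‖g x‖ ^ 2) ∂nu) := by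
          gcongr
      _ = ENNReal.ofReal (Q * nu.real Set.univ * ∫ x, ‖g x‖ ^ 2 ∂nu) := by
          rw [← ofReal_integral_eq_lintegral_ofReal hgi
            (Filter.Eventually.of_forall fun x => by positivity),
            ENNReal.ofReal_mul (by positivity), ENNReal.ofReal_mul hQ, Measure.real,
            ENNReal.ofReal_toReal (measure_ne_top _ _)]
          ring
  exact (ENNReal.ofReal_le_ofReal_iff (by positivity)).1 hfin

end GPn
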