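/- piece HH: weakly holomorphic circle invariant functions are constant -/
import Mathlib

open Finset MeasureTheory Complex
open scoped ENNReal ContDiff

namespace GPn

variable {E : Type*} [NormedAddCommGroup E] [NormedSpace ℂ E] [FiniteDimensional ℂ E]
  [MeasurableSpace E] [BorelSpace E]

private noncomputable def rot (t : ℝ) : ℂ := Complex.exp (t * I)

private theorem norm_rot (t : ℝ) : ‖rot t‖ = 1 := Complex.norm_exp_ofReal_mul_I t

private theorem rot_ne (t : ℝ) : rot t ≠ 0 := Complex.exp_ne_zero _

/-- multiplication by a unit complex number preserves Haar measure -/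
private theorem circle_mp (mu : Measure E) [mu.IsAddHaarMeasure] (t : ℝ) :
    MeasurePreserving (fun x : E => rot t • x) mu mu := by
  have : ProperSpace E := FiniteDimensional.proper_rclike ℂ E
  let e : E ≃L[ℝ] E :=
    (ContinuousLinearEquiv.smulLeft (Units.mk0 (rot t) (rot_ne t)) : E ≃L[ℂ] E).restrictScalars ℝ
  have he : ∀ x, e x = rot t • x := fun x => rfl
  have hmeas : Measurable (fun x : E => rot t • x) := (continuous_const_smul (rot t)).measurable
  refine ⟨hmeas, ?_⟩
  have h1 : (mu.map e).IsAddHaarMeasure := e.isAddHaarMeasure_map mu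
  have h2 : mu.map (fun x : E => rot t • x) = mu.map e := rfl
  rw [h2]
  have h3 := Measure.isAddLeftInvariant_eq_smul (mu.map e) mu
  have h4 : (mu.map e) (Metric.closedBall 0 1) = mu (Metric.closedBall 0 1) := by
    rw [Measure.map_apply e.continuous.measurable Metric.isClosed_closedBall.measurableSet]
    congr 1
    ext x
    simp only [Set.mem_preimage, Metric.mem_closedBall, dist_zero_right, he, norm_smul, norm_rot,
      one_mul]
  rw [h3] at h4
  rw [h3]
  set c := (mu.map e).addHaarScalarFactor mu with hc
  have h5 : mu (Metric.closedBall 0 1) ≠ 0 :=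
    (Metric.measure_closedBall_pos mu 0 one_pos).ne'
  have h6 : mu (Metric.closedBall 0 1) ≠ ⊤ := (measure_closedBall_lt_top).ne
  have h7 : ((c : NNReal) : ℝ≥0∞) * mu (Metric.closedBall 0 1) = 1 * mu (Metric.closedBall 0 1) := by
    rw [one_mul]; exact h4
  have h8 : ((c : NNReal) : ℝ≥0∞) = 1 := (ENNReal.mul_left_inj h5 h6).1 h7
  have h9 : c = 1 := by exact_mod_cast h8
  rw [h9, one_smul]

/-- an entire function invariant under rotations is constant -/
private theorem entire_rot_const (G : ℂ → ℂ) (hG : Differentiable ℂ G)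
    (h : ∀ t z, G (rot t * z) = G z) (z : ℂ) : G z = G 0 := by
  have h1 : Real.circleAverage G 0 ‖z‖ = G 0 :=
    DiffContOnCl.circleAverage hG.diffContOnCl
  have h2 : ∀ w ∈ Metric.sphere (0 : ℂ) |‖z‖|, G w = G z := by
    intro w hw
    have hw' : ‖w‖ = ‖z‖ := by simpa using hw
    obtain ⟨a, ha⟩ : ∃ a : ℝ, z = ‖z‖ * Complex.exp (a * I) := ⟨z.arg, (Complex.norm_mul_exp_arg_mul_I z).symm⟩
    obtain ⟨b, hb⟩ : ∃ b : ℝ, w = ‖w‖ * Complex.exp (b * I) := ⟨w.arg, (Complex.norm_mul_exp_arg_mul_I w).symm⟩
    have h3 : w = rot (b - a) * z := by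
      rw [hb, hw']
      conv_rhs => rw [ha]
      rw [rot]
      push_cast
      rw [show Complex.exp ((b - a) * I) * (‖z‖ * Complex.exp (a * I)) =
        ‖z‖ * (Complex.exp ((b - a) * I) * Complex.exp (a * I)) by ring, ← Complex.exp_add]
      ring_nf
    rw [h3, h]
  rw [← h1, Real.circleAverage_congr_sphere (f₂ := fun _ => G z) h2, Real.circleAverage_const]

/-- the convolution-type function -/
private noncomputable def HF (mu : Measure E) (h : E → ℂ) (ph : E → ℂ) (x : E) : ℂ :=
  ∫ y, h y * ph (y - x) ∂mu

private theorem HF_deriv (mu : Measure E) [mu.IsAddHaarMeasure] (h : E → ℂ)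
    (hloc : LocallyIntegrable h mu)
    (hol : ∀ ph : E → ℂ, ContDiff ℝ ∞ ph → HasCompactSupport ph → ∀ v : E,
      ∫ x, h x * (fderiv ℝ ph x v + I * fderiv ℝ ph x (I • v)) ∂mu = 0)
    (ph : E → ℂ) (hs : ContDiff ℝ ∞ ph) (hc : HasCompactSupport ph) (x : E) :
    DifferentiableAt ℝ (HF mu h ph) x ∧
      ∀ v, fderiv ℝ (HF mu h ph) x (I • v) = I * fderiv ℝ (HF mu h ph) x v := by
  have : ProperSpace E := FiniteDimensional.proper_rclike ℂ E
  set g : E → ℂ := fun z => ph (-z) with hg
  have hgs : ContDiff ℝ ∞ g := hs.comp contDiff_neg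
  have hgc : HasCompactSupport g := hc.comp_homeomorph (Homeomorph.neg E)
  have hHF : HF mu h ph = MeasureTheory.convolution h g (ContinuousLinearMap.mul ℝ ℂ) mu := by
    funext x
    simp only [HF, MeasureTheory.convolution, ContinuousLinearMap.mul_apply', hg, neg_sub]
  have hd := hgc.hasFDerivAt_convolution_right (ContinuousLinearMap.mul ℝ ℂ) hloc
    (hgs.of_le (by simp)) x
  rw [← hHF] at hd
  refine ⟨hd.differentiableAt, ?_⟩
  have hfd := hd.fderiv
  have hcd : HasCompactSupport (fderiv ℝ g) := hgc.fderiv ℝ
  have hcont : Continuous (fderiv ℝ g) := hgs.continuous_fderiv (by simp)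
  have hex : ConvolutionExistsAt h (fderiv ℝ g) x
      ((ContinuousLinearMap.mul ℝ ℂ).precompR E) mu :=
    hcd.convolutionExists_right _ hloc hcont x
  have happ : ∀ v, fderiv ℝ (HF mu h ph) x v = ∫ t, h t * fderiv ℝ g (x - t) v ∂mu := by
    intro v
    rw [hfd, MeasureTheory.convolution, ContinuousLinearMap.integral_apply hex.integrable]
    rfl
  have hint : ∀ v, Integrable (fun t => h t * fderiv ℝ g (x - t) v) mu := by
    intro v
    have := hex.integrable.apply_continuousLinearMap v
    exact this
  intro v
  rw [happ, happ]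
  -- use hol with the function t ↦ g (x - t)
  have h1 := hol (fun t => g (x - t)) (hgs.comp (contDiff_const.sub contDiff_id))
    (hgc.comp_homeomorph (Homeomorph.subLeft x)) v
  have h2 : ∀ t w, fderiv ℝ (fun t => g (x - t)) t w = - fderiv ℝ g (x - t) w := by
    intro t w
    have h3 : HasFDerivAt (fun t => g (x - t)) ((fderiv ℝ g (x - t)).comp
        (-(ContinuousLinearMap.id ℝ E))) t := by
      have h4 : HasFDerivAt (fun t : E => x - t) (-(ContinuousLinearMap.id ℝ E)) t :=
        (hasFDerivAt_id t).const_sub x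
      exact ((hgs.differentiable (by simp)) (x - t)).hasFDerivAt.comp t h4
    rw [h3.fderiv]
    simp
  simp only [h2] at h1
  have h5 : ∫ t, h t * fderiv ℝ g (x - t) v ∂mu
      + I * ∫ t, h t * fderiv ℝ g (x - t) (I • v) ∂mu = 0 := by
    rw [← integral_const_mul, ← integral_add (hint v) ((hint (I • v)).const_mul I), ← neg_eq_zero,
      ← integral_neg]
    rw [← h1]
    congr 1
    funext t
    ring
  have h6 : ∫ t, h t * fderiv ℝ g (x - t) v ∂mu
      = - (I * ∫ t, h t * fderiv ℝ g (x - t) (I • v) ∂mu) := eq_neg_of_add_eq_zero_left h5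
  rw [h6]
  have : I * -(I * ∫ t, h t * fderiv ℝ g (x - t) (I • v) ∂mu)
      = -(I * I) * ∫ t, h t * fderiv ℝ g (x - t) (I • v) ∂mu := by ring
  rw [this, Complex.I_mul_I]
  simp

private theorem HF_const (mu : Measure E) [mu.IsAddHaarMeasure] (h : E → ℂ)
    (hloc : LocallyIntegrable h mu)
    (hol : ∀ ph : E → ℂ, ContDiff ℝ ∞ ph → HasCompactSupport ph → ∀ v : E,
      ∫ x, h x * (fderiv ℝ ph x v + I * fderiv ℝ ph x (I • v)) ∂mu = 0)
    (hinv : ∀ t : ℝ, ∀ᵐ x ∂mu, h (Complex.exp (t * I) • x) = h x)
    (ph : E → ℂ) (hs : ContDiff ℝ ∞ ph) (hc : HasCompactSupport ph)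
    (hr : ∀ (t : ℝ) x, ph (rot t • x) = ph x) (x : E) : HF mu h ph x = HF mu h ph 0 := by
  have hrot : ∀ (t : ℝ) (x : E), HF mu h ph (rot t • x) = HF mu h ph x := by
    intro t x
    have h1 := (circle_mp mu t).integral_comp
      (Homeomorph.smulOfNeZero (rot t) (rot_ne t) (α := E)).measurableEmbedding
      (fun y => h y * ph (y - rot t • x))
    rw [HF, ← h1, HF]
    refine integral_congr_ae ?_
    filter_upwards [hinv t] with y hy
    rw [← smul_sub, hr]
    congr 1
  set G : ℂ → ℂ := fun z => HF mu h ph (z • x) with hG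
  have hd : Differentiable ℂ G := by
    intro z
    obtain ⟨h1, h2⟩ := HF_deriv mu h hloc hol ph hs hc (z • x)
    rw [differentiableAt_complex_iff_differentiableAt_real]
    have h3 : HasFDerivAt (fun z : ℂ => z • x)
        ((ContinuousLinearMap.id ℝ ℂ).smulRight x) z :=
      ((ContinuousLinearMap.id ℝ ℂ).smulRight x).hasFDerivAt
    have h4 : HasFDerivAt G ((fderiv ℝ (HF mu h ph) (z • x)).comp
        ((ContinuousLinearMap.id ℝ ℂ).smulRight x)) z :=
      HasFDerivAt.comp (g := HF mu h ph) (f := fun z : ℂ => z • x) z h1.hasFDerivAt h3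
    refine ⟨h4.differentiableAt, ?_⟩
    rw [h4.fderiv]
    simp only [ContinuousLinearMap.comp_apply, ContinuousLinearMap.smulRight_apply,
      ContinuousLinearMap.id_apply, smul_eq_mul, one_smul]
    exact h2 x
  have h1 := entire_rot_const G hd (fun t z => by
    simp only [hG]
    rw [mul_smul, hrot]) 1
  simpa [hG] using h1

/-- circle invariant bumps -/
private theorem exists_bumps (mu : Measure E) [mu.IsAddHaarMeasure] :
    ∃ r : ℕ → E → ℝ, (∀ n, ContDiff ℝ ∞ (r n)) ∧ (∀ n, HasCompactSupport (r n)) ∧
      (∀ n x, 0 ≤ r n x) ∧ (∀ n, ∫ x, r n x ∂mu = 1) ∧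
      (∀ n (t : ℝ) x, r n (rot t • x) = r n x) ∧
      Filter.Tendsto (fun n => Function.support (r n)) Filter.atTop (nhds 0).smallSets := by
  have : ProperSpace E := FiniteDimensional.proper_rclike ℂ E
  let b := Module.finBasis ℂ E
  -- equivalence with euclidean space
  let e : E ≃L[ℂ] EuclideanSpace ℂ (Fin (Module.finrank ℂ E)) :=
    (b.equivFun.toContinuousLinearEquiv).trans
      (PiLp.continuousLinearEquiv 2 ℂ (fun _ : Fin (Module.finrank ℂ E) => ℂ)).symm
  set q : E → ℝ := fun x => ‖e x‖ ^ 2 with hq
  have hqs : ContDiff ℝ ∞ q := by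
    have h1 : ContDiff ℝ ∞ (fun x : E => e x) := (e.contDiff (n := ∞)).restrict_scalars ℝ
    exact h1.norm_sq ℝ
  have hq0 : ∀ x, 0 ≤ q x := fun x => by positivity
  have hqr : ∀ (t : ℝ) x, q (rot t • x) = q x := by
    intro t x
    simp only [hq, map_smul, norm_smul, norm_rot, one_mul]
  -- comparison of norms
  obtain ⟨C, hC0, hC⟩ : ∃ C : ℝ, 0 < C ∧ ∀ x : E, ‖x‖ ≤ C * ‖e x‖ := by
    refine ⟨‖(e.symm : EuclideanSpace ℂ (Fin (Module.finrank ℂ E)) →L[ℂ] E)‖ + 1, by positivity,
      fun x => ?_⟩
    have h1 := (e.symm : EuclideanSpace ℂ (Fin (Module.finrank ℂ E)) →L[ℂ] E).le_opNorm (e x)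
    have h2 : (e.symm : EuclideanSpace ℂ (Fin (Module.finrank ℂ E)) →L[ℂ] E) (e x) = x :=
      e.symm_apply_apply x
    rw [h2] at h1
    nlinarith [norm_nonneg (e x)]
  set s : ℕ → E → ℝ := fun n x => Real.smoothTransition (1 - ((n : ℝ) + 1) * q x) with hsdef
  have hss : ∀ n, ContDiff ℝ ∞ (s n) := fun n =>
    Real.smoothTransition.contDiff.comp (contDiff_const.sub (contDiff_const.mul hqs))
  have hsn : ∀ n x, 0 ≤ s n x := fun n x => Real.smoothTransition.nonneg _
  have hsupp : ∀ n, Function.support (s n) ⊆
      Metric.closedBall 0 (C * Real.sqrt (1 / ((n : ℝ) + 1))) := by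
    intro n x hx
    have h1 : ¬ (1 - ((n : ℝ) + 1) * q x ≤ 0) := by
      intro h2
      exact hx (Real.smoothTransition.zero_of_nonpos h2)
    push Not at h1
    have h3 : q x ≤ 1 / ((n : ℝ) + 1) := by
      rw [le_div_iff₀ (by positivity)]
      nlinarith
    have h4 : ‖e x‖ ≤ Real.sqrt (1 / ((n : ℝ) + 1)) := Real.le_sqrt_of_sq_le h3
    rw [mem_closedBall_zero_iff]
    exact (hC x).trans (mul_le_mul_of_nonneg_left h4 hC0.le)
  have hsc : ∀ n, HasCompactSupport (s n) := fun n =>
    HasCompactSupport.of_support_subset_isCompact (isCompact_closedBall _ _) (hsupp n)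
  have hint : ∀ n, Integrable (s n) mu := fun n =>
    (hss n).continuous.integrable_of_hasCompactSupport (hsc n)
  have hpos : ∀ n, 0 < ∫ x, s n x ∂mu := by
    intro n
    refine (hss n).continuous.integral_pos_of_hasCompactSupport_nonneg_nonzero (hsc n) (hsn n)
      (x := 0) ?_
    simp [hsdef, hq]
  refine ⟨fun n x => (∫ x, s n x ∂mu)⁻¹ * s n x, fun n => contDiff_const.mul (hss n),
    fun n => (hsc n).mul_left, fun n x => mul_nonneg (inv_nonneg.2 (hpos n).le) (hsn n x),
    fun n => ?_, fun n t x => ?_, ?_⟩
  · rw [integral_const_mul, inv_mul_cancel₀ (hpos n).ne']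
  · simp only [hsdef, hqr]
  · rw [Filter.tendsto_smallSets_iff]
    intro U hU
    obtain ⟨d, hd, hdU⟩ := Metric.nhds_basis_closedBall.mem_iff.1 hU
    have h1 : Filter.Tendsto (fun n : ℕ => C * Real.sqrt (1 / ((n : ℝ) + 1))) Filter.atTop
        (nhds (C * Real.sqrt 0)) :=
      (tendsto_one_div_add_atTop_nhds_zero_nat.sqrt).const_mul C
    rw [Real.sqrt_zero, mul_zero] at h1
    filter_upwards [h1.eventually (ge_mem_nhds hd)] with n hn
    intro x hx
    have hx' : x ∈ Function.support (s n) := by
      intro h2
      apply hx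
      simp only [h2, mul_zero]
    exact hdU (Metric.closedBall_subset_closedBall hn (hsupp n hx'))

theorem weak_hol_const (mu : Measure E) [mu.IsAddHaarMeasure] (h : E → ℂ)
    (hloc : LocallyIntegrable h mu)
    (hol : ∀ ph : E → ℂ, ContDiff ℝ ∞ ph → HasCompactSupport ph → ∀ v : E,
      ∫ x, h x * (fderiv ℝ ph x v + I * fderiv ℝ ph x (I • v)) ∂mu = 0)
    (hinv : ∀ t : ℝ, ∀ᵐ x ∂mu, h (Complex.exp (t * I) • x) = h x) :
    ∃ c : ℂ, ∀ᵐ x ∂mu, h x = c := by
  have : ProperSpace E := FiniteDimensional.proper_rclike ℂ E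
  obtain ⟨r, hrs, hrc, hr0, hr1, hrr, hrt⟩ := exists_bumps mu
  -- the key: int h ps = 0 for real test functions with integral zero
  have key : ∀ ps : E → ℝ, ContDiff ℝ ∞ ps → HasCompactSupport ps → ∫ x, ps x ∂mu = 0 →
      ∫ x, ps x • h x ∂mu = 0 := by
    intro ps hps hpc hp0
    set A := tsupport ps with hA
    have hAc : IsCompact A := hpc
    set K := Metric.cthickening 1 A with hK
    have hKc : IsCompact K := hAc.cthickening
    obtain ⟨M, hM⟩ : ∃ M, ∀ x, ‖ps x‖ ≤ M := hps.continuous.bounded_above_of_compact_support hpc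
    have hM0 : 0 ≤ M := (norm_nonneg _).trans (hM 0)
    -- pointwise convergence
    have hconv : ∀ y, Filter.Tendsto (fun n => ∫ t, r n t * ps (y - t) ∂mu) Filter.atTop
        (nhds (ps y)) := by
      intro y
      have h1 := convolution_tendsto_right (μ := mu) (φ := r) (g := fun _ => ps) (k := fun _ => y)
        (x₀ := y) (z₀ := ps y) (l := Filter.atTop)
        (Filter.Eventually.of_forall hr0) (Filter.Eventually.of_forall hr1) hrt
        (Filter.Eventually.of_forall fun _ => hps.continuous.aestronglyMeasurable)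
        ((hps.continuous.tendsto y).comp Filter.tendsto_snd) tendsto_const_nhds
      simpa [MeasureTheory.convolution, smul_eq_mul] using h1
    -- vanishing of the approximations
    have hzero : ∀ n, ∫ y, (∫ t, r n t * ps (y - t) ∂mu) • h y ∂mu = 0 := by
      intro n
      have hc := HF_const mu h hloc hol hinv (fun x => (r n x : ℂ))
        (Complex.ofRealCLM.contDiff.comp (hrs n)) ((hrc n).comp_left (g := fun x : ℝ => (x : ℂ)) (by simp))
        (fun t x => by simp only [hrr])
      have h1 : ∫ x, (ps x : ℂ) * HF mu h (fun x => (r n x : ℂ)) x ∂mu = 0 := by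
        have h2 : (fun x => (ps x : ℂ) * HF mu h (fun x => (r n x : ℂ)) x) =
            fun x => (ps x : ℂ) * HF mu h (fun x => (r n x : ℂ)) 0 := by
          funext x; rw [hc x]
        rw [h2, integral_mul_const, integral_complex_ofReal, hp0]
        simp
      set B := tsupport (r n) with hB
      have hBc : IsCompact B := hrc n
      obtain ⟨M', hM'⟩ : ∃ M, ∀ x, ‖r n x‖ ≤ M :=
        (hrs n).continuous.bounded_above_of_compact_support (hrc n)
      have hM'0 : 0 ≤ M' := (norm_nonneg _).trans (hM' 0)
      set AB : Set E := (fun p : E × E => p.1 + p.2) '' (A ×ˢ B) with hAB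
      have hABc : IsCompact AB := (hAc.prod hBc).image (continuous_fst.add continuous_snd)
      have hhi : Integrable (AB.indicator fun y => ‖h y‖) mu := by
        rw [integrable_indicator_iff hABc.measurableSet]
        exact (hloc.integrableOn_isCompact hABc).norm
      have hAi : Integrable (A.indicator fun _ => M * M') mu := by
        rw [integrable_indicator_iff hAc.measurableSet]
        exact integrableOn_const hAc.measure_lt_top.ne
      have hFi : Integrable (Function.uncurry fun x y : E =>
          (ps x : ℂ) * (h y * (r n (y - x) : ℂ))) (mu.prod mu) := by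
        refine (hAi.mul_prod hhi).mono' ?_ (Filter.Eventually.of_forall ?_)
        · refine AEStronglyMeasurable.mul ?_ (AEStronglyMeasurable.mul ?_ ?_)
          · exact (Complex.continuous_ofReal.comp
              (hps.continuous.comp continuous_fst)).aestronglyMeasurable
          · exact hloc.aestronglyMeasurable.comp_snd
          · exact (Complex.continuous_ofReal.comp
              ((hrs n).continuous.comp (continuous_snd.sub continuous_fst))).aestronglyMeasurable
        · rintro ⟨x, y⟩
          simp only [Function.uncurry_apply_pair, norm_mul, Complex.norm_real]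
          by_cases hx : x ∈ A
          · by_cases hy : y - x ∈ B
            · have hyAB : y ∈ AB := ⟨(x, y - x), ⟨hx, hy⟩, by simp⟩
              rw [Set.indicator_of_mem hx, Set.indicator_of_mem hyAB]
              have h3 := hM x
              have h4 := hM' (y - x)
              calc ‖ps x‖ * (‖h y‖ * ‖r n (y - x)‖) ≤ M * (‖h y‖ * M') := by gcongr
                _ = M * M' * ‖h y‖ := by ring
            · have : r n (y - x) = 0 := image_eq_zero_of_notMem_tsupport hy
              rw [this]
              simp only [norm_zero, mul_zero]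
              refine mul_nonneg (Set.indicator_nonneg (fun _ _ => by positivity) _)
                (Set.indicator_nonneg (fun _ _ => norm_nonneg _) _)
          · have : ps x = 0 := image_eq_zero_of_notMem_tsupport hx
            rw [this]
            simp only [norm_zero, zero_mul]
            refine mul_nonneg (Set.indicator_nonneg (fun _ _ => by positivity) _)
              (Set.indicator_nonneg (fun _ _ => norm_nonneg _) _)
      have hswap := integral_integral_swap hFi
      have h5 : ∫ x, ∫ y, (ps x : ℂ) * (h y * (r n (y - x) : ℂ)) ∂mu ∂mu = 0 := by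
        rw [← h1]
        refine integral_congr_ae (Filter.Eventually.of_forall fun x => ?_)
        simp only [HF]
        rw [← integral_const_mul]
      rw [h5] at hswap
      rw [hswap]
      refine integral_congr_ae (Filter.Eventually.of_forall fun y => ?_)
      change (∫ t, r n t * ps (y - t) ∂mu) • h y = ∫ x, (ps x : ℂ) * (h y * (r n (y - x) : ℂ)) ∂mu
      have h6 : ∫ t, r n t * ps (y - t) ∂mu = ∫ x, r n (y - x) * ps x ∂mu := by
        have h7 := integral_sub_left_eq_self (fun x => r n x * ps (y - x)) mu y
        rw [← h7]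
        refine integral_congr_ae (Filter.Eventually.of_forall fun x => ?_)
        simp
      rw [h6]
      have h8 : (fun x => (ps x : ℂ) * (h y * (r n (y - x) : ℂ))) =
          fun x => ((r n (y - x) * ps x : ℝ) : ℂ) * h y := by
        funext x; push_cast; ring
      rw [h8, integral_mul_const, integral_complex_ofReal, Complex.real_smul]
    -- dominated convergence
    have hlim : Filter.Tendsto (fun n => ∫ y, (∫ t, r n t * ps (y - t) ∂mu) • h y ∂mu)
        Filter.atTop (nhds (∫ y, ps y • h y ∂mu)) := by
      have hev : ∀ᶠ n in Filter.atTop, Function.support (r n) ⊆ Metric.closedBall 0 1 :=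
        (Filter.tendsto_smallSets_iff.1 hrt) _ (Metric.closedBall_mem_nhds 0 one_pos)
      refine tendsto_integral_filter_of_dominated_convergence
        (K.indicator fun y => M * ‖h y‖) ?_ ?_ ?_ ?_
      · refine Filter.Eventually.of_forall fun n => ?_
        have h9 : Continuous fun y => ∫ t, r n t * ps (y - t) ∂mu := by
          have h10 := (hrc n).continuous_convolution_left (ContinuousLinearMap.mul ℝ ℝ)
            (hrs n).continuous (hps.continuous.locallyIntegrable (μ := mu))
          exact h10
        exact h9.aestronglyMeasurable.smul hloc.aestronglyMeasurable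
      · filter_upwards [hev] with n hn
        refine Filter.Eventually.of_forall fun y => ?_
        have hb : ‖∫ t, r n t * ps (y - t) ∂mu‖ ≤ M := by
          have h11 : ‖∫ t, r n t * ps (y - t) ∂mu‖ ≤ ∫ t, r n t * M ∂mu := by
            refine norm_integral_le_of_norm_le ?_ (Filter.Eventually.of_forall fun t => ?_)
            · exact ((hrs n).continuous.integrable_of_hasCompactSupport (hrc n)).mul_const M
            · rw [norm_mul, Real.norm_of_nonneg (hr0 n t)]
              exact mul_le_mul_of_nonneg_left (hM _) (hr0 n t)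
          rw [integral_mul_const, hr1, one_mul] at h11
          exact h11
        by_cases hy : y ∈ K
        · rw [Set.indicator_of_mem hy, norm_smul]
          exact mul_le_mul_of_nonneg_right hb (norm_nonneg _)
        · have h12 : ∀ t, r n t * ps (y - t) = 0 := by
            intro t
            by_cases ht : r n t = 0
            · rw [ht, zero_mul]
            · have ht' : ‖t‖ ≤ 1 := by simpa using hn ht
              have : y - t ∉ A := by
                intro h13
                apply hy
                refine Metric.mem_cthickening_of_dist_le y (y - t) 1 A h13 ?_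
                simpa [dist_eq_norm] using ht'
              rw [image_eq_zero_of_notMem_tsupport this, mul_zero]
          simp only [h12, integral_zero, zero_smul, norm_zero]
          exact Set.indicator_nonneg (fun _ _ => by positivity) _
      · rw [integrable_indicator_iff hKc.measurableSet]
        exact (hloc.integrableOn_isCompact hKc).norm.const_mul M
      · refine Filter.Eventually.of_forall fun y => ?_
        exact (hconv y).smul_const (h y)
    have hlim0 : Filter.Tendsto (fun n : ℕ => ∫ y, (∫ t, r n t * ps (y - t) ∂mu) • h y ∂mu)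
        Filter.atTop (nhds 0) := by
      simp only [hzero]; exact tendsto_const_nhds
    exact tendsto_nhds_unique hlim hlim0
  -- conclusion
  set c : ℂ := ∫ x, r 0 x • h x ∂mu with hc
  have hint : ∀ ps : E → ℝ, ContDiff ℝ ∞ ps → HasCompactSupport ps →
      Integrable (fun x => ps x • h x) mu := fun ps h1 h2 =>
    hloc.integrable_smul_left_of_hasCompactSupport h1.continuous h2
  refine ⟨c, ?_⟩
  have hfin : ∀ᵐ x ∂mu, h x - c = 0 := by
    refine ae_eq_zero_of_integral_contDiff_smul_eq_zero
      (hloc.sub (locallyIntegrable_const c)) fun ps hps hpc => ?_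
    have hpi : Integrable ps mu := hps.continuous.integrable_of_hasCompactSupport hpc
    have hri : Integrable (r 0) mu := (hrs 0).continuous.integrable_of_hasCompactSupport (hrc 0)
    have h1 := key (fun x => ps x - (∫ y, ps y ∂mu) * r 0 x)
      (hps.sub (contDiff_const.mul (hrs 0))) (hpc.sub (hrc 0).mul_left)
      (by rw [integral_sub hpi (hri.const_mul _), integral_const_mul, hr1]; ring)
    have hi2 : Integrable (fun x => (∫ y, ps y ∂mu) • (r 0 x • h x)) mu :=
      (hint (r 0) (hrs 0) (hrc 0)).smul (∫ y, ps y ∂mu)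
    have h2 : ∫ x, (ps x - (∫ y, ps y ∂mu) * r 0 x) • h x ∂mu
        = ∫ x, ps x • h x ∂mu - (∫ y, ps y ∂mu) • c := by
      rw [hc, ← integral_smul, ← integral_sub (hint ps hps hpc) hi2]
      refine integral_congr_ae (Filter.Eventually.of_forall fun x => ?_)
      simp only [sub_smul, mul_smul]
    rw [h2] at h1
    have h3 : ∫ x, ps x • (h x - c) ∂mu = ∫ x, ps x • h x ∂mu - (∫ y, ps y ∂mu) • c := by
      rw [← integral_smul_const, ← integral_sub (hint ps hps hpc) (hpi.smul_const c)]
      refine integral_congr_ae (Filter.Eventually.of_forall fun x => ?_)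
      simp only [smul_sub]
    exact h3.trans h1
  filter_upwards [hfin] with x hx
  exact sub_eq_zero.1 hx

end GPn
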