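/- piece HP: the Poincare inequality -/
import Pool.Agent.Lib_MP_e0d435_ag.HDefs
import Pool.Agent.Lib_MP_e0d435_ag.HHilb
import Pool.Agent.Lib_MP_e0d435_ag.HHol

open Finset MeasureTheory Complex
open scoped ENNReal ContDiff

namespace GPn

private theorem HPoincare_integral_gm {E : Type*} [NormedAddCommGroup E] [NormedSpace ℂ E]
    [MeasurableSpace E] [BorelSpace E] (mu : Measure E) (Ps : E → ℝ) (hPs : Continuous Ps)
    {F : Type*} [NormedAddCommGroup F] [NormedSpace ℝ F] (g : E → F) :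
    ∫ x, g x ∂(gm mu Ps) = ∫ x, Real.exp (-Ps x) • g x ∂mu := by
  rw [gm, integral_withDensity_eq_integral_toReal_smul]
  · refine integral_congr_ae (Filter.Eventually.of_forall fun x => ?_)
    simp only [ENNReal.toReal_ofReal (Real.exp_pos _).le]
  · fun_prop
  · exact Filter.Eventually.of_forall fun x => ENNReal.ofReal_lt_top

private theorem HPoincare_integrable_gm {E : Type*} [NormedAddCommGroup E] [NormedSpace ℂ E]
    [MeasurableSpace E] [BorelSpace E] (mu : Measure E) (Ps : E → ℝ) (hPs : Continuous Ps)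
    {F : Type*} [NormedAddCommGroup F] [NormedSpace ℝ F] (g : E → F) :
    Integrable g (gm mu Ps) ↔ Integrable (fun x => Real.exp (-Ps x) • g x) mu := by
  rw [gm, integrable_withDensity_iff_integrable_smul']
  · simp only [ENNReal.toReal_ofReal (Real.exp_pos _).le]
  · fun_prop
  · exact Filter.Eventually.of_forall fun x => ENNReal.ofReal_lt_top

/-- the formal adjoint applied to conj(ph) exp(Ps) -/
private theorem HPoincare_del {E : Type*} [NormedAddCommGroup E] [NormedSpace ℂ E]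
    (Ps : E → ℝ) (hPs : ContDiff ℝ ∞ Ps) (ph : E → ℂ) (hph : ContDiff ℝ ∞ ph) (v x : E) :
    (starRingEnd ℂ) (del Ps v (fun y => (starRingEnd ℂ) (ph y) * (Real.exp (Ps y) : ℂ)) x) =
      -((Real.exp (Ps x) : ℂ) * ((fderiv ℝ ph x v + I * fderiv ℝ ph x (I • v)) / 2)) := by
  have dPs : DifferentiableAt ℝ Ps x := (hPs.differentiable (by simp)) x
  have dph : DifferentiableAt ℝ ph x := (hph.differentiable (by simp)) x
  have h1 : ∀ a, fderiv ℝ (fun y => (Ps y : ℂ)) x a = (fderiv ℝ Ps x a : ℂ) := by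
    intro a
    have := (ofRealCLM.hasFDerivAt (x := Ps x)).comp x dPs.hasFDerivAt
    have e : (fun y => (Ps y : ℂ)) = ofRealCLM ∘ Ps := rfl
    rw [e, this.fderiv]
    rfl
  have h2 : ∀ a, fderiv ℝ (fun y => (Real.exp (Ps y) : ℂ)) x a =
      (Real.exp (Ps x) : ℂ) * (fderiv ℝ Ps x a : ℂ) := by
    intro a
    have := (ofRealCLM.hasFDerivAt (x := Real.exp (Ps x))).comp x dPs.hasFDerivAt.exp
    have e : (fun y => (Real.exp (Ps y) : ℂ)) = ofRealCLM ∘ (fun y => Real.exp (Ps y)) := rfl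
    rw [e, this.fderiv]
    simp
  have h3 : ∀ a, fderiv ℝ (fun y => (starRingEnd ℂ) (ph y)) x a =
      (starRingEnd ℂ) (fderiv ℝ ph x a) := by
    intro a
    have := (conjCLE.toContinuousLinearMap.hasFDerivAt (x := ph x)).comp x dph.hasFDerivAt
    have e : (fun y => (starRingEnd ℂ) (ph y)) = conjCLE.toContinuousLinearMap ∘ ph := by
      funext y; simp
    rw [e, this.fderiv]
    simp
  have d1 : DifferentiableAt ℝ (fun y => (starRingEnd ℂ) (ph y)) x := by
    have := (conjCLE.toContinuousLinearMap.hasFDerivAt (x := ph x)).comp x dph.hasFDerivAt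
    have e : (fun y => (starRingEnd ℂ) (ph y)) = conjCLE.toContinuousLinearMap ∘ ph := by
      funext y; simp
    rw [e]
    exact this.differentiableAt
  have d2 : DifferentiableAt ℝ (fun y => (Real.exp (Ps y) : ℂ)) x := by
    have := (ofRealCLM.hasFDerivAt (x := Real.exp (Ps x))).comp x dPs.hasFDerivAt.exp
    exact this.differentiableAt
  have h4 : ∀ a, fderiv ℝ (fun y => (starRingEnd ℂ) (ph y) * (Real.exp (Ps y) : ℂ)) x a =
      (starRingEnd ℂ) (ph x) * ((Real.exp (Ps x) : ℂ) * (fderiv ℝ Ps x a : ℂ)) +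
        (Real.exp (Ps x) : ℂ) * (starRingEnd ℂ) (fderiv ℝ ph x a) := by
    intro a
    rw [fderiv_fun_mul d1 d2]
    simp only [add_apply, smul_apply, smul_eq_mul, h2, h3]
  simp only [del, dz, h1, h4]
  simp only [map_add, map_sub, map_neg, map_mul, map_div₀, conj_conj, conj_ofReal, conj_I,
    map_ofNat]
  ring

private theorem HPoincare_SC {E : Type*} [NormedAddCommGroup E] [NormedSpace ℂ E]
    (Ps : E → ℝ) (hPs : ContDiff ℝ ∞ Ps) (ph : E → ℂ) (hph : ContDiff ℝ ∞ ph)
    (hc : HasCompactSupport ph) :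
    SC (fun y => (starRingEnd ℂ) (ph y) * (Real.exp (Ps y) : ℂ)) := by
  constructor
  · have e1 : ContDiff ℝ ∞ (fun y => (starRingEnd ℂ) (ph y)) := by
      have e : (fun y => (starRingEnd ℂ) (ph y)) = conjCLE.toContinuousLinearMap ∘ ph := by
        funext y; simp
      rw [e]
      exact conjCLE.toContinuousLinearMap.contDiff.comp hph
    have e2 : ContDiff ℝ ∞ (fun y => (Real.exp (Ps y) : ℂ)) := by
      have e : (fun y => (Real.exp (Ps y) : ℂ)) = ofRealCLM ∘ (fun y => Real.exp (Ps y)) := rfl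
      rw [e]
      exact ofRealCLM.contDiff.comp hPs.exp
    exact e1.mul e2
  · refine hc.mono' ?_
    intro x hx
    refine subset_tsupport _ ?_
    rw [Function.mem_support] at hx ⊢
    intro h
    apply hx
    simp [h]

theorem poincare {E : Type*} [NormedAddCommGroup E] [NormedSpace ℂ E] [FiniteDimensional ℂ E]
    [MeasurableSpace E] [BorelSpace E] (mu : Measure E) [mu.IsAddHaarMeasure]
    (Ps f : E → ℝ) (hPs : ContDiff ℝ ∞ Ps) (hint : Integrable (fun x => Real.exp (-Ps x)) mu)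
    (hPs1 : ∀ (t : ℝ) (x : E), Ps (Complex.exp (t * I) • x) = Ps x)
    (hf : ContDiff ℝ ∞ f) (hf1 : ∀ (t : ℝ) (x : E), f (Complex.exp (t * I) • x) = f x)
    (hfb : ∃ C, ∀ x, |f x| ≤ C) (hfd : ∃ C, ∀ x, ‖fderiv ℝ f x‖ ≤ C)
    (Q : ℝ) (hQ : 0 ≤ Q)
    (hpsh : ∀ x a, 0 ≤ Lform Ps x a)
    (H : ∀ x a, (fderiv ℝ f x a) ^ 2 + (fderiv ℝ f x (I • a)) ^ 2 ≤ 4 * Q * Lform Ps x a) :
    (∫ x, f x ^ 2 * Real.exp (-Ps x) ∂mu) * (∫ x, Real.exp (-Ps x) ∂mu)
      - (∫ x, f x * Real.exp (-Ps x) ∂mu) ^ 2 ≤ Q * (∫ x, Real.exp (-Ps x) ∂mu) ^ 2 := by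
  have hcont : Continuous Ps := hPs.continuous
  have hfin : IsFiniteMeasure (gm mu Ps) := isFiniteMeasure_withDensity_ofReal hint.2
  have hprop : ProperSpace E := FiniteDimensional.proper_rclike ℂ E
  obtain ⟨h, hL2, horth, hinv, hdist⟩ := exists_hol_part mu Ps hPs hPs1 hpsh f hf hf1 hfb hfd Q
    hQ H
  -- local integrability
  have hint1 : Integrable h (gm mu Ps) := hL2.integrable (by norm_num)
  have hint2 : Integrable (fun x => Real.exp (-Ps x) • h x) mu :=
    (HPoincare_integrable_gm mu Ps hcont h).1 hint1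
  have hloc : LocallyIntegrable h mu := by
    have h1 := hint2.locallyIntegrable.continuous_smul (g := fun x => Real.exp (Ps x))
      (by fun_prop)
    refine h1.congr (Filter.Eventually.of_forall fun x => ?_)
    simp only [smul_smul, ← Real.exp_add, add_neg_cancel, Real.exp_zero, one_smul]
  have hol : ∀ ph : E → ℂ, ContDiff ℝ ∞ ph → HasCompactSupport ph → ∀ v : E,
      ∫ x, h x * (fderiv ℝ ph x v + I * fderiv ℝ ph x (I • v)) ∂mu = 0 := by
    intro ph hph hc v
    have h1 := horth _ (HPoincare_SC Ps hPs ph hph hc) v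
    rw [HPoincare_integral_gm mu Ps hcont] at h1
    have h2 : ∀ x, Real.exp (-Ps x) • (h x * (starRingEnd ℂ) (del Ps v
        (fun y => (starRingEnd ℂ) (ph y) * (Real.exp (Ps y) : ℂ)) x)) =
        (-1 / 2 : ℂ) * (h x * (fderiv ℝ ph x v + I * fderiv ℝ ph x (I • v))) := by
      intro x
      rw [HPoincare_del Ps hPs ph hph v x, real_smul]
      have e : (Real.exp (-Ps x) : ℂ) * (Real.exp (Ps x) : ℂ) = 1 := by
        rw [← ofReal_mul, ← Real.exp_add, neg_add_cancel, Real.exp_zero, ofReal_one]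
      linear_combination (-(1 / 2 : ℂ) * (h x * (fderiv ℝ ph x v + I * fderiv ℝ ph x (I • v)))) * e
    simp only [h2] at h1
    rw [integral_const_mul] at h1
    have : (-1 / 2 : ℂ) ≠ 0 := by norm_num
    exact (mul_eq_zero.1 h1).resolve_left this
  obtain ⟨c, hc⟩ := weak_hol_const mu h hloc hol hinv
  have hac : gm mu Ps ≪ mu := withDensity_absolutelyContinuous _ _
  have hc' : ∀ᵐ x ∂(gm mu Ps), h x = c := hac.ae_le hc
  set r : ℝ := c.re
  obtain ⟨C, hC⟩ := hfb
  have hfm : AEStronglyMeasurable f (gm mu Ps) := hf.continuous.aestronglyMeasurable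
  have if1 : Integrable f (gm mu Ps) :=
    Integrable.of_bound hfm C (Filter.Eventually.of_forall fun x => by simpa using hC x)
  have if2 : Integrable (fun x => f x ^ 2) (gm mu Ps) := by
    refine Integrable.of_bound (hf.continuous.pow 2).aestronglyMeasurable (C ^ 2)
      (Filter.Eventually.of_forall fun x => ?_)
    rw [Real.norm_eq_abs, abs_pow]
    exact pow_le_pow_left₀ (abs_nonneg _) (hC x) 2
  have hge : ∫ x, (f x - r) ^ 2 ∂(gm mu Ps) ≤ ∫ x, ‖(f x : ℂ) - h x‖ ^ 2 ∂(gm mu Ps) := by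
    have e1 : ∫ x, ‖(f x : ℂ) - h x‖ ^ 2 ∂(gm mu Ps) =
        ∫ x, ‖(f x : ℂ) - c‖ ^ 2 ∂(gm mu Ps) := by
      refine integral_congr_ae ?_
      filter_upwards [hc'] with x hx
      rw [hx]
    rw [e1]
    refine integral_mono_of_nonneg (Filter.Eventually.of_forall fun x => sq_nonneg _) ?_
      (Filter.Eventually.of_forall fun x => ?_)
    · have hm : Continuous fun x => ‖(f x : ℂ) - c‖ ^ 2 := by
        have := hf.continuous
        fun_prop
      refine Integrable.of_bound hm.aestronglyMeasurable ((C + ‖c‖) ^ 2)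
        (Filter.Eventually.of_forall fun x => ?_)
      rw [Real.norm_eq_abs, abs_pow, abs_norm]
      refine pow_le_pow_left₀ (norm_nonneg _) ?_ 2
      refine (norm_sub_le _ _).trans ?_
      have : ‖(f x : ℂ)‖ ≤ C := by
        rw [norm_real]
        exact hC x
      linarith
    · change (f x - r) ^ 2 ≤ ‖(f x : ℂ) - c‖ ^ 2
      have h1 : |((f x : ℂ) - c).re| ≤ ‖(f x : ℂ) - c‖ := abs_re_le_norm _
      have h2 : ((f x : ℂ) - c).re = f x - r := by simp [r]
      rw [h2] at h1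
      calc (f x - r) ^ 2 = |f x - r| ^ 2 := (sq_abs _).symm
        _ ≤ _ := pow_le_pow_left₀ (abs_nonneg _) h1 2
  have hZ : (gm mu Ps).real Set.univ = ∫ x, Real.exp (-Ps x) ∂mu := by
    have := HPoincare_integral_gm mu Ps hcont (fun _ => (1 : ℝ))
    simpa using this
  have hm1 : ∫ x, f x ∂(gm mu Ps) = ∫ x, f x * Real.exp (-Ps x) ∂mu := by
    rw [HPoincare_integral_gm mu Ps hcont]
    simp only [smul_eq_mul, mul_comm]
  have hm2 : ∫ x, f x ^ 2 ∂(gm mu Ps) = ∫ x, f x ^ 2 * Real.exp (-Ps x) ∂mu := by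
    rw [HPoincare_integral_gm mu Ps hcont]
    simp only [smul_eq_mul, mul_comm]
  have hexp : ∫ x, (f x - r) ^ 2 ∂(gm mu Ps) = (∫ x, f x ^ 2 ∂(gm mu Ps)) -
      2 * r * (∫ x, f x ∂(gm mu Ps)) + r ^ 2 * (gm mu Ps).real Set.univ := by
    have e : ∀ x, (f x - r) ^ 2 = f x ^ 2 - 2 * r * f x + r ^ 2 := fun x => by ring
    simp only [e]
    have i1 : Integrable (fun x => 2 * r * f x) (gm mu Ps) := if1.const_mul _
    have i2 : Integrable (fun x => f x ^ 2 - 2 * r * f x) (gm mu Ps) := if2.sub i1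
    rw [integral_add i2 (integrable_const _), integral_sub if2 i1, integral_const_mul,
      integral_const]
    simp only [smul_eq_mul]
    ring
  have key := hge.trans hdist
  rw [hexp, hZ, hm1, hm2] at key
  set Z := ∫ x, Real.exp (-Ps x) ∂mu
  set m1 := ∫ x, f x * Real.exp (-Ps x) ∂mu
  set m2 := ∫ x, f x ^ 2 * Real.exp (-Ps x) ∂mu
  have hZ0 : 0 ≤ Z := integral_nonneg fun x => (Real.exp_pos _).le
  have := mul_le_mul_of_nonneg_right key hZ0
  nlinarith [sq_nonneg (m1 - r * Z)]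

end GPn
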