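/- piece GA: smoothness and Levi form of Psi -/
import Pool.Agent.Lib_MP_e0d435_ag.Basic
import Pool.Agent.Lib_MP_e0d435_ag.GDefs

open Finset MeasureTheory Complex
open scoped ENNReal ContDiff

namespace GPn

section LeviAux

variable {E : Type*} [NormedAddCommGroup E] [NormedSpace ℂ E]

private theorem Levi_fd {F : E → ℂ} (hF : ContDiff ℂ ∞ F) (y : E) :
    HasFDerivAt (𝕜 := ℝ) F ((fderiv ℂ F y).restrictScalars ℝ) y :=
  ((hF.differentiable (by simp)).differentiableAt.hasFDerivAt).restrictScalars ℝ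

private theorem Levi_real {F : E → ℂ} (hF : ContDiff ℂ ∞ F) : ContDiff ℝ ∞ F :=
  hF.restrict_scalars ℝ

private theorem Levi_fd_apply {F : E → ℂ} (hF : ContDiff ℂ ∞ F) (y : E) (c : ℂ) (a : E) :
    fderiv ℝ F y (c • a) = c * fderiv ℂ F y a := by
  rw [(Levi_fd hF y).fderiv]
  simp

private theorem Levi_G {F : E → ℂ} (hF : ContDiff ℂ ∞ F) (a : E) :
    ContDiff ℂ ∞ (fun y => fderiv ℂ F y a) := by
  exact (hF.fderiv_right (m := ∞) (by simp)).clm_apply contDiff_const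

/-- first derivative of the sum of squares -/
private theorem Levi_H1 {ι : Type*} [Fintype ι] (F : ι → E → ℂ) (hF : ∀ i, ContDiff ℂ ∞ (F i))
    (ep : ℝ) (y a : E) (c : ℂ) :
    fderiv ℝ (fun y => (∑ i, ‖F i y‖ ^ 2) + ep) y (c • a) =
      ∑ i, 2 * inner ℝ (F i y) (c * fderiv ℂ (F i) y a) := by
  have h1 : HasFDerivAt (𝕜 := ℝ) (fun y => (∑ i, ‖F i y‖ ^ 2) + ep)
      (∑ i, 2 • (innerSL ℝ (F i y)).comp (fderiv ℝ (F i) y)) y := by
    refine HasFDerivAt.add_const _ ?_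
    refine HasFDerivAt.fun_sum fun i _ => ?_
    have h2 : HasFDerivAt (𝕜 := ℝ) (F i) (fderiv ℝ (F i) y) y :=
      ((Levi_real (hF i)).differentiable (by simp)).differentiableAt.hasFDerivAt
    exact h2.norm_sq
  rw [h1.fderiv]
  rw [_root_.sum_apply]
  refine Finset.sum_congr rfl fun i _ => ?_
  rw [_root_.smul_apply, ContinuousLinearMap.comp_apply, innerSL_apply_apply,
    Levi_fd_apply (hF i)]
  simp
  ring

/-- second derivative of the sum of squares -/
private theorem Levi_H2 {ι : Type*} [Fintype ι] (F : ι → E → ℂ) (hF : ∀ i, ContDiff ℂ ∞ (F i))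
    (x a : E) (c : ℂ) :
    fderiv ℝ (fun y => ∑ i, 2 * inner ℝ (F i y) (c * fderiv ℂ (F i) y a)) x (c • a) =
      ∑ i, 2 * (inner ℝ (F i x) (c * (c * fderiv ℂ (fun y => fderiv ℂ (F i) y a) x a))
        + ‖c * fderiv ℂ (F i) x a‖ ^ 2) := by
  have h0 : ∀ i, DifferentiableAt ℝ (fun y => (F i) y) x := fun i =>
    ((Levi_real (hF i)).differentiable (by simp)).differentiableAt
  have h1 : ∀ i, DifferentiableAt ℝ (fun y => c * fderiv ℂ (F i) y a) x := fun i =>
    (((Levi_real (Levi_G (hF i) a)).differentiable (by simp)).differentiableAt).const_mul c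
  rw [fderiv_fun_sum fun i _ => ((h0 i).inner ℝ (h1 i)).const_mul 2]
  rw [_root_.sum_apply]
  refine Finset.sum_congr rfl fun i _ => ?_
  rw [fderiv_const_mul ((h0 i).inner ℝ (h1 i))]
  rw [_root_.smul_apply, fderiv_inner_apply ℝ (h0 i) (h1 i), Levi_fd_apply (hF i)]
  have h2 : fderiv ℝ (fun y => c * fderiv ℂ (F i) y a) x (c • a) =
      c * (c * fderiv ℂ (fun y => fderiv ℂ (F i) y a) x a) := by
    rw [fderiv_const_mul (((Levi_real (Levi_G (hF i) a)).differentiable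
      (by simp)).differentiableAt)]
    rw [_root_.smul_apply, Levi_fd_apply (Levi_G (hF i) a)]
    simp
  rw [h2, real_inner_self_eq_norm_sq]
  simp

private theorem Levi_quot {H K : E → ℝ} {x : E} (hH : DifferentiableAt ℝ H x)
    (hK : DifferentiableAt ℝ K x) (h0 : H x ≠ 0) (v : E) :
    fderiv ℝ (fun y => (H y)⁻¹ * K y) x v =
      (fderiv ℝ K x v * H x - K x * fderiv ℝ H x v) / (H x) ^ 2 := by
  have h1 : HasFDerivAt (fun y => (H y)⁻¹) ((-(H x ^ 2)⁻¹) • fderiv ℝ H x) x :=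
    (hasDerivAt_inv h0).comp_hasFDerivAt x hH.hasFDerivAt
  have h2 := (h1.fun_mul hK.hasFDerivAt).fderiv
  rw [h2]
  simp only [_root_.add_apply, _root_.smul_apply, smul_eq_mul]
  field_simp
  ring

omit [NormedAddCommGroup E] [NormedSpace ℂ E] in
private theorem Levi_Hpos {ι : Type*} [Fintype ι] (F : ι → E → ℂ) (ep : ℝ) (hep : 0 < ep)
    (y : E) : 0 < (∑ i, ‖F i y‖ ^ 2) + ep := by
  have : 0 ≤ ∑ i, ‖F i y‖ ^ 2 := Finset.sum_nonneg fun i _ => by positivity
  linarith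

private theorem Levi_Hsmooth {ι : Type*} [Fintype ι] (F : ι → E → ℂ)
    (hF : ∀ i, ContDiff ℂ ∞ (F i)) (ep : ℝ) :
    ContDiff ℝ ∞ (fun y => (∑ i, ‖F i y‖ ^ 2) + ep) := by
  refine ContDiff.add (ContDiff.sum fun i _ => ?_) contDiff_const
  exact (Levi_real (hF i)).norm_sq ℝ

private theorem Levi_dir {ι : Type*} [Fintype ι] (F : ι → E → ℂ) (hF : ∀ i, ContDiff ℂ ∞ (F i))
    (ep : ℝ) (hep : 0 < ep) (x a : E) (c : ℂ) :
    fderiv ℝ (fun y => fderiv ℝ (fun y => Real.log ((∑ i, ‖F i y‖ ^ 2) + ep)) y (c • a)) x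
        (c • a) =
      ((∑ i, 2 * (inner ℝ (F i x) (c * (c * fderiv ℂ (fun y => fderiv ℂ (F i) y a) x a))
        + ‖c * fderiv ℂ (F i) x a‖ ^ 2)) * ((∑ i, ‖F i x‖ ^ 2) + ep)
        - (∑ i, 2 * inner ℝ (F i x) (c * fderiv ℂ (F i) x a)) *
          (∑ i, 2 * inner ℝ (F i x) (c * fderiv ℂ (F i) x a))) /
        ((∑ i, ‖F i x‖ ^ 2) + ep) ^ 2 := by
  have hd : ∀ y, DifferentiableAt ℝ (fun y => (∑ i, ‖F i y‖ ^ 2) + ep) y := fun y =>
    ((Levi_Hsmooth F hF ep).differentiable (by simp)).differentiableAt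
  have h1 : (fun y => fderiv ℝ (fun y => Real.log ((∑ i, ‖F i y‖ ^ 2) + ep)) y (c • a)) =
      fun y => ((∑ i, ‖F i y‖ ^ 2) + ep)⁻¹ *
        (∑ i, 2 * inner ℝ (F i y) (c * fderiv ℂ (F i) y a)) := by
    funext y
    rw [fderiv.log (hd y) (Levi_Hpos F ep hep y).ne', _root_.smul_apply, smul_eq_mul,
      Levi_H1 F hF]
  have hK : DifferentiableAt ℝ (fun y => ∑ i, 2 * inner ℝ (F i y) (c * fderiv ℂ (F i) y a)) x := by
    refine DifferentiableAt.fun_sum fun i _ => ?_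
    refine DifferentiableAt.const_mul ?_ 2
    refine DifferentiableAt.inner ℝ ?_ ?_
    · exact ((Levi_real (hF i)).differentiable (by simp)).differentiableAt
    · exact (((Levi_real (Levi_G (hF i) a)).differentiable (by simp)).differentiableAt).const_mul c
  rw [h1, Levi_quot (hd x) hK (Levi_Hpos F ep hep x).ne', Levi_H1 F hF, Levi_H2 F hF]

private theorem Levi_log {ι : Type*} [Fintype ι]
    (F : ι → E → ℂ) (hF : ∀ i, ContDiff ℂ ∞ (F i)) (ep : ℝ) (hep : 0 < ep) (x a : E) :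
    Lform (fun y => Real.log ((∑ i, ‖F i y‖ ^ 2) + ep)) x a =
      (((∑ i, ‖F i x‖ ^ 2) + ep) * (∑ i, ‖fderiv ℂ (F i) x a‖ ^ 2)
        - ‖∑ i, (starRingEnd ℂ) (F i x) * fderiv ℂ (F i) x a‖ ^ 2)
        / ((∑ i, ‖F i x‖ ^ 2) + ep) ^ 2 := by
  have e1 := Levi_dir F hF ep hep x a 1
  have e2 := Levi_dir F hF ep hep x a I
  simp only [one_smul] at e1
  rw [Lform, e1, e2]
  set H := (∑ i, ‖F i x‖ ^ 2) + ep with hH
  have hHpos : 0 < H := Levi_Hpos F ep hep x
  have k1 : ∑ i, 2 * (inner ℝ (F i x) (1 * (1 * fderiv ℂ (fun y => fderiv ℂ (F i) y a) x a))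
        + ‖1 * fderiv ℂ (F i) x a‖ ^ 2) +
      ∑ i, 2 * (inner ℝ (F i x) (I * (I * fderiv ℂ (fun y => fderiv ℂ (F i) y a) x a))
        + ‖I * fderiv ℂ (F i) x a‖ ^ 2) = 4 * ∑ i, ‖fderiv ℂ (F i) x a‖ ^ 2 := by
    rw [← Finset.sum_add_distrib, Finset.mul_sum]
    refine Finset.sum_congr rfl fun i _ => ?_
    have : I * (I * fderiv ℂ (fun y => fderiv ℂ (F i) y a) x a) =
        - fderiv ℂ (fun y => fderiv ℂ (F i) y a) x a := by
      rw [← mul_assoc, I_mul_I]; ring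
    rw [this, one_mul, one_mul, one_mul, norm_mul, norm_I, one_mul, inner_neg_right]
    ring
  set S := ∑ i, (starRingEnd ℂ) (F i x) * fderiv ℂ (F i) x a with hS
  have k2 : ∑ i, 2 * inner ℝ (F i x) (1 * fderiv ℂ (F i) x a) = 2 * S.re := by
    rw [hS, Complex.re_sum, Finset.mul_sum]
    refine Finset.sum_congr rfl fun i _ => ?_
    rw [Complex.inner]
    simp
    ring
  have k3 : ∑ i, 2 * inner ℝ (F i x) (I * fderiv ℂ (F i) x a) = - (2 * S.im) := by
    rw [hS, Complex.im_sum, Finset.mul_sum, ← Finset.sum_neg_distrib]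
    refine Finset.sum_congr rfl fun i _ => ?_
    rw [Complex.inner]
    simp
    ring
  rw [k2, k3]
  have k4 : ‖S‖ ^ 2 = S.re ^ 2 + S.im ^ 2 := by
    rw [← Complex.normSq_eq_norm_sq, Complex.normSq_apply]; ring
  rw [k4]
  rw [← add_div, div_div, div_eq_div_iff (by positivity) (by positivity)]
  have k5 : ∀ A B C : ℝ, A + B = 4 * C → (A * H - 2 * S.re * (2 * S.re) +
      (B * H - -(2 * S.im) * -(2 * S.im))) * H ^ 2 =
      (H * C - (S.re ^ 2 + S.im ^ 2)) * (H ^ 2 * 4) := by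
    intro A B C h
    have hA : A = 4 * C - B := by linarith
    rw [hA]
    ring
  exact k5 _ _ _ k1

private theorem Levi_k1 {ι : Type*} [Fintype ι] (F : ι → E → ℂ) (x a : E) :
    ∑ i, 2 * (inner ℝ (F i x) (1 * (1 * fderiv ℂ (fun y => fderiv ℂ (F i) y a) x a))
        + ‖1 * fderiv ℂ (F i) x a‖ ^ 2) +
      ∑ i, 2 * (inner ℝ (F i x) (I * (I * fderiv ℂ (fun y => fderiv ℂ (F i) y a) x a))
        + ‖I * fderiv ℂ (F i) x a‖ ^ 2) = 4 * ∑ i, ‖fderiv ℂ (F i) x a‖ ^ 2 := by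
  rw [← Finset.sum_add_distrib, Finset.mul_sum]
  refine Finset.sum_congr rfl fun i _ => ?_
  have : I * (I * fderiv ℂ (fun y => fderiv ℂ (F i) y a) x a) =
      - fderiv ℂ (fun y => fderiv ℂ (F i) y a) x a := by
    rw [← mul_assoc, I_mul_I]; ring
  rw [this, one_mul, one_mul, one_mul, norm_mul, norm_I, one_mul, inner_neg_right]
  ring

private theorem Levi_sq {ι : Type*} [Fintype ι]
    (F : ι → E → ℂ) (hF : ∀ i, ContDiff ℂ ∞ (F i)) (ep : ℝ) (x a : E) :
    Lform (fun y => (∑ i, ‖F i y‖ ^ 2) + ep) x a = ∑ i, ‖fderiv ℂ (F i) x a‖ ^ 2 := by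
  have e : ∀ c : ℂ, fderiv ℝ (fun y => fderiv ℝ (fun y => (∑ i, ‖F i y‖ ^ 2) + ep) y (c • a)) x
      (c • a) = ∑ i, 2 * (inner ℝ (F i x) (c * (c * fderiv ℂ (fun y => fderiv ℂ (F i) y a) x a))
        + ‖c * fderiv ℂ (F i) x a‖ ^ 2) := by
    intro c
    have h1 : (fun y => fderiv ℝ (fun y => (∑ i, ‖F i y‖ ^ 2) + ep) y (c • a)) =
        fun y => ∑ i, 2 * inner ℝ (F i y) (c * fderiv ℂ (F i) y a) := by
      funext y
      exact Levi_H1 F hF ep y a c
    rw [h1, Levi_H2 F hF]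
  have e1 := e 1
  have e2 := e I
  simp only [one_smul] at e1
  rw [Lform, e1, e2, Levi_k1]
  ring

private theorem Levi_D {f : E → ℝ} (hf : ContDiff ℝ ∞ f) (v : E) :
    ContDiff ℝ ∞ (fun y => fderiv ℝ f y v) :=
  (hf.fderiv_right (m := ∞) (by simp)).clm_apply contDiff_const

private theorem Levi_add {f g : E → ℝ} (hf : ContDiff ℝ ∞ f) (hg : ContDiff ℝ ∞ g) (x a : E) :
    Lform (fun y => f y + g y) x a = Lform f x a + Lform g x a := by
  have h : ∀ v, fderiv ℝ (fun y => fderiv ℝ (fun y => f y + g y) y v) x v =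
      fderiv ℝ (fun y => fderiv ℝ f y v) x v + fderiv ℝ (fun y => fderiv ℝ g y v) x v := by
    intro v
    have h1 : (fun y => fderiv ℝ (fun y => f y + g y) y v) =
        fun y => fderiv ℝ f y v + fderiv ℝ g y v := by
      funext y
      rw [fderiv_fun_add (hf.differentiable (by simp)).differentiableAt
        (hg.differentiable (by simp)).differentiableAt, _root_.add_apply]
    rw [h1, fderiv_fun_add ((Levi_D hf v).differentiable (by simp)).differentiableAt
        ((Levi_D hg v).differentiable (by simp)).differentiableAt, _root_.add_apply]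
  simp only [Lform, h]
  ring

private theorem Levi_mul {f : E → ℝ} (hf : ContDiff ℝ ∞ f) (c : ℝ) (x a : E) :
    Lform (fun y => c * f y) x a = c * Lform f x a := by
  have h : ∀ v, fderiv ℝ (fun y => fderiv ℝ (fun y => c * f y) y v) x v =
      c * fderiv ℝ (fun y => fderiv ℝ f y v) x v := by
    intro v
    have h1 : (fun y => fderiv ℝ (fun y => c * f y) y v) =
        fun y => c * fderiv ℝ f y v := by
      funext y
      rw [fderiv_const_mul (hf.differentiable (by simp)).differentiableAt, _root_.smul_apply,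
        smul_eq_mul]
    rw [h1, fderiv_const_mul ((Levi_D hf v).differentiable (by simp)).differentiableAt,
      _root_.smul_apply, smul_eq_mul]
  simp only [Lform, h]
  ring

private theorem Levi_zero (x a : E) : Lform (fun _ : E => (0 : ℝ)) x a = 0 := by
  simp [Lform]

private theorem Levi_sum {ι : Type*} (s : Finset ι) (f : ι → E → ℝ)
    (hf : ∀ i, ContDiff ℝ ∞ (f i)) (x a : E) :
    Lform (fun y => ∑ i ∈ s, f i y) x a = ∑ i ∈ s, Lform (f i) x a := by
  classical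
  induction s using Finset.induction_on with
  | empty => simpa using Levi_zero x a
  | insert i s his ih =>
    simp only [Finset.sum_insert his]
    rw [Levi_add (hf i) (ContDiff.sum fun j _ => hf j), ih]

end LeviAux

private theorem Levi_dm {m : ℕ} (al a : Fin m → ℕ) : ContDiff ℂ ∞ (fun x : Pt m => dm al a x) := by
  unfold dm
  refine contDiff_prod fun i _ => ?_
  refine contDiff_const.mul ?_
  exact (contDiff_apply ℂ ℂ i).pow _

private theorem Levi_det (m k : ℕ) :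
    ContDiff ℂ ∞ (fun X : Ex m k → Pt m => (Mx X).det) := by
  simp only [Matrix.det_apply']
  refine ContDiff.sum fun s _ => ?_
  refine contDiff_const.mul ?_
  refine contDiff_prod fun i _ => ?_
  simp only [Mx_apply]
  refine contDiff_const.mul ?_
  exact (Levi_dm 0 i.1).comp (contDiff_apply ℂ (Pt m) (s i))

private theorem Levi_coord {m k : ℕ} (j : Ex m k) (r : Fin m) :
    ContDiff ℂ ∞ (fun X : Ex m k → Pt m => X j r) :=
  (contDiff_apply ℂ ℂ r).comp (contDiff_apply ℂ (Pt m) j)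

private theorem Levi_coord_fderiv {m k : ℕ} (j : Ex m k) (r : Fin m) (X a : Ex m k → Pt m) :
    fderiv ℂ (fun X : Ex m k → Pt m => X j r) X a = a j r := by
  have h : HasFDerivAt (𝕜 := ℂ) (fun X : Ex m k → Pt m => X j r)
      ((ContinuousLinearMap.proj r : (Pt m) →L[ℂ] ℂ).comp
        (ContinuousLinearMap.proj j : (Ex m k → Pt m) →L[ℂ] Pt m)) X :=
    ((ContinuousLinearMap.proj r : (Pt m) →L[ℂ] ℂ).comp
        (ContinuousLinearMap.proj j : (Ex m k → Pt m) →L[ℂ] Pt m)).hasFDerivAt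
  rw [h.fderiv]
  rfl

private theorem Levi_f1 (m k : ℕ) (ep : ℝ) (hep : 0 < ep) :
    ContDiff ℝ ∞ (fun X : Ex m k → Pt m => Real.log (Dl X ^ 2 + ep)) := by
  have h : ContDiff ℝ ∞ (fun X : Ex m k → Pt m => Dl X ^ 2 + ep) :=
    ((Levi_real (Levi_det m k)).norm_sq ℝ).add contDiff_const
  refine h.log fun X => ?_
  positivity

private theorem Levi_nsq {m k : ℕ} (j : Ex m k) :
    ContDiff ℝ ∞ (fun X : Ex m k → Pt m => nsq (X j)) := by
  unfold nsq
  refine ContDiff.sum fun r _ => ?_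
  exact (Levi_real (Levi_coord j r)).norm_sq ℝ

private theorem Levi_f2 {m k : ℕ} (j : Ex m k) (ep : ℝ) (hep : 0 < ep) :
    ContDiff ℝ ∞ (fun X : Ex m k → Pt m => Real.log (nsq (X j) + ep)) := by
  refine ((Levi_nsq j).add contDiff_const).log fun X => ?_
  have := nsq_nonneg (X j)
  positivity

/-- the potentials are smooth -/
theorem Psi_smooth (n k : ℕ) (c ep : ℝ) (hep : 0 < ep) : ContDiff ℝ ∞ (Psi n k c ep) := by
  unfold Psi
  refine (contDiff_const.mul (Levi_f1 (n + 1) k ep hep)).add (ContDiff.sum fun j _ => ?_)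
  exact (contDiff_const.mul (Levi_f2 j ep hep)).add (Levi_nsq j)

theorem Psi_circle (n k : ℕ) (c ep : ℝ) (t : ℝ) (X : Ex (n + 1) k → Pt (n + 1)) :
    Psi n k c ep (Complex.exp (t * I) • X) = Psi n k c ep X := by
  have hu : ‖Complex.exp (t * I)‖ = 1 := Complex.norm_exp_ofReal_mul_I t
  set u := Complex.exp (t * I) with hudef
  have h1 : ∀ j, nsq ((u • X) j) = nsq (X j) := by
    intro j
    unfold nsq
    refine Finset.sum_congr rfl fun i _ => ?_
    simp [hu]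
  have h2 : Dl (u • X) = Dl X := by
    have h3 : Mx (u • X) = (u ^ k) • Mx X := by
      ext i a
      simp only [Mx_apply, Matrix.smul_apply, smul_eq_mul]
      have h4 : (u • X) i = u • X i := rfl
      rw [h4, dm_smul]
      have : ∑ r, (a.1 r - (0 : Fin (n + 1) → ℕ) r) = k := by simpa using a.2
      rw [this]; ring
    rw [Dl, h3, Matrix.det_smul, norm_mul, norm_pow, norm_pow, hu, one_pow, one_pow, one_mul, Dl]
  unfold Psi
  rw [h2]
  simp only [h1]

/-- Levi form of the logarithm of a sum of squares -/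
theorem Lform_log {E : Type*} [NormedAddCommGroup E] [NormedSpace ℂ E] {ι : Type*} [Fintype ι]
    (F : ι → E → ℂ) (hF : ∀ i, ContDiff ℂ ∞ (F i)) (ep : ℝ) (hep : 0 < ep) (x a : E) :
    Lform (fun y => Real.log ((∑ i, ‖F i y‖ ^ 2) + ep)) x a =
      (((∑ i, ‖F i x‖ ^ 2) + ep) * (∑ i, ‖fderiv ℂ (F i) x a‖ ^ 2)
        - ‖∑ i, (starRingEnd ℂ) (F i x) * fderiv ℂ (F i) x a‖ ^ 2)
        / ((∑ i, ‖F i x‖ ^ 2) + ep) ^ 2 := Levi_log F hF ep hep x a

private theorem Levi_decomp (n k : ℕ) (c ep : ℝ) (hep : 0 < ep)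
    (X a : Ex (n + 1) k → Pt (n + 1)) :
    Lform (Psi n k c ep) X a =
      c * Lform (fun X : Ex (n + 1) k → Pt (n + 1) => Real.log (Dl X ^ 2 + ep)) X a +
      ∑ j, (((n : ℝ) + 1 - c * k) / 2 *
        Lform (fun X : Ex (n + 1) k → Pt (n + 1) => Real.log (nsq (X j) + ep)) X a +
        Lform (fun X : Ex (n + 1) k → Pt (n + 1) => nsq (X j)) X a) := by
  have h0 : Psi n k c ep = fun X => c * Real.log (Dl X ^ 2 + ep)
    + ∑ j, (((n : ℝ) + 1 - c * k) / 2 * Real.log (nsq (X j) + ep) + nsq (X j)) := rfl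
  have s1 : ContDiff ℝ ∞ (fun X : Ex (n + 1) k → Pt (n + 1) => c * Real.log (Dl X ^ 2 + ep)) :=
    contDiff_const.mul (Levi_f1 (n + 1) k ep hep)
  have s2 : ∀ j, ContDiff ℝ ∞ (fun X : Ex (n + 1) k → Pt (n + 1) =>
      ((n : ℝ) + 1 - c * k) / 2 * Real.log (nsq (X j) + ep)) := fun j =>
    contDiff_const.mul (Levi_f2 j ep hep)
  rw [h0, Levi_add s1 (ContDiff.sum fun j _ => (s2 j).add (Levi_nsq j)),
    Levi_mul (Levi_f1 (n + 1) k ep hep), Levi_sum _ _ fun j => (s2 j).add (Levi_nsq j)]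
  congr 1
  refine Finset.sum_congr rfl fun j _ => ?_
  rw [Levi_add (s2 j) (Levi_nsq j), Levi_mul (Levi_f2 j ep hep)]

private theorem Levi_L1 (m k : ℕ) (ep : ℝ) (hep : 0 < ep) (X a : Ex m k → Pt m) :
    0 ≤ Lform (fun X : Ex m k → Pt m => Real.log (Dl X ^ 2 + ep)) X a := by
  have h := Levi_log (fun (_ : Unit) (X : Ex m k → Pt m) => (Mx X).det)
    (fun _ => Levi_det m k) ep hep X a
  simp only [Finset.univ_unique, Finset.sum_singleton] at h
  have h' : (fun X : Ex m k → Pt m => Real.log (Dl X ^ 2 + ep)) =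
      fun y => Real.log (‖(Mx y).det‖ ^ 2 + ep) := rfl
  rw [h', h, norm_mul, RCLike.norm_conj]
  refine div_nonneg ?_ (by positivity)
  have : 0 ≤ ep * ‖fderiv ℂ (fun X : Ex m k → Pt m => (Mx X).det) X a‖ ^ 2 := by positivity
  nlinarith

private theorem Levi_L2 {m k : ℕ} (j : Ex m k) (ep : ℝ) (hep : 0 < ep) (X a : Ex m k → Pt m) :
    Lform (fun X : Ex m k → Pt m => Real.log (nsq (X j) + ep)) X a =
      ((nsq (X j) + ep) * nsq (a j)
        - ‖∑ r, (starRingEnd ℂ) (X j r) * a j r‖ ^ 2) / (nsq (X j) + ep) ^ 2 := by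
  have h := Levi_log (fun (r : Fin m) (X : Ex m k → Pt m) => X j r)
    (fun r => Levi_coord j r) ep hep X a
  simp only [Levi_coord_fderiv] at h
  exact h

private theorem Levi_L3 {m k : ℕ} (j : Ex m k) (X a : Ex m k → Pt m) :
    Lform (fun X : Ex m k → Pt m => nsq (X j)) X a = nsq (a j) := by
  have h := Levi_sq (fun (r : Fin m) (X : Ex m k → Pt m) => X j r)
    (fun r => Levi_coord j r) 0 X a
  simp only [Levi_coord_fderiv, add_zero] at h
  exact h

theorem Psi_levi (n k : ℕ) (c ep : ℝ) (hep : 0 < ep) (hc : 0 ≤ c) (hck : c * k ≤ n + 1)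
    (X a : Ex (n + 1) k → Pt (n + 1)) :
    ((n : ℝ) + 1 - c * k) / 2 * ∑ j, ((nsq (X j) + ep) * nsq (a j)
        - ‖∑ r, (starRingEnd ℂ) (X j r) * a j r‖ ^ 2) / (nsq (X j) + ep) ^ 2 ≤
      Lform (Psi n k c ep) X a := by
  rw [Levi_decomp n k c ep hep X a, Finset.sum_add_distrib, ← Finset.mul_sum]
  simp only [Levi_L2 _ ep hep, Levi_L3]
  have h1 := mul_nonneg hc (Levi_L1 (n + 1) k ep hep X a)
  have h2 : 0 ≤ ∑ j, nsq (a j) := Finset.sum_nonneg fun j _ => nsq_nonneg _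
  linarith

private theorem Levi_cs {m : ℕ} (x b : Pt m) :
    ‖∑ r, (starRingEnd ℂ) (x r) * b r‖ ^ 2 ≤ nsq x * nsq b := by
  have h1 : ‖∑ r, (starRingEnd ℂ) (x r) * b r‖ ≤ ∑ r, ‖x r‖ * ‖b r‖ := by
    refine (norm_sum_le _ _).trans (le_of_eq ?_)
    refine Finset.sum_congr rfl fun r _ => ?_
    rw [norm_mul, RCLike.norm_conj]
  calc ‖∑ r, (starRingEnd ℂ) (x r) * b r‖ ^ 2 ≤ (∑ r, ‖x r‖ * ‖b r‖) ^ 2 :=
        pow_le_pow_left₀ (norm_nonneg _) h1 2
    _ ≤ nsq x * nsq b := Finset.sum_mul_sq_le_sq_mul_sq _ _ _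

theorem Psi_psh (n k : ℕ) (c ep : ℝ) (hep : 0 < ep) (hc : 0 ≤ c) (hck : c * k ≤ n + 1)
    (X a : Ex (n + 1) k → Pt (n + 1)) : 0 ≤ Lform (Psi n k c ep) X a := by
  refine le_trans ?_ (Psi_levi n k c ep hep hc hck X a)
  refine mul_nonneg (by linarith) (Finset.sum_nonneg fun j _ => ?_)
  refine div_nonneg ?_ (by positivity)
  have h1 := Levi_cs (X j) (a j)
  have h2 : 0 ≤ ep * nsq (a j) := mul_nonneg hep.le (nsq_nonneg _)
  nlinarith

end GPn
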