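/- piece GD: variance bound -/
import Pool.Agent.Lib_MP_e0d435_ag.Basic
import Pool.Agent.Lib_MP_e0d435_ag.GDefs
import Pool.Agent.Lib_MP_e0d435_ag.HPoincare
import Pool.Agent.Lib_MP_e0d435_ag.Levi
import Pool.Agent.Lib_MP_e0d435_ag.WGrad
import Pool.Agent.Lib_MP_e0d435_ag.PsiInt

open Finset MeasureTheory Complex
open scoped ENNReal ContDiff

namespace GPn

/-- the linear statistic -/
private noncomputable def VarBound_f {n k D : ℕ} (p : ℕ) (ep : ℝ) (g : V (n + 1) D)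
    (X : Ex (n + 1) k → Pt (n + 1)) : ℝ := ∑ j, wg p ep g (X j)

private theorem VarBound_hasFDerivAt {n k D : ℕ} (p : ℕ) (ep : ℝ) (hep : 0 < ep)
    (g : V (n + 1) D) (X : Ex (n + 1) k → Pt (n + 1)) :
    HasFDerivAt (VarBound_f (k := k) p ep g)
      (∑ j : Ex (n + 1) k, (fderiv ℝ (wg p ep g) (X j)).comp
        (ContinuousLinearMap.proj (R := ℝ) (φ := fun _ : Ex (n + 1) k => Pt (n + 1)) j)) X := by
  have h : ∀ j : Ex (n + 1) k, HasFDerivAt (fun X : Ex (n + 1) k → Pt (n + 1) => wg p ep g (X j))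
      ((fderiv ℝ (wg p ep g) (X j)).comp
        (ContinuousLinearMap.proj (R := ℝ) (φ := fun _ : Ex (n + 1) k => Pt (n + 1)) j)) X := by
    intro j
    have h1 : HasFDerivAt (wg p ep g) (fderiv ℝ (wg p ep g) (X j)) (X j) :=
      (((wg_smooth p ep hep g).differentiable (by simp)) (X j)).hasFDerivAt
    have h2 : HasFDerivAt (fun f : Ex (n + 1) k → Pt (n + 1) => f j)
        (ContinuousLinearMap.proj (R := ℝ) (φ := fun _ : Ex (n + 1) k => Pt (n + 1)) j) X :=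
      hasFDerivAt_apply j X
    exact HasFDerivAt.comp X h1 h2
  exact HasFDerivAt.fun_sum fun j _ => h j

private theorem VarBound_fderiv {n k D : ℕ} (p : ℕ) (ep : ℝ) (hep : 0 < ep)
    (g : V (n + 1) D) (X a : Ex (n + 1) k → Pt (n + 1)) :
    fderiv ℝ (VarBound_f (k := k) p ep g) X a = ∑ j, fderiv ℝ (wg p ep g) (X j) (a j) := by
  rw [(VarBound_hasFDerivAt p ep hep g X).fderiv]
  simp

theorem variance_bound (n k : ℕ) (c ep : ℝ) (hep : 0 < ep) (hc : 0 ≤ c) (hck : c * k < n + 1)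
    (D p : ℕ) (g : V (n + 1) D) (hg : ‖g‖ = 1) :
    (∫ X, (∑ j, wg p ep g (X j)) ^ 2 * Real.exp (-Psi n k c ep X))
        * (∫ X, Real.exp (-Psi n k c ep X))
      - (∫ X, (∑ j, wg p ep g (X j)) * Real.exp (-Psi n k c ep X)) ^ 2 ≤
    (2 * (p : ℝ) ^ 2 * (D : ℝ) ^ 2 * (Fintype.card (Ex (n + 1) k)) / ((n : ℝ) + 1 - c * k))
      * (∫ X, Real.exp (-Psi n k c ep X)) ^ 2 := by
  classical
  have hth : 0 < (n : ℝ) + 1 - c * k := by linarith
  have hck' : c * k ≤ (n : ℝ) + 1 := hck.le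
  obtain ⟨C, hC⟩ := wg_fderiv_bounded p ep hep g hg
  have hm0 : (volume : Measure (Pt (n + 1))).IsAddHaarMeasure := inferInstance
  have hm : (volume : Measure (Ex (n + 1) k → Pt (n + 1))).IsAddHaarMeasure :=
    MeasureTheory.Measure.pi.isAddHaarMeasure _
  refine poincare (E := Ex (n + 1) k → Pt (n + 1)) volume (Psi n k c ep)
    (VarBound_f (k := k) p ep g) (Psi_smooth n k c ep hep)
    (exp_Psi_integrable n k c ep hep hc hck') ?_ ?_ ?_ ?_ ?_
    (2 * (p : ℝ) ^ 2 * (D : ℝ) ^ 2 * (Fintype.card (Ex (n + 1) k)) / ((n : ℝ) + 1 - c * k))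
    ?_ ?_ ?_
  · intro t X
    exact Psi_circle n k c ep t X
  · exact ContDiff.sum fun j _ => (wg_smooth p ep hep g).comp (contDiff_apply ℝ (Pt (n + 1)) j)
  · intro t X
    unfold VarBound_f
    refine Finset.sum_congr rfl fun j _ => ?_
    rw [Pi.smul_apply]
    exact wg_circle p ep g t (X j)
  · refine ⟨(Fintype.card (Ex (n + 1) k) : ℝ), fun X => ?_⟩
    unfold VarBound_f
    rw [abs_of_nonneg (Finset.sum_nonneg fun j _ => (wg_mem p ep hep g hg (X j)).1)]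
    calc ∑ j, wg p ep g (X j) ≤ ∑ _j : Ex (n + 1) k, (1 : ℝ) :=
          Finset.sum_le_sum fun j _ => (wg_mem p ep hep g hg (X j)).2
      _ = (Fintype.card (Ex (n + 1) k) : ℝ) := by simp
  · refine ⟨(Fintype.card (Ex (n + 1) k) : ℝ) * C, fun X => ?_⟩
    have hC0 : 0 ≤ C := (norm_nonneg _).trans (hC 0)
    refine ContinuousLinearMap.opNorm_le_bound _ (by positivity) fun a => ?_
    rw [VarBound_fderiv p ep hep g X a]
    calc ‖∑ j, fderiv ℝ (wg p ep g) (X j) (a j)‖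
        ≤ ∑ j, ‖fderiv ℝ (wg p ep g) (X j) (a j)‖ := norm_sum_le _ _
      _ ≤ ∑ _j : Ex (n + 1) k, C * ‖a‖ := by
          refine Finset.sum_le_sum fun j _ => ?_
          calc ‖fderiv ℝ (wg p ep g) (X j) (a j)‖
              ≤ ‖fderiv ℝ (wg p ep g) (X j)‖ * ‖a j‖ := ContinuousLinearMap.le_opNorm _ _
            _ ≤ C * ‖a‖ := mul_le_mul (hC (X j)) (norm_le_pi_norm a j) (norm_nonneg _) hC0
      _ = (Fintype.card (Ex (n + 1) k) : ℝ) * C * ‖a‖ := by
          rw [Finset.sum_const, Finset.card_univ, nsmul_eq_mul]; ring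
  · positivity
  · intro X a
    exact Psi_psh n k c ep hep hc hck' X a
  · intro X a
    have hcs : ∀ u : Ex (n + 1) k → ℝ,
        (∑ j, u j) ^ 2 ≤ (Fintype.card (Ex (n + 1) k) : ℝ) * ∑ j, u j ^ 2 := by
      intro u
      have := sq_sum_le_card_mul_sum_sq (s := (Finset.univ : Finset (Ex (n + 1) k))) (f := u)
      simpa using this
    have e1 : fderiv ℝ (VarBound_f (k := k) p ep g) X a
        = ∑ j, fderiv ℝ (wg p ep g) (X j) (a j) := VarBound_fderiv p ep hep g X a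
    have e2 : fderiv ℝ (VarBound_f (k := k) p ep g) X (I • a)
        = ∑ j, fderiv ℝ (wg p ep g) (X j) (I • a j) := VarBound_fderiv p ep hep g X (I • a)
    rw [e1, e2]
    set L : Ex (n + 1) k → ℝ := fun j => ((nsq (X j) + ep) * nsq (a j)
        - ‖∑ r, (starRingEnd ℂ) (X j r) * a j r‖ ^ 2) / (nsq (X j) + ep) ^ 2 with hL
    have hlev : ((n : ℝ) + 1 - c * k) / 2 * ∑ j, L j ≤ Lform (Psi n k c ep) X a :=
      Psi_levi n k c ep hep hc hck' X a
    have hgr : ∀ j, (fderiv ℝ (wg p ep g) (X j) (a j)) ^ 2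
        + (fderiv ℝ (wg p ep g) (X j) (I • a j)) ^ 2 ≤ 4 * (p : ℝ) ^ 2 * (D : ℝ) ^ 2 * L j :=
      fun j => wg_grad p ep hep g hg (X j) (a j)
    have h1 : (∑ j, fderiv ℝ (wg p ep g) (X j) (a j)) ^ 2
        + (∑ j, fderiv ℝ (wg p ep g) (X j) (I • a j)) ^ 2
        ≤ (Fintype.card (Ex (n + 1) k) : ℝ) * (4 * (p : ℝ) ^ 2 * (D : ℝ) ^ 2 * ∑ j, L j) := by
      calc (∑ j, fderiv ℝ (wg p ep g) (X j) (a j)) ^ 2
            + (∑ j, fderiv ℝ (wg p ep g) (X j) (I • a j)) ^ 2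
          ≤ (Fintype.card (Ex (n + 1) k) : ℝ) * ∑ j, (fderiv ℝ (wg p ep g) (X j) (a j)) ^ 2
            + (Fintype.card (Ex (n + 1) k) : ℝ)
              * ∑ j, (fderiv ℝ (wg p ep g) (X j) (I • a j)) ^ 2 := add_le_add (hcs _) (hcs _)
        _ = (Fintype.card (Ex (n + 1) k) : ℝ) * ∑ j, ((fderiv ℝ (wg p ep g) (X j) (a j)) ^ 2
            + (fderiv ℝ (wg p ep g) (X j) (I • a j)) ^ 2) := by
            rw [Finset.sum_add_distrib]; ring
        _ ≤ (Fintype.card (Ex (n + 1) k) : ℝ) * ∑ j, 4 * (p : ℝ) ^ 2 * (D : ℝ) ^ 2 * L j :=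
            mul_le_mul_of_nonneg_left (Finset.sum_le_sum fun j _ => hgr j) (by positivity)
        _ = (Fintype.card (Ex (n + 1) k) : ℝ) * (4 * (p : ℝ) ^ 2 * (D : ℝ) ^ 2 * ∑ j, L j) := by
            rw [← Finset.mul_sum]
    have h2 : 4 * (2 * (p : ℝ) ^ 2 * (D : ℝ) ^ 2 * (Fintype.card (Ex (n + 1) k))
        / ((n : ℝ) + 1 - c * k)) * (((n : ℝ) + 1 - c * k) / 2 * ∑ j, L j)
        = (Fintype.card (Ex (n + 1) k) : ℝ) * (4 * (p : ℝ) ^ 2 * (D : ℝ) ^ 2 * ∑ j, L j) := by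
      field_simp
    calc _ ≤ _ := h1
      _ = _ := h2.symm
      _ ≤ _ := mul_le_mul_of_nonneg_left hlev (by positivity)

end GPn
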