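/- piece GH: equidistribution -/
import Pool.Agent.Lib_MP_e0d435_ag.Basic
import Pool.Agent.Lib_MP_e0d435_ag.GDefs
import Pool.Agent.Lib_MP_e0d435_ag.VarBound
import Pool.Agent.Lib_MP_e0d435_ag.MeanBound

open Finset MeasureTheory Complex
open scoped ENNReal ContDiff

namespace GPn

theorem isOpen_BadS_Equi (n k : ℕ) (del : ℝ) : IsOpen (BadS n k del) := by
  classical
  rw [isOpen_iff_mem_nhds]
  rintro X ⟨g, hg, hX⟩
  have hopen : IsOpen {Y : Ex (n + 1) k → Pt (n + 1) | ∀ j ∈ Finset.univ.filter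
      (fun j => ‖pd g 0 (X j)‖ < del * (enm (X j)) ^ (dD n)),
      ‖pd g 0 (Y j)‖ < del * (enm (Y j)) ^ (dD n)} := by
    have h1 : {Y : Ex (n + 1) k → Pt (n + 1) | ∀ j ∈ Finset.univ.filter
      (fun j => ‖pd g 0 (X j)‖ < del * (enm (X j)) ^ (dD n)),
      ‖pd g 0 (Y j)‖ < del * (enm (Y j)) ^ (dD n)} = ⋂ j ∈ Finset.univ.filter
      (fun j => ‖pd g 0 (X j)‖ < del * (enm (X j)) ^ (dD n)),
      {Y : Ex (n + 1) k → Pt (n + 1) | ‖pd g 0 (Y j)‖ < del * (enm (Y j)) ^ (dD n)} := by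
      ext Y
      simp
    rw [h1]
    refine isOpen_biInter_finset fun j _ => ?_
    refine isOpen_lt ?_ ?_
    · exact ((continuous_pd g 0).comp (continuous_apply j)).norm
    · exact continuous_const.mul ((continuous_enm.comp (continuous_apply j)).pow _)
  refine Filter.mem_of_superset (hopen.mem_nhds ?_) ?_
  · intro j hj
    exact (Finset.mem_filter.1 hj).2
  · intro Y hY
    refine ⟨g, hg, hX.trans_le ?_⟩
    unfold cnt
    refine Finset.card_le_card fun j hj => ?_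
    rw [Finset.mem_filter]
    refine ⟨Finset.mem_univ _, hY j ?_⟩
    rw [Finset.mem_filter] at hj ⊢
    exact hj

theorem isOpen_BadS_away (n k : ℕ) (del : ℝ) : MeasurableSet (BadS n k del) :=
  (isOpen_BadS_Equi n k del).measurableSet

/-- Chebyshev -/
theorem Equi_cheb {Ω : Type*} [MeasurableSpace Ω] (mu : Measure Ω) (r S : Ω → ℝ)
    (hr : ∀ x, 0 ≤ r x) (hri : Integrable r mu) (hZ : 0 < ∫ x, r x ∂mu)
    (hSr : Integrable (fun x => S x * r x) mu) (hSSr : Integrable (fun x => S x ^ 2 * r x) mu)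
    (Q a b : ℝ) (hb : 0 < b)
    (hvar : (∫ x, S x ^ 2 * r x ∂mu) * (∫ x, r x ∂mu) - (∫ x, S x * r x ∂mu) ^ 2 ≤
      Q * (∫ x, r x ∂mu) ^ 2)
    (hmean : ∫ x, S x * r x ∂mu ≤ a * ∫ x, r x ∂mu)
    (E : Set Ω) (hE : MeasurableSet E) (hES : ∀ x ∈ E, a + b ≤ S x) :
    b ^ 2 * ∫ x in E, r x ∂mu ≤ Q * ∫ x, r x ∂mu := by
  set Z := ∫ x, r x ∂mu with hZd
  set A := ∫ x, S x * r x ∂mu with hAd
  set B := ∫ x, S x ^ 2 * r x ∂mu with hBd
  have hA : A / Z ≤ a := by rw [div_le_iff₀ hZ]; exact hmean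
  have hexp : ∀ x, (S x - A / Z) ^ 2 * r x = S x ^ 2 * r x - 2 * (A / Z) * (S x * r x)
      + (A / Z) ^ 2 * r x := by intro x; ring
  have hint : Integrable (fun x => (S x - A / Z) ^ 2 * r x) mu := by
    have : (fun x => (S x - A / Z) ^ 2 * r x) = fun x => S x ^ 2 * r x
      - 2 * (A / Z) * (S x * r x) + (A / Z) ^ 2 * r x := funext hexp
    rw [this]
    exact (hSSr.sub (hSr.const_mul _)).add (hri.const_mul _)
  have hval : ∫ x, (S x - A / Z) ^ 2 * r x ∂mu = B - A ^ 2 / Z := by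
    have : (fun x => (S x - A / Z) ^ 2 * r x) = fun x => S x ^ 2 * r x
      - 2 * (A / Z) * (S x * r x) + (A / Z) ^ 2 * r x := funext hexp
    have hi0 : Integrable (fun x => 2 * (A / Z) * (S x * r x)) mu := hSr.const_mul _
    have hi1 : Integrable (fun x => S x ^ 2 * r x - 2 * (A / Z) * (S x * r x)) mu :=
      hSSr.sub hi0
    have hi2 : Integrable (fun x => (A / Z) ^ 2 * r x) mu := hri.const_mul _
    rw [this, integral_add hi1 hi2, integral_sub hSSr hi0, integral_const_mul,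
      integral_const_mul]
    rw [← hBd, ← hAd, ← hZd]
    field_simp
    ring
  have hQ : B - A ^ 2 / Z ≤ Q * Z := by
    have h1 : (B - A ^ 2 / Z) * Z ≤ (Q * Z) * Z := by
      have : (B - A ^ 2 / Z) * Z = B * Z - A ^ 2 := by field_simp
      rw [this]
      calc B * Z - A ^ 2 ≤ Q * Z ^ 2 := hvar
        _ = Q * Z * Z := by ring
    exact le_of_mul_le_mul_right h1 hZ
  calc b ^ 2 * ∫ x in E, r x ∂mu = ∫ x in E, b ^ 2 * r x ∂mu := by rw [integral_const_mul]
    _ ≤ ∫ x in E, (S x - A / Z) ^ 2 * r x ∂mu := by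
        refine setIntegral_mono_on ((hri.const_mul _).integrableOn) hint.integrableOn hE ?_
        intro x hx
        have h1 := hES x hx
        have h2 : b ≤ S x - A / Z := by linarith
        exact mul_le_mul_of_nonneg_right (pow_le_pow_left₀ hb.le h2 2) (hr x)
    _ ≤ ∫ x, (S x - A / Z) ^ 2 * r x ∂mu := by
        refine setIntegral_le_integral hint (Filter.Eventually.of_forall fun x => ?_)
        exact mul_nonneg (sq_nonneg _) (hr x)
    _ = B - A ^ 2 / Z := hval
    _ ≤ Q * Z := hQ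

/-- finite net of the unit sphere -/
theorem Equi_net (m D : ℕ) (del : ℝ) (hdel : 0 < del) : ∃ G : Finset (V m D),
    (∀ g ∈ G, ‖g‖ = 1) ∧ ∀ g : V m D, ‖g‖ = 1 → ∃ g' ∈ G, ‖g - g'‖ < del := by
  classical
  obtain ⟨t, ht, htf, hcov⟩ := (isCompact_sphere (0 : V m D) 1).finite_cover_balls hdel
  refine ⟨htf.toFinset, ?_, ?_⟩
  · intro g hg
    have := ht (htf.mem_toFinset.1 hg)
    simpa using this
  · intro g hg
    have h1 : g ∈ Metric.sphere (0 : V m D) 1 := by simpa using hg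
    have h2 := hcov h1
    simp only [Set.mem_iUnion] at h2
    obtain ⟨g', hg', hb⟩ := h2
    refine ⟨g', htf.mem_toFinset.2 hg', ?_⟩
    rw [Metric.mem_ball, dist_eq_norm] at hb
    exact hb

theorem Equi_del (p : ℕ) : ∃ del : ℝ, 0 < del ∧ 2 * del < 1 ∧ 1 / 2 ≤ (1 - 4 * del ^ 2) ^ p := by
  have hc : Filter.Tendsto (fun d : ℝ => (1 - 4 * d ^ 2) ^ p) (nhds 0) (nhds ((1 - 4 * (0 : ℝ) ^ 2) ^ p)) := by
    have : Continuous (fun d : ℝ => (1 - 4 * d ^ 2) ^ p) := by fun_prop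
    exact this.tendsto 0
  have h1 : ((1 : ℝ) - 4 * (0 : ℝ) ^ 2) ^ p = 1 := by norm_num
  rw [h1] at hc
  have h2 : ∀ᶠ d in nhds (0 : ℝ), 1 / 2 < (1 - 4 * d ^ 2) ^ p :=
    hc.eventually (lt_mem_nhds (by norm_num : (1 : ℝ) / 2 < 1))
  obtain ⟨e, he, hball⟩ := Metric.eventually_nhds_iff.1 h2
  refine ⟨min (e / 2) (1 / 4), by positivity, ?_, ?_⟩
  · have : min (e / 2) (1 / 4) ≤ 1 / 4 := min_le_right _ _
    linarith
  · refine (hball ?_).le
    rw [Real.dist_eq, sub_zero, abs_of_pos (by positivity)]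
    exact (min_le_left _ _).trans_lt (by linarith)

theorem Equi_wg_lower {m D : ℕ} (p : ℕ) (ep del : ℝ) (hep : 0 < ep) (hdel : 0 < del)
    (hdel2 : 2 * del < 1) (hp : 1 / 2 ≤ (1 - 4 * del ^ 2) ^ p) (g g' : V m D)
    (hgg : ‖g - g'‖ < del) (x : Pt m) (hx : ‖pd g 0 x‖ < del * (enm x) ^ D) :
    1 / 2 ≤ wg p ep g' x := by
  have h0 := enm_nonneg x
  have h1 : ‖pd g' 0 x‖ ≤ 2 * del * enm x ^ D := by
    have e1 : pd g' 0 x = pd g 0 x - pd (g - g') 0 x := by rw [pd_sub_left]; ring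
    rw [e1]
    calc ‖pd g 0 x - pd (g - g') 0 x‖ ≤ ‖pd g 0 x‖ + ‖pd (g - g') 0 x‖ := norm_sub_le _ _
      _ ≤ del * enm x ^ D + ‖g - g'‖ * enm x ^ D := add_le_add hx.le (norm_pd_le _ _)
      _ ≤ del * enm x ^ D + del * enm x ^ D := by
          have := mul_le_mul_of_nonneg_right hgg.le (pow_nonneg h0 D)
          linarith
      _ = 2 * del * enm x ^ D := by ring
  have h2 : ‖pd g' 0 x‖ ^ 2 ≤ 4 * del ^ 2 * nsq x ^ D := by
    calc ‖pd g' 0 x‖ ^ 2 ≤ (2 * del * enm x ^ D) ^ 2 := pow_le_pow_left₀ (norm_nonneg _) h1 2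
      _ = 4 * del ^ 2 * (enm x ^ 2) ^ D := by ring
      _ = 4 * del ^ 2 * nsq x ^ D := by rw [enm_sq]
  have hn := nsq_nonneg x
  have h3 : ‖pd g' 0 x‖ ^ 2 / (nsq x + ep) ^ D ≤ 4 * del ^ 2 := by
    rw [div_le_iff₀ (by positivity)]
    refine h2.trans ?_
    refine mul_le_mul_of_nonneg_left ?_ (by positivity)
    exact pow_le_pow_left₀ hn (by linarith) D
  unfold wg
  refine hp.trans (pow_le_pow_left₀ ?_ (by linarith) p)
  nlinarith

theorem Equi_wg_cont {m D : ℕ} (p : ℕ) (ep : ℝ) (hep : 0 < ep) (g : V m D) :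
    Continuous (wg p ep g) := (wg_smooth p ep hep g).continuous

theorem equidistribution (n : ℕ) (hn : 1 ≤ n) : ∃ del : ℝ, 0 < del ∧ ∃ C : ℝ, 0 < C ∧
    ∀ (k : ℕ) (c : ℝ), 8 * (n + 1) ≤ k → 0 ≤ c →
      C / (Fintype.card (Ex (n + 1) k)) ≤ (n : ℝ) + 1 - c * k →
      ∃ ep0 : ℝ, 0 < ep0 ∧ ∀ ep : ℝ, 0 < ep → ep < ep0 →
        ∫ X in BadS n k del, Real.exp (-Psi n k c ep X) ≤
          (1 / 2) * ∫ X, Real.exp (-Psi n k c ep X) := by
  classical
  set eta : ℝ := 1 / (4 * (16 * ((n : ℝ) + 1)) ^ n) with heta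
  have heta0 : 0 < eta := by positivity
  obtain ⟨p, hp⟩ := mean_bound n (dD n) (eta / 4) (by positivity)
  obtain ⟨del, hdel, hdel2, hdelp⟩ := Equi_del p
  obtain ⟨G, hG1, hG2⟩ := Equi_net (n + 1) (dD n) del hdel
  refine ⟨del, hdel, 64 * (G.card : ℝ) * (p : ℝ) ^ 2 * (dD n : ℝ) ^ 2 / eta ^ 2 + 1,
    by positivity, ?_⟩
  intro k c _ hc hth
  set N : ℝ := (Fintype.card (Ex (n + 1) k) : ℝ) with hN
  have hNpos : 0 < N := by
    rw [hN, card_Ex]
    exact_mod_cast Nat.choose_pos (by omega)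
  set th : ℝ := (n : ℝ) + 1 - c * k with hthd
  have hthpos : 0 < th := by
    refine lt_of_lt_of_le ?_ hth
    positivity
  have hck : c * k < n + 1 := by linarith
  obtain ⟨ep0, hep0, hmean⟩ := hp k c hc hck
  refine ⟨ep0, hep0, ?_⟩
  intro ep hep hep1
  set r : (Ex (n + 1) k → Pt (n + 1)) → ℝ := fun X => Real.exp (-Psi n k c ep X) with hr
  have hri : Integrable r := exp_Psi_integrable n k c ep hep hc hck.le
  have hZ : 0 < ∫ X, r X := exp_Psi_integral_pos n k c ep hep hc hck.le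
  have hr0 : ∀ X, 0 ≤ r X := fun X => (Real.exp_pos _).le
  let S : V (n + 1) (dD n) → (Ex (n + 1) k → Pt (n + 1)) → ℝ := fun g X => ∑ j, wg p ep g (X j)
  have hScont : ∀ g, Continuous (S g) := by
    intro g
    refine continuous_finsetSum _ fun j _ => ?_
    exact (Equi_wg_cont p ep hep g).comp (continuous_apply j)
  have hSb : ∀ g ∈ G, ∀ X, 0 ≤ S g X ∧ S g X ≤ N := by
    intro g hg X
    constructor
    · exact Finset.sum_nonneg fun j _ => (wg_mem p ep hep g (hG1 g hg) (X j)).1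
    · calc S g X ≤ ∑ _j : Ex (n + 1) k, (1 : ℝ) :=
            Finset.sum_le_sum fun j _ => (wg_mem p ep hep g (hG1 g hg) (X j)).2
        _ = N := by simp [hN]
  have hwi : ∀ g ∈ G, ∀ j, Integrable (fun X => wg p ep g (X j) * r X) := by
    intro g hg j
    refine hri.bdd_mul (c := 1) ?_ ?_
    · exact ((Equi_wg_cont p ep hep g).comp (continuous_apply j)).aestronglyMeasurable
    · refine Filter.Eventually.of_forall fun X => ?_
      have := wg_mem p ep hep g (hG1 g hg) (X j)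
      rw [Real.norm_eq_abs, abs_of_nonneg this.1]
      exact this.2
  have hSr : ∀ g ∈ G, Integrable (fun X => S g X * r X) := by
    intro g hg
    refine hri.bdd_mul (c := N) ?_ ?_
    · exact (hScont g).aestronglyMeasurable
    · refine Filter.Eventually.of_forall fun X => ?_
      have := hSb g hg X
      rw [Real.norm_eq_abs, abs_of_nonneg this.1]
      exact this.2
  have hSSr : ∀ g ∈ G, Integrable (fun X => S g X ^ 2 * r X) := by
    intro g hg
    refine hri.bdd_mul (c := N ^ 2) ?_ ?_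
    · exact ((hScont g).pow 2).aestronglyMeasurable
    · refine Filter.Eventually.of_forall fun X => ?_
      have := hSb g hg X
      rw [Real.norm_eq_abs, abs_of_nonneg (sq_nonneg _)]
      exact pow_le_pow_left₀ this.1 this.2 2
  set Q : ℝ := 2 * (p : ℝ) ^ 2 * (dD n : ℝ) ^ 2 * N / th with hQ
  have hcheb : ∀ g ∈ G, (eta * N / 4) ^ 2 * ∫ X in {X | eta * N / 2 ≤ S g X}, r X ≤
      Q * ∫ X, r X := by
    intro g hg
    refine Equi_cheb volume r (S g) hr0 hri hZ (hSr g hg) (hSSr g hg) Q (eta * N / 4)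
      (eta * N / 4) (by positivity) ?_ ?_ _ ?_ ?_
    · exact variance_bound n k c ep hep hc hck (dD n) p g (hG1 g hg)
    · have h1 : ∫ X, S g X * r X = ∑ j, ∫ X, wg p ep g (X j) * r X := by
        rw [← integral_finsetSum _ (fun j _ => hwi g hg j)]
        refine integral_congr_ae (Filter.Eventually.of_forall fun X => ?_)
        simp only [S, Finset.sum_mul]
      rw [h1]
      calc ∑ j, ∫ X, wg p ep g (X j) * r X ≤ ∑ _j : Ex (n + 1) k, (eta / 4 * ∫ X, r X) :=
            Finset.sum_le_sum fun j _ => hmean ep hep hep1 g (hG1 g hg) j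
        _ = eta * N / 4 * ∫ X, r X := by
            rw [Finset.sum_const, Finset.card_univ, nsmul_eq_mul, ← hN]
            ring
    · exact (isClosed_le continuous_const (hScont g)).measurableSet
    · intro X hX
      have : eta * N / 2 ≤ S g X := hX
      linarith
  have hsub : BadS n k del ⊆ ⋃ g ∈ G, {X | eta * N / 2 ≤ S g X} := by
    rintro X ⟨g, hg, hX⟩
    obtain ⟨g', hg', hgg⟩ := hG2 g hg
    simp only [Set.mem_iUnion]
    refine ⟨g', hg', ?_⟩
    change eta * N / 2 ≤ S g' X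
    unfold cnt at hX
    set J := Finset.univ.filter fun j => ‖pd g 0 (X j)‖ < del * (enm (X j)) ^ (dD n) with hJ
    have h1 : (J.card : ℝ) * (1 / 2) ≤ S g' X := by
      calc (J.card : ℝ) * (1 / 2) = ∑ _j ∈ J, (1 / 2 : ℝ) := by
            rw [Finset.sum_const, nsmul_eq_mul]
        _ ≤ ∑ j ∈ J, wg p ep g' (X j) := Finset.sum_le_sum fun j hj =>
            Equi_wg_lower p ep del hep hdel hdel2 hdelp g g' hgg (X j) (Finset.mem_filter.1 hj).2
        _ ≤ S g' X := Finset.sum_le_sum_of_subset_of_nonneg (Finset.subset_univ _)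
            fun j _ _ => (wg_mem p ep hep g' (hG1 g' hg') (X j)).1
    have h2 : eta * N ≤ J.card := by
      have h3 : eN n k + 1 ≤ J.card := hX
      have h4 : eta * N ≤ (eN n k : ℝ) + 1 := by
        unfold eN
        have h5 : Fintype.card (Ex (n + 1) k) < (4 * (16 * (n + 1)) ^ n) *
            (Fintype.card (Ex (n + 1) k) / (4 * (16 * (n + 1)) ^ n) + 1) :=
          Nat.lt_mul_div_succ _ (by positivity)
        have h6 : N ≤ (4 * (16 * ((n : ℝ) + 1)) ^ n) *
            (((Fintype.card (Ex (n + 1) k) / (4 * (16 * (n + 1)) ^ n) : ℕ) : ℝ) + 1) := by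
          rw [hN]
          exact_mod_cast h5.le
        rw [heta, div_mul_eq_mul_div, one_mul, div_le_iff₀ (by positivity), mul_comm]
        exact h6
      have h5 : ((eN n k + 1 : ℕ) : ℝ) ≤ J.card := by exact_mod_cast h3
      push_cast at h5
      linarith
    linarith
  have hmeasE : ∀ g, MeasurableSet {X | eta * N / 2 ≤ S g X} := fun g =>
    (isClosed_le continuous_const (hScont g)).measurableSet
  have hunion : ∫ X in BadS n k del, r X ≤ ∑ g ∈ G, ∫ X in {X | eta * N / 2 ≤ S g X}, r X := by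
    have h1 : ∀ X, (BadS n k del).indicator r X ≤
        ∑ g ∈ G, ({X | eta * N / 2 ≤ S g X}).indicator r X := by
      intro X
      by_cases hX : X ∈ BadS n k del
      · rw [Set.indicator_of_mem hX]
        have h2 := hsub hX
        simp only [Set.mem_iUnion] at h2
        obtain ⟨g, hg, hgX⟩ := h2
        calc r X = ({X | eta * N / 2 ≤ S g X}).indicator r X := by
              rw [Set.indicator_of_mem hgX]
          _ ≤ ∑ g ∈ G, ({X | eta * N / 2 ≤ S g X}).indicator r X :=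
              Finset.single_le_sum (f := fun g => ({X | eta * N / 2 ≤ S g X}).indicator r X)
                (fun g _ => Set.indicator_nonneg (fun X _ => hr0 X) X) hg
      · rw [Set.indicator_of_notMem hX]
        exact Finset.sum_nonneg fun g _ => Set.indicator_nonneg (fun X _ => hr0 X) X
    rw [← integral_indicator (isOpen_BadS_away n k del)]
    have h3 : ∑ g ∈ G, ∫ X in {X | eta * N / 2 ≤ S g X}, r X =
        ∫ X, ∑ g ∈ G, ({X | eta * N / 2 ≤ S g X}).indicator r X := by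
      rw [integral_finsetSum _ (fun g _ => hri.indicator (hmeasE g))]
      exact Finset.sum_congr rfl fun g _ => (integral_indicator (hmeasE g)).symm
    rw [h3]
    refine integral_mono (hri.indicator (isOpen_BadS_away n k del))
      (integrable_finsetSum _ fun g _ => hri.indicator (hmeasE g)) h1
  have hfin : ∑ g ∈ G, ∫ X in {X | eta * N / 2 ≤ S g X}, r X ≤
      (G.card : ℝ) * (Q * (16 / (eta * N) ^ 2) * ∫ X, r X) := by
    rw [← nsmul_eq_mul]
    refine Finset.sum_le_card_nsmul _ _ _ fun g hg => ?_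
    have h1 := hcheb g hg
    have h2 : (eta * N / 4) ^ 2 * (Q * (16 / (eta * N) ^ 2) * ∫ X, r X) = Q * ∫ X, r X := by
      field_simp
      ring
    refine le_of_mul_le_mul_left (h1.trans (le_of_eq h2.symm)) (by positivity)
  refine (hunion.trans hfin).trans ?_
  have h1 : (G.card : ℝ) * (Q * (16 / (eta * N) ^ 2)) ≤ 1 / 2 := by
    have h2 : (64 * (G.card : ℝ) * (p : ℝ) ^ 2 * (dD n : ℝ) ^ 2 / eta ^ 2) / N ≤ th := by
      refine le_trans ?_ hth
      refine div_le_div_of_nonneg_right ?_ hNpos.le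
      linarith
    have h3 : (G.card : ℝ) * (Q * (16 / (eta * N) ^ 2)) =
        (1 / 2) * (((64 * (G.card : ℝ) * (p : ℝ) ^ 2 * (dD n : ℝ) ^ 2 / eta ^ 2) / N) / th) := by
      rw [hQ]
      field_simp
      ring
    rw [h3]
    have h4 : ((64 * (G.card : ℝ) * (p : ℝ) ^ 2 * (dD n : ℝ) ^ 2 / eta ^ 2) / N) / th ≤ 1 := by
      rw [div_le_one hthpos]
      exact h2
    linarith
  calc (G.card : ℝ) * (Q * (16 / (eta * N) ^ 2) * ∫ X, r X)
      = (G.card : ℝ) * (Q * (16 / (eta * N) ^ 2)) * ∫ X, r X := by ring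
    _ ≤ (1 / 2) * ∫ X, r X := mul_le_mul_of_nonneg_right h1 hZ.le

end GPn
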