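/- piece EE3: iterated integrals -/
import Pool.Agent.Lib_MP_e0d435_ag.Defs

open Finset MeasureTheory Complex
open scoped ENNReal ContDiff

namespace GPn

private theorem IterInt_step {κ : Type*} [MeasurableSpace κ] {N : ℕ} {J : Type*} [Fintype J]
    [DecidableEq J] (nu : Measure κ) [SigmaFinite nu] (s : Fin N ≃ J)
    (ph : Fin N → (J → κ) → ℝ≥0∞) (hm : ∀ i, Measurable (ph i))
    (hdep : ∀ i x y, (∀ j ≤ i, x (s j) = y (s j)) → ph i x = ph i y)
    (C : Fin N → ℝ≥0∞) (hC : ∀ i x, ∫⁻ t, ph i (Function.update x (s i) t) ∂nu ≤ C i)
    (m : ℕ) : ∀ k : ℕ, k + m = N → ∀ x : J → κ,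
    lmarginal (fun _ : J => nu) (univ.filter (fun j : J => k ≤ ((s.symm j : Fin N) : ℕ)))
      (fun x => ∏ i, ph i x) x ≤
    (∏ i ∈ univ.filter (fun i : Fin N => (i : ℕ) < k), ph i x) *
      ∏ i ∈ univ.filter (fun i : Fin N => k ≤ (i : ℕ)), C i := by
  have hF : Measurable (fun x => ∏ i, ph i x) :=
    Finset.measurable_fun_prod _ (fun i _ => hm i)
  induction m with
  | zero =>
    intro k hk x
    have h1 : (univ.filter (fun j : J => k ≤ ((s.symm j : Fin N) : ℕ))) = ∅ := by
      apply filter_eq_empty_iff.mpr
      intro j _
      have := (s.symm j).2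
      omega
    have h2 : (univ.filter (fun i : Fin N => (i : ℕ) < k)) = univ := by
      apply filter_true_of_mem
      intro i _
      have := i.2
      omega
    have h3 : (univ.filter (fun i : Fin N => k ≤ (i : ℕ))) = ∅ := by
      apply filter_eq_empty_iff.mpr
      intro j _
      have := j.2
      omega
    rw [h1, h2, h3, lmarginal_empty, prod_empty, mul_one]
  | succ m ih =>
    intro k hk x
    have hkN : k < N := by omega
    set k' : Fin N := ⟨k, hkN⟩ with hk'
    have h1 : (univ.filter (fun j : J => k ≤ ((s.symm j : Fin N) : ℕ))) =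
        insert (s k') (univ.filter (fun j : J => k + 1 ≤ ((s.symm j : Fin N) : ℕ))) := by
      ext j
      simp only [mem_filter, mem_univ, true_and, mem_insert]
      constructor
      · intro h
        rcases Nat.eq_or_lt_of_le h with h | h
        · left
          have : s.symm j = k' := by
            apply Fin.ext
            rw [hk']
            exact h.symm
          rw [← this, Equiv.apply_symm_apply]
        · right; exact h
      · rintro (h | h)
        · rw [h, Equiv.symm_apply_apply]
        · omega
    have hnot : s k' ∉ (univ.filter (fun j : J => k + 1 ≤ ((s.symm j : Fin N) : ℕ))) := by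
      simp only [mem_filter, mem_univ, true_and, Equiv.symm_apply_apply, hk']
      omega
    rw [h1, lmarginal_insert _ hF hnot]
    have hlt : (univ.filter (fun i : Fin N => (i : ℕ) < k + 1)) =
        insert k' (univ.filter (fun i : Fin N => (i : ℕ) < k)) := by
      ext i
      simp only [mem_filter, mem_univ, true_and, mem_insert]
      constructor
      · intro h
        rcases Nat.eq_or_lt_of_le (Nat.lt_succ_iff.mp h) with h | h
        · left; exact Fin.ext h
        · right; exact h
      · rintro (h | h)
        · rw [h]; exact Nat.lt_succ_self k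
        · omega
    have hk1 : k' ∉ (univ.filter (fun i : Fin N => (i : ℕ) < k)) := by
      simp [hk']
    have hge : (univ.filter (fun i : Fin N => k ≤ (i : ℕ))) =
        insert k' (univ.filter (fun i : Fin N => k + 1 ≤ (i : ℕ))) := by
      ext i
      simp only [mem_filter, mem_univ, true_and, mem_insert]
      constructor
      · intro h
        rcases Nat.eq_or_lt_of_le h with h | h
        · left; exact Fin.ext h.symm
        · right; exact h
      · rintro (h | h)
        · rw [h]
        · omega
    have hk2 : k' ∉ (univ.filter (fun i : Fin N => k + 1 ≤ (i : ℕ))) := by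
      simp [hk']
    calc ∫⁻ t, lmarginal (fun _ : J => nu)
          (univ.filter (fun j : J => k + 1 ≤ ((s.symm j : Fin N) : ℕ)))
          (fun x => ∏ i, ph i x) (Function.update x (s k') t) ∂nu
        ≤ ∫⁻ t, (ph k' (Function.update x (s k') t)) *
            ((∏ i ∈ univ.filter (fun i : Fin N => (i : ℕ) < k), ph i x) *
              ∏ i ∈ univ.filter (fun i : Fin N => k + 1 ≤ (i : ℕ)), C i) ∂nu := by
          apply lintegral_mono
          intro t
          refine (ih (k + 1) (by omega) (Function.update x (s k') t)).trans (le_of_eq ?_)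
          rw [hlt, prod_insert hk1, mul_assoc]
          congr 2
          apply prod_congr rfl
          intro i hi
          have hi' : (i : ℕ) < k := (mem_filter.mp hi).2
          apply hdep
          intro j hj
          have hj' : (j : ℕ) ≤ i := hj
          apply Function.update_of_ne
          intro hc
          have := s.injective hc
          rw [this, hk'] at hj'
          simp only at hj'
          omega
      _ = (∫⁻ t, ph k' (Function.update x (s k') t) ∂nu) *
            ((∏ i ∈ univ.filter (fun i : Fin N => (i : ℕ) < k), ph i x) *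
              ∏ i ∈ univ.filter (fun i : Fin N => k + 1 ≤ (i : ℕ)), C i) := by
          apply lintegral_mul_const
          exact (hm k').comp (measurable_update x)
      _ ≤ C k' * ((∏ i ∈ univ.filter (fun i : Fin N => (i : ℕ) < k), ph i x) *
              ∏ i ∈ univ.filter (fun i : Fin N => k + 1 ≤ (i : ℕ)), C i) := by
          gcongr
          exact hC k' x
      _ = _ := by
          rw [hge, prod_insert hk2]
          ring

/-- iterated integrals: the i-th factor depends only on the coordinates s 0, ..., s i -/
theorem lintegral_prod_le {κ : Type*} [MeasurableSpace κ] {N : ℕ} {J : Type*} [Fintype J]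
    [DecidableEq J] (nu : Measure κ) [SigmaFinite nu] (s : Fin N ≃ J)
    (ph : Fin N → (J → κ) → ℝ≥0∞) (hm : ∀ i, Measurable (ph i))
    (hdep : ∀ i x y, (∀ j ≤ i, x (s j) = y (s j)) → ph i x = ph i y)
    (C : Fin N → ℝ≥0∞) (hC : ∀ i x, ∫⁻ t, ph i (Function.update x (s i) t) ∂nu ≤ C i) :
    ∫⁻ x, ∏ i, ph i x ∂(Measure.pi fun _ => nu) ≤ ∏ i, C i := by
  rcases isEmpty_or_nonempty (J → κ) with hE | hne
  · rw [Measure.eq_zero_of_isEmpty (Measure.pi fun _ : J => nu), lintegral_zero_measure]
    exact zero_le
  · obtain ⟨x⟩ := hne
    have h := IterInt_step nu s ph hm hdep C hC N 0 (by omega) x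
    have h1 : (univ.filter (fun j : J => 0 ≤ ((s.symm j : Fin N) : ℕ))) = univ :=
      filter_true_of_mem (fun _ _ => Nat.zero_le _)
    have h2 : (univ.filter (fun i : Fin N => (i : ℕ) < 0)) = ∅ :=
      filter_eq_empty_iff.mpr (fun _ _ => Nat.not_lt_zero _)
    have h3 : (univ.filter (fun i : Fin N => 0 ≤ (i : ℕ))) = univ :=
      filter_true_of_mem (fun _ _ => Nat.zero_le _)
    rw [h1, h2, h3, prod_empty, one_mul, lmarginal_univ] at h
    exact h

end GPn
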