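/- piece EE2: measurability -/
import Pool.Agent.Lib_MP_e0d435_ag.Basic

open Finset MeasureTheory Complex
open scoped ENNReal ContDiff

namespace GPn

/-- the projection onto the orthogonal complement of the first vectors is given by Gram-Schmidt -/
private lemma measGS_proj {m k N : ℕ} (f : Fin N → V m k) (i : Fin N) (v : V m k) :
    ((Submodule.span ℂ {w | ∃ j : Fin N, j < i ∧ w = f j})ᗮ).starProjection v =
      InnerProductSpace.gramSchmidt ℂ (Function.update f i v) i := by
  have hset : {w | ∃ j : Fin N, j < i ∧ w = f j} = (Function.update f i v) '' Set.Iio i := by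
    ext w
    constructor
    · rintro ⟨j, hj, rfl⟩
      exact ⟨j, hj, Function.update_of_ne (ne_of_lt hj) _ _⟩
    · rintro ⟨j, hj, rfl⟩
      exact ⟨j, hj, Function.update_of_ne (ne_of_lt hj) _ _⟩
  rw [hset, ← InnerProductSpace.span_gramSchmidt_Iio ℂ (Function.update f i v) i]
  have hv : (Function.update f i v) i = v := Function.update_self _ _ _
  generalize Function.update f i v = g at hv ⊢
  subst hv
  have h1 : InnerProductSpace.gramSchmidt ℂ g i ∈
      (Submodule.span ℂ (InnerProductSpace.gramSchmidt ℂ g '' Set.Iio i))ᗮ := by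
    rw [Submodule.mem_orthogonal]
    intro u hu
    induction hu using Submodule.span_induction with
    | mem x hx =>
      obtain ⟨j, hj, rfl⟩ := hx
      exact InnerProductSpace.gramSchmidt_orthogonal ℂ g (ne_of_lt hj)
    | zero => simp
    | add x y _ _ hx hy => rw [inner_add_left, hx, hy, add_zero]
    | smul a x _ hx => rw [inner_smul_left, hx, mul_zero]
  have h2 : g i - InnerProductSpace.gramSchmidt ℂ g i ∈
      (Submodule.span ℂ (InnerProductSpace.gramSchmidt ℂ g '' Set.Iio i)) := by
    have h3 := InnerProductSpace.gramSchmidt_def'' ℂ g i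
    have h4 : g i - InnerProductSpace.gramSchmidt ℂ g i = ∑ j ∈ Finset.Iio i,
        (inner ℂ (InnerProductSpace.gramSchmidt ℂ g j) (g i) /
          ((‖InnerProductSpace.gramSchmidt ℂ g j‖ : ℂ)) ^ 2) •
          InnerProductSpace.gramSchmidt ℂ g j := by
      rw [sub_eq_iff_eq_add']
      exact h3
    rw [h4]
    refine Submodule.sum_mem _ fun j hj => Submodule.smul_mem _ _ (Submodule.subset_span ?_)
    exact ⟨j, Finset.mem_Iio.mp hj, rfl⟩
  apply Submodule.eq_starProjection_of_mem_orthogonal h1
  exact Submodule.le_orthogonal_orthogonal _ h2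

/-- Gram-Schmidt of measurable families is measurable -/
private lemma measGS_gs {α : Type*} [MeasurableSpace α] {m k N : ℕ} (g : α → Fin N → V m k)
    (hg : ∀ j, Measurable fun a => g a j) (i : Fin N) :
    Measurable fun a => InnerProductSpace.gramSchmidt ℂ (g a) i := by
  induction i using WellFoundedLT.induction with
  | ind i ih =>
    have h0 : ∀ a, InnerProductSpace.gramSchmidt ℂ (g a) i = g a i - ∑ j ∈ Finset.Iio i,
        (inner ℂ (InnerProductSpace.gramSchmidt ℂ (g a) j) (g a i) /
          ((‖InnerProductSpace.gramSchmidt ℂ (g a) j‖ : ℂ)) ^ 2) •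
          InnerProductSpace.gramSchmidt ℂ (g a) j := by
      intro a
      rw [eq_sub_iff_add_eq]
      exact (InnerProductSpace.gramSchmidt_def'' ℂ (g a) i).symm
    simp_rw [h0]
    refine (hg i).sub (Finset.measurable_fun_sum _ fun j hj => ?_)
    have hj' := ih j (Finset.mem_Iio.mp hj)
    have hc : Measurable fun a => (inner ℂ (InnerProductSpace.gramSchmidt ℂ (g a) j) (g a i) /
        ((‖InnerProductSpace.gramSchmidt ℂ (g a) j‖ : ℂ)) ^ 2 : ℂ) := by
      refine Measurable.div ?_ ?_
      · exact Measurable.inner hj' (hg i)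
      · exact (Complex.measurable_ofReal.comp hj'.norm).pow_const 2
    exact hc.smul hj'

private lemma measGS_norm {m k N : ℕ} (s : Fin N → Ex m k) (i : Fin N) (al : Fin m → ℕ) :
    Measurable (fun X : Ex m k → Pt m => ‖(Wo X s i).starProjection (evd k al (X (s i)))‖) := by
  unfold Wo
  have h0 : ∀ X : Ex m k → Pt m,
      ((Submodule.span ℂ {v | ∃ j : Fin N, j < i ∧ v = evd k 0 (X (s j))})ᗮ).starProjection
        (evd k al (X (s i))) = InnerProductSpace.gramSchmidt ℂ
          (Function.update (fun j => evd k 0 (X (s j))) i (evd k al (X (s i)))) i :=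
    fun X => measGS_proj (fun j => evd k 0 (X (s j))) i _
  simp_rw [h0]
  refine (measGS_gs _ (fun j => ?_) i).norm
  by_cases hj : j = i
  · subst hj
    simp only [Function.update_self]
    exact ((continuous_evd k al).comp (continuous_apply (s j))).measurable
  · simp only [Function.update_of_ne hj]
    exact ((continuous_evd k 0).comp (continuous_apply (s j))).measurable

theorem measurable_bW {m k N : ℕ} (s : Fin N → Ex m k) (i : Fin N) :
    Measurable (fun X : Ex m k → Pt m => bW (Wo X s i) (X (s i))) := by
  unfold bW
  exact measGS_norm s i 0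

theorem measurable_JW {m k N : ℕ} (l : ℕ) (s : Fin N → Ex m k) (i : Fin N) :
    Measurable (fun X : Ex m k → Pt m => JW l (Wo X s i) (X (s i))) := by
  unfold JW
  exact Finset.measurable_fun_sum _ fun al _ => measGS_norm s i al.1

/-- for a fixed subspace -/
theorem measurable_bW' {m k : ℕ} (W : Submodule ℂ (V m k)) : Measurable (bW W) := by
  unfold bW
  exact ((W.starProjection.continuous.comp (continuous_evd k 0)).norm).measurable

theorem measurable_JW' {m k : ℕ} (l : ℕ) (W : Submodule ℂ (V m k)) : Measurable (JW l W) := by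
  unfold JW
  exact Finset.measurable_fun_sum _ fun al _ =>
    ((W.starProjection.continuous.comp (continuous_evd k al.1)).norm).measurable

end GPn
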