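/- piece ED: one step estimates -/
import Pool.Agent.Lib_MP_e0d435_ag.Basic
import Pool.Agent.Lib_MP_e0d435_ag.Null
import Pool.Agent.Lib_MP_e0d435_ag.Sublevel
import Pool.Agent.Lib_MP_e0d435_ag.MeasGS

open Finset MeasureTheory Complex
open scoped ENNReal ContDiff

namespace GPn

private lemma os_inner_proj {m k : ℕ} (W : Submodule ℂ (V m k)) (F : V m k) (hF : F ∈ W)
    (v : V m k) : inner ℂ (W.starProjection v) F = inner ℂ v F := by
  rw [Submodule.inner_starProjection_left_eq_right, Submodule.starProjection_eq_self_iff.2 hF]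

private lemma os_pd_le {m k : ℕ} (W : Submodule ℂ (V m k)) (F : V m k) (hF : F ∈ W)
    (al : Fin m → ℕ) (y : Pt m) :
    ‖pd F al y‖ ≤ ‖W.starProjection (evd k al y)‖ * ‖F‖ := by
  rw [← inner_evd, ← os_inner_proj W F hF]
  exact norm_inner_le_norm _ _

private lemma os_proj_le {m k : ℕ} (W : Submodule ℂ (V m k))
    (b : OrthonormalBasis (Fin (Module.finrank ℂ W)) ℂ W) (al : Fin m → ℕ) (y : Pt m) :
    ‖W.starProjection (evd k al y)‖ ≤ ∑ i, ‖pd (b i : V m k) al y‖ := by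
  have h1 : W.starProjection (evd k al y) =
      ∑ i, (inner ℂ (b i : V m k) (evd k al y)) • (b i : V m k) := by
    have h2 := b.sum_repr' (W.orthogonalProjectionOnto (evd k al y))
    rw [Submodule.starProjection_apply, ← h2]
    push_cast
    refine Finset.sum_congr rfl fun i _ => ?_
    congr 1
    rw [Submodule.coe_inner, ← Submodule.starProjection_apply,
      ← Submodule.inner_starProjection_left_eq_right,
      Submodule.starProjection_eq_self_iff.2 (b i).2]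
  rw [h1]
  refine (norm_sum_le _ _).trans (Finset.sum_le_sum fun i _ => ?_)
  rw [norm_smul]
  have h3 : ‖(b i : V m k)‖ = 1 := b.orthonormal.1 i
  rw [h3, mul_one, ← inner_evd, ← norm_inner_symm]

private lemma os_bW_nonneg {m k : ℕ} (W : Submodule ℂ (V m k)) (y : Pt m) : 0 ≤ bW W y :=
  norm_nonneg _

private lemma os_JW_nonneg {m k : ℕ} (l : ℕ) (W : Submodule ℂ (V m k)) (y : Pt m) :
    0 ≤ JW l W y := Finset.sum_nonneg fun _ _ => norm_nonneg _

/-- the volume estimate, uniform in the subspace -/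
private lemma os_vol (m k l : ℕ) (hl : 1 ≤ l) : ∃ C : ℝ, 0 < C ∧
    ∀ (W : Submodule ℂ (V m k)) (ta s : ℝ), 0 < ta → 0 < s →
    volume {x : Pt m | x ∈ Ann m ∧ bW W x ≤ ta ∧ s ≤ JW l W x} ≤
      ENNReal.ofReal (C * (ta / s) ^ (2 / (l : ℝ))) := by
  obtain ⟨C, hC, h⟩ := sublevel m k l hl
  set N := Fintype.card (Ex m k) with hN
  set L := Fintype.card (Ex m l) with hL
  set K : ℝ := (L : ℝ) * N + 1 with hK
  have hK0 : 0 < K := by positivity
  refine ⟨(K * (C * K ^ (2 / (l : ℝ)))), by positivity, fun W ta s hta hs => ?_⟩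
  have hr : Module.finrank ℂ W ≤ N := by
    have h1 := Submodule.finrank_le W
    have h2 : Module.finrank ℂ (V m k) = N := by
      rw [hN]; exact finrank_euclideanSpace
    rwa [h2] at h1
  let b := stdOrthonormalBasis ℂ W
  have hsub : {x : Pt m | x ∈ Ann m ∧ bW W x ≤ ta ∧ s ≤ JW l W x} ⊆
      ⋃ p : Ex m l × Fin (Module.finrank ℂ W),
        {x : Pt m | x ∈ Ann m ∧ ‖pd (b p.2 : V m k) 0 x‖ ≤ ta ∧
          s / K ≤ ‖pd (b p.2 : V m k) p.1.1 x‖} := by
    rintro x ⟨hx, hx1, hx2⟩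
    rw [Set.mem_iUnion]
    by_contra hcon
    push Not at hcon
    have h3 : ∀ p : Ex m l × Fin (Module.finrank ℂ W), ‖pd (b p.2 : V m k) p.1.1 x‖ < s / K := by
      intro p
      by_contra h4
      push Not at h4
      refine hcon p ⟨hx, ?_, h4⟩
      have h5 := os_pd_le W (b p.2 : V m k) (b p.2).2 0 x
      have h6 : ‖(b p.2 : V m k)‖ = 1 := b.orthonormal.1 p.2
      rw [h6, mul_one] at h5
      exact h5.trans hx1
    have h7 : JW l W x ≤ (L : ℝ) * (N * (s / K)) := by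
      rw [JW]
      refine (Finset.sum_le_card_nsmul _ _ (N * (s / K)) fun al _ => ?_).trans (le_of_eq ?_)
      · refine (os_proj_le W b al.1 x).trans ?_
        refine (Finset.sum_le_card_nsmul _ _ (s / K) fun i _ => (h3 (al, i)).le).trans ?_
        rw [Finset.card_univ, Fintype.card_fin, nsmul_eq_mul]
        have : ((Module.finrank ℂ W : ℕ) : ℝ) ≤ N := by exact_mod_cast hr
        exact mul_le_mul_of_nonneg_right this (by positivity)
      · rw [Finset.card_univ, nsmul_eq_mul]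
    have h8 : (L : ℝ) * (N * (s / K)) < s := by
      have : (L : ℝ) * (N * (s / K)) = ((L : ℝ) * N / K) * s := by ring
      rw [this]
      have h9 : (L : ℝ) * N / K < 1 := by
        rw [div_lt_one hK0]; rw [hK]; linarith
      nlinarith
    linarith
  refine (measure_mono hsub).trans ((measure_iUnion_le _).trans ?_)
  rw [tsum_fintype]
  have h10 : ∀ p : Ex m l × Fin (Module.finrank ℂ W),
      volume {x : Pt m | x ∈ Ann m ∧ ‖pd (b p.2 : V m k) 0 x‖ ≤ ta ∧
          s / K ≤ ‖pd (b p.2 : V m k) p.1.1 x‖} ≤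
        ENNReal.ofReal (C * (ta / (s / K)) ^ (2 / (l : ℝ))) := fun p =>
    h (b p.2 : V m k) p.1 ta (s / K) hta (by positivity)
  refine (Finset.sum_le_card_nsmul _ _ _ fun p _ => h10 p).trans ?_
  rw [Finset.card_univ, nsmul_eq_mul, Fintype.card_prod, Fintype.card_fin]
  have h11 : ta / (s / K) = K * (ta / s) := by field_simp
  rw [h11, Real.mul_rpow hK0.le (by positivity)]
  have h12 : ((L * Module.finrank ℂ W : ℕ) : ℝ≥0∞) ≤ ENNReal.ofReal K := by
    rw [← ENNReal.ofReal_natCast]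
    refine ENNReal.ofReal_le_ofReal ?_
    rw [hK]
    push_cast
    have : ((Module.finrank ℂ W : ℕ) : ℝ) ≤ N := by exact_mod_cast hr
    nlinarith [Nat.cast_nonneg (α := ℝ) L]
  refine (mul_le_mul_left h12 _).trans ?_
  rw [← ENNReal.ofReal_mul hK0.le]
  refine ENNReal.ofReal_le_ofReal (le_of_eq ?_)
  ring

/-- dyadic layer cake -/
private lemma os_layer {m : ℕ} (g : Pt m → ℝ) (hg : Measurable g) (B C a q : ℝ) (hB : 0 < B)
    (hC : 0 ≤ C) (hq : 0 ≤ q) (hqa : q < a) (S : Set (Pt m)) (hS : MeasurableSet S)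
    (hSB : ∀ x ∈ S, g x ≤ B) (h0 : volume {x | x ∈ S ∧ g x ≤ 0} = 0)
    (h : ∀ t : ℝ, 0 < t → t ≤ B → volume {x | x ∈ S ∧ t / 2 < g x ∧ g x ≤ t} ≤
      ENNReal.ofReal (C * t ^ a)) :
    ∫⁻ y in S, (ENNReal.ofReal (g y)) ^ (-q) ≤
      ENNReal.ofReal (C * 2 ^ q * B ^ (a - q) * (1 - (2 : ℝ) ^ (q - a))⁻¹) := by
  set E : ℕ → Set (Pt m) := fun j => {x | x ∈ S ∧ B / 2 ^ j / 2 < g x ∧ g x ≤ B / 2 ^ j} with hE
  have hEm : ∀ j, MeasurableSet (E j) := fun j =>
    hS.inter ((measurableSet_lt measurable_const hg).inter (measurableSet_le hg measurable_const))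
  have hsub : S ⊆ {x | x ∈ S ∧ g x ≤ 0} ∪ ⋃ j, E j := by
    intro x hx
    by_cases h1 : g x ≤ 0
    · exact Or.inl ⟨hx, h1⟩
    · push Not at h1
      right
      rw [Set.mem_iUnion]
      -- the largest j with g x ≤ B / 2^j
      have hex : ∃ j : ℕ, B / 2 ^ j / 2 < g x := by
        obtain ⟨j, hj⟩ := exists_nat_gt (B / g x)
        refine ⟨j, ?_⟩
        have h2 : (j : ℝ) < 2 ^ j := by exact_mod_cast Nat.lt_two_pow_self
        have h3 : B / 2 ^ j < g x := by
          rw [div_lt_iff₀ (by positivity)]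
          rw [div_lt_iff₀ h1] at hj
          nlinarith
        have h4 : 0 < B / 2 ^ j := by positivity
        linarith
      classical
      refine ⟨Nat.find hex, hx, Nat.find_spec hex, ?_⟩
      rcases Nat.eq_zero_or_pos (Nat.find hex) with h5 | h5
      · rw [h5]; simpa using hSB x hx
      · have h6 := Nat.find_min hex (Nat.sub_lt h5 one_pos)
        push Not at h6
        refine h6.trans (le_of_eq ?_)
        obtain ⟨r, hr⟩ : ∃ r, Nat.find hex = r + 1 := ⟨Nat.find hex - 1, by omega⟩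
        rw [hr]
        simp only [Nat.add_sub_cancel]
        rw [pow_succ]
        field_simp
  have hterm : ∀ j, ∫⁻ y in E j, (ENNReal.ofReal (g y)) ^ (-q) ≤
      ENNReal.ofReal ((C * 2 ^ q * B ^ (a - q)) * ((2 : ℝ) ^ (q - a)) ^ j) := by
    intro j
    have hBj : 0 < B / 2 ^ j := by positivity
    have h1 : ∫⁻ y in E j, (ENNReal.ofReal (g y)) ^ (-q) ≤
        ∫⁻ _ in E j, ENNReal.ofReal ((B / 2 ^ j / 2) ^ (-q)) := by
      refine setLIntegral_mono' (hEm j) fun y hy => ?_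
      have h2 : 0 < g y := lt_trans (by positivity) hy.2.1
      rw [ENNReal.ofReal_rpow_of_pos h2]
      refine ENNReal.ofReal_le_ofReal ?_
      exact Real.rpow_le_rpow_of_nonpos (by positivity) hy.2.1.le (by linarith)
    refine h1.trans ?_
    rw [setLIntegral_const]
    refine (mul_le_mul_right (h (B / 2 ^ j) hBj (div_le_self hB.le (one_le_pow₀ (by norm_num))))
      _).trans ?_
    rw [← ENNReal.ofReal_mul (by positivity)]
    refine ENNReal.ofReal_le_ofReal (le_of_eq ?_)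
    have h3 : (B / 2 ^ j / 2) ^ (-q) = 2 ^ q * (B / 2 ^ j) ^ (-q) := by
      rw [Real.div_rpow hBj.le (by norm_num), Real.rpow_neg (by norm_num : (0 : ℝ) ≤ 2)]
      field_simp
    have h4 : (B / 2 ^ j) ^ (-q) * (B / 2 ^ j) ^ a = (B / 2 ^ j) ^ (a - q) := by
      rw [← Real.rpow_add hBj]; congr 1; ring
    have h5 : (B / 2 ^ j) ^ (a - q) = B ^ (a - q) * ((2 : ℝ) ^ (q - a)) ^ j := by
      rw [Real.div_rpow hB.le (by positivity), ← Real.rpow_natCast, ← Real.rpow_natCast,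
        ← Real.rpow_mul (by norm_num), ← Real.rpow_mul (by norm_num), div_eq_mul_inv,
        ← Real.rpow_neg (by norm_num)]
      congr 2
      ring
    calc (B / 2 ^ j / 2) ^ (-q) * (C * (B / 2 ^ j) ^ a)
        = C * 2 ^ q * ((B / 2 ^ j) ^ (-q) * (B / 2 ^ j) ^ a) := by rw [h3]; ring
      _ = _ := by rw [h4, h5]; ring
  have hr0 : 0 ≤ (2 : ℝ) ^ (q - a) := by positivity
  have hr1 : (2 : ℝ) ^ (q - a) < 1 :=
    Real.rpow_lt_one_of_one_lt_of_neg (by norm_num) (by linarith)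
  calc ∫⁻ y in S, (ENNReal.ofReal (g y)) ^ (-q)
      ≤ ∫⁻ y in {x | x ∈ S ∧ g x ≤ 0} ∪ ⋃ j, E j, (ENNReal.ofReal (g y)) ^ (-q) :=
        lintegral_mono_set hsub
    _ ≤ (∫⁻ y in {x | x ∈ S ∧ g x ≤ 0}, (ENNReal.ofReal (g y)) ^ (-q)) +
        ∫⁻ y in ⋃ j, E j, (ENNReal.ofReal (g y)) ^ (-q) := lintegral_union_le _ _ _
    _ = ∫⁻ y in ⋃ j, E j, (ENNReal.ofReal (g y)) ^ (-q) := by
        rw [setLIntegral_measure_zero _ _ h0, zero_add]
    _ ≤ ∑' j, ∫⁻ y in E j, (ENNReal.ofReal (g y)) ^ (-q) := lintegral_iUnion_le _ _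
    _ ≤ ∑' j : ℕ, ENNReal.ofReal ((C * 2 ^ q * B ^ (a - q)) * ((2 : ℝ) ^ (q - a)) ^ j) :=
        ENNReal.tsum_le_tsum hterm
    _ = ENNReal.ofReal (∑' j : ℕ, (C * 2 ^ q * B ^ (a - q)) * ((2 : ℝ) ^ (q - a)) ^ j) := by
        rw [ENNReal.ofReal_tsum_of_nonneg (fun j => by positivity)
          ((summable_geometric_of_lt_one hr0 hr1).mul_left _)]
    _ = _ := by rw [tsum_mul_left, tsum_geometric_of_lt_one hr0 hr1]

private lemma os_measAnn (m : ℕ) : MeasurableSet (Ann m) := by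
  have hc := (continuous_nsq (m := m)).measurable
  exact (measurableSet_le measurable_const hc).inter (measurableSet_le hc measurable_const)

private lemma os_bW_le {m k : ℕ} (W : Submodule ℂ (V m k)) (y : Pt m) (hy : y ∈ Ann m) :
    bW W y ≤ 2 ^ k := by
  have h1 : bW W y ≤ ‖evd k 0 y‖ := by
    unfold bW
    exact Submodule.norm_starProjection_apply_le _ _
  rw [norm_ev] at h1
  refine h1.trans (pow_le_pow_left₀ (enm_nonneg y) ?_ k)
  have h2 : enm y ^ 2 ≤ 4 := by rw [enm_sq]; exact hy.2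
  nlinarith [enm_nonneg y]

private lemma os_ite {m : ℕ} (S T : Set (Pt m)) (hT : MeasurableSet T) (f : Pt m → ℝ≥0∞)
    [DecidablePred (· ∈ T)] :
    ∫⁻ y in S, (if y ∈ T then f y else 0) = ∫⁻ y in T ∩ S, f y := by
  rw [← setLIntegral_indicator hT]
  refine lintegral_congr fun y => ?_
  rw [Set.indicator_apply]

theorem one_step (m k l : ℕ) (hl : 1 ≤ l) (q : ℝ) (hq : 0 ≤ q) (hql : q * l ≤ 1 / 2)
    (s0 : ℝ) (hs : 0 < s0) : ∃ C : ℝ≥0∞, C ≠ ⊤ ∧ ∀ W : Submodule ℂ (V m k),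
      ∫⁻ y in Ann m, (if s0 ≤ JW l W y then (ENNReal.ofReal (bW W y)) ^ (-q) else 0) ≤ C := by
  obtain ⟨C, hC, hvol⟩ := os_vol m k l hl
  have hl0 : (0 : ℝ) < l := by exact_mod_cast hl
  have hqa : q < 2 / (l : ℝ) := by
    rw [lt_div_iff₀ hl0]; linarith
  refine ⟨ENNReal.ofReal ((C * (1 / s0) ^ (2 / (l : ℝ))) * 2 ^ q *
    (2 ^ k : ℝ) ^ (2 / (l : ℝ) - q) * (1 - (2 : ℝ) ^ (q - 2 / (l : ℝ)))⁻¹),
    ENNReal.ofReal_ne_top, fun W => ?_⟩
  have hT : MeasurableSet {y : Pt m | s0 ≤ JW l W y} :=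
    measurableSet_le measurable_const (measurable_JW' l W)
  classical
  have h1 := os_ite (Ann m) {y : Pt m | s0 ≤ JW l W y} hT
    (fun y => (ENNReal.ofReal (bW W y)) ^ (-q))
  simp only [Set.mem_ofPred_eq] at h1
  rw [h1]
  refine os_layer (bW W) (measurable_bW' W) (2 ^ k) _ _ q (by positivity) (by positivity) hq hqa
    _ (hT.inter (os_measAnn m)) (fun x hx => os_bW_le W x hx.2) ?_ ?_
  · -- null set
    have h2 : ∀ j : ℕ, volume {x | x ∈ {y : Pt m | s0 ≤ JW l W y} ∩ Ann m ∧ bW W x ≤ 0} ≤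
        ENNReal.ofReal (C * ((((1 : ℝ) / (j + 1)) / s0)) ^ (2 / (l : ℝ))) := by
      intro j
      refine (measure_mono ?_).trans (hvol W (1 / (j + 1)) s0 (by positivity) hs)
      rintro x ⟨⟨hx1, hx2⟩, hx3⟩
      exact ⟨hx2, hx3.trans (by positivity), hx1⟩
    have h3 : Filter.Tendsto (fun j : ℕ => ENNReal.ofReal
        (C * ((((1 : ℝ) / (j + 1)) / s0)) ^ (2 / (l : ℝ)))) Filter.atTop (nhds 0) := by
      have h4 : Filter.Tendsto (fun j : ℕ => C * ((((1 : ℝ) / (j + 1)) / s0)) ^ (2 / (l : ℝ)))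
          Filter.atTop (nhds (C * ((0 / s0)) ^ (2 / (l : ℝ)))) := by
        refine Filter.Tendsto.const_mul _ ?_
        refine Filter.Tendsto.rpow_const ?_ (Or.inr (by positivity))
        exact tendsto_one_div_add_atTop_nhds_zero_nat.div_const _
      have h5 : C * ((0 / s0)) ^ (2 / (l : ℝ)) = 0 := by
        rw [zero_div, Real.zero_rpow (by positivity), mul_zero]
      rw [h5] at h4
      have h6 := ENNReal.tendsto_ofReal h4
      simpa using h6
    exact le_antisymm (ge_of_tendsto' h3 h2) bot_le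
  · intro t ht _
    refine (measure_mono ?_).trans ((hvol W t s0 ht hs).trans (le_of_eq ?_))
    · rintro x ⟨⟨hx1, hx2⟩, hx3⟩
      exact ⟨hx2, hx3.2, hx1⟩
    · congr 1
      have : t / s0 = (1 / s0) * t := by ring
      rw [this, Real.mul_rpow (by positivity) ht.le]
      ring

theorem one_step' (m k l : ℕ) (hl : 1 ≤ l) (q : ℝ) (hq : 0 ≤ q) (hql : q * l ≤ 1 / 2) :
    ∃ C : ℝ≥0∞, C ≠ ⊤ ∧ ∀ W : Submodule ℂ (V m k), W ≠ ⊥ →
      ∫⁻ y in Ann m, (if bW W y ≤ (JW l W y) ^ 2 then (ENNReal.ofReal (bW W y)) ^ (-q) else 0) ≤ C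
      := by
  obtain ⟨C, hC, hvol⟩ := os_vol m k l hl
  have hl0 : (0 : ℝ) < l := by exact_mod_cast hl
  have hqa : q < 1 / (l : ℝ) := by
    rw [lt_div_iff₀ hl0]; linarith
  refine ⟨ENNReal.ofReal ((C * 2 ^ (1 / (l : ℝ))) * 2 ^ q *
    (2 ^ k : ℝ) ^ (1 / (l : ℝ) - q) * (1 - (2 : ℝ) ^ (q - 1 / (l : ℝ)))⁻¹),
    ENNReal.ofReal_ne_top, fun W hW => ?_⟩
  have hT : MeasurableSet {y : Pt m | bW W y ≤ (JW l W y) ^ 2} :=
    measurableSet_le (measurable_bW' W) ((measurable_JW' l W).pow_const 2)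
  classical
  have h1 := os_ite (Ann m) {y : Pt m | bW W y ≤ (JW l W y) ^ 2} hT
    (fun y => (ENNReal.ofReal (bW W y)) ^ (-q))
  simp only [Set.mem_ofPred_eq] at h1
  rw [h1]
  refine os_layer (bW W) (measurable_bW' W) (2 ^ k) _ _ q (by positivity) (by positivity) hq hqa
    _ (hT.inter (os_measAnn m)) (fun x hx => os_bW_le W x hx.2) ?_ ?_
  · -- null set
    obtain ⟨F, hF, hF0⟩ := Submodule.exists_mem_ne_zero_of_ne_bot hW
    refine measure_mono_null ?_ (null_zero F hF0)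
    rintro x ⟨_, hx⟩
    have h2 : bW W x = 0 := le_antisymm hx (os_bW_nonneg W x)
    have h3 := os_pd_le W F hF 0 x
    unfold bW at h2
    rw [h2, zero_mul] at h3
    exact norm_le_zero_iff.1 h3
  · intro t ht _
    have hs : 0 < Real.sqrt (t / 2) := Real.sqrt_pos.2 (by positivity)
    refine (measure_mono ?_).trans ((hvol W t (Real.sqrt (t / 2)) ht hs).trans (le_of_eq ?_))
    · rintro x ⟨⟨hx1, hx2⟩, hx3⟩
      refine ⟨hx2, hx3.2, ?_⟩
      rw [Real.sqrt_le_left (os_JW_nonneg l W x)]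
      exact hx3.1.le.trans hx1
    · congr 1
      have h4 : t / Real.sqrt (t / 2) = Real.sqrt (2 * t) := by
        have h5 : Real.sqrt (2 * t) * Real.sqrt (t / 2) = t := by
          rw [← Real.sqrt_mul (by positivity)]
          have : 2 * t * (t / 2) = t ^ 2 := by ring
          rw [this, Real.sqrt_sq ht.le]
        rw [div_eq_iff hs.ne', h5]
      rw [h4, Real.sqrt_eq_rpow, ← Real.rpow_mul (by positivity),
        Real.mul_rpow (by norm_num) ht.le]
      have h6 : (1 : ℝ) / 2 * (2 / (l : ℝ)) = 1 / (l : ℝ) := by field_simp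
      rw [h6]
      ring

end GPn
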