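/- piece EE1: product formula and greedy order -/
import Pool.Agent.Lib_MP_e0d435_ag.Basic

open Finset MeasureTheory Complex
open scoped ENNReal ContDiff

namespace GPn

private theorem pf_finrank {m k N : ℕ} (s : Fin N ≃ Ex m k) :
    Module.finrank ℂ (V m k) = Fintype.card (Fin N) := by
  rw [finrank_euclideanSpace]
  exact (Fintype.card_congr s).symm

/-- projection of the `i`-th vector to the orthogonal complement of the previous ones -/
private theorem pf_proj {E : Type*} [NormedAddCommGroup E] [InnerProductSpace ℂ E]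
    [FiniteDimensional ℂ E] {N : ℕ} (h : Module.finrank ℂ E = Fintype.card (Fin N))
    (f : Fin N → E) (i : Fin N) :
    ‖((Submodule.span ℂ {v | ∃ j : Fin N, j < i ∧ v = f j})ᗮ).starProjection (f i)‖ =
      ‖inner ℂ (InnerProductSpace.gramSchmidtOrthonormalBasis h f i) (f i)‖ := by
  have hset : {v | ∃ j : Fin N, j < i ∧ v = f j} = f '' Set.Iio i := by
    ext v
    constructor
    · rintro ⟨j, hj, rfl⟩
      exact ⟨j, hj, rfl⟩
    · rintro ⟨j, hj, rfl⟩
      exact ⟨j, hj, rfl⟩
  rw [hset, ← InnerProductSpace.span_gramSchmidt_Iio ℂ f i]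
  have h1 : InnerProductSpace.gramSchmidt ℂ f i ∈
      (Submodule.span ℂ (InnerProductSpace.gramSchmidt ℂ f '' Set.Iio i))ᗮ := by
    rw [Submodule.mem_orthogonal]
    intro u hu
    induction hu using Submodule.span_induction with
    | mem x hx =>
      obtain ⟨j, hj, rfl⟩ := hx
      exact InnerProductSpace.gramSchmidt_orthogonal ℂ f (ne_of_lt hj)
    | zero => simp
    | add x y _ _ hx hy => rw [inner_add_left, hx, hy, add_zero]
    | smul a x _ hx => rw [inner_smul_left, hx, mul_zero]
  have h2 : f i - InnerProductSpace.gramSchmidt ℂ f i ∈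
      (Submodule.span ℂ (InnerProductSpace.gramSchmidt ℂ f '' Set.Iio i)) := by
    have h3 := InnerProductSpace.gramSchmidt_def'' ℂ f i
    have h4 : f i - InnerProductSpace.gramSchmidt ℂ f i = ∑ j ∈ Finset.Iio i,
        (inner ℂ (InnerProductSpace.gramSchmidt ℂ f j) (f i) /
          ((‖InnerProductSpace.gramSchmidt ℂ f j‖ : ℂ)) ^ 2) •
          InnerProductSpace.gramSchmidt ℂ f j := by
      rw [sub_eq_iff_eq_add']
      exact h3
    rw [h4]
    refine Submodule.sum_mem _ fun j hj => Submodule.smul_mem _ _ (Submodule.subset_span ?_)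
    exact ⟨j, Finset.mem_Iio.mp hj, rfl⟩
  have h3 : ((Submodule.span ℂ (InnerProductSpace.gramSchmidt ℂ f '' Set.Iio i))ᗮ).starProjection
      (f i) = InnerProductSpace.gramSchmidt ℂ f i := by
    apply Submodule.eq_starProjection_of_mem_orthogonal h1
    exact Submodule.le_orthogonal_orthogonal _ h2
  rw [h3]
  by_cases h0 : InnerProductSpace.gramSchmidtNormed ℂ f i = 0
  · rw [InnerProductSpace.inner_gramSchmidtOrthonormalBasis_eq_zero h h0, norm_zero]
    have h5 : InnerProductSpace.gramSchmidt ℂ f i = 0 := by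
      unfold InnerProductSpace.gramSchmidtNormed at h0
      rcases smul_eq_zero.mp h0 with h6 | h6
      · have h7 : ‖InnerProductSpace.gramSchmidt ℂ f i‖ = 0 := by
          have := inv_eq_zero.mp h6
          exact Complex.ofReal_eq_zero.mp this
        exact norm_eq_zero.mp h7
      · exact h6
    rw [h5, norm_zero]
  · rw [InnerProductSpace.gramSchmidtOrthonormalBasis_apply h h0]
    unfold InnerProductSpace.gramSchmidtNormed
    have h5 : InnerProductSpace.gramSchmidt ℂ f i ≠ 0 := by
      intro h6
      apply h0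
      unfold InnerProductSpace.gramSchmidtNormed
      rw [h6, smul_zero]
    have h6 : inner ℂ (InnerProductSpace.gramSchmidt ℂ f i) (f i) =
        inner ℂ (InnerProductSpace.gramSchmidt ℂ f i) (InnerProductSpace.gramSchmidt ℂ f i) := by
      have h7 : inner ℂ (InnerProductSpace.gramSchmidt ℂ f i)
          (f i - InnerProductSpace.gramSchmidt ℂ f i) = 0 := by
        have := (Submodule.mem_orthogonal _ _).mp h1 _ h2
        rw [← inner_conj_symm, this, map_zero]
      rw [inner_sub_right, sub_eq_zero] at h7
      exact h7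
    rw [inner_smul_left, h6, inner_self_eq_norm_sq_to_K, norm_mul, RCLike.norm_conj, norm_inv,
      norm_pow]
    have h7 : ‖((‖InnerProductSpace.gramSchmidt ℂ f i‖ : ℝ) : ℂ)‖ =
        ‖InnerProductSpace.gramSchmidt ℂ f i‖ := by simp
    have h8 : ‖InnerProductSpace.gramSchmidt ℂ f i‖ ≠ 0 := norm_ne_zero_iff.mpr h5
    simp only [RCLike.norm_ofReal, abs_norm] at *
    field_simp

theorem Dl_eq_prod {m k N : ℕ} (X : Ex m k → Pt m) (s : Fin N ≃ Ex m k) :
    Dl X = ∏ i, bW (Wo X s i) (X (s i)) := by
  classical
  have hfr := pf_finrank (m := m) (k := k) s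
  obtain ⟨f, hf⟩ : ∃ f : Fin N → V m k, ∀ i, f i = evd k 0 (X (s i)) := ⟨_, fun _ => rfl⟩
  have hdet := InnerProductSpace.gramSchmidtOrthonormalBasis_det hfr f
  obtain ⟨b, hb⟩ : ∃ b, b = InnerProductSpace.gramSchmidtOrthonormalBasis hfr f := ⟨_, rfl⟩
  have hprod : ∏ i, bW (Wo X s i) (X (s i)) = ‖b.toBasis.det f‖ := by
    rw [hb, hdet, norm_prod]
    apply Finset.prod_congr rfl
    intro i _
    rw [← pf_proj hfr f i]
    unfold bW Wo
    simp only [hf]
  rw [hprod]
  -- the standard basis
  obtain ⟨e, he⟩ : ∃ e : OrthonormalBasis (Fin N) ℂ (V m k),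
      e = (EuclideanSpace.basisFun (Ex m k) ℂ).reindex s.symm := ⟨_, rfl⟩
  have h1 : b.toBasis.det f = b.toBasis.det e * e.toBasis.det f := by
    rw [Module.Basis.det_apply, Module.Basis.det_apply, Module.Basis.det_apply, ← Matrix.det_mul]
    congr 1
    have := Module.Basis.toMatrix_mul_toMatrix b.toBasis e.toBasis f
    rw [← this]
    simp
  rw [h1, norm_mul, OrthonormalBasis.det_to_matrix_orthonormalBasis, one_mul]
  -- the matrix in the standard basis
  have h2 : e.toBasis.toMatrix f = ((Mx X).submatrix s s).conjTranspose := by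
    ext i j
    rw [Module.Basis.toMatrix_apply, OrthonormalBasis.coe_toBasis_repr_apply, he, hf]
    simp [Mx, evd]
  rw [Module.Basis.det_apply, h2, Matrix.det_conjTranspose, Matrix.det_submatrix_equiv_self]
  unfold Dl
  simp

theorem Wo_ne_bot {m k N : ℕ} (hN : N = Fintype.card (Ex m k)) (X : Ex m k → Pt m)
    (s : Fin N → Ex m k) (i : Fin N) : Wo X s i ≠ ⊥ := by
  classical
  intro hcon
  unfold Wo at hcon
  have h1 : Submodule.span ℂ {v | ∃ j : Fin N, j < i ∧ v = evd k 0 (X (s j))} = ⊤ :=
    (Submodule.orthogonal_eq_bot_iff).mp hcon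
  have h2 : {v | ∃ j : Fin N, j < i ∧ v = evd k 0 (X (s j))} =
      ((Finset.univ.filter (fun j : Fin N => j < i)).image (fun j => evd k 0 (X (s j))) :
        Finset (V m k)) := by
    ext v
    simp only [Set.mem_ofPred_eq, Finset.coe_image, Set.mem_image, Finset.coe_filter,
      Finset.mem_univ, true_and]
    constructor
    · rintro ⟨j, hj, rfl⟩
      exact ⟨j, hj, rfl⟩
    · rintro ⟨j, hj, rfl⟩
      exact ⟨j, hj, rfl⟩
  rw [h2] at h1
  have h3 := finrank_span_finset_le_card (R := ℂ)
    ((Finset.univ.filter (fun j : Fin N => j < i)).image (fun j => evd k 0 (X (s j))))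
  unfold Set.finrank at h3
  rw [h1, finrank_top, finrank_euclideanSpace] at h3
  have h4 : ((Finset.univ.filter (fun j : Fin N => j < i)).image
      (fun j => evd k 0 (X (s j)))).card ≤ (Finset.univ.filter (fun j : Fin N => j < i)).card :=
    Finset.card_image_le
  have h5 : (Finset.univ.filter (fun j : Fin N => j < i)).card = i := by
    rw [← Fin.card_Iio i]
    congr 1
    ext j
    simp
  have := i.2
  omega

theorem exists_order (n k N l : ℕ) (hN : N = Fintype.card (Ex (n + 1) k)) (s0 : ℝ) (e : ℕ)
    (X : Ex (n + 1) k → Pt (n + 1))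
    (hX : ∀ F : V (n + 1) k, ‖F‖ = 1 →
      {j : Ex (n + 1) k | ∀ al : Ex (n + 1) l, ‖pd F al.1 (X j)‖ < s0}.ncard ≤ e) :
    ∃ s : Fin N ≃ Ex (n + 1) k, ∀ i : Fin N, (i : ℕ) + e < N → s0 ≤ JW l (Wo X s i) (X (s i)) := by
  classical
  obtain ⟨W, hW⟩ : ∃ W : (ℕ → Ex (n + 1) k) → ℕ → Submodule ℂ (V (n + 1) k), ∀ f i, W f i =
      (Submodule.span ℂ {v | ∃ j : ℕ, j < i ∧ v = evd k 0 (X (f j))})ᗮ := ⟨_, fun _ _ => rfl⟩
  have hWN : ∀ (f : ℕ → Ex (n + 1) k) (i : Fin N), Wo X (fun j : Fin N => f j) i = W f i := by
    intro f i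
    rw [hW]
    unfold Wo
    congr 2
    ext v
    constructor
    · rintro ⟨j, hj, rfl⟩
      exact ⟨j, hj, rfl⟩
    · rintro ⟨j, hj, rfl⟩
      exact ⟨⟨j, lt_trans hj i.2⟩, hj, rfl⟩
  have hWc : ∀ (f g : ℕ → Ex (n + 1) k) (i : ℕ), (∀ j, j < i → f j = g j) → W f i = W g i := by
    intro f g i hfg
    rw [hW, hW]
    congr 2
    ext v
    constructor
    · rintro ⟨j, hj, rfl⟩
      exact ⟨j, hj, by rw [hfg j hj]⟩
    · rintro ⟨j, hj, rfl⟩
      exact ⟨j, hj, by rw [hfg j hj]⟩
  -- greedy choice
  have key : ∀ r : ℕ, r ≤ N → ∃ f : ℕ → Ex (n + 1) k, (∀ a b, a < r → b < r → f a = f b → a = b) ∧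
      ∀ i, i < r → i + e < N → s0 ≤ JW l (W f i) (X (f i)) := by
    intro r
    induction r with
    | zero =>
      intro _
      rcases Nat.eq_zero_or_pos N with h0 | h0
      · -- no exponents at all: impossible to pick a function unless the type is nonempty
        have hne : Nonempty (Ex (n + 1) k) := by
          refine ⟨⟨fun i => if i = 0 then k else 0, ?_⟩⟩
          simp
        obtain ⟨y⟩ := hne
        exact ⟨fun _ => y, fun a b ha => absurd ha (Nat.not_lt_zero _),
          fun i hi => absurd hi (Nat.not_lt_zero _)⟩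
      · have hne : Nonempty (Ex (n + 1) k) := by
          rw [hN] at h0
          exact Fintype.card_pos_iff.mp h0
        obtain ⟨y⟩ := hne
        exact ⟨fun _ => y, fun a b ha => absurd ha (Nat.not_lt_zero _),
          fun i hi => absurd hi (Nat.not_lt_zero _)⟩
    | succ r ih =>
      intro hr
      obtain ⟨f, hf1, hf2⟩ := ih (by omega)
      -- used indices
      obtain ⟨U, hU⟩ : ∃ U : Finset (Ex (n + 1) k), U = (Finset.range r).image f := ⟨_, rfl⟩
      have hUc : U.card ≤ r := by
        rw [hU]
        exact le_trans Finset.card_image_le (by simp)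
      obtain ⟨y, hyU, hyJ⟩ : ∃ y, y ∉ U ∧ (r + e < N → s0 ≤ JW l (W f r) (X y)) := by
        by_cases hre : r + e < N
        · have hne : W f r ≠ ⊥ := by
            have := Wo_ne_bot hN X (fun j : Fin N => f j) ⟨r, by omega⟩
            rwa [hWN] at this
          obtain ⟨F0, hF0, hF0n⟩ := Submodule.exists_mem_ne_zero_of_ne_bot hne
          obtain ⟨F, hF, hFn⟩ : ∃ F ∈ W f r, ‖F‖ = 1 := by
            refine ⟨((‖F0‖ : ℂ)⁻¹) • F0, Submodule.smul_mem _ _ hF0, ?_⟩
            rw [norm_smul, norm_inv, Complex.norm_real, norm_norm]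
            exact inv_mul_cancel₀ (norm_ne_zero_iff.mpr hF0n)
          have h1 := hX F hFn
          have h2 : (U ∪ Finset.univ.filter (fun j : Ex (n + 1) k =>
              ∀ al : Ex (n + 1) l, ‖pd F al.1 (X j)‖ < s0)).card < Fintype.card (Ex (n + 1) k) := by
            have h3 : {j : Ex (n + 1) k | ∀ al : Ex (n + 1) l, ‖pd F al.1 (X j)‖ < s0} =
                ((Finset.univ.filter (fun j : Ex (n + 1) k =>
              ∀ al : Ex (n + 1) l, ‖pd F al.1 (X j)‖ < s0) : Finset (Ex (n + 1) k)) :
                Set (Ex (n + 1) k)) := by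
              ext j
              simp
            rw [h3, Set.ncard_coe_finset] at h1
            have h4 := Finset.card_union_le U (Finset.univ.filter (fun j : Ex (n + 1) k =>
              ∀ al : Ex (n + 1) l, ‖pd F al.1 (X j)‖ < s0))
            omega
          obtain ⟨y, hy⟩ : ∃ y, y ∉ (U ∪ Finset.univ.filter (fun j : Ex (n + 1) k =>
              ∀ al : Ex (n + 1) l, ‖pd F al.1 (X j)‖ < s0)) := by
            by_contra hcon
            push Not at hcon
            rw [Finset.eq_univ_iff_forall.mpr hcon, Finset.card_univ] at h2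
            exact lt_irrefl _ h2
          rw [Finset.mem_union, not_or, Finset.mem_filter, not_and] at hy
          have hy2 := hy.2 (Finset.mem_univ _)
          push Not at hy2
          obtain ⟨al, hal⟩ := hy2
          refine ⟨y, hy.1, fun _ => le_trans hal ?_⟩
          have h5 : ‖pd F al.1 (X y)‖ ≤ ‖(W f r).starProjection (evd k al.1 (X y))‖ := by
            rw [← inner_evd]
            have h6 : inner ℂ (evd k al.1 (X y)) F =
                inner ℂ ((W f r).starProjection (evd k al.1 (X y))) F := by
              rw [Submodule.inner_starProjection_left_eq_right,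
                Submodule.starProjection_eq_self_iff.mpr hF]
            rw [h6]
            refine le_trans (norm_inner_le_norm _ _) ?_
            rw [hFn, mul_one]
          refine le_trans h5 ?_
          unfold JW
          exact Finset.single_le_sum (f := fun al : Ex (n + 1) l =>
            ‖(W f r).starProjection (evd k al.1 (X y))‖) (fun _ _ => norm_nonneg _)
            (Finset.mem_univ al)
        · obtain ⟨y, hy⟩ : ∃ y, y ∉ U := by
            by_contra hcon
            push Not at hcon
            rw [Finset.eq_univ_iff_forall.mpr hcon, Finset.card_univ] at hUc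
            omega
          exact ⟨y, hy, fun h => absurd h hre⟩
      have hup : ∀ a, a < r → Function.update f r y a = f a := fun a ha =>
        Function.update_of_ne (by omega) _ _
      have hup2 : Function.update f r y r = y := Function.update_self _ _ _
      refine ⟨Function.update f r y, ?_, ?_⟩
      · intro a b ha hb hab
        rcases Nat.lt_succ_iff_lt_or_eq.mp ha with ha' | ha'
        · rcases Nat.lt_succ_iff_lt_or_eq.mp hb with hb' | hb'
          · rw [hup a ha', hup b hb'] at hab
            exact hf1 a b ha' hb' hab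
          · exfalso
            rw [hb', hup a ha', hup2] at hab
            apply hyU
            rw [hU, ← hab]
            exact Finset.mem_image_of_mem _ (Finset.mem_range.mpr ha')
        · rcases Nat.lt_succ_iff_lt_or_eq.mp hb with hb' | hb'
          · exfalso
            rw [ha', hup b hb', hup2] at hab
            apply hyU
            rw [hU, hab]
            exact Finset.mem_image_of_mem _ (Finset.mem_range.mpr hb')
          · omega
      · intro i hi hie
        rcases Nat.lt_succ_iff_lt_or_eq.mp hi with hi' | hi'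
        · rw [hWc _ f i (fun j hj => hup j (by omega)), hup i hi']
          exact hf2 i hi' hie
        · subst hi'
          rw [hWc _ f i (fun j hj => hup j hj), hup2]
          exact hyJ hie
  obtain ⟨f, hf1, hf2⟩ := key N le_rfl
  have hbij : Function.Bijective (fun i : Fin N => f i) := by
    rw [Fintype.bijective_iff_injective_and_card]
    refine ⟨?_, by rw [Fintype.card_fin, hN]⟩
    intro a b hab
    exact Fin.ext (hf1 a b a.2 b.2 hab)
  refine ⟨Equiv.ofBijective _ hbij, ?_⟩
  intro i hi
  have h1 := hf2 i i.2 hi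
  rw [← hWN] at h1
  exact h1

end GPn
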