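/- piece EC: quantitative form by compactness -/
import Pool.Agent.Lib_MP_e0d435_ag.Basic
import Pool.Agent.Lib_MP_e0d435_ag.DimCount
import Pool.Agent.Lib_MP_e0d435_ag.ProdFormula

open Finset MeasureTheory Complex
open scoped ENNReal ContDiff

namespace GPn

private theorem quant_Ann_compact (m : ℕ) : IsCompact (Ann m) := by
  have hc : IsClosed (Ann m) := by
    have h : Ann m = (fun x : Pt m => nsq x) ⁻¹' (Set.Icc 1 4) := by
      ext x
      simp [Ann]
    rw [h]
    exact isClosed_Icc.preimage continuous_nsq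
  refine Metric.isCompact_of_isClosed_isBounded hc ?_
  refine (Metric.isBounded_closedBall (x := (0 : Pt m)) (r := 2)).subset ?_
  intro x hx
  rw [Metric.mem_closedBall, dist_zero_right, pi_norm_le_iff_of_nonneg (by norm_num)]
  intro i
  have h1 : ‖x i‖ ^ 2 ≤ nsq x :=
    Finset.single_le_sum (f := fun i => ‖x i‖ ^ 2) (fun _ _ => by positivity) (Finset.mem_univ i)
  have h2 : nsq x ≤ 4 := hx.2
  nlinarith [norm_nonneg (x i)]

private theorem quant_enm_one {m : ℕ} {x : Pt m} (hx : x ∈ Ann m) : 1 ≤ enm x := by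
  have h1 : 1 ≤ nsq x := hx.1
  rw [← enm_sq] at h1
  nlinarith [enm_nonneg x]

/-- the greedy construction -/
private theorem quant_greedy {m D N : ℕ} (hN : N = Fintype.card (Ex m D)) (B : Set (Pt m))
    (del : ℝ) (hB : ∀ g : V m D, ‖g‖ = 1 → ∃ x ∈ B, del ≤ ‖pd g 0 x‖) (s : Fin N ≃ Ex m D)
    (hne : B.Nonempty) :
    ∃ X : Ex m D → Pt m, (∀ j, X j ∈ B) ∧ ∀ i, del ≤ bW (Wo X s i) (X (s i)) := by
  classical
  obtain ⟨x0, hx0⟩ := hne
  obtain ⟨W, hW⟩ : ∃ W : (ℕ → Pt m) → ℕ → Submodule ℂ (V m D), ∀ f i, W f i =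
      (Submodule.span ℂ {v | ∃ j : ℕ, j < i ∧ v = evd D 0 (f j)})ᗮ := ⟨_, fun _ _ => rfl⟩
  have hWN : ∀ (f : ℕ → Pt m) (i : Fin N), Wo (fun e => f (s.symm e)) s i = W f i := by
    intro f i
    rw [hW]
    unfold Wo
    congr 2
    ext v
    constructor
    · rintro ⟨j, hj, rfl⟩
      exact ⟨j, hj, by simp⟩
    · rintro ⟨j, hj, rfl⟩
      exact ⟨⟨j, lt_trans hj i.2⟩, hj, by simp⟩
  have hWc : ∀ (f g : ℕ → Pt m) (i : ℕ), (∀ j, j < i → f j = g j) → W f i = W g i := by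
    intro f g i hfg
    rw [hW, hW]
    congr 2
    ext v
    constructor
    · rintro ⟨j, hj, rfl⟩
      exact ⟨j, hj, by rw [hfg j hj]⟩
    · rintro ⟨j, hj, rfl⟩
      exact ⟨j, hj, by rw [hfg j hj]⟩
  have key : ∀ r : ℕ, r ≤ N → ∃ f : ℕ → Pt m, (∀ i, f i ∈ B) ∧
      ∀ i, i < r → del ≤ bW (W f i) (f i) := by
    intro r
    induction r with
    | zero =>
      intro _
      exact ⟨fun _ => x0, fun _ => hx0, fun i hi => absurd hi (Nat.not_lt_zero _)⟩
    | succ r ih =>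
      intro hr
      obtain ⟨f, hf1, hf2⟩ := ih (by omega)
      have hne : W f r ≠ ⊥ := by
        have := Wo_ne_bot hN (fun e => f (s.symm e)) s ⟨r, by omega⟩
        rwa [hWN] at this
      obtain ⟨F0, hF0, hF0n⟩ := Submodule.exists_mem_ne_zero_of_ne_bot hne
      obtain ⟨g, hg, hgn⟩ : ∃ g ∈ W f r, ‖g‖ = 1 := by
        refine ⟨((‖F0‖ : ℂ)⁻¹) • F0, Submodule.smul_mem _ _ hF0, ?_⟩
        rw [norm_smul, norm_inv, Complex.norm_real, norm_norm]
        exact inv_mul_cancel₀ (norm_ne_zero_iff.mpr hF0n)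
      obtain ⟨x, hx, hxg⟩ := hB g hgn
      have h5 : ‖pd g 0 x‖ ≤ bW (W f r) x := by
        unfold bW
        rw [← inner_evd]
        have h6 : inner ℂ (evd D 0 x) g = inner ℂ ((W f r).starProjection (evd D 0 x)) g := by
          rw [Submodule.inner_starProjection_left_eq_right,
            Submodule.starProjection_eq_self_iff.mpr hg]
        rw [h6]
        refine le_trans (norm_inner_le_norm _ _) ?_
        rw [hgn, mul_one]
      have hup : ∀ a, a < r → Function.update f r x a = f a := fun a ha =>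
        Function.update_of_ne (by omega) _ _
      have hup2 : Function.update f r x r = x := Function.update_self _ _ _
      refine ⟨Function.update f r x, ?_, ?_⟩
      · intro i
        by_cases hi : i = r
        · subst hi
          rw [hup2]
          exact hx
        · rw [Function.update_of_ne hi]
          exact hf1 i
      · intro i hi
        rcases Nat.lt_succ_iff_lt_or_eq.mp hi with hi' | hi'
        · rw [hWc _ f i (fun j hj => hup j (by omega)), hup i hi']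
          exact hf2 i hi'
        · subst hi'
          rw [hWc _ f i (fun j hj => hup j hj), hup2]
          exact hxg.trans h5
  obtain ⟨f, hf1, hf2⟩ := key N le_rfl
  refine ⟨fun e => f (s.symm e), fun j => hf1 _, fun i => ?_⟩
  have h1 := hf2 i i.2
  rw [← hWN] at h1
  simpa using h1

theorem quant_unisolvent (n k : ℕ) (hn : 1 ≤ n) (hk : 8 * (n + 1) ≤ k) (del : ℝ) (hdel : 0 < del) :
    ∃ s0 : ℝ, 0 < s0 ∧ ∀ F : V (n + 1) k, ‖F‖ = 1 → ∃ g : V (n + 1) (dD n), ‖g‖ = 1 ∧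
      ∀ x ∈ Ann (n + 1), (∀ al : Ex (n + 1) (lL n k), ‖pd F al.1 x‖ < s0) →
        ‖pd g 0 x‖ < del * enm x ^ (dD n) := by
  classical
  obtain ⟨D, hD⟩ : ∃ D, D = dD n := ⟨_, rfl⟩
  obtain ⟨l, hl⟩ : ∃ l, l = lL n k := ⟨_, rfl⟩
  rw [← hD, ← hl]
  obtain ⟨N, hN⟩ : ∃ N, N = Fintype.card (Ex (n + 1) D) := ⟨_, rfl⟩
  have hfac : 1 ≤ n.factorial := Nat.factorial_pos n
  have hprod : 1 ≤ n * (n + 1) * n.factorial := Nat.mul_pos (Nat.mul_pos hn (by omega)) hfac
  have hD' : D + 1 = 8 * (n * (n + 1) * n.factorial) := by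
    have h1 : 8 * n * (n + 1) * n.factorial = 8 * (n * (n + 1) * n.factorial) := by ring
    rw [hD, dD, h1]
    omega
  have hD1 : 1 ≤ D := by omega
  have hlk : l ≤ k := by
    rw [hl, lL]
    exact Nat.div_le_self _ _
  have hl' : k < 8 * (n + 1) * (l + 1) := by
    rw [hl, lL]
    exact Nat.lt_mul_div_succ k (by omega)
  have hmul : n * n.factorial * k < (D + 1) * (l + 1) := by
    rw [hD']
    calc n * n.factorial * k < n * n.factorial * (8 * (n + 1) * (l + 1)) :=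
          Nat.mul_lt_mul_of_pos_left hl' (Nat.mul_pos hn hfac)
      _ = _ := by ring
  -- the compact set and the continuous function
  obtain ⟨Φ, hΦ⟩ : ∃ Φ : V (n + 1) k × (Ex (n + 1) D → Pt (n + 1)) → ℝ, ∀ p, Φ p =
      ∑ j, ∑ al : Ex (n + 1) l, ‖pd p.1 al.1 (p.2 j)‖ := ⟨_, fun _ => rfl⟩
  have hΦc : Continuous Φ := by
    have h0 : Φ = fun p => ∑ j, ∑ al : Ex (n + 1) l, ‖pd p.1 al.1 (p.2 j)‖ := funext hΦ
    rw [h0]
    refine continuous_finsetSum _ fun j _ => continuous_finsetSum _ fun al _ => ?_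
    refine Continuous.norm ?_
    exact (continuous_pd₂ al.1).comp
      (continuous_fst.prodMk ((continuous_apply j).comp continuous_snd))
  obtain ⟨K, hK⟩ : ∃ K : Set (V (n + 1) k × (Ex (n + 1) D → Pt (n + 1))), K =
      (Metric.sphere 0 1 ×ˢ Set.pi Set.univ (fun _ => Ann (n + 1))) ∩ {p | del ^ N ≤ Dl p.2} :=
    ⟨_, rfl⟩
  have hKc : IsCompact K := by
    rw [hK]
    refine IsCompact.inter_right ?_ ?_
    · exact (isCompact_sphere _ _).prod (isCompact_univ_pi fun _ => quant_Ann_compact _)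
    · exact isClosed_le continuous_const (continuous_Dl.comp continuous_snd)
  have hpos : ∀ p ∈ K, 0 < Φ p := by
    rintro ⟨F, Y⟩ hp
    rw [hK] at hp
    obtain ⟨⟨hF, -⟩, hY⟩ := hp
    have hF1 : ‖F‖ = 1 := by simpa using hF
    have hY1 : del ^ N ≤ Dl Y := hY
    rw [hΦ]
    have h0 : 0 ≤ ∑ j, ∑ al : Ex (n + 1) l, ‖pd F al.1 (Y j)‖ := by positivity
    refine lt_of_le_of_ne h0 fun h1 => ?_
    have h2 : ∀ j, ∀ al : Ex (n + 1) l, pd F al.1 (Y j) = 0 := by
      intro j al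
      have h3 := (Finset.sum_eq_zero_iff_of_nonneg (fun j _ => by positivity)).mp h1.symm j
        (Finset.mem_univ j)
      have h4 := (Finset.sum_eq_zero_iff_of_nonneg (fun al _ => by positivity)).mp h3 al
        (Finset.mem_univ al)
      exact norm_eq_zero.mp h4
    have h3 := dimension_count n D k (l + 1) hn hD1 (by omega) (by simpa using hlk) F
      (by
        intro h
        rw [h, norm_zero] at hF1
        exact zero_ne_one hF1) Y
      (by
        have : 0 < del ^ N := pow_pos hdel N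
        exact (this.trans_le hY1).ne') (by simpa using h2)
    exact absurd h3 (not_le.mpr hmul)
  obtain ⟨s1, hs1, hmin⟩ := hKc.exists_forall_le' hΦc.continuousOn hpos
  obtain ⟨M, hM⟩ : ∃ M : ℕ, M = Fintype.card (Ex (n + 1) D) * Fintype.card (Ex (n + 1) l) :=
    ⟨_, rfl⟩
  refine ⟨s1 / (M + 1), by positivity, fun F hF => ?_⟩
  by_contra hcon
  push Not at hcon
  obtain ⟨B, hB⟩ : ∃ B : Set (Pt (n + 1)), B = {x | x ∈ Ann (n + 1) ∧
      ∀ al : Ex (n + 1) l, ‖pd F al.1 x‖ < s1 / (M + 1)} := ⟨_, rfl⟩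
  have hB1 : ∀ g : V (n + 1) D, ‖g‖ = 1 → ∃ x ∈ B, del ≤ ‖pd g 0 x‖ := by
    intro g hg
    obtain ⟨x, hx, hx1, hx2⟩ := hcon g hg
    refine ⟨x, by rw [hB]; exact ⟨hx, hx1⟩, le_trans ?_ hx2⟩
    have h1 : 1 ≤ enm x ^ D := one_le_pow₀ (quant_enm_one hx)
    nlinarith
  have hexD : Nonempty (Ex (n + 1) D) := by
    refine ⟨⟨fun i => if i = 0 then D else 0, ?_⟩⟩
    simp
  obtain ⟨e0⟩ := hexD
  have hBne : B.Nonempty := by
    obtain ⟨x, hx, -⟩ := hB1 (EuclideanSpace.single e0 1) (by simp)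
    exact ⟨x, hx⟩
  obtain ⟨s⟩ : Nonempty (Fin N ≃ Ex (n + 1) D) := by
    rw [hN]
    exact ⟨(Fintype.equivFin _).symm⟩
  obtain ⟨X, hX1, hX2⟩ := quant_greedy hN B del hB1 s hBne
  have hDl : del ^ N ≤ Dl X := by
    rw [Dl_eq_prod X s]
    calc del ^ N = ∏ _i : Fin N, del := by simp
      _ ≤ _ := Finset.prod_le_prod (fun _ _ => hdel.le) fun i _ => hX2 i
  have hXK : (F, X) ∈ K := by
    rw [hK]
    refine ⟨⟨by simpa using hF, ?_⟩, hDl⟩
    intro j _
    have := hX1 j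
    rw [hB] at this
    exact this.1
  have h1 := hmin _ hXK
  rw [hΦ] at h1
  have h2 : ∑ j, ∑ al : Ex (n + 1) l, ‖pd F al.1 (X j)‖ ≤
      ∑ _j : Ex (n + 1) D, ∑ _al : Ex (n + 1) l, s1 / (M + 1) := by
    refine Finset.sum_le_sum fun j _ => Finset.sum_le_sum fun al _ => ?_
    have := hX1 j
    rw [hB] at this
    exact (this.2 al).le
  have h3 : ∑ _j : Ex (n + 1) D, ∑ _al : Ex (n + 1) l, s1 / ((M : ℝ) + 1) =
      M * (s1 / ((M : ℝ) + 1)) := by
    rw [hM]
    simp only [Finset.sum_const, Finset.card_univ, nsmul_eq_mul]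
    push_cast
    ring
  have h4 : (M : ℝ) * (s1 / ((M : ℝ) + 1)) < s1 := by
    rw [mul_div_assoc', div_lt_iff₀ (by positivity)]
    nlinarith
  have h5 : s1 ≤ M * (s1 / ((M : ℝ) + 1)) := by
    rw [← h3]
    exact h1.trans h2
  exact absurd h4 (not_lt.mpr h5)

end GPn
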