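/- piece EF2: generic independence -/
import Pool.Agent.Lib_MP_e0d435_ag.Basic
import Pool.Agent.Lib_MP_e0d435_ag.Null
import Pool.Agent.Lib_MP_e0d435_ag.Cofactor

open Finset MeasureTheory Complex
open scoped ENNReal ContDiff

namespace GPn

/-- a measurable set all of whose slices in the direction `j` are null is null -/
private theorem null_of_slices {A : Type} [Fintype A] [DecidableEq A] {m : ℕ} (j : A)
    (B : Set (A → Pt m)) (hB : MeasurableSet B)
    (h : ∀ X : A → Pt m, volume {y : Pt m | Function.update X j y ∈ B} = 0) : volume B = 0 := by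
  have h1 : volume B = ∫⁻ X : A → Pt m, B.indicator 1 X := by
    rw [lintegral_indicator_one hB]
  have hm : Measurable (B.indicator (1 : (A → Pt m) → ℝ≥0∞)) := measurable_one.indicator hB
  rw [h1, volume_pi, lintegral_eq_lmarginal_univ (0 : A → Pt m),
    lmarginal_erase' _ hm (Finset.mem_univ j)]
  have h2 : (fun x : A → Pt m => ∫⁻ y : Pt m, B.indicator (1 : (A → Pt m) → ℝ≥0∞)
      (Function.update x j y)) = fun _ => 0 := by
    funext x
    have h3 : (fun y : Pt m => B.indicator (1 : (A → Pt m) → ℝ≥0∞) (Function.update x j y)) =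
        ({y : Pt m | Function.update x j y ∈ B}).indicator 1 := by
      funext y
      by_cases hy : Function.update x j y ∈ B
      · rw [Set.indicator_of_mem hy, Set.indicator_of_mem (by exact hy)]
        rfl
      · rw [Set.indicator_of_notMem hy, Set.indicator_of_notMem (by exact hy)]
    rw [h3, lintegral_indicator_one, h x]
    exact measurableSet_preimage (measurable_update x) hB
  rw [h2]
  simp [lmarginal]

variable {m k l w : ℕ}

/-- the jet functionals at `X j0` and the evaluations at the first `s` points `X (ta t)` -/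
private noncomputable def fam (l : ℕ) (j0 : Ex m k) (ta : Fin w → Ex m k) (s : ℕ)
    (X : Ex m k → Pt m) : Ex m l ⊕ {t : Fin w // (t : ℕ) < s} → V m k :=
  Sum.elim (fun al => evd k al.1 (X j0)) (fun t => evd k 0 (X (ta t.1)))

private theorem continuous_fam (j0 : Ex m k) (ta : Fin w → Ex m k) (s : ℕ) :
    Continuous (fam l j0 ta s) := by
  refine continuous_pi fun r => ?_
  rcases r with i | t
  · exact (continuous_evd k i.1).comp (continuous_apply j0)
  · exact (continuous_evd k 0).comp (continuous_apply (ta t.1))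

private theorem measurableSet_fam (j0 : Ex m k) (ta : Fin w → Ex m k) (s : ℕ) :
    MeasurableSet {X : Ex m k → Pt m | LinearIndependent ℂ (fam l j0 ta s X)} :=
  ((isOpen_setOfPred_linearIndependent (𝕜 := ℂ)
    (E := V m k)).preimage (continuous_fam j0 ta s)).measurableSet

/-- a nonzero vector orthogonal to few vectors -/
private theorem exists_orth {ι : Type*} [Fintype ι] (u : ι → V m k)
    (h : Fintype.card ι < Fintype.card (Ex m k)) :
    ∃ F : V m k, F ≠ 0 ∧ ∀ i, inner ℂ (u i) F = 0 := by
  have hfin : Module.finrank ℂ (Submodule.span ℂ (Set.range u)) ≤ Fintype.card ι :=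
    finrank_range_le_card u
  have hpos : 0 < Module.finrank ℂ (Submodule.span ℂ (Set.range u))ᗮ := by
    have h1 := Submodule.finrank_add_finrank_orthogonal (Submodule.span ℂ (Set.range u))
    rw [finrank_euclideanSpace] at h1
    omega
  have hne : (Submodule.span ℂ (Set.range u))ᗮ ≠ ⊥ := by
    intro h
    rw [h, finrank_bot] at hpos
    exact absurd hpos (lt_irrefl _)
  obtain ⟨F, hF, hF0⟩ := Submodule.exists_mem_ne_zero_of_ne_bot hne
  exact ⟨F, hF0, fun i => (Submodule.mem_orthogonal _ _).1 hF _
    (Submodule.subset_span ⟨i, rfl⟩)⟩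

private theorem null_orth (F : V m k) (hF : F ≠ 0) :
    volume {y : Pt m | inner ℂ (evd k 0 y : V m k) F = 0} = 0 := by
  have h2 := null_zero F hF
  have h3 : {y : Pt m | inner ℂ (evd k 0 y : V m k) F = 0} = {x : Pt m | pd F 0 x = 0} := by
    ext y
    simp only [Set.mem_ofPred_eq]
    rw [inner_evd]
  rw [h3, h2]

private theorem fam_update (j0 : Ex m k) (ta : Fin w → Ex m k) (hta : Function.Injective ta)
    (hj : ∀ t, ta t ≠ j0) (s : ℕ) (hs : s < w) (X : Ex m k → Pt m) (y : Pt m) :
    fam l j0 ta s (Function.update X (ta ⟨s, hs⟩) y) = fam l j0 ta s X := by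
  funext r
  rcases r with i | t
  · simp only [fam, Sum.elim_inl]
    rw [Function.update_of_ne (hj _).symm]
  · simp only [fam, Sum.elim_inr]
    rw [Function.update_of_ne]
    intro h
    have h1 := hta h
    have h2 := t.2
    rw [h1] at h2
    exact absurd h2 (lt_irrefl _)

/-- adding one evaluation -/
private theorem fam_succ (j0 : Ex m k) (ta : Fin w → Ex m k) (s : ℕ) (hs : s < w)
    (X : Ex m k → Pt m) (h : LinearIndependent ℂ (fam l j0 ta s X))
    (hn : (evd k 0 (X (ta ⟨s, hs⟩)) : V m k) ∉
      Submodule.span ℂ (Set.range (fam l j0 ta s X))) :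
    LinearIndependent ℂ (fam l j0 ta (s + 1) X) := by
  classical
  have h1 : LinearIndependent ℂ (fun o : Option (Ex m l ⊕ {t : Fin w // (t : ℕ) < s}) =>
      (Option.casesOn' o (evd k 0 (X (ta ⟨s, hs⟩))) (fam l j0 ta s X) : V m k)) :=
    LinearIndependent.option h hn
  let g : Ex m l ⊕ {t : Fin w // (t : ℕ) < s + 1} → Option (Ex m l ⊕ {t : Fin w // (t : ℕ) < s}) :=
    Sum.elim (fun i => some (Sum.inl i)) (fun t => if ht : (t.1 : ℕ) < s then
      some (Sum.inr ⟨t.1, ht⟩) else none)
  have hg : Function.Injective g := by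
    intro r r' hr
    rcases r with i | t <;> rcases r' with i' | t'
    · simp only [g, Sum.elim_inl, Option.some.injEq, Sum.inl.injEq] at hr
      rw [hr]
    · simp only [g, Sum.elim_inl, Sum.elim_inr] at hr
      split_ifs at hr <;> simp at hr
    · simp only [g, Sum.elim_inl, Sum.elim_inr] at hr
      split_ifs at hr <;> simp at hr
    · simp only [g, Sum.elim_inr] at hr
      congr 1
      apply Subtype.ext
      by_cases ht : (t.1 : ℕ) < s
      · by_cases ht' : (t'.1 : ℕ) < s
        · rw [dif_pos ht, dif_pos ht'] at hr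
          simpa using hr
        · rw [dif_pos ht, dif_neg ht'] at hr
          exact absurd hr (by simp)
      · by_cases ht' : (t'.1 : ℕ) < s
        · rw [dif_neg ht, dif_pos ht'] at hr
          exact absurd hr (by simp)
        · apply Fin.ext
          have := t.2
          have := t'.2
          omega
  have h2 := h1.comp g hg
  have h3 : (fun o : Option (Ex m l ⊕ {t : Fin w // (t : ℕ) < s}) =>
      (Option.casesOn' o (evd k 0 (X (ta ⟨s, hs⟩))) (fam l j0 ta s X) : V m k)) ∘ g =
        fam l j0 ta (s + 1) X := by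
    funext r
    rcases r with i | t
    · rfl
    · by_cases ht : (t.1 : ℕ) < s
      · simp only [Function.comp_apply, g, Sum.elim_inr, dif_pos ht, Option.casesOn'_some, fam]
      · have ht2 : t.1 = ⟨s, hs⟩ := by
          apply Fin.ext
          have := t.2
          simp only
          omega
        simp only [Function.comp_apply, g, Sum.elim_inr, dif_neg ht, Option.casesOn'_none, fam]
        rw [ht2]
  rw [h3] at h2
  exact h2

private theorem null_step (hRw : Fintype.card (Ex m l) + w = Fintype.card (Ex m k))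
    (j0 : Ex m k) (ta : Fin w → Ex m k)
    (hta : Function.Injective ta) (hj : ∀ t, ta t ≠ j0) (s : ℕ) (hs : s < w) :
    volume ({X : Ex m k → Pt m | LinearIndependent ℂ (fam l j0 ta s X)} \
      {X : Ex m k → Pt m | LinearIndependent ℂ (fam l j0 ta (s + 1) X)}) = 0 := by
  refine null_of_slices (ta ⟨s, hs⟩) _ ((measurableSet_fam j0 ta s).diff
    (measurableSet_fam j0 ta (s + 1))) fun X => ?_
  have hcard : Fintype.card (Ex m l ⊕ {t : Fin w // (t : ℕ) < s}) < Fintype.card (Ex m k) := by
    rw [Fintype.card_sum, ← hRw]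
    have h1 : Fintype.card {t : Fin w // (t : ℕ) < s} < Fintype.card (Fin w) :=
      Fintype.card_subtype_lt (x := (⟨s, hs⟩ : Fin w)) (by simp)
    rw [Fintype.card_fin] at h1
    omega
  obtain ⟨F, hF0, hF⟩ := exists_orth (fam l j0 ta s X) hcard
  refine measure_mono_null ?_ (null_orth F hF0)
  intro y hy
  simp only [Set.mem_ofPred_eq, Set.mem_sdiff] at hy ⊢
  by_contra hne
  apply hy.2
  refine fam_succ j0 ta s hs _ hy.1 ?_
  rw [fam_update j0 ta hta hj s hs, Function.update_self]
  intro hmem
  apply hne
  have h2 : ∀ u ∈ Submodule.span ℂ (Set.range (fam l j0 ta s X)), inner ℂ u F = 0 := by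
    intro u hu
    induction hu using Submodule.span_induction with
    | mem x hx =>
      obtain ⟨i, rfl⟩ := hx
      exact hF i
    | zero => exact inner_zero_left _
    | add x y _ _ hx hy => rw [inner_add_left, hx, hy, add_zero]
    | smul a x _ hx => rw [inner_smul_left, hx, mul_zero]
  exact h2 _ hmem

private theorem null_all (hRw : Fintype.card (Ex m l) + w = Fintype.card (Ex m k))
    (j0 : Ex m k) (ta : Fin w → Ex m k)
    (hta : Function.Injective ta) (hj : ∀ t, ta t ≠ j0) (s : ℕ) (hs : s ≤ w) :
    volume ({X : Ex m k → Pt m | LinearIndependent ℂ (fun al : Ex m l => evd k al.1 (X j0))} \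
      {X : Ex m k → Pt m | LinearIndependent ℂ (fam l j0 ta s X)}) = 0 := by
  induction s with
  | zero =>
    have h1 : {X : Ex m k → Pt m | LinearIndependent ℂ
        (fun al : Ex m l => evd k al.1 (X j0))} \
      {X : Ex m k → Pt m | LinearIndependent ℂ (fam l j0 ta 0 X)} = ∅ := by
      rw [Set.sdiff_eq_empty]
      intro X hX
      simp only [Set.mem_ofPred_eq] at hX ⊢
      have : IsEmpty {t : Fin w // (t : ℕ) < 0} := ⟨fun t => absurd t.2 (Nat.not_lt_zero _)⟩
      have h2 : LinearIndependent ℂ (fam l j0 ta 0 X ∘ (Sum.inl : Ex m l → _)) := hX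
      let e : Ex m l ≃ Ex m l ⊕ {t : Fin w // (t : ℕ) < 0} := (Equiv.sumEmpty _ _).symm
      exact (linearIndependent_equiv e).1 h2
    rw [h1, measure_empty]
  | succ s ih =>
    have h1 := ih (by omega)
    have h2 := null_step (l := l) hRw j0 ta hta hj s (by omega)
    refine measure_mono_null ?_ (measure_union_null h1 h2)
    intro X hX
    by_cases h3 : LinearIndependent ℂ (fam l j0 ta s X)
    · exact Or.inr ⟨h3, hX.2⟩
    · exact Or.inl ⟨hX.1, h3⟩

/-- the jet functionals at a nonzero point are independent -/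
private theorem jets_indep (hl : l ≤ k) (y : Pt m) (hy : nsq y ≠ 0) :
    LinearIndependent ℂ (fun al : Ex m l => (evd k al.1 y : V m k)) := by
  classical
  rw [Fintype.linearIndependent_iff]
  intro g hg
  have hdet := Jet.Gr_det_ne hl y hy
  by_contra hcon
  push Not at hcon
  apply hdet
  refine Matrix.exists_mulVec_eq_zero_iff.1 ⟨g, ?_, ?_⟩
  · intro h
    obtain ⟨i, hi⟩ := hcon
    exact hi (by rw [h]; rfl)
  · funext al
    have h1 : inner ℂ (evd k al.1 y : V m k) (∑ be : Ex m l, g be • (evd k be.1 y : V m k)) = 0 := by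
      rw [hg, inner_zero_right]
    rw [inner_sum] at h1
    simp only [inner_smul_right, inner_evd] at h1
    rw [Matrix.mulVec, dotProduct]
    refine Eq.trans (Finset.sum_congr rfl fun be _ => ?_) h1
    simp only [Jet.Gr, Matrix.of_apply]
    ring

private theorem null_nsq (hm : 1 ≤ m) : volume {y : Pt m | nsq y = 0} = 0 := by
  have h := mv_null (MvPolynomial.X (⟨0, hm⟩ : Fin m) : MvPolynomial (Fin m) ℂ)
    (MvPolynomial.X_ne_zero _)
  refine measure_mono_null ?_ h
  intro y hy
  simp only [Set.mem_ofPred_eq, MvPolynomial.eval_X] at hy ⊢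
  have h1 := (Finset.sum_eq_zero_iff_of_nonneg (fun i _ => by positivity)).1 hy ⟨0, hm⟩
    (Finset.mem_univ _)
  have h2 : ‖y ⟨0, hm⟩‖ = 0 := by
    rcases pow_eq_zero_iff (two_ne_zero) |>.1 h1 with h
    exact h
  exact norm_eq_zero.1 h2

private theorem null_pt (hm : 1 ≤ m) (j0 : Ex m k) :
    volume {X : Ex m k → Pt m | nsq (X j0) = 0} = 0 := by
  refine null_of_slices j0 _ ?_ fun X => ?_
  · exact (isClosed_singleton.preimage
      (continuous_nsq.comp (continuous_apply j0))).measurableSet
  · have h : {y : Pt m | Function.update X j0 y ∈ {X : Ex m k → Pt m | nsq (X j0) = 0}} =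
        {y : Pt m | nsq y = 0} := by
      ext y
      simp
    rw [h, null_nsq hm]

theorem Cv_ne_zero_ae {m k l w : ℕ} (hm : 1 ≤ m) (hl : l ≤ k) (e : Ex m l ⊕ Fin w ≃ Ex m k)
    (j0 : Ex m k) (ta : Fin w → Ex m k) (hta : Function.Injective ta) (hj : ∀ t, ta t ≠ j0)
    (t0 : Fin w) : ∀ᵐ X : Ex m k → Pt m, Cv e (X j0) (X ∘ ta) t0 ≠ 0 := by
  have hRw : Fintype.card (Ex m l) + w = Fintype.card (Ex m k) := by
    rw [← Fintype.card_congr e, Fintype.card_sum, Fintype.card_fin]
  have h0 := null_all (l := l) hRw j0 ta hta hj w le_rfl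
  have h1 := measure_eq_zero_iff_ae_notMem.1 h0
  have h1' := measure_eq_zero_iff_ae_notMem.1 (null_pt (k := k) hm j0)
  filter_upwards [h1, h1'] with X hX hX' hC
  have hli : LinearIndependent ℂ (fam l j0 ta w X) := by
    by_contra hcon
    exact hX ⟨jets_indep hl _ hX', hcon⟩
  have hdet : (Rm e (X j0) (X ∘ ta)).det ≠ 0 := by
    intro hd
    obtain ⟨u, hu0, hu⟩ := Matrix.exists_mulVec_eq_zero_iff.2 hd
    let F : V m k := WithLp.toLp 2 u
    have hF0 : F ≠ 0 := by
      intro h
      apply hu0
      funext a
      have := congrArg (fun G : V m k => G a) h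
      simpa [F] using this
    have horth : ∀ r, inner ℂ (fam l j0 ta w X r) F = 0 := by
      intro r
      rcases r with i | t
      · have h2 := congrFun hu (e (Sum.inl i))
        simp only [Matrix.mulVec, dotProduct, Rm, Matrix.of_apply, Equiv.symm_apply_apply,
          Sum.elim_inl, Pi.zero_apply] at h2
        simp only [fam, Sum.elim_inl]
        rw [inner_evd, pd, ← h2]
        exact Finset.sum_congr rfl fun a _ => mul_comm _ _
      · have h2 := congrFun hu (e (Sum.inr t.1))
        simp only [Matrix.mulVec, dotProduct, Rm, Matrix.of_apply, Equiv.symm_apply_apply,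
          Sum.elim_inr, Pi.zero_apply, Function.comp_apply] at h2
        simp only [fam, Sum.elim_inr]
        rw [inner_evd, pd, ← h2]
        exact Finset.sum_congr rfl fun a _ => mul_comm _ _
    have hcard : Fintype.card (Ex m l ⊕ {t : Fin w // (t : ℕ) < w}) =
        Module.finrank ℂ (V m k) := by
      rw [Fintype.card_sum, finrank_euclideanSpace, ← hRw]
      congr 1
      have h3 : Fintype.card {t : Fin w // (t : ℕ) < w} = Fintype.card (Fin w) :=
        Fintype.card_congr (Equiv.subtypeUnivEquiv fun t => t.2)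
      rw [h3, Fintype.card_fin]
    have hspan := hli.span_eq_top_of_card_eq_finrank' hcard
    have hFm : F ∈ Submodule.span ℂ (Set.range (fam l j0 ta w X)) := by
      rw [hspan]; exact Submodule.mem_top
    have h4 : ∀ G ∈ Submodule.span ℂ (Set.range (fam l j0 ta w X)), inner ℂ G F = 0 := by
      intro G hG
      induction hG using Submodule.span_induction with
      | mem x hx =>
        obtain ⟨i, rfl⟩ := hx
        exact horth i
      | zero => exact inner_zero_left _
      | add x y _ _ hx hy => rw [inner_add_left, hx, hy, add_zero]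
      | smul a x _ hx => rw [inner_smul_left, hx, mul_zero]
    exact hF0 (inner_self_eq_zero.1 (h4 F hFm))
  have h5 := pd_Cv e (X j0) (X ∘ ta) t0 ((X ∘ ta) t0)
  rw [Function.update_eq_self, hC, pd_zero_left] at h5
  exact hdet h5.symm

end GPn
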