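/- piece EF3: volume of the set where J is small -/
import Pool.Agent.Lib_MP_e0d435_ag.Basic
import Pool.Agent.Lib_MP_e0d435_ag.Null
import Pool.Agent.Lib_MP_e0d435_ag.Sublevel
import Pool.Agent.Lib_MP_e0d435_ag.Quant
import Pool.Agent.Lib_MP_e0d435_ag.IterInt
import Pool.Agent.Lib_MP_e0d435_ag.MeasGS
import Pool.Agent.Lib_MP_e0d435_ag.Cofactor
import Pool.Agent.Lib_MP_e0d435_ag.GenIndep
import Pool.Agent.Lib_MP_e0d435_ag.ProdFormula

open Finset MeasureTheory Complex
open scoped ENNReal ContDiff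

namespace GPn

/-! ### counting -/

private theorem volJ_asc (n k l : ℕ) (h : k < 8 * (n + 1) * (l + 1)) (q : ℕ) :
    (k + 1).ascFactorial q ≤ (16 * (n + 1)) ^ q * (l + 1).ascFactorial q := by
  induction q with
  | zero => simp
  | succ q ih =>
    rw [Nat.ascFactorial_succ, Nat.ascFactorial_succ, pow_succ]
    have h1 : k + 1 + q ≤ 16 * (n + 1) * (l + 1 + q) := by
      have h2 : q ≤ 16 * (n + 1) * q := by nlinarith [Nat.zero_le (n * q)]
      have h3 : 16 * (n + 1) * (l + 1 + q) = 2 * (8 * (n + 1) * (l + 1)) + 16 * (n + 1) * q := by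
        ring
      omega
    calc (k + 1 + q) * (k + 1).ascFactorial q
        ≤ (16 * (n + 1) * (l + 1 + q)) * ((16 * (n + 1)) ^ q * (l + 1).ascFactorial q) :=
          Nat.mul_le_mul h1 ih
      _ = _ := by ring

private theorem volJ_card (n k : ℕ) : Fintype.card (Ex (n + 1) k) ≤
    (16 * (n + 1)) ^ n * Fintype.card (Ex (n + 1) (lL n k)) := by
  rw [card_Ex, card_Ex]
  have h : k < 8 * (n + 1) * (lL n k + 1) := by
    unfold lL
    exact Nat.lt_mul_div_succ k (by positivity)
  have h1 := volJ_asc n k (lL n k) h n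
  rw [Nat.ascFactorial_eq_factorial_mul_choose, Nat.ascFactorial_eq_factorial_mul_choose] at h1
  have h2 : n.factorial * (n + k).choose n ≤
      n.factorial * ((16 * (n + 1)) ^ n * (n + lL n k).choose n) := by
    calc n.factorial * (n + k).choose n = n.factorial * (k + n).choose n := by rw [add_comm n k]
      _ ≤ _ := h1
      _ = _ := by rw [add_comm n (lL n k)]; ring
  exact Nat.le_of_mul_le_mul_left h2 (Nat.factorial_pos n)

theorem card_ineq (n k : ℕ) : 4 * eN n k ≤ Fintype.card (Ex (n + 1) (lL n k)) := by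
  have h1 := volJ_card n k
  have hB : 0 < (16 * (n + 1)) ^ n := by positivity
  have h2 : eN n k * (4 * (16 * (n + 1)) ^ n) ≤ Fintype.card (Ex (n + 1) k) := by
    unfold eN
    exact Nat.div_mul_le_self _ _
  have h3 : (16 * (n + 1)) ^ n * (4 * eN n k) ≤
      (16 * (n + 1)) ^ n * Fintype.card (Ex (n + 1) (lL n k)) := by
    calc (16 * (n + 1)) ^ n * (4 * eN n k) = eN n k * (4 * (16 * (n + 1)) ^ n) := by ring
      _ ≤ _ := h2.trans h1
  exact Nat.le_of_mul_le_mul_left h3 hB

/-! ### measure of one piece -/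

private theorem volJ_order {α : Type*} {N : ℕ} (s1 : Fin N ≃ α) (I : Finset α) :
    ∃ s' : Fin N ≃ α, ∀ i j, s' i ∈ I → s' j ∉ I → j < i := by
  classical
  set f : Fin N → ℕ := fun i => if s1 i ∈ I then 1 else 0 with hf
  refine ⟨(Tuple.sort f).trans s1, fun i j hi hj => ?_⟩
  by_contra h
  have h1 : f (Tuple.sort f i) ≤ f (Tuple.sort f j) := Tuple.monotone_sort f (not_lt.1 h)
  have hi' : f (Tuple.sort f i) = 1 := if_pos hi
  have hj' : f (Tuple.sort f j) = 0 := if_neg hj
  omega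

private theorem volJ_dep {m k l w : ℕ} (e : Ex m l ⊕ Fin w ≃ Ex m k) (j0 : Ex m k)
    (ta : Fin w → Ex m k) (t0 : Fin w) (I : Finset (Ex m k)) (hj0 : j0 ∉ I)
    (hta : ∀ t, t ≠ t0 → ta t ∉ I) (X Y : Ex m k → Pt m) (h : ∀ r, r ∉ I → X r = Y r) :
    Cv e (X j0) (X ∘ ta) t0 = Cv e (Y j0) (Y ∘ ta) t0 := by
  rw [h j0 hj0]
  have h1 : Y ∘ ta = Function.update (X ∘ ta) t0 (Y (ta t0)) := by
    funext t
    by_cases ht : t = t0
    · subst ht; simp
    · rw [Function.update_of_ne ht]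
      exact (h _ (hta t ht)).symm
  rw [h1, Cv_update]

private theorem volJ_Ann (m : ℕ) : MeasurableSet (Ann m) := by
  have h : Measurable (fun x : Pt m => nsq x) := continuous_nsq.measurable
  exact (measurableSet_le measurable_const h).inter (measurableSet_le h measurable_const)

private theorem volJ_Ann_fin (m : ℕ) : volume (Ann m) ≠ ⊤ := by
  have h : Ann m ⊆ Metric.closedBall (0 : Pt m) 2 := by
    intro x hx
    rw [mem_closedBall_zero_iff, pi_norm_le_iff_of_nonneg (by norm_num)]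
    intro i
    have h1 : ‖x i‖ ^ 2 ≤ nsq x :=
      Finset.single_le_sum (f := fun i => ‖x i‖ ^ 2) (fun _ _ => by positivity) (Finset.mem_univ i)
    have h2 : nsq x ≤ 4 := hx.2
    nlinarith [norm_nonneg (x i)]
  exact ne_top_of_le_ne_top measure_closedBall_lt_top.ne (measure_mono h)

private theorem volJ_cont {m k l w : ℕ} (e : Ex m l ⊕ Fin w ≃ Ex m k) (j0 : Ex m k)
    (ta : Fin w → Ex m k) (t0 : Fin w) :
    Continuous (fun X : Ex m k → Pt m => Cv e (X j0) (X ∘ ta) t0) := by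
  have h1 : Continuous (fun X : Ex m k → Pt m => ((X j0, X ∘ ta) : Pt m × (Fin w → Pt m))) := by
    refine Continuous.prodMk (continuous_apply j0) ?_
    exact continuous_pi fun t => continuous_apply (ta t)
  have h2 := (continuous_Cv e t0).comp h1
  exact h2

private theorem volJ_meas {m k l w N : ℕ} (s1 : Fin N ≃ Ex m k)
    (e : Ex m l ⊕ Fin w ≃ Ex m k) (C2 : ℝ)
    (hC2 : ∀ (F : V m k) (al : Ex m l) (ta s : ℝ), 0 < ta → 0 < s →
      volume {x : Pt m | x ∈ Ann m ∧ ‖pd F 0 x‖ ≤ ta ∧ s ≤ ‖pd F al.1 x‖} ≤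
        ENNReal.ofReal (C2 * (ta / s) ^ (2 / (l : ℝ))))
    (j0 : Ex m k) (ta : Fin w → Ex m k) (t0 : Fin w) (I : Finset (Ex m k))
    (alf : Ex m k → Ex m l) (hj0 : j0 ∉ I) (hta : ∀ t, t ≠ t0 → ta t ∉ I) (a b : ℝ)
    (ha : 0 < a) (hb : 0 < b) :
    volume {X : Ex m k → Pt m | X ∈ AnnC m k ∧ Cv e (X j0) (X ∘ ta) t0 ≠ 0 ∧
      ∀ r ∈ I, ‖pd (Cv e (X j0) (X ∘ ta) t0) 0 (X r)‖ ≤ a * ‖Cv e (X j0) (X ∘ ta) t0‖ ∧
        b * ‖Cv e (X j0) (X ∘ ta) t0‖ ≤ ‖pd (Cv e (X j0) (X ∘ ta) t0) (alf r).1 (X r)‖} ≤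
      (volume (Ann m)) ^ (N - I.card) * (ENNReal.ofReal (C2 * (a / b) ^ (2 / (l : ℝ)))) ^ I.card := by
  classical
  obtain ⟨s', hs'⟩ := volJ_order s1 I
  set Q : (Ex m k → Pt m) → V m k := fun X => Cv e (X j0) (X ∘ ta) t0 with hQ
  have hQc : Continuous Q := volJ_cont e j0 ta t0
  have hQn : Measurable (fun X => ‖Q X‖) := hQc.norm.measurable
  have hpd : ∀ (al : Fin m → ℕ) (r : Ex m k), Measurable (fun X => ‖pd (Q X) al (X r)‖) := by
    intro al r
    have h1 : Continuous (fun X : Ex m k → Pt m => (Q X, X r)) := hQc.prodMk (continuous_apply r)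
    exact ((continuous_pd₂ al).comp h1).norm.measurable
  set A : Fin N → Set (Ex m k → Pt m) := fun i => if s' i ∈ I then
      {X | X (s' i) ∈ Ann m ∧ Q X ≠ 0 ∧ ‖pd (Q X) 0 (X (s' i))‖ ≤ a * ‖Q X‖ ∧
        b * ‖Q X‖ ≤ ‖pd (Q X) (alf (s' i)).1 (X (s' i))‖} else {X | X (s' i) ∈ Ann m} with hA
  have hAm : ∀ i, MeasurableSet (A i) := by
    intro i
    have h0 : MeasurableSet {X : Ex m k → Pt m | X (s' i) ∈ Ann m} :=
      (measurable_pi_apply (s' i)) (volJ_Ann m)
    simp only [hA]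
    split_ifs with hi
    · refine h0.inter (MeasurableSet.inter ?_ (MeasurableSet.inter ?_ ?_))
      · exact (isOpen_compl_singleton.preimage hQc).measurableSet
      · exact measurableSet_le (hpd _ _) (hQn.const_mul a)
      · exact measurableSet_le (hQn.const_mul b) (hpd _ _)
    · exact h0
  have hdep : ∀ i x y, (∀ j ≤ i, x (s' j) = y (s' j)) →
      (A i).indicator (1 : (Ex m k → Pt m) → ℝ≥0∞) x = (A i).indicator 1 y := by
    intro i x y hxy
    have hmem : x ∈ A i ↔ y ∈ A i := by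
      simp only [hA]
      split_ifs with hi
      · have h1 : Q x = Q y := by
          refine volJ_dep e j0 ta t0 I hj0 hta x y fun r hr => ?_
          obtain ⟨j, rfl⟩ := s'.surjective r
          exact hxy j (hs' i j hi hr).le
        simp only [Set.mem_ofPred_eq, h1, hxy i le_rfl]
      · simp only [Set.mem_ofPred_eq, hxy i le_rfl]
    by_cases hx : x ∈ A i
    · rw [Set.indicator_of_mem hx, Set.indicator_of_mem (hmem.1 hx)]; rfl
    · rw [Set.indicator_of_notMem hx, Set.indicator_of_notMem fun hc => hx (hmem.2 hc)]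
  set D : ℝ≥0∞ := ENNReal.ofReal (C2 * (a / b) ^ (2 / (l : ℝ))) with hD
  have hC : ∀ i x, ∫⁻ t, (A i).indicator (1 : (Ex m k → Pt m) → ℝ≥0∞)
      (Function.update x (s' i) t) ∂(volume : Measure (Pt m)) ≤
      (if s' i ∈ I then D else volume (Ann m)) := by
    intro i x
    split_ifs with hi
    · have hQu : ∀ t, Q (Function.update x (s' i) t) = Q x := by
        intro t
        refine volJ_dep e j0 ta t0 I hj0 hta _ _ fun r hr => ?_
        have : r ≠ s' i := fun hc => hr (hc ▸ hi)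
        exact Function.update_of_ne this _ _
      by_cases hq : Q x = 0
      · have h1 : ∀ t, (A i).indicator (1 : (Ex m k → Pt m) → ℝ≥0∞)
            (Function.update x (s' i) t) = 0 := by
          intro t
          refine Set.indicator_of_notMem ?_ _
          simp only [hA, if_pos hi, Set.mem_ofPred_eq, hQu]
          intro hc
          exact hc.2.1 hq
        simp [h1]
      · have hq' : 0 < ‖Q x‖ := norm_pos_iff.2 hq
        have h1 : ∀ t, (A i).indicator (1 : (Ex m k → Pt m) → ℝ≥0∞)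
            (Function.update x (s' i) t) =
            {t : Pt m | t ∈ Ann m ∧ ‖pd (Q x) 0 t‖ ≤ a * ‖Q x‖ ∧
              b * ‖Q x‖ ≤ ‖pd (Q x) (alf (s' i)).1 t‖}.indicator 1 t := by
          intro t
          have h2 : Function.update x (s' i) t ∈ A i ↔ t ∈ {t : Pt m | t ∈ Ann m ∧
              ‖pd (Q x) 0 t‖ ≤ a * ‖Q x‖ ∧ b * ‖Q x‖ ≤ ‖pd (Q x) (alf (s' i)).1 t‖} := by
            simp only [hA, if_pos hi, Set.mem_ofPred_eq, hQu, Function.update_self]
            tauto
          by_cases ht : Function.update x (s' i) t ∈ A i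
          · rw [Set.indicator_of_mem ht, Set.indicator_of_mem (h2.1 ht)]; rfl
          · rw [Set.indicator_of_notMem ht, Set.indicator_of_notMem fun hc => ht (h2.2 hc)]
        have hms : MeasurableSet {t : Pt m | t ∈ Ann m ∧ ‖pd (Q x) 0 t‖ ≤ a * ‖Q x‖ ∧
              b * ‖Q x‖ ≤ ‖pd (Q x) (alf (s' i)).1 t‖} := by
          refine (volJ_Ann m).inter (MeasurableSet.inter ?_ ?_)
          · exact measurableSet_le (continuous_pd _ _).norm.measurable measurable_const
          · exact measurableSet_le measurable_const (continuous_pd _ _).norm.measurable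
        simp_rw [h1]
        rw [lintegral_indicator_one hms]
        refine (hC2 (Q x) (alf (s' i)) (a * ‖Q x‖) (b * ‖Q x‖) (by positivity)
          (by positivity)).trans ?_
        rw [mul_div_mul_right _ _ hq'.ne']
    · have h1 : ∀ t, (A i).indicator (1 : (Ex m k → Pt m) → ℝ≥0∞)
          (Function.update x (s' i) t) = (Ann m).indicator 1 t := by
        intro t
        have h2 : Function.update x (s' i) t ∈ A i ↔ t ∈ Ann m := by
          simp only [hA, if_neg hi, Set.mem_ofPred_eq, Function.update_self]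
        by_cases ht : t ∈ Ann m
        · rw [Set.indicator_of_mem ht, Set.indicator_of_mem (h2.2 ht)]; rfl
        · rw [Set.indicator_of_notMem ht, Set.indicator_of_notMem fun hc => ht (h2.1 hc)]
      simp_rw [h1]
      rw [lintegral_indicator_one (volJ_Ann m)]
  have key := lintegral_prod_le (volume : Measure (Pt m)) s'
    (fun i => (A i).indicator (1 : (Ex m k → Pt m) → ℝ≥0∞))
    (fun i => measurable_one.indicator (hAm i)) hdep
    (fun i => if s' i ∈ I then D else volume (Ann m)) hC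
  have hInt : ∀ X : Ex m k → Pt m, ∏ i, (A i).indicator (1 : (Ex m k → Pt m) → ℝ≥0∞) X =
      (⋂ i, A i).indicator 1 X := by
    intro X
    by_cases hX : X ∈ ⋂ i, A i
    · rw [Set.indicator_of_mem hX, Pi.one_apply]
      refine Finset.prod_eq_one fun i _ => ?_
      rw [Set.indicator_of_mem (Set.mem_iInter.1 hX i)]; rfl
    · rw [Set.indicator_of_notMem hX]
      rw [Set.mem_iInter, not_forall] at hX
      obtain ⟨i, hi⟩ := hX
      exact Finset.prod_eq_zero (Finset.mem_univ i) (Set.indicator_of_notMem hi _)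
  simp_rw [hInt] at key
  rw [lintegral_indicator_one (MeasurableSet.iInter hAm)] at key
  have hprod : ∏ i, (if s' i ∈ I then D else volume (Ann m)) =
      (volume (Ann m)) ^ (N - I.card) * D ^ I.card := by
    rw [Equiv.prod_comp s' (fun r => if r ∈ I then D else volume (Ann m)),
      Finset.prod_ite, Finset.prod_const, Finset.prod_const, mul_comm]
    have h1 : (Finset.univ.filter fun r => r ∈ I) = I := by
      ext r; simp
    have h2 : (Finset.univ.filter fun r => r ∉ I) = Iᶜ := by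
      ext r; simp
    have h3 : Fintype.card (Ex m k) = N := by
      rw [← Fintype.card_congr s', Fintype.card_fin]
    rw [h1, h2, Finset.card_compl, h3]
  rw [hprod] at key
  refine le_trans (measure_mono ?_) key
  rintro X ⟨hX1, hX2, hX3⟩
  rw [Set.mem_iInter]
  intro i
  simp only [hA]
  split_ifs with hi
  · exact ⟨hX1 _, hX2, hX3 _ hi⟩
  · exact hX1 _

/-! ### main theorem -/

theorem vol_J_small (n k : ℕ) (hn : 1 ≤ n) (hk : 8 * (n + 1) ≤ k) (del : ℝ) (hdel : 0 < del)
    (N : ℕ) (hN : N = Fintype.card (Ex (n + 1) k)) :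
    ∃ C : ℝ, 0 < C ∧ ∀ (io : ℝ), 0 < io → ∀ (s : Fin N ≃ Ex (n + 1) k) (i : Fin N),
      N ≤ (i : ℕ) + eN n k →
      volume {X | X ∈ AnnC (n + 1) k ∧ X ∉ BadS n k del ∧
          JW (lL n k) (Wo X s i) (X (s i)) ≤ io} ≤
        ENNReal.ofReal (C * io ^ (2 * ((Fintype.card (Ex (n + 1) (lL n k)) : ℝ) - 2 * eN n k)
          / (lL n k))) := by
  classical
  set l := lL n k with hl
  have hl1 : 1 ≤ l := by
    rw [hl, lL, Nat.le_div_iff_mul_le (by positivity)]
    omega
  have hlk : l < k := by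
    rw [hl, lL]
    refine Nat.div_lt_self (by omega) (by omega)
  set R := Fintype.card (Ex (n + 1) l) with hR
  have hRN : R < N := by
    rw [hR, hN, card_Ex, card_Ex]
    obtain ⟨n', rfl⟩ : ∃ n', n = n' + 1 := ⟨n - 1, by omega⟩
    have h1 : n' + 1 + l < n' + 1 + k := by omega
    have h2 : (n' + 1 + l + 1).choose (n' + 1) ≤ (n' + 1 + k).choose (n' + 1) :=
      Nat.choose_le_choose _ (by omega)
    have h3 : 0 < (n' + 1 + l).choose n' := Nat.choose_pos (by omega)
    have h4 : (n' + 1 + l + 1).choose (n' + 1) =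
        (n' + 1 + l).choose n' + (n' + 1 + l).choose (n' + 1) := Nat.choose_succ_succ _ _
    omega
  have hE := card_ineq n k
  rw [← hl, ← hR] at hE
  set w := N - R with hw
  have hw1 : 1 ≤ w := by omega
  have hcard : Fintype.card (Ex (n + 1) l ⊕ Fin w) = Fintype.card (Ex (n + 1) k) := by
    rw [Fintype.card_sum, Fintype.card_fin, ← hR, ← hN, hw]
    omega
  have e : Ex (n + 1) l ⊕ Fin w ≃ Ex (n + 1) k := Fintype.equivOfCardEq hcard
  obtain ⟨C1, hC1, hZ⟩ := exists_many_zeros (n + 1) k l w N (by omega) hlk.le hw1 hN e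
  obtain ⟨C2, hC2, hS⟩ := sublevel (n + 1) k l hl1
  obtain ⟨s0, hs0, hU⟩ := quant_unisolvent n k hn hk del hdel
  set q := R - 2 * eN n k with hq
  set K := Fintype.card ((Fin w → Ex (n + 1) k) × Fin w × Finset (Ex (n + 1) k) ×
    (Ex (n + 1) k → Ex (n + 1) l)) with hK
  set vA := (volume (Ann (n + 1))).toReal with hvA
  have hvA0 : 0 ≤ vA := ENNReal.toReal_nonneg
  have hvAe : volume (Ann (n + 1)) = ENNReal.ofReal vA :=
    (ENNReal.ofReal_toReal (volJ_Ann_fin (n + 1))).symm
  refine ⟨K * (vA ^ (N - q) * (C2 * (C1 / s0) ^ (2 / (l : ℝ))) ^ q) + 1, by positivity, ?_⟩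
  intro io hio s i hi
  have hl0 : (0 : ℝ) < l := by exact_mod_cast hl1
  have hqR : ((q : ℕ) : ℝ) = (R : ℝ) - 2 * eN n k := by
    rw [hq, Nat.cast_sub (by omega)]
    push_cast
    ring
  -- the pieces
  set P : ((Fin w → Ex (n + 1) k) × Fin w × Finset (Ex (n + 1) k) ×
    (Ex (n + 1) k → Ex (n + 1) l)) → Set (Ex (n + 1) k → Pt (n + 1)) := fun p =>
    {X | ((s i ∉ p.2.2.1) ∧ (∀ t, t ≠ p.2.1 → p.1 t ∉ p.2.2.1) ∧ p.2.2.1.card = q) ∧
      (X ∈ AnnC (n + 1) k ∧ Cv e (X (s i)) (X ∘ p.1) p.2.1 ≠ 0 ∧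
      ∀ r ∈ p.2.2.1, ‖pd (Cv e (X (s i)) (X ∘ p.1) p.2.1) 0 (X r)‖ ≤
          (C1 * io) * ‖Cv e (X (s i)) (X ∘ p.1) p.2.1‖ ∧
        s0 * ‖Cv e (X (s i)) (X ∘ p.1) p.2.1‖ ≤
          ‖pd (Cv e (X (s i)) (X ∘ p.1) p.2.1) (p.2.2.2 r).1 (X r)‖)} with hP
  set bd : ℝ := vA ^ (N - q) * (C2 * (C1 * io / s0) ^ (2 / (l : ℝ))) ^ q with hbd
  have hbd0 : 0 ≤ bd := by positivity
  have hPv : ∀ p, volume (P p) ≤ ENNReal.ofReal bd := by
    intro p
    by_cases hv : (s i ∉ p.2.2.1) ∧ (∀ t, t ≠ p.2.1 → p.1 t ∉ p.2.2.1) ∧ p.2.2.1.card = q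
    · have h1 := volJ_meas s e C2 hS (s i) p.1 p.2.1 p.2.2.1 p.2.2.2 hv.1 hv.2.1 (C1 * io) s0
        (by positivity) hs0
      rw [hv.2.2, hvAe, ← ENNReal.ofReal_pow hvA0, ← ENNReal.ofReal_pow (by positivity),
        ← ENNReal.ofReal_mul (by positivity)] at h1
      refine (measure_mono ?_).trans h1
      intro X hX
      exact hX.2
    · have h1 : P p = ∅ := by
        ext X
        simp only [hP, Set.mem_ofPred_eq, Set.mem_empty_iff_false, iff_false]
        exact fun hX => hv hX.1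
      rw [h1, measure_empty]
      exact zero_le
  -- the null set
  set Z : ((Fin w → Ex (n + 1) k) × Fin w) → Set (Ex (n + 1) k → Pt (n + 1)) := fun p =>
    {X | (Function.Injective p.1 ∧ ∀ t, p.1 t ≠ s i) ∧ Cv e (X (s i)) (X ∘ p.1) p.2 = 0} with hZd
  have hZv : ∀ p, volume (Z p) = 0 := by
    intro p
    by_cases hv : Function.Injective p.1 ∧ ∀ t, p.1 t ≠ s i
    · have h1 := Cv_ne_zero_ae (by omega) hlk.le e (s i) p.1 hv.1 hv.2 p.2
      rw [ae_iff] at h1
      refine measure_mono_null ?_ h1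
      intro X hX
      simpa using hX.2
    · have h1 : Z p = ∅ := by
        ext X
        simp only [hZd, Set.mem_ofPred_eq, Set.mem_empty_iff_false, iff_false]
        exact fun hX => hv hX.1
      rw [h1, measure_empty]
  have hcover : {X | X ∈ AnnC (n + 1) k ∧ X ∉ BadS n k del ∧
      JW l (Wo X s i) (X (s i)) ≤ io} ⊆ (⋃ p, Z p) ∪ ⋃ p, P p := by
    rintro X ⟨hXA, hXB, hXJ⟩
    obtain ⟨ta, htai, htaS, t0, ht0⟩ := hZ io hio X hXA s i (by omega) hXJ
    have htane : ∀ t, ta t ≠ s i := by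
      intro t hc
      obtain ⟨j, hj, hjt⟩ := htaS t
      rw [hjt] at hc
      exact hj.ne (s.injective hc)
    by_cases hQ : Cv e (X (s i)) (X ∘ ta) t0 = 0
    · exact Or.inl (Set.mem_iUnion.2 ⟨(ta, t0), ⟨htai, htane⟩, hQ⟩)
    · right
      set Q := Cv e (X (s i)) (X ∘ ta) t0 with hQd
      have hQn : 0 < ‖Q‖ := norm_pos_iff.2 hQ
      obtain ⟨g, hg1, hg2⟩ := hU (((‖Q‖⁻¹ : ℝ) : ℂ) • Q) (by
        rw [norm_smul, Complex.norm_real, norm_inv, norm_norm, inv_mul_cancel₀ hQn.ne'])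
      have hcnt : cnt g del X ≤ eN n k := by
        by_contra hc
        exact hXB ⟨g, hg1, not_le.1 hc⟩
      set B := Finset.univ.filter
        (fun j => ‖pd g 0 (X j)‖ < del * (enm (X j)) ^ (dD n)) with hB
      have hBc : B.card ≤ eN n k := by
        have : cnt g del X = B.card := by
          unfold cnt
          congr 1
        omega
      set S := (Finset.univ.filter fun j : Fin N => j < i).map s.toEmbedding with hSd
      have hSc : S.card = i := by
        rw [hSd, Finset.card_map]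
        have : (Finset.univ.filter fun j : Fin N => j < i) = Finset.Iio i := by
          ext j; simp
        rw [this, Fin.card_Iio]
      set T := (Finset.univ.erase t0).image ta with hT
      have hTc : T.card ≤ w - 1 := by
        refine Finset.card_image_le.trans ?_
        rw [Finset.card_erase_of_mem (Finset.mem_univ _), Finset.card_univ, Fintype.card_fin]
      have hcard2 : q ≤ ((S \ T) \ B).card := by
        have h1 : S.card - T.card ≤ (S \ T).card := Finset.le_card_sdiff T S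
        have h2 : (S \ T).card - B.card ≤ ((S \ T) \ B).card := Finset.le_card_sdiff B (S \ T)
        omega
      obtain ⟨I, hIs, hIc⟩ := Finset.exists_subset_card_eq hcard2
      have hI : ∀ r ∈ I, (∃ j, j < i ∧ r = s j) ∧ (∀ t, t ≠ t0 → ta t ≠ r) ∧ r ∉ B := by
        intro r hr
        have h1 := hIs hr
        rw [Finset.mem_sdiff, Finset.mem_sdiff] at h1
        refine ⟨?_, ?_, h1.2⟩
        · obtain ⟨j, hj, hjr⟩ := Finset.mem_map.1 h1.1.1
          exact ⟨j, (Finset.mem_filter.1 hj).2, hjr.symm⟩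
        · intro t ht hc
          exact h1.1.2 (Finset.mem_image.2 ⟨t, Finset.mem_erase.2 ⟨ht, Finset.mem_univ _⟩, hc⟩)
      have hal : ∀ r : Ex (n + 1) k, ∃ al : Ex (n + 1) l, r ∈ I →
          s0 * ‖Q‖ ≤ ‖pd Q al.1 (X r)‖ := by
        intro r
        by_cases hr : r ∈ I
        · have h1 := (hI r hr).2.2
          have h2 : ¬ ∀ al : Ex (n + 1) l, ‖pd (((‖Q‖⁻¹ : ℝ) : ℂ) • Q) al.1 (X r)‖ < s0 := by
            intro hc
            apply h1
            rw [hB, Finset.mem_filter]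
            exact ⟨Finset.mem_univ _, hg2 (X r) (hXA r) hc⟩
          rw [not_forall] at h2
          obtain ⟨al, hal⟩ := h2
          refine ⟨al, fun _ => ?_⟩
          rw [not_lt, pd_smul_left, norm_mul, Complex.norm_real, norm_inv, norm_norm,
            le_inv_mul_iff₀ hQn] at hal
          linarith [mul_comm s0 ‖Q‖]
        · have hEx : Ex (n + 1) l := ⟨Pi.single 0 l, by simp⟩
          exact ⟨hEx, fun hc => absurd hc hr⟩
      choose alf half using hal
      refine Set.mem_iUnion.2 ⟨(ta, t0, I, alf), ⟨?_, ?_, hIc⟩, hXA, hQ, ?_⟩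
      · intro hc
        obtain ⟨j, hj, hjs⟩ := (hI _ hc).1
        exact hj.ne (s.injective hjs).symm
      · intro t ht hc
        exact (hI _ hc).2.1 t ht rfl
      · intro r hr
        exact ⟨ht0 r (hI r hr).1 (hI r hr).2.1, half r hr⟩
  have hfin : volume ((⋃ p, Z p) ∪ ⋃ p, P p) ≤ ENNReal.ofReal (K * bd) := by
    have h1 : volume (⋃ p, Z p) = 0 := measure_iUnion_null hZv
    refine (measure_union_le _ _).trans ?_
    rw [h1, zero_add]
    refine (measure_iUnion_fintype_le _ _).trans ?_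
    refine (Finset.sum_le_sum fun p _ => hPv p).trans ?_
    have h2 : ENNReal.ofReal ((K : ℝ) * bd) = (K : ℝ≥0∞) * ENNReal.ofReal bd := by
      rw [ENNReal.ofReal_mul (Nat.cast_nonneg K), ENNReal.ofReal_natCast]
    rw [Finset.sum_const, nsmul_eq_mul, Finset.card_univ, ← hK, h2]
  refine ((measure_mono hcover).trans hfin).trans (ENNReal.ofReal_le_ofReal ?_)
  have hexp : bd = (vA ^ (N - q) * (C2 * (C1 / s0) ^ (2 / (l : ℝ))) ^ q) *
      io ^ (2 * ((R : ℝ) - 2 * eN n k) / l) := by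
    have h1 : (C1 * io / s0) ^ (2 / (l : ℝ)) = (C1 / s0) ^ (2 / (l : ℝ)) * io ^ (2 / (l : ℝ)) := by
      rw [← Real.mul_rpow (by positivity) hio.le]
      congr 1
      ring
    have h2 : (io ^ (2 / (l : ℝ))) ^ q = io ^ (2 * ((R : ℝ) - 2 * eN n k) / l) := by
      rw [← Real.rpow_natCast, ← Real.rpow_mul hio.le, ← hqR]
      congr 1
      ring
    rw [hbd, h1, ← mul_assoc C2, mul_pow, h2]
    ring
  rw [hexp]
  have hpos : 0 ≤ io ^ (2 * ((R : ℝ) - 2 * eN n k) / l) := by positivity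
  nlinarith

end GPn
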