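/- piece EL: local estimate -/
import Pool.Agent.Lib_MP_e0d435_ag.Basic
import Pool.Agent.Lib_MP_e0d435_ag.Quant
import Pool.Agent.Lib_MP_e0d435_ag.OneStep
import Pool.Agent.Lib_MP_e0d435_ag.ProdFormula
import Pool.Agent.Lib_MP_e0d435_ag.MeasGS
import Pool.Agent.Lib_MP_e0d435_ag.IterInt
import Pool.Agent.Lib_MP_e0d435_ag.VolJ

open Finset MeasureTheory Complex
open scoped ENNReal ContDiff

namespace GPn

theorem Local_geom (C β γ : ℝ) (hC : 0 ≤ C) (hγβ : γ < β) :
    ∑' t : ℕ, ENNReal.ofReal (C * (2 : ℝ) ^ (γ * (t + 1)) * ((2 : ℝ) ^ (-(t : ℝ))) ^ β) < ⊤ := by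
  have h1 : ∀ t : ℕ, ENNReal.ofReal (C * (2 : ℝ) ^ (γ * (t + 1)) * ((2 : ℝ) ^ (-(t : ℝ))) ^ β) =
      ENNReal.ofReal (C * (2 : ℝ) ^ γ) * (ENNReal.ofReal ((2 : ℝ) ^ (γ - β))) ^ t := by
    intro t
    rw [← ENNReal.ofReal_pow (by positivity), ← ENNReal.ofReal_mul (by positivity)]
    congr 1
    rw [← Real.rpow_natCast ((2 : ℝ) ^ (γ - β)) t, ← Real.rpow_mul (by norm_num),
      ← Real.rpow_mul (by norm_num), mul_assoc, mul_assoc, ← Real.rpow_add (by norm_num),
      ← Real.rpow_add (by norm_num)]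
    congr 2
    ring
  simp_rw [h1]
  rw [ENNReal.tsum_mul_left, ENNReal.tsum_geometric]
  refine ENNReal.mul_lt_top ENNReal.ofReal_lt_top ?_
  rw [ENNReal.inv_lt_top]
  rw [tsub_pos_iff_lt]
  rw [ENNReal.ofReal_lt_one]
  exact Real.rpow_lt_one_of_one_lt_of_neg (by norm_num) (by linarith)

theorem Local_ptw (J γ : ℝ) (hJ : 0 ≤ J) (hγ : 0 ≤ γ) :
    (ENNReal.ofReal J) ^ (-γ) ≤ 1 + ∑' t : ℕ, ENNReal.ofReal ((2 : ℝ) ^ (γ * (t + 1))) *
      (if J ≤ (2 : ℝ) ^ (-(t : ℝ)) then 1 else 0) := by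
  rcases lt_or_ge J 1 with h1 | h1
  · rcases hJ.eq_or_lt with h0 | h0
    · -- J = 0
      have h2 : ∑' t : ℕ, ENNReal.ofReal ((2 : ℝ) ^ (γ * (t + 1))) *
          (if J ≤ (2 : ℝ) ^ (-(t : ℝ)) then (1 : ℝ≥0∞) else 0) = ⊤ := by
        rw [eq_top_iff, ← ENNReal.tsum_const_eq_top_of_ne_zero (α := ℕ) (one_ne_zero)]
        refine ENNReal.tsum_le_tsum fun t => ?_
        rw [if_pos (by rw [← h0]; positivity), mul_one, ENNReal.one_le_ofReal]
        exact Real.one_le_rpow (by norm_num) (by positivity)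
      rw [h2]
      simp
    · -- 0 < J < 1
      obtain ⟨t, ht1, ht2⟩ : ∃ t : ℕ, J ≤ (2 : ℝ) ^ (-(t : ℝ)) ∧ (2 : ℝ) ^ (-((t : ℝ) + 1)) < J := by
        obtain ⟨t, ht1, ht2⟩ := exists_nat_pow_near_of_lt_one h0 h1.le (y := (1 / 2 : ℝ))
          (by norm_num) (by norm_num)
        refine ⟨t, ?_, ?_⟩
        · rw [Real.rpow_neg (by norm_num), Real.rpow_natCast, ← inv_pow]
          simpa using ht2
        · have : -((t : ℝ) + 1) = -((t + 1 : ℕ) : ℝ) := by push_cast; ring
          rw [this, Real.rpow_neg (by norm_num), Real.rpow_natCast, ← inv_pow]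
          simpa using ht1
      refine le_trans ?_ (le_add_left (ENNReal.le_tsum t))
      rw [if_pos ht1, mul_one, ENNReal.ofReal_rpow_of_pos h0]
      refine ENNReal.ofReal_le_ofReal ?_
      have h3 : (2 : ℝ) ^ (γ * (t + 1)) = ((2 : ℝ) ^ (-((t : ℝ) + 1))) ^ (-γ) := by
        rw [← Real.rpow_mul (by norm_num)]
        congr 1
        ring
      rw [h3]
      exact Real.rpow_le_rpow_of_nonpos (by positivity) ht2.le (by linarith)
  · refine le_trans ?_ (le_add_right le_rfl)
    rw [ENNReal.rpow_neg]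
    rw [ENNReal.inv_le_one]
    rcases hγ.eq_or_lt with h0 | h0
    · rw [← h0, ENNReal.rpow_zero]
    · exact ENNReal.one_le_rpow (ENNReal.one_le_ofReal.2 h1) h0

theorem Local_negpow {α : Type*} [MeasurableSpace α] (μ : Measure α) [IsFiniteMeasure μ]
    (J : α → ℝ) (hJ : Measurable J) (hJ0 : ∀ x, 0 ≤ J x) (C β γ : ℝ) (hC : 0 ≤ C)
    (hγ : 0 ≤ γ) (hγβ : γ < β)
    (h : ∀ io : ℝ, 0 < io → μ {x | J x ≤ io} ≤ ENNReal.ofReal (C * io ^ β)) :
    ∫⁻ x, (ENNReal.ofReal (J x)) ^ (-γ) ∂μ < ⊤ := by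
  calc ∫⁻ x, (ENNReal.ofReal (J x)) ^ (-γ) ∂μ
      ≤ ∫⁻ x, (1 + ∑' t : ℕ, ENNReal.ofReal ((2 : ℝ) ^ (γ * (t + 1))) *
        (if J x ≤ (2 : ℝ) ^ (-(t : ℝ)) then 1 else 0)) ∂μ :=
        lintegral_mono fun x => Local_ptw (J x) γ (hJ0 x) hγ
    _ = μ Set.univ + ∑' t : ℕ, ENNReal.ofReal ((2 : ℝ) ^ (γ * (t + 1))) *
        μ {x | J x ≤ (2 : ℝ) ^ (-(t : ℝ))} := by
        rw [lintegral_add_left measurable_const, lintegral_const, one_mul, lintegral_tsum]
        · congr 1
          refine tsum_congr fun t => ?_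
          rw [lintegral_const_mul' _ _ ENNReal.ofReal_ne_top]
          congr 1
          have hms : MeasurableSet {x | J x ≤ (2 : ℝ) ^ (-(t : ℝ))} :=
            measurableSet_le hJ measurable_const
          rw [← lintegral_indicator_one hms]
          refine lintegral_congr fun x => ?_
          simp [Set.indicator_apply]
        · intro t
          refine (Measurable.const_mul (Measurable.ite (measurableSet_le hJ measurable_const)
            measurable_const measurable_const) _).aemeasurable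
    _ ≤ μ Set.univ + ∑' t : ℕ, ENNReal.ofReal (C * (2 : ℝ) ^ (γ * (t + 1)) *
        ((2 : ℝ) ^ (-(t : ℝ))) ^ β) := by
        refine add_le_add le_rfl (ENNReal.tsum_le_tsum fun t => ?_)
        refine (mul_le_mul' le_rfl (h _ (by positivity))).trans ?_
        rw [← ENNReal.ofReal_mul (by positivity)]
        refine ENNReal.ofReal_le_ofReal (le_of_eq ?_)
        ring
    _ < ⊤ := ENNReal.add_lt_top.2 ⟨measure_lt_top μ _, Local_geom C β γ hC hγβ⟩

theorem Local_mul_le (x y : ℝ≥0∞) : x * y ≤ x ^ 2 + y ^ 2 := by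
  rcases le_total x y with h | h
  · calc x * y ≤ y * y := mul_le_mul' h le_rfl
      _ = y ^ 2 := (sq y).symm
      _ ≤ _ := le_add_left le_rfl
  · calc x * y ≤ x * x := mul_le_mul' le_rfl h
      _ = x ^ 2 := (sq x).symm
      _ ≤ _ := le_add_right le_rfl

theorem Local_one_add (v : ℝ≥0∞) (r : ℕ) : (1 + v) ^ r ≤ 2 ^ r + 2 ^ r * v ^ r := by
  rcases le_total v 1 with h | h
  · calc (1 + v) ^ r ≤ (1 + 1) ^ r := by gcongr
      _ = 2 ^ r := by norm_num
      _ ≤ _ := le_add_right le_rfl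
  · calc (1 + v) ^ r ≤ (v + v) ^ r := by gcongr
      _ = 2 ^ r * v ^ r := by rw [← two_mul, mul_pow]
      _ ≤ _ := le_add_left le_rfl

theorem Local_prod_le {ι : Type*} (I : Finset ι) (hI : I.Nonempty) (x : ι → ℝ≥0∞) :
    ∏ i ∈ I, x i ≤ ∑ i ∈ I, x i ^ I.card := by
  obtain ⟨i0, hi0, hmax⟩ := Finset.exists_max_image I x hI
  calc ∏ i ∈ I, x i ≤ ∏ _i ∈ I, x i0 := Finset.prod_le_prod' fun i hi => hmax i hi
    _ = x i0 ^ I.card := by rw [Finset.prod_const]
    _ ≤ _ := Finset.single_le_sum (f := fun i => x i ^ I.card) (fun i _ => zero_le) hi0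

theorem Local_bW_nonneg {m k : ℕ} (W : Submodule ℂ (V m k)) (y : Pt m) : 0 ≤ bW W y :=
  norm_nonneg _

theorem Local_JW_nonneg {m k l : ℕ} (W : Submodule ℂ (V m k)) (y : Pt m) : 0 ≤ JW l W y :=
  Finset.sum_nonneg fun _ _ => norm_nonneg _

theorem Local_Wo_congr {m k N : ℕ} (X Y : Ex m k → Pt m) (s : Fin N → Ex m k) (i : Fin N)
    (h : ∀ j < i, X (s j) = Y (s j)) : Wo X s i = Wo Y s i := by
  unfold Wo
  congr 2
  ext v
  simp only [Set.mem_ofPred_eq]
  constructor
  · rintro ⟨j, hj, rfl⟩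
    exact ⟨j, hj, by rw [h j hj]⟩
  · rintro ⟨j, hj, rfl⟩
    exact ⟨j, hj, by rw [h j hj]⟩

theorem Local_Wo_update {m k N : ℕ} (X : Ex m k → Pt m) (s : Fin N ≃ Ex m k) (i : Fin N)
    (t : Pt m) : Wo (Function.update X (s i) t) s i = Wo X s i := by
  refine Local_Wo_congr _ _ _ _ fun j hj => ?_
  rw [Function.update_of_ne]
  exact fun h => (ne_of_lt hj) (s.injective h)

/-- the factor A -/
noncomputable def Local_A {m k N : ℕ} (l e : ℕ) (s0 c : ℝ) (i : Fin N)
    (W : Submodule ℂ (V m k)) (y : Pt m) : ℝ≥0∞ :=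
  if (i : ℕ) + e < N then
    (if s0 ≤ JW l W y then (ENNReal.ofReal (bW W y)) ^ (-(2 * c)) else 0)
  else 1 + (if bW W y ≤ (JW l W y) ^ 2 then (ENNReal.ofReal (bW W y)) ^ (-(2 * c)) else 0)

/-- the factor B -/
noncomputable def Local_B {m k N : ℕ} (l e : ℕ) (c : ℝ) (i : Fin N)
    (W : Submodule ℂ (V m k)) (y : Pt m) : ℝ≥0∞ :=
  if (i : ℕ) + e < N then 1 else 1 + (ENNReal.ofReal (JW l W y)) ^ (-(4 * c))

theorem Local_le_AB {m k N : ℕ} (l e : ℕ) (s0 c : ℝ) (hc : 0 ≤ c) (i : Fin N)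
    (W : Submodule ℂ (V m k)) (y : Pt m) (h : (i : ℕ) + e < N → s0 ≤ JW l W y) :
    (ENNReal.ofReal (bW W y)) ^ (-(2 * c)) ≤ Local_A l e s0 c i W y * Local_B l e c i W y := by
  unfold Local_A Local_B
  by_cases hi : (i : ℕ) + e < N
  · rw [if_pos hi, if_pos hi, if_pos (h hi), mul_one]
  · rw [if_neg hi, if_neg hi]
    by_cases hb : bW W y ≤ (JW l W y) ^ 2
    · rw [if_pos hb]
      calc (ENNReal.ofReal (bW W y)) ^ (-(2 * c))
          ≤ (1 + (ENNReal.ofReal (bW W y)) ^ (-(2 * c))) * 1 := by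
            rw [mul_one]; exact le_add_left le_rfl
        _ ≤ _ := mul_le_mul' le_rfl (le_add_right le_rfl)
    · rw [if_neg hb, add_zero, one_mul]
      push Not at hb
      refine le_trans ?_ (le_add_left le_rfl)
      have h1 : (ENNReal.ofReal (JW l W y)) ^ (-(4 * c)) =
          (ENNReal.ofReal ((JW l W y) ^ 2)) ^ (-(2 * c)) := by
        rw [ENNReal.ofReal_pow (Local_JW_nonneg W y), ← ENNReal.rpow_natCast, ← ENNReal.rpow_mul]
        congr 1
        push_cast
        ring
      rw [h1, ENNReal.rpow_neg, ENNReal.rpow_neg, ENNReal.inv_le_inv]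
      exact ENNReal.rpow_le_rpow (ENNReal.ofReal_le_ofReal hb.le) (by linarith)

theorem Local_measurable_A {m k N : ℕ} (l e : ℕ) (s0 c : ℝ) (s : Fin N → Ex m k) (i : Fin N) :
    Measurable (fun X : Ex m k → Pt m => Local_A l e s0 c i (Wo X s i) (X (s i))) := by
  have hb := measurable_bW s i
  have hJ := measurable_JW l s i
  unfold Local_A
  by_cases hi : (i : ℕ) + e < N
  · simp only [if_pos hi]
    exact Measurable.ite (measurableSet_le measurable_const hJ)
      ((ENNReal.measurable_ofReal.comp hb).pow_const _) measurable_const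
  · simp only [if_neg hi]
    exact Measurable.const_add (Measurable.ite (measurableSet_le hb (hJ.pow_const 2))
      ((ENNReal.measurable_ofReal.comp hb).pow_const _) measurable_const) _

theorem Local_vol_Ann (m : ℕ) : volume (Ann m) < ⊤ := by
  refine lt_of_le_of_lt (measure_mono ?_) (measure_closedBall_lt_top (x := (0 : Pt m)) (r := 2))
  intro x hx
  rw [mem_closedBall_zero_iff, pi_norm_le_iff_of_nonneg (by norm_num)]
  intro i
  have h1 : ‖x i‖ ^ 2 ≤ nsq x :=
    Finset.single_le_sum (f := fun i => ‖x i‖ ^ 2) (fun i _ => by positivity) (Finset.mem_univ i)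
  have h2 : ‖x i‖ ^ 2 ≤ 2 ^ 2 := by
    have := hx.2
    linarith
  exact (pow_le_pow_iff_left₀ (norm_nonneg _) (by norm_num) (by norm_num)).1 h2

theorem Local_int_A (m k N l e : ℕ) (hN : N = Fintype.card (Ex m k)) (hl : 1 ≤ l) (c : ℝ)
    (hc : 0 ≤ c) (hcl : 4 * c * l ≤ 1 / 2) (s0 : ℝ) (hs : 0 < s0) :
    ∃ C : ℝ≥0∞, C ≠ ⊤ ∧ ∀ (s : Fin N ≃ Ex m k) (i : Fin N) (X : Ex m k → Pt m),
      ∫⁻ t in Ann m, (Local_A l e s0 c i (Wo X s i) t) ^ 2 ≤ C := by
  obtain ⟨C1, hC1, h1⟩ := one_step m k l hl (4 * c) (by linarith) hcl s0 hs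
  obtain ⟨C2, hC2, h2⟩ := one_step' m k l hl (4 * c) (by linarith) hcl
  have hpow : ∀ b : ℝ, ((ENNReal.ofReal b) ^ (-(2 * c))) ^ 2 = (ENNReal.ofReal b) ^ (-(4 * c)) := by
    intro b
    rw [← ENNReal.rpow_natCast, ← ENNReal.rpow_mul]
    congr 1
    push_cast
    ring
  refine ⟨C1 + (4 * volume (Ann m) + 4 * C2), ?_, fun s i X => ?_⟩
  · refine ENNReal.add_ne_top.2 ⟨hC1, ENNReal.add_ne_top.2 ⟨?_, ?_⟩⟩
    · exact ENNReal.mul_ne_top (by norm_num) (Local_vol_Ann m).ne
    · exact ENNReal.mul_ne_top (by norm_num) hC2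
  · by_cases hi : (i : ℕ) + e < N
    · refine le_trans ?_ (le_add_right le_rfl)
      refine le_trans (le_of_eq ?_) (h1 (Wo X s i))
      refine lintegral_congr fun t => ?_
      unfold Local_A
      rw [if_pos hi]
      by_cases hJ : s0 ≤ JW l (Wo X s i) t
      · rw [if_pos hJ, if_pos hJ, hpow]
      · rw [if_neg hJ, if_neg hJ]; simp
    · refine le_trans ?_ (le_add_left le_rfl)
      calc ∫⁻ t in Ann m, (Local_A l e s0 c i (Wo X s i) t) ^ 2
          ≤ ∫⁻ t in Ann m, (4 + 4 * (if bW (Wo X s i) t ≤ (JW l (Wo X s i) t) ^ 2 then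
            (ENNReal.ofReal (bW (Wo X s i) t)) ^ (-(4 * c)) else 0)) := by
            refine lintegral_mono fun t => ?_
            unfold Local_A
            rw [if_neg hi]
            refine (Local_one_add _ 2).trans ?_
            refine add_le_add (by norm_num) ?_
            by_cases hJ : bW (Wo X s i) t ≤ (JW l (Wo X s i) t) ^ 2
            · rw [if_pos hJ, if_pos hJ, hpow]
              refine mul_le_mul' (by norm_num) le_rfl
            · rw [if_neg hJ, if_neg hJ]; simp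
        _ = 4 * volume (Ann m) + 4 * ∫⁻ t in Ann m, (if bW (Wo X s i) t ≤
            (JW l (Wo X s i) t) ^ 2 then (ENNReal.ofReal (bW (Wo X s i) t)) ^ (-(4 * c)) else 0) := by
            rw [lintegral_add_left measurable_const, lintegral_const,
              lintegral_const_mul' _ _ (by norm_num)]
            simp
        _ ≤ _ := by
            refine add_le_add le_rfl (mul_le_mul' le_rfl ?_)
            exact h2 _ (Wo_ne_bot hN X s i)

theorem Local_prod_A (m k N l e : ℕ) (hN : N = Fintype.card (Ex m k)) (hl : 1 ≤ l) (c : ℝ)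
    (hc : 0 ≤ c) (hcl : 4 * c * l ≤ 1 / 2) (s0 : ℝ) (hs : 0 < s0) (s : Fin N ≃ Ex m k) :
    ∫⁻ X in AnnC m k, (∏ i, Local_A l e s0 c i (Wo X s i) (X (s i))) ^ 2 < ⊤ := by
  obtain ⟨C, hC, h1⟩ := Local_int_A m k N l e hN hl c hc hcl s0 hs
  have h2 : (volume : Measure (Ex m k → Pt m)).restrict (AnnC m k) =
      Measure.pi fun _ : Ex m k => (volume : Measure (Pt m)).restrict (Ann m) := by
    have h3 : AnnC m k = Set.pi Set.univ fun _ : Ex m k => Ann m := by
      ext X
      simp [AnnC]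
    rw [h3, volume_pi]
    exact Measure.restrict_pi_pi _ _
  rw [h2]
  simp_rw [← Finset.prod_pow]
  refine lt_of_le_of_lt (lintegral_prod_le _ s
    (fun i X => (Local_A l e s0 c i (Wo X s i) (X (s i))) ^ 2)
    (fun i => (Local_measurable_A l e s0 c s i).pow_const 2) ?_ (fun _ => C) ?_) ?_
  · intro i x y hxy
    have h3 : Wo x s i = Wo y s i := Local_Wo_congr _ _ _ _ fun j hj => hxy j hj.le
    show (Local_A l e s0 c i (Wo x s i) (x (s i))) ^ 2 = (Local_A l e s0 c i (Wo y s i) (y (s i))) ^ 2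
    rw [h3, hxy i le_rfl]
  · intro i X
    refine le_trans (le_of_eq ?_) (h1 s i X)
    refine lintegral_congr fun t => ?_
    show (Local_A l e s0 c i (Wo (Function.update X (s i) t) s i)
      (Function.update X (s i) t (s i))) ^ 2 = _
    rw [Local_Wo_update, Function.update_self]
  · rw [Finset.prod_const]
    exact ENNReal.pow_lt_top hC.lt_top

theorem Local_card_I (N e : ℕ) :
    (Finset.univ.filter fun i : Fin N => ¬ ((i : ℕ) + e < N)).card ≤ e := by
  calc (Finset.univ.filter fun i : Fin N => ¬ ((i : ℕ) + e < N)).card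
      ≤ (Finset.range e).card := by
        refine Finset.card_le_card_of_injOn (fun i : Fin N => N - 1 - (i : ℕ)) ?_ ?_
        · intro i hi
          have h1 := (Finset.mem_filter.1 hi).2
          have h2 := i.2
          simp only [Finset.coe_range, Set.mem_Iio]
          omega
        · intro i _ j _ hij
          have h2 := i.2
          have h3 := j.2
          simp only at hij
          ext
          omega
    _ = e := Finset.card_range e

theorem Local_prod_B (n k : ℕ) (hn : 1 ≤ n) (hk : 8 * (n + 1) ≤ k) (del : ℝ) (hdel : 0 < del)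
    (c : ℝ) (hc : 0 ≤ c) (N : ℕ) (hN : N = Fintype.card (Ex (n + 1) k)) (hl : 1 ≤ lL n k)
    (hcl : 4 * c * lL n k ≤ 1 / 2)
    (s : Fin N ≃ Ex (n + 1) k) :
    ∫⁻ X in AnnC (n + 1) k \ BadS n k del,
      (∏ i, Local_B (lL n k) (eN n k) c i (Wo X s i) (X (s i))) ^ 2 < ⊤ := by
  classical
  set μ : Measure (Ex (n + 1) k → Pt (n + 1)) := volume.restrict (AnnC (n + 1) k \ BadS n k del)
    with hμ
  have hvol : (volume : Measure (Ex (n + 1) k → Pt (n + 1))) (AnnC (n + 1) k) < ⊤ := by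
    have h3 : AnnC (n + 1) k = Set.pi Set.univ fun _ : Ex (n + 1) k => Ann (n + 1) := by
      ext X
      simp [AnnC]
    rw [h3, volume_pi, Measure.pi_pi]
    exact ENNReal.prod_lt_top fun i _ => Local_vol_Ann _
  have : IsFiniteMeasure μ := ⟨by
    rw [hμ, Measure.restrict_apply MeasurableSet.univ, Set.univ_inter]
    exact lt_of_le_of_lt (measure_mono Set.sdiff_subset) hvol⟩
  set I : Finset (Fin N) := Finset.univ.filter fun i : Fin N => ¬ ((i : ℕ) + eN n k < N) with hI
  have hprod : ∀ X : Ex (n + 1) k → Pt (n + 1),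
      (∏ i, Local_B (lL n k) (eN n k) c i (Wo X s i) (X (s i))) ^ 2 =
      ∏ i ∈ I, (1 + (ENNReal.ofReal (JW (lL n k) (Wo X s i) (X (s i)))) ^ (-(4 * c))) ^ 2 := by
    intro X
    rw [← Finset.prod_pow, hI, Finset.prod_filter]
    refine Finset.prod_congr rfl fun i _ => ?_
    unfold Local_B
    by_cases hi : (i : ℕ) + eN n k < N
    · rw [if_pos hi, if_neg (by simpa using hi), one_pow]
    · rw [if_neg hi, if_pos hi]
  simp_rw [hprod]
  rcases I.eq_empty_or_nonempty with hIe | hIne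
  · rw [hIe]
    simp only [Finset.prod_empty, lintegral_const, one_mul]
    exact measure_lt_top μ _
  · set r := I.card with hr
    have hre : r ≤ eN n k := Local_card_I N (eN n k)
    have hr0 : 0 < r := Finset.card_pos.2 hIne
    obtain ⟨C, hC, hv⟩ := vol_J_small n k hn hk del hdel N hN
    have hR := card_ineq n k
    have key : ∀ i ∈ I, ∫⁻ X, (ENNReal.ofReal (JW (lL n k) (Wo X s i) (X (s i)))) ^
        (-(8 * c * r)) ∂μ < ⊤ := by
      intro i hi
      have hi' : N ≤ (i : ℕ) + eN n k := by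
        have := (Finset.mem_filter.1 hi).2
        omega
      refine Local_negpow μ (fun X => JW (lL n k) (Wo X s i) (X (s i)))
        (measurable_JW (lL n k) s i) (fun X => Local_JW_nonneg _ _) C
        (2 * ((Fintype.card (Ex (n + 1) (lL n k)) : ℝ) - 2 * eN n k) / (lL n k)) (8 * c * r)
        hC.le (by positivity) ?_ ?_
      · have hl' : (0 : ℝ) < lL n k := by exact_mod_cast hl
        rw [lt_div_iff₀ hl']
        have hR' : (4 : ℝ) * eN n k ≤ Fintype.card (Ex (n + 1) (lL n k)) := by exact_mod_cast hR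
        have hre' : (r : ℝ) ≤ eN n k := by exact_mod_cast hre
        have hr0' : (0 : ℝ) < r := by exact_mod_cast hr0
        have h5 : 8 * c * r * lL n k = (4 * c * lL n k) * (2 * r) := by ring
        rw [h5]
        have h6 : (4 * c * lL n k) * (2 * r) ≤ (1 / 2) * (2 * r) :=
          mul_le_mul_of_nonneg_right hcl (by positivity)
        linarith
      · intro io hio
        have hms : MeasurableSet {X : Ex (n + 1) k → Pt (n + 1) |
            JW (lL n k) (Wo X s i) (X (s i)) ≤ io} :=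
          measurableSet_le (measurable_JW (lL n k) s i) measurable_const
        rw [hμ, Measure.restrict_apply hms]
        refine le_trans (measure_mono ?_) (hv io hio s i hi')
        rintro X ⟨h1, h2, h3⟩
        exact ⟨h2, h3, h1⟩
    calc ∫⁻ X, ∏ i ∈ I, (1 + (ENNReal.ofReal (JW (lL n k) (Wo X s i) (X (s i)))) ^
          (-(4 * c))) ^ 2 ∂μ
        ≤ ∫⁻ X, ∑ i ∈ I, (2 ^ (2 * r) + 2 ^ (2 * r) *
          (ENNReal.ofReal (JW (lL n k) (Wo X s i) (X (s i)))) ^ (-(8 * c * r))) ∂μ := by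
          refine lintegral_mono fun X => ?_
          refine (Local_prod_le I hIne _).trans ?_
          refine Finset.sum_le_sum fun i _ => ?_
          rw [← pow_mul]
          refine (Local_one_add _ _).trans (le_of_eq ?_)
          congr 2
          rw [← ENNReal.rpow_natCast, ← ENNReal.rpow_mul]
          congr 1
          push_cast
          ring
      _ = ∑ i ∈ I, ∫⁻ X, (2 ^ (2 * r) + 2 ^ (2 * r) *
          (ENNReal.ofReal (JW (lL n k) (Wo X s i) (X (s i)))) ^ (-(8 * c * r))) ∂μ := by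
          refine lintegral_finsetSum _ fun i _ => ?_
          refine Measurable.const_add (Measurable.const_mul ?_ _) _
          exact (ENNReal.measurable_ofReal.comp (measurable_JW (lL n k) s i)).pow_const _
      _ < ⊤ := by
          refine ENNReal.sum_lt_top.2 fun i hi => ?_
          rw [lintegral_add_left measurable_const, lintegral_const,
            lintegral_const_mul' _ _ (by simp)]
          refine ENNReal.add_lt_top.2 ⟨ENNReal.mul_lt_top (by simp) (measure_lt_top μ _),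
            ENNReal.mul_lt_top (by simp) (key i hi)⟩

theorem local_estimate (n k : ℕ) (hn : 1 ≤ n) (hk : 8 * (n + 1) ≤ k) (del : ℝ) (hdel : 0 < del)
    (c : ℝ) (hc : 0 ≤ c) (hck : c * k ≤ n + 1) :
    ∫⁻ X in AnnC (n + 1) k \ BadS n k del, (ENNReal.ofReal (Dl X)) ^ (-(2 * c)) < ⊤ := by
  classical
  have hl : 1 ≤ lL n k := by
    unfold lL
    exact (Nat.one_le_div_iff (by positivity)).2 hk
  have hcl : 4 * c * lL n k ≤ 1 / 2 := by
    have h1 : (8 * (n + 1)) * lL n k ≤ k := by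
      unfold lL
      exact Nat.mul_div_le _ _
    have h2 : (8 * ((n : ℝ) + 1)) * lL n k ≤ k := by exact_mod_cast h1
    have h3 : c * ((8 * ((n : ℝ) + 1)) * lL n k) ≤ n + 1 :=
      (mul_le_mul_of_nonneg_left h2 hc).trans hck
    have h4 : (0 : ℝ) < (n : ℝ) + 1 := by positivity
    have h5 : (8 * c * lL n k) * ((n : ℝ) + 1) ≤ 1 * ((n : ℝ) + 1) := by
      calc (8 * c * lL n k) * ((n : ℝ) + 1) = c * ((8 * ((n : ℝ) + 1)) * lL n k) := by ring
        _ ≤ n + 1 := h3
        _ = _ := by ring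
    have h6 := le_of_mul_le_mul_right h5 h4
    linarith
  set N := Fintype.card (Ex (n + 1) k) with hN
  obtain ⟨s0, hs0, hq⟩ := quant_unisolvent n k hn hk del hdel
  set S : Set (Ex (n + 1) k → Pt (n + 1)) := AnnC (n + 1) k \ BadS n k del with hS
  set P : (Fin N ≃ Ex (n + 1) k) → Set (Ex (n + 1) k → Pt (n + 1)) := fun s =>
    {X | ∀ i : Fin N, (i : ℕ) + eN n k < N → s0 ≤ JW (lL n k) (Wo X s i) (X (s i))} with hP
  have hPm : ∀ s, MeasurableSet (P s) := by
    intro s
    have : P s = ⋂ i : Fin N, {X | (i : ℕ) + eN n k < N → s0 ≤ JW (lL n k) (Wo X s i) (X (s i))} := by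
      ext X
      simp [hP]
    rw [this]
    refine MeasurableSet.iInter fun i => ?_
    by_cases hi : (i : ℕ) + eN n k < N
    · simp only [hi, forall_const]
      exact measurableSet_le measurable_const (measurable_JW (lL n k) s i)
    · simp [hi]
  have hcov : S ⊆ ⋃ s, (P s ∩ S) := by
    intro X hX
    obtain ⟨s, hs⟩ := exists_order n k N (lL n k) hN s0 (eN n k) X (by
      intro F hF
      obtain ⟨g, hg, hgx⟩ := hq F hF
      by_contra hcon
      push Not at hcon
      refine hX.2 ⟨g, hg, lt_of_lt_of_le hcon ?_⟩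
      unfold cnt
      rw [← Set.ncard_coe_finset]
      refine Set.ncard_le_ncard ?_ (Set.toFinite _)
      intro j hj
      simp only [Finset.coe_filter, Finset.mem_univ, true_and, Set.mem_ofPred_eq]
      exact hgx (X j) (hX.1 j) hj)
    exact Set.mem_iUnion.2 ⟨s, hs, hX⟩
  calc ∫⁻ X in S, (ENNReal.ofReal (Dl X)) ^ (-(2 * c))
      ≤ ∫⁻ X in ⋃ s, (P s ∩ S), (ENNReal.ofReal (Dl X)) ^ (-(2 * c)) :=
        lintegral_mono_set hcov
    _ ≤ ∑' s, ∫⁻ X in P s ∩ S, (ENNReal.ofReal (Dl X)) ^ (-(2 * c)) :=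
        lintegral_iUnion_le _ _
    _ = ∑ s, ∫⁻ X in P s ∩ S, (ENNReal.ofReal (Dl X)) ^ (-(2 * c)) := tsum_fintype _
    _ < ⊤ := by
        refine ENNReal.sum_lt_top.2 fun s _ => ?_
        rw [← Measure.restrict_restrict (hPm s)]
        calc ∫⁻ X in P s, (ENNReal.ofReal (Dl X)) ^ (-(2 * c)) ∂(volume.restrict S)
            ≤ ∫⁻ X in P s, ((∏ i, Local_A (lL n k) (eN n k) s0 c i (Wo X s i) (X (s i))) ^ 2 +
              (∏ i, Local_B (lL n k) (eN n k) c i (Wo X s i) (X (s i))) ^ 2)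
                ∂(volume.restrict S) := by
              refine setLIntegral_mono' (hPm s) fun X hX => ?_
              refine le_trans ?_ (Local_mul_le _ _)
              rw [Dl_eq_prod X s, ENNReal.ofReal_prod_of_nonneg fun i _ => Local_bW_nonneg _ _,
                ← ENNReal.prod_rpow_of_ne_top (fun i _ => ENNReal.ofReal_ne_top),
                ← Finset.prod_mul_distrib]
              exact Finset.prod_le_prod' fun i _ => Local_le_AB _ _ _ _ hc i _ _ (hX i)
          _ ≤ ∫⁻ X, ((∏ i, Local_A (lL n k) (eN n k) s0 c i (Wo X s i) (X (s i))) ^ 2 +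
              (∏ i, Local_B (lL n k) (eN n k) c i (Wo X s i) (X (s i))) ^ 2)
                ∂(volume.restrict S) := setLIntegral_le_lintegral _ _
          _ = (∫⁻ X in S, (∏ i, Local_A (lL n k) (eN n k) s0 c i (Wo X s i) (X (s i))) ^ 2) +
              ∫⁻ X in S, (∏ i, Local_B (lL n k) (eN n k) c i (Wo X s i) (X (s i))) ^ 2 := by
              refine lintegral_add_left ?_ _
              exact (Finset.measurable_prod _ fun i _ =>
                Local_measurable_A (lL n k) (eN n k) s0 c s i).pow_const 2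
          _ < ⊤ := by
              refine ENNReal.add_lt_top.2 ⟨?_, Local_prod_B n k hn hk del hdel c hc N hN hl hcl s⟩
              exact lt_of_le_of_lt (lintegral_mono_set Set.sdiff_subset)
                (Local_prod_A (n + 1) k N (lL n k) (eN n k) hN hl c hc hcl s0 hs0 s)

end GPn
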