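/- piece GI: from the annulus to the whole space by scaling -/
import Pool.Agent.Lib_MP_e0d435_ag.Basic

open Finset MeasureTheory Complex
open scoped ENNReal ContDiff

namespace GPn

theorem Scaling_nsq_smul {m : ℕ} (t : ℝ) (x : Pt m) : nsq ((t : ℂ) • x) = t ^ 2 * nsq x := by
  unfold nsq
  rw [Finset.mul_sum]
  refine Finset.sum_congr rfl fun i _ => ?_
  rw [Pi.smul_apply, smul_eq_mul, norm_mul, Complex.norm_real, mul_pow, Real.norm_eq_abs, sq_abs]

theorem Scaling_nsq_pos {m : ℕ} {x : Pt m} (hx : x ≠ 0) : 0 < nsq x := by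
  obtain ⟨i, hi⟩ : ∃ i, x i ≠ 0 := by
    by_contra h
    push Not at h
    exact hx (funext h)
  unfold nsq
  exact Finset.sum_pos' (fun j _ => by positivity) ⟨i, Finset.mem_univ i, by positivity⟩

theorem Scaling_measurable_nsq {m : ℕ} : Measurable (fun x : Pt m => nsq x) :=
  continuous_nsq.measurable

theorem Scaling_measurableSet_Ann (m : ℕ) : MeasurableSet (Ann m) := by
  unfold Ann
  exact (measurableSet_le measurable_const Scaling_measurable_nsq).inter
    (measurableSet_le Scaling_measurable_nsq measurable_const)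

/-- the weight -/
noncomputable def Scaling_w {m : ℕ} (b : ℝ) (x : Pt m) : ℝ≥0∞ :=
  ENNReal.ofReal (nsq x ^ (-b) * Real.exp (-nsq x))

theorem Scaling_measurable_w {m : ℕ} (b : ℝ) : Measurable (fun x : Pt m => Scaling_w b x) := by
  unfold Scaling_w
  exact ((Scaling_measurable_nsq.pow_const _).mul
    (Scaling_measurable_nsq.neg.exp)).ennreal_ofReal

/-- change of variables `x = t y` -/
theorem Scaling_lintegral_smul {m : ℕ} {t : ℝ} (ht : 0 < t) (g : Pt m → ℝ≥0∞)
    (hg : Measurable g) :
    ∫⁻ x, g x = ENNReal.ofReal (t ^ (2 * m)) * ∫⁻ y, g ((t : ℂ) • y) := by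
  have h1 := Measure.map_addHaar_smul (volume : Measure (Pt m)) ht.ne'
  have h2 : ∫⁻ x, g x ∂(Measure.map (fun x : Pt m => t • x) volume) = ∫⁻ y, g (t • y) :=
    lintegral_map hg (measurable_const_smul t)
  rw [h1, lintegral_smul_measure] at h2
  have h3 : Module.finrank ℝ (Pt m) = 2 * m := by
    rw [show Module.finrank ℝ (Pt m) = ∑ _i : Fin m, Module.finrank ℝ ℂ from
      Module.finrank_pi_fintype ℝ, Finset.sum_const, Complex.finrank_real_complex,
      Finset.card_univ, Fintype.card_fin, smul_eq_mul, mul_comm]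
  rw [h3] at h2
  have h4 : (fun y : Pt m => g ((t : ℂ) • y)) = fun y => g (t • y) := by
    funext y
    congr 1
  rw [h4, ← h2, smul_eq_mul, ← mul_assoc, ← ENNReal.ofReal_mul (by positivity)]
  have h5 : t ^ (2 * m) * |(t ^ (2 * m))⁻¹| = 1 := by
    rw [abs_of_pos (by positivity)]
    exact mul_inv_cancel₀ (by positivity)
  rw [h5, ENNReal.ofReal_one, one_mul]

/-- the averaging kernel is at least one half -/
theorem Scaling_kernel {m : ℕ} {x : Pt m} (hx : x ≠ 0) :
    ENNReal.ofReal (1 / 2) ≤ ∫⁻ t in Set.Ioi (0 : ℝ),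
      ENNReal.ofReal t⁻¹ * (Ann m).indicator (fun _ => (1 : ℝ≥0∞)) (((t⁻¹ : ℝ) : ℂ) • x) := by
  set a := Real.sqrt (nsq x) with ha
  have hn := Scaling_nsq_pos hx
  have ha0 : 0 < a := Real.sqrt_pos.2 hn
  have ha2 : a ^ 2 = nsq x := Real.sq_sqrt hn.le
  have hsub : Set.Icc (a / 2) a ⊆ Set.Ioi (0 : ℝ) := by
    intro t ht
    exact lt_of_lt_of_le (by positivity) ht.1
  calc ENNReal.ofReal (1 / 2)
      = ENNReal.ofReal a⁻¹ * volume (Set.Icc (a / 2) a) := by
        rw [Real.volume_Icc, ← ENNReal.ofReal_mul (by positivity)]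
        congr 1
        field_simp
        ring
    _ = ∫⁻ _t in Set.Icc (a / 2) a, ENNReal.ofReal a⁻¹ := by
        rw [setLIntegral_const]
    _ ≤ ∫⁻ t in Set.Icc (a / 2) a, ENNReal.ofReal t⁻¹ *
          (Ann m).indicator (fun _ => (1 : ℝ≥0∞)) (((t⁻¹ : ℝ) : ℂ) • x) := by
        refine setLIntegral_mono' measurableSet_Icc fun t ht => ?_
        have ht0 : 0 < t := lt_of_lt_of_le (by positivity) ht.1
        have h1 : (((t⁻¹ : ℝ) : ℂ) • x) ∈ Ann m := by
          unfold Ann
          rw [Set.mem_ofPred_eq, Scaling_nsq_smul, ← ha2]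
          have h2 : t⁻¹ ^ 2 * a ^ 2 = (a / t) ^ 2 := by
            rw [div_pow, inv_pow]; field_simp
          rw [h2]
          have h3 : 1 ≤ a / t := by rw [le_div_iff₀ ht0]; linarith [ht.2]
          have h4 : a / t ≤ 2 := by rw [div_le_iff₀ ht0]; linarith [ht.1]
          constructor
          · nlinarith
          · nlinarith
        rw [Set.indicator_of_mem h1, mul_one]
        exact ENNReal.ofReal_le_ofReal (inv_anti₀ ht0 ht.2)
    _ ≤ _ := lintegral_mono_set hsub

/-- one block -/
theorem Scaling_one (m : ℕ) (hm : 1 ≤ m) (d b : ℝ) (hb : 0 < b) (hd : d + 2 * b < 2 * m) :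
    ∃ C : ℝ≥0∞, C ≠ ⊤ ∧ ∀ f : Pt m → ℝ≥0∞, Measurable f →
      (∀ x (t : ℝ), 0 < t → f ((t : ℂ) • x) = ENNReal.ofReal (t ^ (-d)) * f x) →
      ∫⁻ x, f x * Scaling_w b x ≤ C * ∫⁻ x in Ann m, f x := by
  set I : ℝ≥0∞ := ∫⁻ t in Set.Ioi (0 : ℝ),
    ENNReal.ofReal (t ^ (2 * m - d - 2 * b - 1) * Real.exp (-1 * t ^ 2)) with hI
  have hI1 : I ≠ ⊤ := by
    have h1 := integrableOn_rpow_mul_exp_neg_mul_sq (b := 1) one_pos
      (s := 2 * m - d - 2 * b - 1) (by linarith)
    have h2 := h1.hasFiniteIntegral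
    rw [hasFiniteIntegral_iff_ofReal] at h2
    · exact h2.ne
    · rw [Filter.EventuallyLE, ae_restrict_iff' measurableSet_Ioi]
      refine Filter.Eventually.of_forall fun t ht => ?_
      have ht' : 0 < t := ht
      simp only [Pi.zero_apply]
      positivity
  refine ⟨2 * I, ENNReal.mul_ne_top (by norm_num) hI1, fun f hf hh => ?_⟩
  have : Nonempty (Fin m) := ⟨⟨0, hm⟩⟩
  -- the kernel
  set K : Pt m → ℝ → ℝ≥0∞ := fun x t =>
    ENNReal.ofReal t⁻¹ * (Ann m).indicator (fun _ => (1 : ℝ≥0∞)) (((t⁻¹ : ℝ) : ℂ) • x) with hK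
  have hKm : Measurable (Function.uncurry K) := by
    have e1 : Measurable (fun p : Pt m × ℝ => (((p.2⁻¹ : ℝ) : ℂ) • p.1)) := by
      have : Measurable (fun p : Pt m × ℝ => ((p.2⁻¹ : ℝ) : ℂ)) :=
        Complex.measurable_ofReal.comp measurable_snd.inv
      exact this.smul measurable_fst
    have e2 : Measurable (fun p : Pt m × ℝ =>
        (Ann m).indicator (fun _ => (1 : ℝ≥0∞)) (((p.2⁻¹ : ℝ) : ℂ) • p.1)) :=
      (measurable_const.indicator (Scaling_measurableSet_Ann m)).comp e1
    exact (measurable_snd.inv.ennreal_ofReal).mul e2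
  have h0 : ∀ᵐ x : Pt m, f x * Scaling_w b x ≤
      2 * ∫⁻ t in Set.Ioi (0 : ℝ), f x * Scaling_w b x * K x t := by
    have : ∀ᵐ x : Pt m, x ≠ 0 := by
      rw [ae_iff]
      simp
    filter_upwards [this] with x hx
    rw [lintegral_const_mul _ (by
      have := hKm.comp (measurable_prodMk_left (x := x))
      exact this)]
    calc f x * Scaling_w b x = 2 * (f x * Scaling_w b x * ENNReal.ofReal (1 / 2)) := by
          rw [mul_comm (f x * Scaling_w b x), ← mul_assoc]
          have : (2 : ℝ≥0∞) * ENNReal.ofReal (1 / 2) = 1 := by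
            rw [show (2 : ℝ≥0∞) = ENNReal.ofReal 2 by simp, ← ENNReal.ofReal_mul (by norm_num)]
            norm_num
          rw [this, one_mul]
      _ ≤ _ := by
          gcongr
          exact Scaling_kernel hx
  have h1 : ∫⁻ x, f x * Scaling_w b x ≤
      2 * ∫⁻ t in Set.Ioi (0 : ℝ), ∫⁻ x, f x * Scaling_w b x * K x t := by
    calc ∫⁻ x, f x * Scaling_w b x
        ≤ ∫⁻ x, 2 * ∫⁻ t in Set.Ioi (0 : ℝ), f x * Scaling_w b x * K x t :=
          lintegral_mono_ae h0
      _ = 2 * ∫⁻ x, ∫⁻ t in Set.Ioi (0 : ℝ), f x * Scaling_w b x * K x t := by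
          rw [lintegral_const_mul' _ _ (by norm_num)]
      _ = 2 * ∫⁻ t in Set.Ioi (0 : ℝ), ∫⁻ x, f x * Scaling_w b x * K x t := by
          congr 1
          refine lintegral_lintegral_swap ?_
          refine Measurable.aemeasurable ?_
          exact ((hf.mul (Scaling_measurable_w b)).comp measurable_fst).mul hKm
  refine h1.trans ?_
  rw [mul_assoc]
  gcongr
  rw [hI, ← lintegral_mul_const _ (by fun_prop)]
  refine setLIntegral_mono' measurableSet_Ioi fun t ht => ?_
  have ht' : 0 < t := ht
  have hg : Measurable (fun x => f x * Scaling_w b x * K x t) :=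
    (hf.mul (Scaling_measurable_w b)).mul (hKm.comp (measurable_prodMk_right (y := t)))
  rw [Scaling_lintegral_smul ht' _ hg]
  calc ENNReal.ofReal (t ^ (2 * m)) * ∫⁻ y, f ((t : ℂ) • y) * Scaling_w b ((t : ℂ) • y) *
          K ((t : ℂ) • y) t
      ≤ ENNReal.ofReal (t ^ (2 * m)) * ∫⁻ y,
        (ENNReal.ofReal (t ^ (-d) * (t ^ (-2 * b) * Real.exp (-1 * t ^ 2)) * t⁻¹)) *
          (Ann m).indicator f y := by
        refine mul_le_mul_right (lintegral_mono fun y => ?_) _
        have e1 : ((t⁻¹ : ℝ) : ℂ) • ((t : ℂ) • y) = y := by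
          rw [smul_smul, ← Complex.ofReal_mul, inv_mul_cancel₀ ht'.ne', Complex.ofReal_one,
            one_smul]
        have e0 : K ((t : ℂ) • y) t = ENNReal.ofReal t⁻¹ *
            (Ann m).indicator (fun _ => (1 : ℝ≥0∞)) y := by
          show ENNReal.ofReal t⁻¹ * (Ann m).indicator (fun _ => (1 : ℝ≥0∞))
            (((t⁻¹ : ℝ) : ℂ) • ((t : ℂ) • y)) = _
          rw [e1]
        rw [e0]
        by_cases hy : y ∈ Ann m
        · rw [Set.indicator_of_mem hy, Set.indicator_of_mem hy, hh y t ht', mul_one]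
          have hy1 : 1 ≤ nsq y := hy.1
          have e2 : Scaling_w b ((t : ℂ) • y) ≤
              ENNReal.ofReal (t ^ (-2 * b) * Real.exp (-1 * t ^ 2)) := by
            unfold Scaling_w
            rw [Scaling_nsq_smul]
            refine ENNReal.ofReal_le_ofReal ?_
            have e3 : (t ^ 2 * nsq y) ^ (-b) ≤ t ^ (-2 * b) := by
              rw [Real.mul_rpow (by positivity) (by linarith)]
              have e4 : (t ^ 2) ^ (-b) = t ^ (-2 * b) := by
                rw [← Real.rpow_natCast t 2, ← Real.rpow_mul ht'.le]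
                congr 1
                push_cast
                ring
              rw [e4]
              have e5 : nsq y ^ (-b) ≤ 1 :=
                Real.rpow_le_one_of_one_le_of_nonpos hy1 (by linarith)
              have e6 : 0 ≤ t ^ (-2 * b) := by positivity
              nlinarith
            have e7 : Real.exp (-(t ^ 2 * nsq y)) ≤ Real.exp (-1 * t ^ 2) := by
              apply Real.exp_le_exp.2
              nlinarith [sq_nonneg t]
            exact mul_le_mul e3 e7 (Real.exp_pos _).le (by positivity)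
          calc ENNReal.ofReal (t ^ (-d)) * f y * Scaling_w b ((t : ℂ) • y) * ENNReal.ofReal t⁻¹
              ≤ ENNReal.ofReal (t ^ (-d)) * f y *
                ENNReal.ofReal (t ^ (-2 * b) * Real.exp (-1 * t ^ 2)) * ENNReal.ofReal t⁻¹ := by
                gcongr
            _ = ENNReal.ofReal (t ^ (-d) * (t ^ (-2 * b) * Real.exp (-1 * t ^ 2)) * t⁻¹) * f y := by
                rw [ENNReal.ofReal_mul (p := t ^ (-d) * (t ^ (-2 * b) * Real.exp (-1 * t ^ 2)))
                  (by positivity), ENNReal.ofReal_mul (p := t ^ (-d)) (by positivity)]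
                ring
        · rw [Set.indicator_of_notMem hy, Set.indicator_of_notMem hy]
          simp
    _ = ENNReal.ofReal (t ^ (2 * m)) *
          (ENNReal.ofReal (t ^ (-d) * (t ^ (-2 * b) * Real.exp (-1 * t ^ 2)) * t⁻¹) *
          ∫⁻ y in Ann m, f y) := by
        rw [lintegral_const_mul' _ _ ENNReal.ofReal_ne_top,
          lintegral_indicator (Scaling_measurableSet_Ann m)]
    _ = ENNReal.ofReal (t ^ (2 * m - d - 2 * b - 1) * Real.exp (-1 * t ^ 2)) *
          ∫⁻ x in Ann m, f x := by
        rw [← mul_assoc, ← ENNReal.ofReal_mul (by positivity)]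
        congr 2
        have e1 : t ^ (2 * m - d - 2 * b - 1) = t ^ (2 * m) * t ^ (-d) * t ^ (-2 * b) * t⁻¹ := by
          rw [← Real.rpow_natCast t (2 * m), ← Real.rpow_add ht', ← Real.rpow_add ht',
            ← Real.rpow_neg_one t, ← Real.rpow_add ht']
          congr 1
          push_cast
          ring
        rw [e1]
        ring

theorem Scaling_insert {ι : Type} [Fintype ι] [DecidableEq ι] (m : ℕ) (c : ℝ≥0∞)
    (d b : ℝ)
    (hc : ∀ f : Pt m → ℝ≥0∞, Measurable f →
      (∀ x (t : ℝ), 0 < t → f ((t : ℂ) • x) = ENNReal.ofReal (t ^ (-d)) * f x) →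
      ∫⁻ x, f x * Scaling_w b x ≤ c * ∫⁻ x in Ann m, f x)
    (G : (ι → Pt m) → ℝ≥0∞) (hG : Measurable G) (j : ι)
    (hh : ∀ X (t : ℝ), 0 < t → G (Function.update X j ((t : ℂ) • X j)) =
      ENNReal.ofReal (t ^ (-d)) * G X) :
    ∫⁻ X, G X * Scaling_w b (X j) ≤
      ∫⁻ X, c * (G X * (Ann m).indicator (fun _ => (1 : ℝ≥0∞)) (X j)) := by
  have hA : Measurable ((Ann m).indicator (fun _ => (1 : ℝ≥0∞))) :=
    measurable_const.indicator (Scaling_measurableSet_Ann m)
  refine lintegral_le_of_lmarginal_le (μ := fun _ : ι => (volume : Measure (Pt m))) {j}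
    (hG.mul ((Scaling_measurable_w b).comp (measurable_pi_apply j)))
    ((hG.mul (hA.comp (measurable_pi_apply j))).const_mul c) ?_
  rw [lmarginal_singleton, lmarginal_singleton]
  intro X
  have hGm : Measurable (fun x : Pt m => G (Function.update X j x)) :=
    hG.comp (measurable_update X)
  have h1 := hc (fun x => G (Function.update X j x)) hGm (by
    intro x t ht
    have := hh (Function.update X j x) t ht
    rw [Function.update_idem, Function.update_self] at this
    exact this)
  show ∫⁻ x, G (Function.update X j x) * Scaling_w b (Function.update X j x j) ≤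
    ∫⁻ x, c * (G (Function.update X j x) *
      (Ann m).indicator (fun _ => (1 : ℝ≥0∞)) (Function.update X j x j))
  simp only [Function.update_self]
  have h2 : Measurable (fun x : Pt m => G (Function.update X j x) *
      (Ann m).indicator (fun _ => (1 : ℝ≥0∞)) x) := hGm.mul hA
  rw [lintegral_const_mul _ h2]
  refine h1.trans ?_
  rw [← lintegral_indicator (Scaling_measurableSet_Ann m)]
  refine mul_le_mul_right (lintegral_mono fun x => ?_) _
  by_cases hx : x ∈ Ann m
  · rw [Set.indicator_of_mem hx, Set.indicator_of_mem hx, mul_one]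
  · rw [Set.indicator_of_notMem hx]
    exact zero_le

theorem scaling_bound (m k : ℕ) (hm : 1 ≤ m) (F : (Ex m k → Pt m) → ℝ≥0∞) (hF : Measurable F)
    (d b : ℝ) (hb : 0 < b) (hd : d + 2 * b < 2 * m)
    (hh : ∀ X j (t : ℝ), 0 < t → F (Function.update X j ((t : ℂ) • X j)) =
      ENNReal.ofReal (t ^ (-d)) * F X) :
    ∃ C : ℝ≥0∞, C ≠ ⊤ ∧
    ∫⁻ X, F X * ∏ j, ENNReal.ofReal (nsq (X j) ^ (-b) * Real.exp (-nsq (X j))) ≤
      C * ∫⁻ X in AnnC m k, F X := by
  obtain ⟨c, hc0, hc⟩ := Scaling_one m hm d b hb hd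
  set A : Pt m → ℝ≥0∞ := (Ann m).indicator (fun _ => (1 : ℝ≥0∞)) with hAdef
  have hA : Measurable A := measurable_const.indicator (Scaling_measurableSet_Ann m)
  have key : ∀ S : Finset (Ex m k),
      ∫⁻ X, F X * ((∏ j ∈ S, Scaling_w b (X j)) * ∏ j ∈ Sᶜ, A (X j)) ≤
        c ^ S.card * ∫⁻ X, F X * ∏ j, A (X j) := by
    intro S
    induction S using Finset.induction_on with
    | empty => simp
    | insert j S hj ih =>
      set G : (Ex m k → Pt m) → ℝ≥0∞ := fun X =>
        F X * ((∏ i ∈ S, Scaling_w b (X i)) * ∏ i ∈ (insert j S)ᶜ, A (X i)) with hGdef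
      have hGm : Measurable G := by
        refine hF.mul (Measurable.mul ?_ ?_)
        · exact Finset.measurable_fun_prod _ fun i _ =>
            (Scaling_measurable_w b).comp (measurable_pi_apply i)
        · exact Finset.measurable_fun_prod _ fun i _ => hA.comp (measurable_pi_apply i)
      have hGh : ∀ X (t : ℝ), 0 < t → G (Function.update X j ((t : ℂ) • X j)) =
          ENNReal.ofReal (t ^ (-d)) * G X := by
        intro X t ht
        simp only [hGdef]
        rw [hh X j t ht, mul_assoc]
        congr 2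
        congr 1
        · refine Finset.prod_congr rfl fun i hi => ?_
          have hij : i ≠ j := by
            rintro rfl
            exact hj hi
          rw [Function.update_of_ne hij]
        · refine Finset.prod_congr rfl fun i hi => ?_
          rw [Function.update_of_ne]
          rintro rfl
          rw [Finset.mem_compl] at hi
          exact hi (Finset.mem_insert_self _ _)
      have h1 := Scaling_insert m c d b hc G hGm j hGh
      have e1 : ∀ X : Ex m k → Pt m,
          F X * ((∏ i ∈ insert j S, Scaling_w b (X i)) * ∏ i ∈ (insert j S)ᶜ, A (X i)) =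
            G X * Scaling_w b (X j) := by
        intro X
        simp only [hGdef]
        rw [Finset.prod_insert hj]
        ring
      have e2 : ∀ X : Ex m k → Pt m, G X * A (X j) =
          F X * ((∏ i ∈ S, Scaling_w b (X i)) * ∏ i ∈ Sᶜ, A (X i)) := by
        intro X
        simp only [hGdef]
        have e3 : Sᶜ = insert j (insert j S)ᶜ := by
          ext i
          simp only [Finset.mem_compl, Finset.mem_insert]
          by_cases hij : i = j
          · subst hij; simp [hj]
          · simp [hij]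
        rw [e3, Finset.prod_insert (by simp)]
        ring
      have e4 : Measurable (fun X : Ex m k → Pt m => G X * A (X j)) :=
        hGm.mul (hA.comp (measurable_pi_apply j))
      calc ∫⁻ X, F X * ((∏ i ∈ insert j S, Scaling_w b (X i)) *
            ∏ i ∈ (insert j S)ᶜ, A (X i))
          = ∫⁻ X, G X * Scaling_w b (X j) := lintegral_congr e1
        _ ≤ ∫⁻ X, c * (G X * A (X j)) := h1
        _ = c * ∫⁻ X, G X * A (X j) := lintegral_const_mul _ e4
        _ = c * ∫⁻ X, F X * ((∏ i ∈ S, Scaling_w b (X i)) * ∏ i ∈ Sᶜ, A (X i)) := by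
            rw [lintegral_congr e2]
        _ ≤ c * (c ^ S.card * ∫⁻ X, F X * ∏ j, A (X j)) := mul_le_mul_right ih _
        _ = c ^ (insert j S).card * ∫⁻ X, F X * ∏ j, A (X j) := by
            rw [Finset.card_insert_of_notMem hj, pow_succ]
            ring
  refine ⟨c ^ (Finset.univ : Finset (Ex m k)).card, ENNReal.pow_ne_top hc0, ?_⟩
  have h1 := key Finset.univ
  rw [Finset.compl_univ] at h1
  simp only [Finset.prod_empty, mul_one] at h1
  refine h1.trans ?_
  refine mul_le_mul_right ?_ _
  have hmeas : MeasurableSet (AnnC m k) := by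
    have : AnnC m k = ⋂ j, (fun X : Ex m k → Pt m => X j) ⁻¹' (Ann m) := by
      ext X
      simp [AnnC]
    rw [this]
    exact MeasurableSet.iInter fun j => (measurable_pi_apply j) (Scaling_measurableSet_Ann m)
  rw [← lintegral_indicator hmeas]
  refine lintegral_mono fun X => ?_
  by_cases hX : X ∈ AnnC m k
  · rw [Set.indicator_of_mem hX]
    have : ∏ j, A (X j) = 1 := by
      refine Finset.prod_eq_one fun j _ => ?_
      rw [hAdef, Set.indicator_of_mem (hX j)]
    rw [this, mul_one]
  · rw [Set.indicator_of_notMem hX]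
    have : ∏ j, A (X j) = 0 := by
      have h2 : ∃ j, X j ∉ Ann m := by
        by_contra h
        push Not at h
        exact hX h
      obtain ⟨j, hj⟩ := h2
      refine Finset.prod_eq_zero (Finset.mem_univ j) ?_
      rw [hAdef, Set.indicator_of_notMem hj]
    rw [this, mul_zero]

end GPn
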