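/- piece GJ: the main theorem on the cone -/
import Pool.Agent.Lib_MP_e0d435_ag.Basic
import Pool.Agent.Lib_MP_e0d435_ag.GDefs
import Pool.Agent.Lib_MP_e0d435_ag.PsiInt
import Pool.Agent.Lib_MP_e0d435_ag.Equi
import Pool.Agent.Lib_MP_e0d435_ag.Local
import Pool.Agent.Lib_MP_e0d435_ag.Scaling

open Finset MeasureTheory Complex
open scoped ENNReal ContDiff

namespace GPn

private theorem MainCone_nsq_smul {m : ℕ} (t : ℝ) (x : Pt m) :
    nsq ((t : ℂ) • x) = t ^ 2 * nsq x := by
  simp only [nsq, Pi.smul_apply, smul_eq_mul, norm_mul, Complex.norm_real, Real.norm_eq_abs,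
    mul_pow, sq_abs, Finset.mul_sum]

private theorem MainCone_enm_smul {m : ℕ} (t : ℝ) (ht : 0 < t) (x : Pt m) :
    enm ((t : ℂ) • x) = t * enm x := by
  rw [enm, MainCone_nsq_smul, Real.sqrt_mul (by positivity), Real.sqrt_sq ht.le, enm]

private theorem MainCone_cnt {m k D : ℕ} (g : V m D) (del : ℝ) (X : Ex m k → Pt m) (j : Ex m k)
    (t : ℝ) (ht : 0 < t) : cnt g del (Function.update X j ((t : ℂ) • X j)) = cnt g del X := by
  unfold cnt
  congr 1
  refine Finset.filter_congr fun i _ => ?_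
  by_cases hij : i = j
  · subst hij
    rw [Function.update_self, pd_smul, MainCone_enm_smul t ht, norm_mul, norm_pow,
      Complex.norm_real, Real.norm_of_nonneg ht.le, mul_pow]
    have h1 : del * (t ^ D * enm (X i) ^ D) = t ^ D * (del * enm (X i) ^ D) := by ring
    rw [h1]
    exact mul_lt_mul_iff_right₀ (by positivity)
  · rw [Function.update_of_ne hij]

private theorem MainCone_BadS (n k : ℕ) (del : ℝ) (X : Ex (n + 1) k → Pt (n + 1))
    (j : Ex (n + 1) k) (t : ℝ) (ht : 0 < t) :
    Function.update X j ((t : ℂ) • X j) ∈ BadS n k del ↔ X ∈ BadS n k del := by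
  unfold BadS
  simp only [Set.mem_ofPred_eq, MainCone_cnt _ _ _ _ t ht]

/-- the function to which the scaling bound is applied -/
private noncomputable def MainConeF (n k : ℕ) (del c : ℝ) (X : Ex (n + 1) k → Pt (n + 1)) : ℝ≥0∞ :=
  (BadS n k del)ᶜ.indicator (fun X => (ENNReal.ofReal (Dl X)) ^ (-(2 * c))) X

private theorem MainCone_meas_Dl (n k : ℕ) (c : ℝ) :
    Measurable fun X : Ex (n + 1) k → Pt (n + 1) => (ENNReal.ofReal (Dl X)) ^ (-(2 * c)) := by
  have h1 : Measurable fun X : Ex (n + 1) k → Pt (n + 1) => ENNReal.ofReal (Dl X) :=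
    ENNReal.measurable_ofReal.comp continuous_Dl.measurable
  exact h1.pow_const _

private theorem MainCone_measF (n k : ℕ) (del c : ℝ) : Measurable (MainConeF n k del c) := by
  unfold MainConeF
  exact (MainCone_meas_Dl n k c).indicator (isOpen_BadS_away n k del).compl

private theorem MainCone_hom (n k : ℕ) (del c : ℝ) (X : Ex (n + 1) k → Pt (n + 1))
    (j : Ex (n + 1) k) (t : ℝ) (ht : 0 < t) :
    MainConeF n k del c (Function.update X j ((t : ℂ) • X j)) =
      ENNReal.ofReal (t ^ (-(2 * c * k))) * MainConeF n k del c X := by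
  unfold MainConeF
  have hiff := MainCone_BadS n k del X j t ht
  by_cases hX : X ∈ BadS n k del
  · have e1 : Function.update X j ((t : ℂ) • X j) ∉ (BadS n k del)ᶜ := fun h => h (hiff.2 hX)
    have e2 : X ∉ (BadS n k del)ᶜ := fun h => h hX
    rw [Set.indicator_of_notMem e1, Set.indicator_of_notMem e2, mul_zero]
  · rw [Set.indicator_of_mem (show _ ∈ (BadS n k del)ᶜ from fun h => hX (hiff.1 h)),
      Set.indicator_of_mem (show _ ∈ (BadS n k del)ᶜ from hX)]
    rw [Dl_smul_at, Complex.norm_real, Real.norm_of_nonneg ht.le,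
      ENNReal.ofReal_mul (by positivity), ENNReal.mul_rpow_of_ne_top ENNReal.ofReal_ne_top
      ENNReal.ofReal_ne_top]
    congr 1
    rw [ENNReal.ofReal_rpow_of_pos (by positivity), ← Real.rpow_natCast, ← Real.rpow_mul ht.le]
    congr 2
    ring

private theorem MainCone_null (n k : ℕ) :
    ∀ᵐ X : Ex (n + 1) k → Pt (n + 1), ∀ j, X j ≠ 0 := by
  rw [ae_all_iff]
  intro j
  have h1 : (volume : Measure (Ex (n + 1) k → Pt (n + 1))) =
      Measure.pi fun _ => (volume : Measure (Pt (n + 1))) := rfl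
  have h2 : (volume : Measure (Pt (n + 1))) {0} = 0 := by simp
  have h3 := Measure.pi_eval_preimage_null (fun _ : Ex (n + 1) k => (volume : Measure (Pt (n + 1))))
    (i := j) h2
  rw [ae_iff]
  simp only [ne_eq, not_not]
  rw [h1]
  exact h3

private theorem MainCone_nsq_pos {m : ℕ} (x : Pt m) (hx : x ≠ 0) : 0 < nsq x := by
  obtain ⟨i, hi⟩ := Function.ne_iff.1 hx
  have h1 : ‖x i‖ ^ 2 ≤ nsq x :=
    Finset.single_le_sum (f := fun i => ‖x i‖ ^ 2) (fun i _ => by positivity) (Finset.mem_univ i)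
  have h2 : 0 < ‖x i‖ ^ 2 := by
    have : 0 < ‖x i‖ := norm_pos_iff.2 hi
    positivity
  linarith

/-- finiteness of the limit integral -/
private theorem MainCone_B (n k : ℕ) (hn : 1 ≤ n) (hk : 8 * (n + 1) ≤ k) (del : ℝ)
    (hdel : 0 < del) (c : ℝ) (hc : 0 ≤ c) (hck : c * k < (n : ℝ) + 1) :
    ∫⁻ X, MainConeF n k del c X * ∏ j, ENNReal.ofReal
      (nsq (X j) ^ (-(((n : ℝ) + 1 - c * k) / 2)) * Real.exp (-nsq (X j))) < ⊤ := by
  obtain ⟨C, hC, h1⟩ := scaling_bound (n + 1) k (by omega) (MainConeF n k del c)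
    (MainCone_measF n k del c) (2 * c * k) (((n : ℝ) + 1 - c * k) / 2) (by linarith)
    (by push_cast; nlinarith) (fun X j t ht => MainCone_hom n k del c X j t ht)
  refine lt_of_le_of_lt h1 ?_
  refine ENNReal.mul_lt_top (lt_top_iff_ne_top.2 hC) ?_
  have h2 := local_estimate n k hn hk del hdel c hc (by linarith)
  refine lt_of_le_of_lt (le_of_eq ?_) h2
  have h3 : ∀ X, MainConeF n k del c X = (BadS n k del)ᶜ.indicator
    (fun X => (ENNReal.ofReal (Dl X)) ^ (-(2 * c))) X := fun X => rfl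
  simp_rw [h3]
  rw [lintegral_indicator (isOpen_BadS_away n k del).compl,
    Measure.restrict_restrict (isOpen_BadS_away n k del).compl]
  congr 2
  ext X
  simp [and_comm]

/-- uniform bound of the partition functions -/
private theorem MainCone_Z (n k : ℕ) (del : ℝ) (c : ℝ) (hc : 0 ≤ c)
    (hck : c * k < (n : ℝ) + 1) (ep : ℝ) (hep : 0 < ep)
    (h : ∫ X in BadS n k del, Real.exp (-Psi n k c ep X) ≤
          (1 / 2) * ∫ X, Real.exp (-Psi n k c ep X)) :
    ∫⁻ X, ENNReal.ofReal (Real.exp (-Psi n k c ep X)) ≤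
      2 * ∫⁻ X, MainConeF n k del c X * ∏ j, ENNReal.ofReal
      (nsq (X j) ^ (-(((n : ℝ) + 1 - c * k) / 2)) * Real.exp (-nsq (X j))) := by
  have hint := exp_Psi_integrable n k c ep hep hc hck.le
  have hmeas := isOpen_BadS_away n k del
  have h0 : ∀ X : Ex (n + 1) k → Pt (n + 1), 0 ≤ Real.exp (-Psi n k c ep X) :=
    fun X => (Real.exp_pos _).le
  have h1 := integral_add_compl hmeas hint
  have h2 : ∫ X, Real.exp (-Psi n k c ep X) ≤
      2 * ∫ X in (BadS n k del)ᶜ, Real.exp (-Psi n k c ep X) := by linarith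
  have h3 : ∫⁻ X, ENNReal.ofReal (Real.exp (-Psi n k c ep X)) =
      ENNReal.ofReal (∫ X, Real.exp (-Psi n k c ep X)) :=
    (ofReal_integral_eq_lintegral_ofReal hint (Filter.Eventually.of_forall h0)).symm
  have h4 : ∫⁻ X in (BadS n k del)ᶜ, ENNReal.ofReal (Real.exp (-Psi n k c ep X)) =
      ENNReal.ofReal (∫ X in (BadS n k del)ᶜ, Real.exp (-Psi n k c ep X)) :=
    (ofReal_integral_eq_lintegral_ofReal hint.integrableOn
      (Filter.Eventually.of_forall h0)).symm
  calc ∫⁻ X, ENNReal.ofReal (Real.exp (-Psi n k c ep X))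
      = ENNReal.ofReal (∫ X, Real.exp (-Psi n k c ep X)) := h3
    _ ≤ ENNReal.ofReal (2 * ∫ X in (BadS n k del)ᶜ, Real.exp (-Psi n k c ep X)) :=
        ENNReal.ofReal_le_ofReal h2
    _ = 2 * ∫⁻ X in (BadS n k del)ᶜ, ENNReal.ofReal (Real.exp (-Psi n k c ep X)) := by
        rw [ENNReal.ofReal_mul (by norm_num), h4]
        simp
    _ ≤ _ := by
        refine mul_le_mul_right ?_ 2
        rw [← lintegral_indicator hmeas.compl]
        refine lintegral_mono_ae ?_
        filter_upwards [MainCone_null n k] with X hX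
        by_cases hXB : X ∈ BadS n k del
        · have e2 : X ∉ (BadS n k del)ᶜ := fun h => h hXB
          rw [Set.indicator_of_notMem e2]
          exact zero_le
        · rw [Set.indicator_of_mem (show X ∈ (BadS n k del)ᶜ from hXB)]
          have h5 : MainConeF n k del c X = (ENNReal.ofReal (Dl X)) ^ (-(2 * c)) := by
            unfold MainConeF
            rw [Set.indicator_of_mem (show X ∈ (BadS n k del)ᶜ from hXB)]
          rw [h5, exp_Psi_eq n k c ep hep X, ENNReal.ofReal_mul (by positivity),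
            ENNReal.ofReal_prod_of_nonneg (fun j _ => by
              have := nsq_nonneg (X j)
              positivity)]
          refine mul_le_mul' ?_ (Finset.prod_le_prod' fun j _ => ?_)
          · have h6 : (ENNReal.ofReal (Dl X)) ^ (-(2 * c)) =
                (ENNReal.ofReal (Dl X ^ 2)) ^ (-c) := by
              rw [ENNReal.ofReal_pow (Dl_nonneg X), ← ENNReal.rpow_natCast, ← ENNReal.rpow_mul]
              congr 1
              push_cast
              ring
            rw [h6, ← ENNReal.ofReal_rpow_of_pos (by positivity)]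
            rw [ENNReal.rpow_neg, ENNReal.rpow_neg]
            refine ENNReal.inv_le_inv.2 (ENNReal.rpow_le_rpow ?_ hc)
            exact ENNReal.ofReal_le_ofReal (by linarith)
          · refine ENNReal.ofReal_le_ofReal ?_
            refine mul_le_mul_of_nonneg_right ?_ (Real.exp_pos _).le
            have h7 := MainCone_nsq_pos (X j) (hX j)
            refine Real.rpow_le_rpow_of_nonpos h7 (by linarith) ?_
            have : 0 < (n : ℝ) + 1 - c * k := by linarith
            linarith

/-- lower bound of the density on a bounded set -/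
private theorem MainCone_low (n k : ℕ) (c : ℝ) (hck : c * k < (n : ℝ) + 1) (R : ℝ) (hR : 0 ≤ R)
    (ep : ℝ) (hep : 0 < ep) (hep1 : ep ≤ 1) (X : Ex (n + 1) k → Pt (n + 1))
    (hX : ∀ j, nsq (X j) ≤ R) :
    (Dl X ^ 2 + ep) ^ (-c) * ∏ _j : Ex (n + 1) k,
      ((R + 1) ^ (-(((n : ℝ) + 1 - c * k) / 2)) * Real.exp (-R)) ≤
      Real.exp (-Psi n k c ep X) := by
  rw [exp_Psi_eq n k c ep hep X]
  have hD := Dl_nonneg X
  refine mul_le_mul_of_nonneg_left ?_ (by positivity)
  refine Finset.prod_le_prod (fun j _ => by positivity) fun j _ => ?_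
  have h0 := nsq_nonneg (X j)
  refine mul_le_mul ?_ (Real.exp_le_exp.2 (by linarith [hX j])) (Real.exp_pos _).le (by positivity)
  refine Real.rpow_le_rpow_of_nonpos (by linarith) (by linarith [hX j]) ?_
  have : 0 < (n : ℝ) + 1 - c * k := by linarith
  linarith

private theorem MainCone_meas_set (n k : ℕ) (R : ℝ) :
    MeasurableSet {X : Ex (n + 1) k → Pt (n + 1) | ∀ j, nsq (X j) ≤ R} := by
  have h1 : {X : Ex (n + 1) k → Pt (n + 1) | ∀ j, nsq (X j) ≤ R} =
      ⋂ j, {X : Ex (n + 1) k → Pt (n + 1) | nsq (X j) ≤ R} := by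
    ext X; simp
  rw [h1]
  refine MeasurableSet.iInter fun j => ?_
  have h2 : Continuous fun X : Ex (n + 1) k → Pt (n + 1) => nsq (X j) :=
    continuous_nsq.comp (continuous_apply j)
  exact (isClosed_le h2 continuous_const).measurableSet

private theorem MainCone_limit (n k : ℕ) (c : ℝ) (R : ℝ) (B : ℝ≥0∞) (hB : B < ⊤) (ep0 : ℝ)
    (hep0 : 0 < ep0)
    (h : ∀ ep : ℝ, 0 < ep → ep < ep0 →
      ∫⁻ X in {X : Ex (n + 1) k → Pt (n + 1) | ∀ j, nsq (X j) ≤ R},
        ENNReal.ofReal ((Dl X ^ 2 + ep) ^ (-c)) ≤ B) :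
    ∫⁻ X in {X : Ex (n + 1) k → Pt (n + 1) | ∀ j, nsq (X j) ≤ R},
        (ENNReal.ofReal (Dl X)) ^ (-(2 * c)) < ⊤ := by
  refine lt_of_le_of_lt ?_ hB
  -- the sequence of parameters
  set e : ℕ → ℝ := fun j => ep0 / ((j : ℝ) + 2) with he
  have hepos : ∀ j, 0 < e j := fun j => by simp only [he]; positivity
  have helt : ∀ j, e j < ep0 := fun j => by
    simp only [he]
    rw [div_lt_iff₀ (by positivity)]
    nlinarith [(Nat.cast_nonneg j : (0 : ℝ) ≤ j)]
  have hlim : Filter.Tendsto e Filter.atTop (nhds 0) := by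
    have h1 : Filter.Tendsto (fun j : ℕ => (j : ℝ) + 2) Filter.atTop Filter.atTop :=
      Filter.tendsto_atTop_add_const_right _ _ tendsto_natCast_atTop_atTop
    exact h1.const_div_atTop ep0
  have hpt : ∀ X : Ex (n + 1) k → Pt (n + 1),
      Filter.liminf (fun j => ENNReal.ofReal ((Dl X ^ 2 + e j) ^ (-c))) Filter.atTop =
        (ENNReal.ofReal (Dl X)) ^ (-(2 * c)) := by
    intro X
    have h6 : (ENNReal.ofReal (Dl X)) ^ (-(2 * c)) =
        (ENNReal.ofReal (Dl X ^ 2)) ^ (-c) := by
      rw [ENNReal.ofReal_pow (Dl_nonneg X), ← ENNReal.rpow_natCast, ← ENNReal.rpow_mul]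
      congr 1
      push_cast
      ring
    rw [h6]
    refine Filter.Tendsto.liminf_eq ?_
    have h7 : (fun j => ENNReal.ofReal ((Dl X ^ 2 + e j) ^ (-c))) =
        fun j => (ENNReal.ofReal (Dl X ^ 2 + e j)) ^ (-c) := by
      funext j
      have := hepos j
      rw [ENNReal.ofReal_rpow_of_pos (by positivity)]
    rw [h7]
    have h8 : Filter.Tendsto (fun j => ENNReal.ofReal (Dl X ^ 2 + e j)) Filter.atTop
        (nhds (ENNReal.ofReal (Dl X ^ 2))) := by
      refine (ENNReal.continuous_ofReal.tendsto _).comp ?_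
      simpa using (tendsto_const_nhds (x := Dl X ^ 2)).add hlim
    exact (ENNReal.continuous_rpow_const.tendsto _).comp h8
  calc ∫⁻ X in {X : Ex (n + 1) k → Pt (n + 1) | ∀ j, nsq (X j) ≤ R},
        (ENNReal.ofReal (Dl X)) ^ (-(2 * c))
      = ∫⁻ X in {X : Ex (n + 1) k → Pt (n + 1) | ∀ j, nsq (X j) ≤ R},
        Filter.liminf (fun j => ENNReal.ofReal ((Dl X ^ 2 + e j) ^ (-c))) Filter.atTop := by
        refine lintegral_congr fun X => ?_
        rw [hpt X]
    _ ≤ Filter.liminf (fun j => ∫⁻ X in {X : Ex (n + 1) k → Pt (n + 1) | ∀ j, nsq (X j) ≤ R},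
        ENNReal.ofReal ((Dl X ^ 2 + e j) ^ (-c))) Filter.atTop := by
        refine lintegral_liminf_le fun j => ?_
        have h9 : Continuous fun X : Ex (n + 1) k → Pt (n + 1) => Dl X ^ 2 + e j :=
          (continuous_Dl.pow 2).add continuous_const
        exact ENNReal.measurable_ofReal.comp (h9.measurable.pow_const _)
    _ ≤ B := by
        refine Filter.liminf_le_of_le (by isBoundedDefault) fun b hb => ?_
        obtain ⟨j, hj⟩ := hb.exists
        exact hj.trans (h (e j) (hepos j) (helt j))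

theorem main_cone (n : ℕ) (hn : 1 ≤ n) : ∃ C : ℝ, 0 < C ∧ ∀ (k : ℕ) (c : ℝ), 0 ≤ c →
    c * k ≤ (n : ℝ) + 1 - C / (Fintype.card (Ex (n + 1) k)) → ∀ R : ℝ,
      ∫⁻ X in {X : Ex (n + 1) k → Pt (n + 1) | ∀ j, nsq (X j) ≤ R},
        (ENNReal.ofReal (Dl X)) ^ (-(2 * c)) < ⊤ := by
  obtain ⟨del, hdel, C0, hC0, heq⟩ := equidistribution n hn
  have hcard : ∀ k, (0 : ℝ) < Fintype.card (Ex (n + 1) k) := fun k => by
    rw [card_Ex]
    exact_mod_cast Nat.choose_pos (Nat.le_add_right n k)
  refine ⟨C0 + ∑ k ∈ Finset.range (8 * (n + 1)),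
    ((n : ℝ) + 2) * (Fintype.card (Ex (n + 1) k) : ℝ), ?_, ?_⟩
  · have : 0 ≤ ∑ k ∈ Finset.range (8 * (n + 1)),
        ((n : ℝ) + 2) * (Fintype.card (Ex (n + 1) k) : ℝ) :=
      Finset.sum_nonneg fun k _ => by positivity
    linarith
  · intro k c hc hck R
    have hsum0 : 0 ≤ ∑ k ∈ Finset.range (8 * (n + 1)),
        ((n : ℝ) + 2) * (Fintype.card (Ex (n + 1) k) : ℝ) :=
      Finset.sum_nonneg fun k _ => by positivity
    have hck0 : 0 ≤ c * k := by positivity
    by_cases hk : 8 * (n + 1) ≤ k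
    · -- the main case
      have hN := hcard k
      have hC0N : C0 / (Fintype.card (Ex (n + 1) k)) ≤ (n : ℝ) + 1 - c * k := by
        have h1 : C0 / (Fintype.card (Ex (n + 1) k) : ℝ) ≤
            (C0 + ∑ k ∈ Finset.range (8 * (n + 1)),
            ((n : ℝ) + 2) * (Fintype.card (Ex (n + 1) k) : ℝ)) /
            (Fintype.card (Ex (n + 1) k) : ℝ) :=
          div_le_div_of_nonneg_right (by linarith) hN.le
        linarith
      have hlt : c * k < (n : ℝ) + 1 := by
        have : 0 < C0 / (Fintype.card (Ex (n + 1) k) : ℝ) := div_pos hC0 hN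
        linarith
      obtain ⟨ep0, hep0, hbad⟩ := heq k c hk hc hC0N
      have hBfin := MainCone_B n k hn hk del hdel c hc hlt
      -- enlarge R
      have hsub : {X : Ex (n + 1) k → Pt (n + 1) | ∀ j, nsq (X j) ≤ R} ⊆
          {X : Ex (n + 1) k → Pt (n + 1) | ∀ j, nsq (X j) ≤ max R 0} :=
        fun X hX j => (hX j).trans (le_max_left _ _)
      refine lt_of_le_of_lt (lintegral_mono_set hsub) ?_
      have hR0 : 0 ≤ max R 0 := le_max_right _ _
      generalize max R 0 = R' at hR0
      set kap : ℝ := ∏ _j : Ex (n + 1) k,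
        ((R' + 1) ^ (-(((n : ℝ) + 1 - c * k) / 2)) * Real.exp (-R')) with hkap
      have hkpos : 0 < kap := Finset.prod_pos fun j _ => by positivity
      set B := ∫⁻ X, MainConeF n k del c X * ∏ j, ENNReal.ofReal
        (nsq (X j) ^ (-(((n : ℝ) + 1 - c * k) / 2)) * Real.exp (-nsq (X j))) with hBdef
      refine MainCone_limit n k c R' ((2 * B) / ENNReal.ofReal kap) ?_ (min ep0 1)
        (lt_min hep0 one_pos) ?_
      · exact ENNReal.div_lt_top (ENNReal.mul_lt_top (by norm_num) hBfin).ne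
          (by simpa using hkpos)
      · intro ep hep hlt'
        have h1 := MainCone_Z n k del c hc hlt ep hep (hbad ep hep (hlt'.trans_le (min_le_left _ _)))
        rw [ENNReal.le_div_iff_mul_le (Or.inl (by simpa using hkpos))
          (Or.inl ENNReal.ofReal_ne_top)]
        refine le_trans ?_ h1
        rw [← lintegral_mul_const' _ _ ENNReal.ofReal_ne_top,
          ← lintegral_indicator (MainCone_meas_set n k R')]
        refine lintegral_mono fun X => ?_
        by_cases hX : X ∈ {X : Ex (n + 1) k → Pt (n + 1) | ∀ j, nsq (X j) ≤ R'}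
        · rw [Set.indicator_of_mem hX]
          have hD := Dl_nonneg X
          rw [← ENNReal.ofReal_mul (by positivity)]
          refine ENNReal.ofReal_le_ofReal ?_
          exact MainCone_low n k c hlt R' hR0 ep hep (hlt'.le.trans (min_le_right _ _)) X hX
        · rw [Set.indicator_of_notMem hX]
          exact zero_le
    · -- small k: impossible
      exfalso
      push Not at hk
      have hN := hcard k
      have h1 : ((n : ℝ) + 2) * (Fintype.card (Ex (n + 1) k) : ℝ) ≤
          ∑ k ∈ Finset.range (8 * (n + 1)),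
            ((n : ℝ) + 2) * (Fintype.card (Ex (n + 1) k) : ℝ) :=
        Finset.single_le_sum (f := fun k => ((n : ℝ) + 2) * (Fintype.card (Ex (n + 1) k) : ℝ))
          (fun k _ => by positivity) (Finset.mem_range.2 hk)
      have h2 : (n : ℝ) + 2 ≤ (C0 + ∑ k ∈ Finset.range (8 * (n + 1)),
            ((n : ℝ) + 2) * (Fintype.card (Ex (n + 1) k) : ℝ)) /
            (Fintype.card (Ex (n + 1) k) : ℝ) := by
        rw [le_div_iff₀ hN]
        linarith
      linarith

end GPn
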