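/- piece FB: upper bound by scaling at the origin of the chart 0 -/
import Pool.Agent.Lib_MP_e0d435_ag.FDefs

open Finset MeasureTheory Complex
open scoped ENNReal ContDiff

namespace GPn

private theorem UpperBd_locEq (n k : ℕ) (x : Ex (n + 1) k → Fin n → ℂ) :
    locEq n k (fun _ => 0) x =
      (Matrix.of fun j a : Ex (n + 1) k => ∏ i : Fin n, x j i ^ a.1 i.succ).det := by
  unfold locEq detMon
  congr 1
  ext j a
  simp only [Matrix.of_apply, chart, Fin.prod_univ_succ, Fin.insertNth_zero', Fin.cons_zero,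
    Fin.cons_succ, one_pow, one_mul]

private noncomputable def UpperBd_d (n k : ℕ) : ℕ := ∑ a : Ex (n + 1) k, ∑ i : Fin n, a.1 i.succ

private theorem UpperBd_smul (n k : ℕ) (t : ℂ) (x : Ex (n + 1) k → Fin n → ℂ) :
    locEq n k (fun _ => 0) (t • x) = t ^ UpperBd_d n k * locEq n k (fun _ => 0) x := by
  rw [UpperBd_locEq, UpperBd_locEq, UpperBd_d, ← Finset.prod_pow_eq_pow_sum,
    ← Matrix.det_mul_row]
  congr 1
  ext j a
  simp only [Matrix.of_apply, Pi.smul_apply, smul_eq_mul, mul_pow, Finset.prod_mul_distrib]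
  rw [Finset.prod_pow_eq_pow_sum]

private theorem UpperBd_card (n k : ℕ) :
    (n + 1) * UpperBd_d n k = n * k * Fintype.card (Ex (n + 1) k) := by
  -- the sum of the exponents number i does not depend on i
  have hS : ∀ i : Fin (n + 1), ∑ a : Ex (n + 1) k, a.1 i = ∑ a : Ex (n + 1) k, a.1 0 := by
    intro i
    let φ : Ex (n + 1) k ≃ Ex (n + 1) k :=
      { toFun := fun a => ⟨fun j => a.1 (Equiv.swap 0 i j), by
          rw [Equiv.sum_comp (Equiv.swap 0 i) (fun j => a.1 j)]
          exact a.2⟩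
        invFun := fun a => ⟨fun j => a.1 (Equiv.swap 0 i j), by
          rw [Equiv.sum_comp (Equiv.swap 0 i) (fun j => a.1 j)]
          exact a.2⟩
        left_inv := fun a => Subtype.ext (by funext j; simp)
        right_inv := fun a => Subtype.ext (by funext j; simp) }
    have := Equiv.sum_comp φ (fun a => a.1 i)
    rw [← this]
    refine Finset.sum_congr rfl fun a _ => ?_
    show a.1 (Equiv.swap 0 i i) = a.1 0
    rw [Equiv.swap_apply_right]
  have hd : UpperBd_d n k = n * ∑ a : Ex (n + 1) k, a.1 0 := by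
    rw [UpperBd_d, Finset.sum_comm]
    rw [Finset.sum_congr rfl fun i _ => hS i.succ, Finset.sum_const, Finset.card_univ,
      Fintype.card_fin, smul_eq_mul]
  have hk : (n + 1) * ∑ a : Ex (n + 1) k, a.1 0 = k * Fintype.card (Ex (n + 1) k) := by
    have h1 : ∑ a : Ex (n + 1) k, ∑ i : Fin (n + 1), a.1 i =
        k * Fintype.card (Ex (n + 1) k) := by
      rw [Finset.sum_congr rfl fun a _ => a.2, Finset.sum_const, Finset.card_univ, smul_eq_mul,
        mul_comm]
    rw [← h1, Finset.sum_comm, Finset.sum_congr rfl fun i _ => hS i, Finset.sum_const,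
      Finset.card_univ, Fintype.card_fin, smul_eq_mul]
  rw [hd]
  calc (n + 1) * (n * ∑ a : Ex (n + 1) k, a.1 0)
      = n * ((n + 1) * ∑ a : Ex (n + 1) k, a.1 0) := by ring
    _ = n * k * Fintype.card (Ex (n + 1) k) := by rw [hk]; ring

private theorem UpperBd_exists (n k : ℕ) :
    ∃ x : Ex (n + 1) k → Fin n → ℂ, locEq n k (fun _ => 0) x ≠ 0 := by
  let N := Fintype.card (Ex (n + 1) k)
  let e : Ex (n + 1) k ≃ Fin N := Fintype.equivFin _
  let E : Ex (n + 1) k → ℕ := fun a => ∑ i : Fin n, a.1 i.succ * (k + 1) ^ (i : ℕ)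
  have hle : ∀ (a : Ex (n + 1) k) (i : Fin (n + 1)), a.1 i < k + 1 := by
    intro a i
    have h1 : a.1 i ≤ ∑ i, a.1 i := Finset.single_le_sum (fun _ _ => Nat.zero_le _) (mem_univ i)
    rw [a.2] at h1
    omega
  have hE : Function.Injective E := by
    intro a b hab
    let fa : Fin n → Fin (k + 1) := fun i => ⟨a.1 i.succ, hle a _⟩
    let fb : Fin n → Fin (k + 1) := fun i => ⟨b.1 i.succ, hle b _⟩
    have h1 : finFunctionFinEquiv fa = finFunctionFinEquiv fb := by
      apply Fin.ext
      rw [finFunctionFinEquiv_apply, finFunctionFinEquiv_apply]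
      exact hab
    have h2 : fa = fb := finFunctionFinEquiv.injective h1
    have h3 : ∀ i : Fin n, a.1 i.succ = b.1 i.succ := fun i =>
      congrArg Fin.val (congrFun h2 i)
    have h4 : a.1 0 = b.1 0 := by
      have ha := a.2
      have hb := b.2
      rw [Fin.sum_univ_succ] at ha hb
      rw [Finset.sum_congr rfl fun i _ => h3 i] at ha
      omega
    apply Subtype.ext
    funext i
    refine Fin.cases h4 h3 i
  refine ⟨fun j i => ((2 : ℂ) ^ ((k + 1) ^ (i : ℕ))) ^ (e j : ℕ), ?_⟩
  rw [UpperBd_locEq]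
  have h1 : (Matrix.of fun j a : Ex (n + 1) k => ∏ i : Fin n,
      (((2 : ℂ) ^ ((k + 1) ^ (i : ℕ))) ^ (e j : ℕ)) ^ a.1 i.succ) =
      Matrix.of fun j a : Ex (n + 1) k => ((2 : ℂ) ^ E a) ^ (e j : ℕ) := by
    ext j a
    simp only [Matrix.of_apply, E]
    rw [← Finset.prod_pow_eq_pow_sum, ← Finset.prod_pow]
    refine Finset.prod_congr rfl fun i _ => ?_
    rw [← pow_mul, ← pow_mul, ← pow_mul]
    congr 1
    ring
  rw [h1, ← Matrix.det_submatrix_equiv_self e.symm]
  have h2 : (Matrix.of fun j a : Ex (n + 1) k => ((2 : ℂ) ^ E a) ^ (e j : ℕ)).submatrix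
      e.symm e.symm = (Matrix.vandermonde fun i => (2 : ℂ) ^ E (e.symm i)).transpose := by
    ext i j
    simp [Matrix.vandermonde_apply]
  rw [h2, Matrix.det_transpose, Matrix.det_vandermonde_ne_zero_iff]
  intro i j hij
  have h3 : (2 : ℕ) ^ E (e.symm i) = 2 ^ E (e.symm j) := by
    have : ((2 : ℂ) ^ E (e.symm i)) = 2 ^ E (e.symm j) := hij
    exact_mod_cast this
  exact e.symm.injective (hE (Nat.pow_right_injective le_rfl h3))

private theorem UpperBd_cont (n k : ℕ) : Continuous (locEq n k (fun _ => 0)) := by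
  have : locEq n k (fun _ => 0) = fun x : Ex (n + 1) k → Fin n → ℂ =>
      (Matrix.of fun j a : Ex (n + 1) k => ∏ i : Fin n, x j i ^ a.1 i.succ).det := by
    funext x
    exact UpperBd_locEq n k x
  rw [this]
  refine Continuous.matrix_det ?_
  refine continuous_pi fun j => continuous_pi fun a => ?_
  simp only [Matrix.of_apply]
  fun_prop

theorem not_locallyIntegrable (n k : ℕ) (hn : 1 ≤ n) (hk : 1 ≤ k) (c : ℝ)
    (hc : (n : ℝ) + 1 ≤ c * k) :
    ¬ LocallyIntegrable (fun x : Ex (n + 1) k → Fin n → ℂ =>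
      ‖locEq n k (fun _ => 0) x‖ ^ (-(2 * c))) := by
  intro h
  have hm0 : (volume : Measure (Fin n → ℂ)).IsAddHaarMeasure := inferInstance
  have hm : (volume : Measure (Ex (n + 1) k → Fin n → ℂ)).IsAddHaarMeasure :=
    Measure.pi.isAddHaarMeasure _
  set f : (Ex (n + 1) k → Fin n → ℂ) → ℂ := locEq n k (fun _ => 0) with hf
  set g : (Ex (n + 1) k → Fin n → ℂ) → ℝ := fun x => ‖f x‖ ^ (-(2 * c)) with hg
  have hk0 : (0 : ℝ) < k := by exact_mod_cast hk
  have hn0 : (0 : ℝ) < n := by exact_mod_cast hn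
  have hc0 : 0 < c := by
    by_contra hcon
    push Not at hcon
    have : c * k ≤ 0 := mul_nonpos_of_nonpos_of_nonneg hcon hk0.le
    linarith
  set N := Fintype.card (Ex (n + 1) k) with hN
  set d := UpperBd_d n k with hd
  have hN0 : 0 < N := by
    rw [hN, Fintype.card_pos_iff]
    exact ⟨⟨fun i => if i = 0 then k else 0, by simp⟩⟩
  have hcard : ((n : ℝ) + 1) * d = n * k * N := by exact_mod_cast UpperBd_card n k
  have hd0 : 0 < d := by
    have h1 := UpperBd_card n k
    rw [← hd, ← hN] at h1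
    by_contra hcon
    have h2 : d = 0 := by omega
    rw [h2, mul_zero] at h1
    have : 0 < n * k * N := by positivity
    omega
  have hcd : (n : ℝ) * N ≤ c * d := by
    have h1 : ((n : ℝ) + 1) * (n * N) ≤ (n + 1) * (c * d) := by
      calc ((n : ℝ) + 1) * (n * N) ≤ (c * k) * (n * N) := by gcongr
        _ = c * (n * k * N) := by ring
        _ = (n + 1) * (c * d) := by rw [← hcard]; ring
    exact le_of_mul_le_mul_left h1 (by positivity)
  have hfin : Module.finrank ℝ (Ex (n + 1) k → Fin n → ℂ) = 2 * (n * N) := by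
    rw [Module.finrank_pi_fintype]
    simp only [Module.finrank_pi_fintype, Complex.finrank_real_complex, Finset.sum_const,
      Finset.card_univ, Fintype.card_fin, smul_eq_mul]
    rw [← hN]
    ring
  have hgn : ∀ x, 0 ≤ g x := fun x => Real.rpow_nonneg (norm_nonneg _) _
  -- homogeneity
  have hfs : ∀ (t : ℝ) x, f (t • x) = (t : ℂ) ^ d * f x := by
    intro t x
    have : t • x = (t : ℂ) • x := by
      ext j i
      simp
    rw [this]
    exact UpperBd_smul n k t x
  have hgs : ∀ (t : ℝ), 0 < t → ∀ x, g (t • x) = t ^ (-(2 * c * d)) * g x := by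
    intro t ht x
    simp only [hg]
    rw [hfs, norm_mul, norm_pow, Complex.norm_real, Real.norm_of_nonneg ht.le,
      Real.mul_rpow (by positivity) (norm_nonneg _), ← Real.rpow_natCast,
      ← Real.rpow_mul ht.le]
    congr 2
    ring
  have hf0 : f 0 = 0 := by
    have := hfs 0 0
    rw [smul_zero] at this
    rw [this, Complex.ofReal_zero, zero_pow hd0.ne', zero_mul]
  obtain ⟨s, hs, hint⟩ := h 0
  obtain ⟨r, hr, hrs⟩ := Metric.mem_nhds_iff.1 hs
  have hI : IntegrableOn g (Metric.ball 0 r) := hint.mono_set hrs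
  -- scaling
  have hscale : ∀ t : ℝ, 0 < t → t ≤ 1 →
      ∫ x in Metric.ball 0 r, g x ≤ ∫ x in Metric.ball 0 (t * r), g x := by
    intro t ht ht1
    have h1 := Measure.setIntegral_comp_smul_of_pos (volume : Measure (Ex (n + 1) k → Fin n → ℂ))
      g (Metric.ball 0 r) ht
    rw [smul_ball ht.ne', smul_zero, Real.norm_of_nonneg ht.le, hfin] at h1
    simp only [hgs t ht] at h1
    rw [integral_const_mul, smul_eq_mul] at h1
    have h2 : ∫ x in Metric.ball 0 (t * r), g x =
        (t ^ (2 * (n * N)) * t ^ (-(2 * c * d))) * ∫ x in Metric.ball 0 r, g x := by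
      have h3 : t ^ (2 * (n * N)) ≠ 0 := by positivity
      rw [mul_assoc, h1, ← mul_assoc, mul_inv_cancel₀ h3, one_mul]
    rw [h2]
    have h4 : 0 ≤ ∫ x in Metric.ball 0 r, g x := integral_nonneg hgn
    have h5 : 1 ≤ t ^ (2 * (n * N)) * t ^ (-(2 * c * d)) := by
      rw [← Real.rpow_natCast, ← Real.rpow_add ht]
      apply Real.one_le_rpow_of_pos_of_le_one_of_nonpos ht ht1
      push_cast
      nlinarith
    nlinarith
  -- the limit
  have hlim := tendsto_setIntegral_of_antitone (μ := volume) (f := g)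
    (s := fun i : ℕ => Metric.ball (0 : Ex (n + 1) k → Fin n → ℂ) ((1 / 2) ^ i * r))
    (fun i => Metric.isOpen_ball.measurableSet)
    (by
      intro i j hij
      apply Metric.ball_subset_ball
      apply mul_le_mul_of_nonneg_right _ hr.le
      exact pow_le_pow_of_le_one (by norm_num) (by norm_num) hij)
    ⟨0, by simpa using hI⟩
  have hzero : ∫ x in ⋂ i : ℕ, Metric.ball (0 : Ex (n + 1) k → Fin n → ℂ) ((1 / 2) ^ i * r), g x
      = 0 := by
    apply setIntegral_eq_zero_of_forall_eq_zero
    intro x hx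
    rw [Set.mem_iInter] at hx
    have hx0 : x = 0 := by
      rw [← norm_le_zero_iff]
      have h1 : Filter.Tendsto (fun i : ℕ => ((1 : ℝ) / 2) ^ i * r) Filter.atTop (nhds 0) := by
        have := (tendsto_pow_atTop_nhds_zero_of_lt_one (by norm_num : (0 : ℝ) ≤ 1 / 2)
          (by norm_num)).mul_const r
        rwa [zero_mul] at this
      refine ge_of_tendsto' h1 fun i => ?_
      have := hx i
      rw [mem_ball_zero_iff] at this
      exact this.le
    rw [hx0]
    simp only [hg]
    rw [hf0, norm_zero, Real.zero_rpow]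
    linarith
  rw [hzero] at hlim
  have hle0 : ∫ x in Metric.ball 0 r, g x ≤ 0 := by
    refine ge_of_tendsto' hlim fun i => ?_
    exact hscale _ (by positivity) (pow_le_one₀ (by norm_num) (by norm_num))
  -- positivity
  have hpos : 0 < ∫ x in Metric.ball 0 r, g x := by
    rw [setIntegral_pos_iff_support_of_nonneg_ae
      (Filter.Eventually.of_forall hgn) hI]
    have hopen : IsOpen ({x | f x ≠ 0} ∩ Metric.ball 0 r) :=
      (isOpen_ne_fun (UpperBd_cont n k) continuous_const).inter Metric.isOpen_ball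
    have hne : ({x | f x ≠ 0} ∩ Metric.ball 0 r).Nonempty := by
      obtain ⟨x, hx⟩ := UpperBd_exists n k
      have h1 : 0 < ‖x‖ + 1 := by positivity
      have ht : 0 < r / (‖x‖ + 1) := by positivity
      refine ⟨(r / (‖x‖ + 1)) • x, ?_, ?_⟩
      · show f _ ≠ 0
        rw [hfs]
        refine mul_ne_zero (pow_ne_zero _ ?_) hx
        exact_mod_cast ht.ne'
      · rw [mem_ball_zero_iff, norm_smul, Real.norm_of_nonneg ht.le, div_mul_eq_mul_div,
          div_lt_iff₀ h1]
        nlinarith
    refine lt_of_lt_of_le (hopen.measure_pos volume hne) (measure_mono ?_)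
    intro x hx
    refine ⟨?_, hx.2⟩
    have h1 : 0 < ‖f x‖ := norm_pos_iff.2 hx.1
    exact (Real.rpow_pos_of_pos h1 _).ne'
  linarith

end GPn
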