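/- piece FC: bounds for the lct and the limit -/
import Pool.Agent.Lib_MP_e0d435_ag.FDefs
import Pool.Agent.Lib_MP_e0d435_ag.MainCone
import Pool.Agent.Lib_MP_e0d435_ag.ChartCone
import Pool.Agent.Lib_MP_e0d435_ag.UpperBd

open Finset MeasureTheory Complex
open scoped ENNReal ContDiff

namespace GPn

/-- the set of exponents in the definition of the log canonical threshold -/
private def FinalSet (n k : ℕ) : Set ℝ :=
  {c : ℝ | 0 ≤ c ∧ ∀ i : Ex (n + 1) k → Fin (n + 1),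
    LocallyIntegrable (fun x : Ex (n + 1) k → Fin n → ℂ => ‖locEq n k i x‖ ^ (-(2 * c)))}

private theorem Final_zero_mem (n k : ℕ) : (0 : ℝ) ∈ FinalSet n k := by
  refine ⟨le_refl _, fun i => ?_⟩
  simp only [mul_zero, neg_zero, Real.rpow_zero]
  exact MeasureTheory.locallyIntegrable_const 1

private theorem Final_upper (n k : ℕ) (hn : 1 ≤ n) (hk : 1 ≤ k) (c : ℝ) (hc : c ∈ FinalSet n k) :
    c ≤ ((n : ℝ) + 1) / k := by
  have hk0 : (0 : ℝ) < k := by exact_mod_cast hk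
  rw [le_div_iff₀ hk0]
  by_contra hlt
  push Not at hlt
  exact not_locallyIntegrable n k hn hk c hlt.le (hc.2 fun _ => 0)

theorem lct_bounds (n : ℕ) (hn : 1 ≤ n) : ∃ C : ℝ, 0 < C ∧ ∀ k : ℕ, 1 ≤ k →
    (n : ℝ) + 1 - C / ((n + k).choose n : ℕ) ≤ k * lct n k ∧ k * lct n k ≤ (n : ℝ) + 1 := by
  obtain ⟨C, hC, hmain⟩ := main_cone n hn
  refine ⟨C, hC, fun k hk => ?_⟩
  have hk0 : (0 : ℝ) < k := by exact_mod_cast hk
  have hlct : lct n k = sSup (FinalSet n k) := rfl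
  have hbdd : BddAbove (FinalSet n k) :=
    ⟨((n : ℝ) + 1) / k, fun c hc => Final_upper n k hn hk c hc⟩
  have hne : (FinalSet n k).Nonempty := ⟨0, Final_zero_mem n k⟩
  constructor
  · rw [hlct]
    by_cases h0 : 0 ≤ (n : ℝ) + 1 - C / ((n + k).choose n : ℕ)
    · have hmem : ((n : ℝ) + 1 - C / ((n + k).choose n : ℕ)) / k ∈ FinalSet n k := by
        have hc0 : 0 ≤ ((n : ℝ) + 1 - C / ((n + k).choose n : ℕ)) / k := div_nonneg h0 hk0.le
        refine ⟨hc0, fun i => ?_⟩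
        refine chart_of_cone n k _ hc0 ?_ i
        refine hmain k _ hc0 ?_
        rw [card_Ex, div_mul_cancel₀ _ hk0.ne']
      have h1 := le_csSup hbdd hmem
      rw [div_le_iff₀ hk0] at h1
      linarith [mul_comm (k : ℝ) (sSup (FinalSet n k))]
    · push Not at h0
      have h1 := le_csSup hbdd (Final_zero_mem n k)
      have h2 : 0 ≤ (k : ℝ) * sSup (FinalSet n k) := mul_nonneg hk0.le h1
      linarith
  · rw [hlct]
    have h1 : sSup (FinalSet n k) ≤ ((n : ℝ) + 1) / k :=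
      csSup_le hne fun c hc => Final_upper n k hn hk c hc
    rw [le_div_iff₀ hk0] at h1
    linarith [mul_comm (k : ℝ) (sSup (FinalSet n k))]

private theorem Final_choose (n k : ℕ) (hn : 1 ≤ n) : k + 1 ≤ (n + k).choose n := by
  rw [Nat.choose_symm_add]
  calc k + 1 = (k + 1).choose k := by rw [Nat.choose_succ_self_right]
    _ ≤ (n + k).choose k := Nat.choose_le_choose k (by omega)

/-- gamma(P^n) = 1 -/
theorem gamma_eq_one (n : ℕ) (hn : 1 ≤ n) :
    Filter.Tendsto (fun m : ℕ => (m : ℝ) * lct n (m * (n + 1))) Filter.atTop (nhds 1) := by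
  obtain ⟨C, hC, hb⟩ := lct_bounds n hn
  have hn0 : (0 : ℝ) < (n : ℝ) + 1 := by positivity
  have hlow : Filter.Tendsto (fun m : ℕ => 1 - C / ((m : ℝ) + 1)) Filter.atTop (nhds 1) := by
    have h1 : Filter.Tendsto (fun m : ℕ => C / ((m : ℝ) + 1)) Filter.atTop (nhds 0) := by
      have h2 := (tendsto_one_div_add_atTop_nhds_zero_nat (𝕜 := ℝ)).const_mul C
      simpa [div_eq_mul_inv] using h2
    simpa using (tendsto_const_nhds (x := (1 : ℝ))).sub h1
  refine tendsto_of_tendsto_of_tendsto_of_le_of_le' hlow tendsto_const_nhds ?_ ?_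
  · filter_upwards [Filter.eventually_ge_atTop 1] with m hm
    have hk : 1 ≤ m * (n + 1) := Nat.mul_pos hm (Nat.succ_pos n)
    obtain ⟨h1, -⟩ := hb (m * (n + 1)) hk
    have h2 : ((m * (n + 1) : ℕ) : ℝ) = (m : ℝ) * ((n : ℝ) + 1) := by push_cast; ring
    rw [h2] at h1
    have h3 : (m : ℝ) + 1 ≤ (((n + m * (n + 1)).choose n : ℕ) : ℝ) := by
      have h4 := Final_choose n (m * (n + 1)) hn
      have h5 : m + 1 ≤ (n + m * (n + 1)).choose n := by nlinarith
      exact_mod_cast h5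
    have h4 : C / (((n + m * (n + 1)).choose n : ℕ) : ℝ) ≤ C / ((m : ℝ) + 1) :=
      div_le_div_of_nonneg_left hC.le (by positivity) h3
    have h5 : C / ((m : ℝ) + 1) ≤ C / ((m : ℝ) + 1) * ((n : ℝ) + 1) := by
      have : 0 ≤ C / ((m : ℝ) + 1) := by positivity
      nlinarith [this, (Nat.cast_nonneg n : (0 : ℝ) ≤ n)]
    have h6 : (1 - C / ((m : ℝ) + 1)) * ((n : ℝ) + 1) ≤
        ((m : ℝ) * lct n (m * (n + 1))) * ((n : ℝ) + 1) := by
      calc (1 - C / ((m : ℝ) + 1)) * ((n : ℝ) + 1)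
          = ((n : ℝ) + 1) - C / ((m : ℝ) + 1) * ((n : ℝ) + 1) := by ring
        _ ≤ ((n : ℝ) + 1) - C / (((n + m * (n + 1)).choose n : ℕ) : ℝ) := by linarith
        _ ≤ (m : ℝ) * ((n : ℝ) + 1) * lct n (m * (n + 1)) := h1
        _ = ((m : ℝ) * lct n (m * (n + 1))) * ((n : ℝ) + 1) := by ring
    exact le_of_mul_le_mul_right h6 hn0
  · filter_upwards [Filter.eventually_ge_atTop 1] with m hm
    have hk : 1 ≤ m * (n + 1) := Nat.mul_pos hm (Nat.succ_pos n)
    obtain ⟨-, h1⟩ := hb (m * (n + 1)) hk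
    have h2 : ((m * (n + 1) : ℕ) : ℝ) = (m : ℝ) * ((n : ℝ) + 1) := by push_cast; ring
    rw [h2] at h1
    have h6 : ((m : ℝ) * lct n (m * (n + 1))) * ((n : ℝ) + 1) ≤ 1 * ((n : ℝ) + 1) := by
      calc ((m : ℝ) * lct n (m * (n + 1))) * ((n : ℝ) + 1)
          = (m : ℝ) * ((n : ℝ) + 1) * lct n (m * (n + 1)) := by ring
        _ ≤ (n : ℝ) + 1 := h1
        _ = 1 * ((n : ℝ) + 1) := by ring
    exact le_of_mul_le_mul_right h6 hn0

end GPn
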